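import Pool.Agent.Lib.MP_fd3021_gt.Rf.ApxA

/-! Approximation of the atom at zero by finite quotients that separate a finite set. -/

namespace Pool.Agent.Lib.MP_fd3021_gt.Rf

open Matrix Filter

open MeasureTheory

variable {n : Type} [Fintype n] [DecidableEq n] {M : Matrix n n ℤ}

theorem apx_aux_trf (hM : Mᵀ = M) : trf (cm M) ind0 = Fintype.card n - ((cm M).rank : ℝ) := by
  have h : (cm M).IsHermitian := by
    rw [IsHermitian, conjTranspose_eq_transpose_of_trivial, ← cm_transpose, hM]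
  have e : ev (cm M) = h.eigenvalues := dif_pos h
  have h1 : trf (cm M) ind0 = Fintype.card {j // h.eigenvalues j = 0} := by
    simp only [trf, ind0, e, Finset.sum_boole, Fintype.card_subtype]
  have h2 := Fintype.card_subtype_compl fun j => h.eigenvalues j = 0
  have h3 := Fintype.card_subtype_le fun j => h.eigenvalues j = 0
  rw [h1, h.rank_eq_card_non_zero_eigs]
  change _ = _ - ((Fintype.card {j // ¬ h.eigenvalues j = 0} : ℕ) : ℝ)
  rw [h2, Nat.cast_sub h3]
  ring

omit [DecidableEq n] in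
theorem apx_aux_rank {κ : Type} [Fintype κ] (W : Matrix κ n ℤ)
    (h : ∀ x : κ → ℤ, x ᵥ* W = 0 → x = 0) : Fintype.card κ ≤ (cm W).rank := by
  classical
  have h1 : (W * Wᵀ).det ≠ 0 := by
    intro e
    obtain ⟨x, hx, hx'⟩ := Matrix.exists_vecMul_eq_zero_iff.2 e
    refine hx (h x (dotProduct_self_eq_zero.1 ?_))
    have h2 : (x ᵥ* (W * Wᵀ)) ⬝ᵥ x = 0 := by rw [hx', zero_dotProduct]
    rwa [← vecMul_vecMul, ← dotProduct_mulVec, mulVec_transpose] at h2
  have h2 : (cm W * (cm W)ᵀ).det ≠ 0 := by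
    rw [← cm_transpose, ← cm_mul]
    have h3 : ((W * Wᵀ).det : ℝ) = (cm (W * Wᵀ)).det := (Int.castRingHom ℝ).map_det (W * Wᵀ)
    rw [← h3]
    exact_mod_cast h1
  rw [← rank_of_isUnit _ ((isUnit_iff_isUnit_det _).2 (isUnit_iff_ne_zero.2 h2))]
  exact rank_mul_le_left _ _

theorem ker_ge (hM : Mᵀ = M) {κ : Type} [Fintype κ] (v : κ → n → ℤ)
    (hv : LinearIndependent ℤ v) (h : ∀ k, v k ᵥ* M = 0) :
    (Fintype.card κ : ℝ) ≤ trf (cm M) ind0 := by
  have h1 := apx_aux_rank (Matrix.of v) fun x hx => by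
    funext k
    refine Fintype.linearIndependent_iff.1 hv x ?_ k
    rw [← hx, vecMul_eq_sum]
    rfl
  have h2 : cm (Matrix.of v) * cm M = 0 := by
    rw [← cm_mul, ← cm_zero]
    congr 1
    ext k j
    exact congrFun (h k) j
  have h3 : (Fintype.card κ : ℝ) + (cm M).rank ≤ Fintype.card n := by
    exact_mod_cast (Nat.add_le_add_right h1 _).trans (rank_add_rank_le_card_of_mul_eq_zero h2)
  rw [apx_aux_trf hM]
  linarith

theorem ker_le' (hM : Mᵀ = M) (P : Finset n)
    (h : ∀ x : n → ℤ, (∀ i ∉ P, x i = 0) → x ᵥ* M = 0 → x = 0) :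
    trf (cm M) ind0 ≤ Fintype.card n - P.card := by
  have h1 := apx_aux_rank (M.submatrix (Subtype.val : P → n) id) fun x hx => by
    have h2 := h (fun i => if hi : i ∈ P then x ⟨i, hi⟩ else 0) (fun i hi => dif_neg hi) (by
      funext j
      refine Eq.trans ?_ (congrFun hx j)
      simp only [vecMul, dotProduct, submatrix_apply, id]
      rw [← Finset.sum_subset (Finset.subset_univ P) fun i _ hi => by rw [dif_neg hi, zero_mul],
        ← Finset.sum_coe_sort]
      exact Finset.sum_congr rfl fun i _ => by rw [dif_pos i.2])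
    funext i
    have h3 := congrFun h2 i
    rwa [dif_pos i.2] at h3
  have h2 : (cm (M.submatrix (Subtype.val : P → n) id)).rank ≤ (cm M).rank :=
    rank_submatrix_le (cm M) (Subtype.val : P → n) id
  have h3 : (P.card : ℝ) ≤ (cm M).rank := by
    rw [← Fintype.card_coe]
    exact_mod_cast h1.trans h2
  rw [apx_aux_trf hM]
  linarith

end Pool.Agent.Lib.MP_fd3021_gt.Rf
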