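import Pool.Agent.Lib.MP_fd3021_gt.Rf.Base
import Pool.Agent.Lib.MP_fd3021_gt.LC

/-! Approximation of the atom at zero by finite quotients that separate a finite set. -/

namespace Pool.Agent.Lib.MP_fd3021_gt.Rf

open Matrix Filter

open MeasureTheory

section

open Topology

variable {G I : Type} [Group G] [Fintype I] [DecidableEq I]
  {A : Matrix I I (MonoidAlgebra ℤ G)} {K : ℝ} {μ : Measure ℝ}

omit [DecidableEq I] in
theorem apxa_aux_trace (A : Matrix I I (MonoidAlgebra ℤ G)) : ∃ X : Finset G,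
    ∀ N : FiniteIndexNormalSubgroup G, Set.InjOn (mkQ N) X →
      (cm (rep N A)).trace = dg N * ∑ i, (((A i i).coeff 1 : ℤ) : ℝ) := by
  classical
  refine ⟨insert 1 (Finset.univ.biUnion fun i => (A i i).coeff.support), fun N hN => ?_⟩
  have h : ∀ (i : I) (q : QQ N), rep N A (i, q) (i, q) = (A i i).coeff 1 := by
    intro i q
    change Finsupp.mapDomain (mkQ N) (A i i).coeff (q⁻¹ * q) = _
    rw [inv_mul_cancel, ← map_one (mkQ N)]
    refine Finsupp.mapDomain_apply' _ _ (fun g hg => ?_) hN (by simp)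
    exact Finset.mem_coe.2 (Finset.mem_insert_of_mem
      (Finset.mem_biUnion.2 ⟨i, Finset.mem_univ _, hg⟩))
  simp only [Matrix.trace, Matrix.diag, cm, Fintype.sum_prod_type, h, Finset.sum_const,
    Finset.card_univ, nsmul_eq_mul, dg, Finset.mul_sum]

theorem apxa_aux_poly (hA : Good A K) (hμ : IsSpec A μ) (p : Polynomial ℝ) : ∃ X : Finset G,
    ∀ N : FiniteIndexNormalSubgroup G, Set.InjOn (mkQ N) X →
      trf (cm (rep N A)) (fun x => p.eval x) = dg N * ∫ x, p.eval x ∂μ := by
  classical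
  obtain ⟨hf, ⟨B, hB⟩, hm⟩ := hμ
  induction p using Polynomial.induction_on' with
  | add p q hp hq =>
    obtain ⟨X, hX⟩ := hp
    obtain ⟨Y, hY⟩ := hq
    refine ⟨X ∪ Y, fun N hN => ?_⟩
    have h1 := hX N (hN.mono (Finset.coe_subset.2 Finset.subset_union_left))
    have h2 := hY N (hN.mono (Finset.coe_subset.2 Finset.subset_union_right))
    simp only [Polynomial.eval_add]
    rw [integral_add (lspec_integrable hB p.continuous) (lspec_integrable hB q.continuous),
      mul_add, ← h1, ← h2]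
    simp only [trf, Finset.sum_add_distrib]
  | monomial k a =>
    obtain ⟨X, hX⟩ := apxa_aux_trace (A ^ k)
    refine ⟨X, fun N hN => ?_⟩
    have h1 := hX N hN
    rw [rep_pow, lspec_cm_pow, ← trf_pow (lspec_cm_symm (hA N).1)] at h1
    simp only [Polynomial.eval_monomial]
    rw [integral_const_mul, hm k, mul_left_comm, ← h1]
    simp only [trf, Finset.mul_sum]

theorem apxa_aux_cont (hA : Good A K) (hμ : IsSpec A μ) {ψ : ℝ → ℝ} (hψ : Continuous ψ) {ε : ℝ}
    (hε : 0 < ε) : ∃ X : Finset G, ∀ N : FiniteIndexNormalSubgroup G, Set.InjOn (mkQ N) X →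
      |trf (cm (rep N A)) ψ - dg N * ∫ x, ψ x ∂μ| ≤ ε * dg N := by
  have hpoly := apxa_aux_poly hA hμ
  obtain ⟨hf, ⟨B, hB⟩, -⟩ := hμ
  obtain ⟨c, hc⟩ : ∃ c : ℝ, c = Fintype.card I + μ.real Set.univ + 1 := ⟨_, rfl⟩
  have hc0 : 0 < c := by rw [hc]; positivity
  obtain ⟨p, hp⟩ := exists_polynomial_near_of_continuousOn 0 (max B K) ψ hψ.continuousOn
    (ε / c) (div_pos hε hc0)
  obtain ⟨X, hX⟩ := hpoly p
  refine ⟨X, fun N hN => ?_⟩
  have hd := dg_pos N
  have h1 : |trf (cm (rep N A)) ψ - trf (cm (rep N A)) (fun x => p.eval x)| ≤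
      ε / c * Fintype.card I * dg N := by
    rw [trf, trf, ← Finset.sum_sub_distrib]
    refine (Finset.abs_sum_le_sum_abs _ _).trans ?_
    refine (Finset.sum_le_card_nsmul _ _ (ε / c) fun i _ => ?_).trans (le_of_eq ?_)
    · rw [abs_sub_comm]
      have h := hA.ev_mem N i
      exact (hp _ ⟨h.1, h.2.trans (le_max_right _ _)⟩).le
    · simp only [Finset.card_univ, Fintype.card_prod, nsmul_eq_mul, dg]
      push_cast
      ring
  have h2 : |∫ x, p.eval x ∂μ - ∫ x, ψ x ∂μ| ≤ ε / c * μ.real Set.univ := by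
    rw [← integral_sub (lspec_integrable hB p.continuous) (lspec_integrable hB hψ),
      ← Real.norm_eq_abs]
    refine norm_integral_le_of_norm_le_const ?_
    have hB' : ∀ᵐ x ∂μ, x ∈ Set.Icc 0 B := hB
    filter_upwards [hB'] with x hx
    exact (hp x ⟨hx.1, hx.2.trans (le_max_left _ _)⟩).le
  have h3 : ε / c * Fintype.card I + ε / c * μ.real Set.univ ≤ ε := by
    have h4 : ε / c * c = ε := div_mul_cancel₀ _ hc0.ne'
    have h5 : 0 < ε / c := div_pos hε hc0
    have h6 : ε / c * (Fintype.card I + μ.real Set.univ + 1) = ε := by rw [← hc]; exact h4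
    linarith
  have h7 : |dg N * ∫ x, p.eval x ∂μ - dg N * ∫ x, ψ x ∂μ| ≤ ε / c * μ.real Set.univ * dg N := by
    rw [← mul_sub, abs_mul, abs_of_pos hd, mul_comm]
    exact mul_le_mul_of_nonneg_right h2 hd.le
  rw [hX N hN] at h1
  refine ((abs_sub_le _ _ _).trans (add_le_add h1 h7)).trans ?_
  rw [← add_mul]
  exact mul_le_mul_of_nonneg_right h3 hd.le

theorem apxa_aux_bd (T x : ℝ) : ‖max 0 (1 - |x| / Real.exp (-T))‖ ≤ 1 := by
  rw [Real.norm_of_nonneg (le_max_left _ _)]
  exact max_le zero_le_one (sub_le_self _ (by positivity))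

theorem apxa_aux_lim (μ : Measure ℝ) [IsFiniteMeasure μ] :
    Tendsto (fun T : ℝ => ∫ x, max 0 (1 - |x| / Real.exp (-T)) ∂μ) atTop (𝓝 (μ.real {0})) := by
  rw [← integral_indicator_one (measurableSet_singleton 0)]
  refine tendsto_integral_filter_of_dominated_convergence (fun _ => 1)
    (Eventually.of_forall fun T => Continuous.aestronglyMeasurable (by fun_prop))
    (Eventually.of_forall fun T => Eventually.of_forall (apxa_aux_bd T)) (integrable_const 1)
    (Eventually.of_forall fun x => ?_)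
  by_cases hx : x = 0
  · simp [hx]
  · have h0 : 0 < |x| := abs_pos.2 hx
    have h1 : ({0} : Set ℝ).indicator (1 : ℝ → ℝ) x = 0 := by simp [hx]
    rw [h1]
    refine tendsto_const_nhds.congr' ?_
    filter_upwards [Real.tendsto_exp_neg_atTop_nhds_zero.eventually (gt_mem_nhds h0)] with T hT
    have e : 1 ≤ |x| / Real.exp (-T) := (one_le_div (Real.exp_pos _)).2 hT.le
    exact (max_eq_left (by linarith)).symm

end

theorem ker_approx {G I : Type} [Group G] [Group.ResiduallyFinite G] [Fintype I] [DecidableEq I]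
    {A : Matrix I I (MonoidAlgebra ℤ G)} {K : ℝ} {μ : Measure ℝ} (hA : Good A K)
    (hμ : IsSpec A μ) {ε : ℝ} (hε : 0 < ε) : ∃ X : Finset G,
      ∀ N : FiniteIndexNormalSubgroup G, Set.InjOn (mkQ N) X →
        |trf (cm (rep N A)) ind0 - μ.real {0} * dg N| ≤ ε * dg N := by
  obtain ⟨L, L0, hL⟩ := trf_neg_log_le hA
  have := hμ.1
  have e2 : 0 < ε / 2 := by positivity
  obtain ⟨T, hT1, hT2⟩ := (((apxa_aux_lim μ).eventually
    (gt_mem_nhds (lt_add_of_pos_right _ e2))).and (eventually_ge_atTop (2 * (L + 1) / ε))).exists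
  have T0 : 0 < T := lt_of_lt_of_le (by positivity) hT2
  have T1 : L / T ≤ ε / 2 := by
    rw [div_le_iff₀ hε] at hT2
    rw [div_le_iff₀ T0]
    linarith
  have hc : Continuous fun x : ℝ => max 0 (1 - |x| / Real.exp (-T)) := by fun_prop
  have h2 : μ.real {0} ≤ ∫ x, max 0 (1 - |x| / Real.exp (-T)) ∂μ := by
    rw [← integral_indicator_one (measurableSet_singleton 0)]
    refine integral_mono ((integrable_const 1).indicator (measurableSet_singleton 0))
      (Integrable.of_bound hc.aestronglyMeasurable 1 (Eventually.of_forall (apxa_aux_bd T)))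
      fun x => ?_
    by_cases hx : x = 0
    · simp [hx]
    · simp [hx]
  obtain ⟨X, hX⟩ := apxa_aux_cont hA hμ hc e2
  refine ⟨X, fun N hN => ?_⟩
  obtain ⟨h3, h4⟩ := abs_le.1 (hX N hN)
  have hd := dg_pos N
  have h5 : trf (cm (rep N A)) ind0 ≤
      trf (cm (rep N A)) fun x => max 0 (1 - |x| / Real.exp (-T)) := by
    refine Finset.sum_le_sum fun i _ => ?_
    unfold ind0
    split_ifs with h
    · simp [h]
    · exact le_max_left _ _
  have h6 : (trf (cm (rep N A)) fun x => max 0 (1 - |x| / Real.exp (-T))) ≤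
      trf (cm (rep N A)) ind0 + L / T * dg N := by
    refine (Finset.sum_le_sum fun i _ => ldet_bump T0 (hA.ev_mem N i).1).trans ?_
    rw [Finset.sum_add_distrib, ← Finset.sum_div, div_mul_eq_mul_div L]
    exact add_le_add le_rfl (div_le_div_of_nonneg_right (hL N) T0.le)
  have h7 := mul_le_mul_of_nonneg_left hT1.le hd.le
  have h8 := mul_le_mul_of_nonneg_left h2 hd.le
  have h9 := mul_le_mul_of_nonneg_right T1 hd.le
  exact abs_le.2 ⟨by linarith, by linarith⟩

end Pool.Agent.Lib.MP_fd3021_gt.Rf
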