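import Pool.Agent.Lib.MP_fd3021_gt.Rf.BarA

/-! Derivations and the first homology with induced coefficients. -/

namespace Pool.Agent.Lib.MP_fd3021_gt.Rf

open Matrix Filter

variable {G D : Type} [Group G] [DivisionRing D] {ι : G →* D} {N K : Subgroup G}

theorem bar_aux_r (K : Subgroup G) :
    ∃ r : G → G, (∀ g, r g ∈ K) ∧ ∀ k ∈ K, ∀ g, r (k * g) = k * r g := by
  refine ⟨fun g => g * ((Quotient.mk (QuotientGroup.rightRel K) g).out)⁻¹, fun g => ?_,
    fun k hk g => ?_⟩
  · have h := Quotient.mk_out (s := QuotientGroup.rightRel K) g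
    exact QuotientGroup.rightRel_apply.1 h
  · have h : Quotient.mk (QuotientGroup.rightRel K) (k * g) =
        Quotient.mk (QuotientGroup.rightRel K) g := by
      apply Quotient.sound
      apply QuotientGroup.rightRel_apply.2
      simpa using K.inv_mem hk
    simp only [h, mul_assoc]

theorem bar_aux_mem {d : D} (hd : d ∈ dcl ι K) : d ∈ Sp ι K Set.univ := by
  have := Sp_smul hd (mem_Sp (ι := ι) (M := K) (Set.mem_univ (1 : G)))
  simpa using this

theorem bar_aux_single {d : D} (hd : d ∈ dcl ι K) (k g : G) :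
    (Finsupp.single k d : G →₀ D) g ∈ Sp ι K Set.univ := by
  classical
  rw [Finsupp.single_apply]
  split_ifs
  · exact bar_aux_mem hd
  · exact Submodule.zero_mem _

theorem der_of_acy (hI : Ind ι N) (hK : N ≤ K) [K.Normal] (h : Acy ι K) : Der ι K := by
  intro δ hδ
  obtain ⟨r, hr, hrk⟩ := bar_aux_r K
  have hβ : ∀ k ∈ K, ∀ g, δ (r (k * g)) = δ k + ι k * δ (r g) := fun k hk g => by
    rw [hrk k hk g, hδ k hk _ (hr g)]
  have hL : ∀ g : G, ∃ L : D →ₗ[dcl ι K] D, ∀ c, L (ι c) = δ (r (c * g)) - δ (r c) := by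
    intro g
    refine exists_lin hI hK (fun c => δ (r (c * g)) - δ (r c)) fun k hk c => ?_
    simp only [mul_assoc, hβ k hk, mul_sub]
    abel
  choose L hL using hL
  have hLd : ∀ g, ∀ d ∈ dcl ι K, ∀ c, L g (d * ι c) = d * (δ (r (c * g)) - δ (r c)) := by
    intro g d hd c
    have := (L g).map_smul (⟨d, hd⟩ : dcl ι K) (ι c)
    rw [hL] at this
    exact this
  let Λ : (G →₀ D) →+ D := Finsupp.liftAddHom fun g => (L g).toAddMonoidHom
  have hΛ : ∀ g d, Λ (Finsupp.single g d) = L g d := fun g d => by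
    simp [Λ]
  have hRel : ∀ x ∈ Rel ι K, Λ x = 0 := by
    intro x hx
    have : Rel ι K ≤ Λ.ker := by
      unfold Rel
      rw [AddSubgroup.closure_le]
      rintro y ⟨g, g', s, hs, rfl⟩
      simp only [SetLike.mem_coe, AddMonoidHom.mem_ker, map_sub, hΛ]
      refine Sp_ind (C := fun s => L (g * g') s - L g s - L g' (s * ι g) = 0) ?_ ?_ ?_ hs
      · simp
      · intro a b ha hb
        simp only [add_mul, map_add]
        rw [← add_zero (0 : D)]
        nth_rewrite 1 [← ha]
        rw [← hb]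
        abel
      · intro d hd c _
        rw [mul_assoc, ← map_mul, hLd _ d hd, hLd _ d hd, hLd _ d hd, mul_assoc c]
        simp only [mul_sub]
        abel
    exact this hx
  have hL1 : ∀ k ∈ K, ∀ d ∈ dcl ι K, L k d = d * (δ k + (ι k - 1) * δ (r 1)) := by
    intro k hk d hd
    have h1 := hLd k d hd 1
    have h2 := hβ k hk 1
    rw [mul_one] at h2
    rw [map_one, mul_one, one_mul, h2] at h1
    rw [h1, sub_mul, one_mul, add_sub_assoc]
  have hone : ∀ k ∈ K, ι k = 1 → δ k = 0 := by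
    intro k hk h1
    have hx := h (Finsupp.single k 1) (bar_aux_single (Subfield.one_mem _) k)
      (by rw [bdry_single, h1]; simp)
    have := hRel _ hx
    rw [hΛ, hL1 k hk 1 (Subfield.one_mem _), h1] at this
    simpa using this
  by_cases hex : ∃ k0 ∈ K, ι k0 ≠ 1
  · obtain ⟨k0, hk0, hne⟩ := hex
    have hinv : ∀ k ∈ K, (ι k - 1)⁻¹ ∈ dcl ι K := fun k hk =>
      Subfield.inv_mem _ (Subfield.sub_mem _ (iota_mem hk) (Subfield.one_mem _))
    refine ⟨(ι k0 - 1)⁻¹ * (δ k0 + (ι k0 - 1) * δ (r 1)) - δ (r 1), fun k hk => ?_⟩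
    by_cases h1 : ι k = 1
    · rw [hone k hk h1, h1]; simp
    have hk1 : ι k - 1 ≠ 0 := sub_ne_zero.2 h1
    have hk2 : ι k0 - 1 ≠ 0 := sub_ne_zero.2 hne
    have hx := h (Finsupp.single k (ι k - 1)⁻¹ + Finsupp.single k0 (-(ι k0 - 1)⁻¹))
      (fun g => by
        rw [Finsupp.add_apply]
        exact Submodule.add_mem _ (bar_aux_single (hinv k hk) k g)
          (bar_aux_single (Subfield.neg_mem _ (hinv k0 hk0)) k0 g))
      (by
        rw [bdry_add, bdry_single, bdry_single, neg_mul, inv_mul_cancel₀ hk1,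
          inv_mul_cancel₀ hk2, add_neg_cancel])
    have h2 := hRel _ hx
    rw [map_add, hΛ, hΛ, hL1 k hk _ (hinv k hk), hL1 k0 hk0 _ (Subfield.neg_mem _ (hinv k0 hk0)),
      neg_mul, add_neg_eq_zero] at h2
    rw [← h2, mul_sub, ← mul_assoc, mul_inv_cancel₀ hk1, one_mul, add_sub_cancel_right]
  · push Not at hex
    exact ⟨0, fun k hk => by rw [hone k hk (hex k hk), mul_zero]⟩

theorem der_fi {S : Stage G} (c : Ctx S ι) (h : Der ι ⊤) : Der ι S.A := by
  have h1 : Acy ι ⊤ := acy_of_der c.ind le_top h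
  refine der_of_acy c.ind S.le fun x _ hx => ?_
  have h2 := h1 x (fun g => Sp_mono' le_top (c.top (x g))) hx
  have h3 : Rel ι ⊤ ≤ Rel ι S.A := by
    unfold Rel
    apply AddSubgroup.closure_mono
    rintro y ⟨g, g', s, _, rfl⟩
    exact ⟨g, g', s, c.top s, rfl⟩
  exact h3 h2

end Pool.Agent.Lib.MP_fd3021_gt.Rf
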