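import Pool.Agent.Lib.MP_fd3021_gt.Rf.Supp

/-! Derivations and the first homology with induced coefficients. -/

namespace Pool.Agent.Lib.MP_fd3021_gt.Rf

open Matrix Filter

variable {G D : Type} [Group G] [DivisionRing D] {ι : G →* D} {N K : Subgroup G}

theorem bdry_add (x y : G →₀ D) : bdry ι (x + y) = bdry ι x + bdry ι y := by
  unfold bdry
  exact Finsupp.sum_add_index' (fun _ => zero_mul _) fun _ _ _ => add_mul _ _ _

theorem bdry_single (g : G) (d : D) : bdry ι (Finsupp.single g d) = d * (ι g - 1) := by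
  unfold bdry
  exact Finsupp.sum_single_index (zero_mul _)

/-- the boundary as an additive map -/
noncomputable def barA_aux_hom (ι : G →* D) : (G →₀ D) →+ D :=
  AddMonoidHom.mk' (bdry ι) bdry_add

theorem barA_aux_hom_apply (x : G →₀ D) : barA_aux_hom ι x = bdry ι x := rfl

theorem bdry_smul (d : D) (x : G →₀ D) : bdry ι (d • x) = d * bdry ι x := by
  induction x using Finsupp.induction_linear with
  | zero =>
    rw [smul_zero, ← barA_aux_hom_apply, map_zero, mul_zero]
  | add x y hx hy => rw [smul_add, bdry_add, bdry_add, hx, hy, mul_add]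
  | single g r => rw [Finsupp.smul_single, bdry_single, bdry_single, smul_eq_mul, mul_assoc]

theorem bdry_rel {x : G →₀ D} (hx : x ∈ Rel ι K) : bdry ι x = 0 := by
  have h : Rel ι K ≤ (barA_aux_hom ι).ker := by
    refine (AddSubgroup.closure_le _).2 ?_
    rintro _ ⟨g, h, r, -, rfl⟩
    rw [SetLike.mem_coe, AddMonoidHom.mem_ker, map_sub, map_sub]
    simp only [barA_aux_hom_apply, bdry_single, map_mul]
    noncomm_ring
  exact h hx

theorem barA_aux_gen (g h : G) {r : D} (hr : r ∈ Sp ι K Set.univ) :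
    Finsupp.single (g * h) r - Finsupp.single g r - Finsupp.single h (r * ι g) ∈ Rel ι K :=
  AddSubgroup.subset_closure ⟨g, h, r, hr, rfl⟩

theorem barA_aux_smul {d : D} (hd : ∀ r ∈ Sp ι K Set.univ, d * r ∈ Sp ι K Set.univ) {x : G →₀ D}
    (hx : x ∈ Rel ι K) : d • x ∈ Rel ι K := by
  induction hx using AddSubgroup.closure_induction with
  | mem y hy =>
    obtain ⟨g, h, r, hr, rfl⟩ := hy
    have := barA_aux_gen g h (hd r hr)
    simpa only [smul_sub, Finsupp.smul_single, smul_eq_mul, mul_assoc] using this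
  | zero => rw [smul_zero]; exact zero_mem _
  | add a b _ _ ha hb => rw [smul_add]; exact add_mem ha hb
  | neg a _ ha => rw [smul_neg]; exact neg_mem ha

theorem Rel_smul [K.Normal] {d : D} (hd : d ∈ Sp ι K Set.univ) {x : G →₀ D} (hx : x ∈ Rel ι K) :
    d • x ∈ Rel ι K :=
  barA_aux_smul (fun _ hr => Sp_mul (fun _ _ _ _ => Set.mem_univ _) hd hr) hx

theorem Rel_mono (h : N ≤ K) {x : G →₀ D} (hx : x ∈ Rel ι N) : x ∈ Rel ι K := by
  refine AddSubgroup.closure_mono ?_ hx
  rintro _ ⟨g, k, r, hr, rfl⟩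
  exact ⟨g, k, r, Sp_mono' h hr, rfl⟩

/-- the boundaries as a module over the division closure -/
noncomputable def barA_aux_sub (ι : G →* D) (K : Subgroup G) : Submodule (dcl ι K) (G →₀ D) where
  carrier := Rel ι K
  add_mem' := fun ha hb => add_mem ha hb
  zero_mem' := zero_mem _
  smul_mem' := fun d _ hx => barA_aux_smul (d := (d : D)) (fun _ hr => Sp_smul d.2 hr) hx

theorem acy_of_der (hI : Ind ι N) (hK : N ≤ K) [K.Normal] (h : Der ι K) : Acy ι K := by
  classical
  intro x hx hb
  by_contra hn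
  obtain ⟨u, hu0, hu1⟩ := LinearMap.exists_extend_of_notMem
    (0 : barA_aux_sub ι K →ₗ[dcl ι K] D) (v := x) hn (1 : D)
  have hu : ∀ y ∈ Rel ι K, u y = 0 := fun y hy => LinearMap.congr_fun hu0 ⟨y, hy⟩
  have h1 : (1 : D) ∈ Sp ι K Set.univ := by
    have := mem_Sp (ι := ι) (M := K) (Set.mem_univ (1 : G))
    rwa [map_one] at this
  have hs : ∀ e ∈ dcl ι K, ∀ (g : G) (r : D),
      u (Finsupp.single g (e * r)) = e * u (Finsupp.single g r) := fun e he g r => by
    have := u.map_smul ⟨e, he⟩ (Finsupp.single g r)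
    rw [Finsupp.smul_single] at this
    exact this
  have hr : ∀ g k : G, u (Finsupp.single (g * k) 1) =
      u (Finsupp.single g 1) + u (Finsupp.single k (ι g)) := fun g k => by
    have := hu _ (barA_aux_gen g k h1)
    rw [map_sub, map_sub, one_mul, sub_sub, sub_eq_zero] at this
    exact this
  obtain ⟨d, hd⟩ := h (fun k => u (Finsupp.single k 1)) fun g hg k _ => by
    rw [hr, ← hs _ (iota_mem hg), mul_one]
  obtain ⟨L, hL⟩ := exists_lin hI hK (fun c => u (Finsupp.single c 1) - (ι c - 1) * d)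
    fun k hk c => by
      rw [hr, hd k hk, mul_sub (ι k), ← hs _ (iota_mem hk), mul_one, map_mul]
      noncomm_ring
  have hLs : ∀ e ∈ dcl ι K, ∀ r : D, L (e * r) = e * L r := fun e he r => L.map_smul ⟨e, he⟩ r
  have key : ∀ (g : G), ∀ r ∈ Sp ι K Set.univ,
      u (Finsupp.single g r) - r * (ι g - 1) * d = L (r * (ι g - 1)) := fun g r hr' => by
    refine Sp_ind (C := fun r => u (Finsupp.single g r) - r * (ι g - 1) * d = L (r * (ι g - 1)))
      (by simp) (fun a b ha hb => ?_) (fun e he c _ => ?_) hr'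
    · rw [Finsupp.single_add, map_add, add_mul, map_add, ← ha, ← hb]
      noncomm_ring
    · rw [hs e he, mul_assoc e, hLs e he, mul_sub (ι c), mul_one, map_sub, ← map_mul, hL, hL, hr,
        map_mul]
      noncomm_ring
  have fin : u x - bdry ι x * d = L (bdry ι x) := by
    have hx' : u x = ∑ g ∈ x.support, u (Finsupp.single g (x g)) := by
      rw [← map_sum]
      exact congrArg u x.sum_single.symm
    rw [hx', bdry, Finsupp.sum, map_sum, Finset.sum_mul, ← Finset.sum_sub_distrib]
    exact Finset.sum_congr rfl fun g _ => key g _ (hx g)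
  rw [hb, hu1, zero_mul, sub_zero, map_zero] at fin
  exact one_ne_zero fin

end Pool.Agent.Lib.MP_fd3021_gt.Rf
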