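import Pool.Agent.Lib.MP_fd3021_gt.Rf.Defs

/-! Internal definitions: stages of a tower, spans in a division ring, filtrations. -/

namespace Pool.Agent.Lib.MP_fd3021_gt.Rf

open Matrix Filter

/-- height functions: invariant under `N`, and left translation by `A` adds a constant -/
def IsV {G : Type} [Group G] (A N : Subgroup G) (f : G → ℤ) : Prop :=
  (∀ n ∈ N, ∀ g, f (n * g) = f g) ∧ ∀ a ∈ A, ∀ g, f (a * g) = f a - f 1 + f g

/-- one stage: `N ≤ A ≤ G`, `A / N` inside `ℤ ^ r`, `P` the positive cone of a right invariant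
order on `G / N` that is invariant under conjugation by `A` -/
structure Stage (G : Type) [Group G] where
  A : Subgroup G
  N : Subgroup G
  P : Set G
  nA : A.Normal
  nN : N.Normal
  fi : A.FiniteIndex
  le : N ≤ A
  comm : ∀ a ∈ A, ∀ b ∈ A, a * b * a⁻¹ * b⁻¹ ∈ N
  mul : ∀ p ∈ P, ∀ q ∈ P, p * q ∈ P
  tri : ∀ g, g ∈ P ∨ g ∈ N ∨ g⁻¹ ∈ P
  disj : ∀ g ∈ P, g ∉ N
  sat : ∀ n ∈ N, ∀ p ∈ P, n * p ∈ P
  conj : ∀ a ∈ A, ∀ p ∈ P, a * p * a⁻¹ ∈ P
  lat : ∃ (r : ℕ) (θ : A →* Multiplicative (Fin r → ℤ)), ∀ a : A, θ a = 1 ↔ (a : G) ∈ N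
  real : ∀ T : Finset (G × G), (∀ x ∈ T, x.2 * x.1⁻¹ ∈ P) →
    ∃ f, IsV A N f ∧ ∀ x ∈ T, f x.1 < f x.2

/-- a tower of stages -/
structure Tw (G : Type) [Group G] where
  st : ℕ → Stage G
  antiA : ∀ {i j}, i ≤ j → (st j).A ≤ (st i).A
  antiN : ∀ {i j}, i ≤ j → (st j).N ≤ (st i).N
  monoP : ∀ {i j}, i ≤ j → (st i).P ⊆ (st j).P
  sep : ∀ g : G, g ≠ 1 → ∃ j, g ∉ (st j).A

variable {G D : Type} [Group G] [DivisionRing D]

/-- the order of a stage -/
def Stage.lex (S : Stage G) (g h : G) : Prop := h * g⁻¹ ∈ S.P ∨ h * g⁻¹ ∈ S.N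

/-- `p` holds for all height functions that respect finitely many inequalities of the order -/
def Stage.Ev (S : Stage G) (p : (G → ℤ) → Prop) : Prop :=
  ∃ T : Finset (G × G), (∀ x ∈ T, x.2 * x.1⁻¹ ∈ S.P) ∧
    ∀ f, IsV S.A S.N f → (∀ x ∈ T, f x.1 < f x.2) → p f

/-- the division closure of a subgroup -/
def dcl (ι : G →* D) (M : Subgroup G) : Subfield D := Subfield.closure (ι '' (M : Set G))

/-- the left span of `P` over the division closure of `M` -/
def Sp (ι : G →* D) (M : Subgroup G) (P : Set G) : Submodule (dcl ι M) D :=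
  Submodule.span (dcl ι M) (ι '' P)

/-- the rational span of `P` -/
def Qs [CharZero D] (ι : G →* D) (P : Set G) : Submodule ℚ D := Submodule.span ℚ (ι '' P)

/-- distinct right cosets of any `M ≥ N` are independent over the division closure of `M` -/
def Ind (ι : G →* D) (N : Subgroup G) : Prop :=
  ∀ M : Subgroup G, N ≤ M → ∀ T : Set G, (∀ a ∈ T, ∀ b ∈ T, a * b⁻¹ ∈ M → a = b) →
    LinearIndepOn (dcl ι M) ι T

/-- the standing assumptions at one stage -/
structure Ctx (S : Stage G) (ι : G →* D) : Prop where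
  ind : Ind ι S.N
  top : ∀ u : D, u ∈ Sp ι S.A Set.univ

/-- total preorders compatible with left multiplication by `A` -/
structure IsHt (S : Stage G) (le : G → G → Prop) : Prop where
  total : ∀ g h, le g h ∨ le h g
  trans : ∀ {g h k}, le g h → le h k → le g k
  sat : ∀ n ∈ S.N, ∀ g, le (n * g) g ∧ le g (n * g)
  mono : ∀ a ∈ S.A, ∀ a' ∈ S.A, ∀ g g', le a a' → le g g' → le (a * g) (a' * g')
  strict : ∀ a ∈ S.A, ∀ a' ∈ S.A, ∀ g g', le a a' → le g g' → le (a' * g') (a * g) →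
    le a' a ∧ le g' g

/-- upward closed sets -/
def Up (le : G → G → Prop) (U : Set G) : Prop := ∀ g ∈ U, ∀ h, le g h → h ∈ U

/-- `s` is supported on `A` with leading position `z` -/
def Lead (S : Stage G) (ι : G →* D) (le : G → G → Prop) (s : D) (z : G) : Prop :=
  z ∈ S.A ∧ s ∈ Sp ι S.N {a | a ∈ S.A ∧ le z a} ∧ s ∉ Sp ι S.N {a | ¬ le a z}

/-- the elements of `D` whose expansion is supported on `U` -/
def Fil (S : Stage G) (ι : G →* D) (le : G → G → Prop) (U : Set G) : Set D :=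
  {u | ∃ s z, Lead S ι le s z ∧ s * u ∈ Sp ι S.N {h | z⁻¹ * h ∈ U}}

/-- the filtration of a height function -/
def FT (S : Stage G) (ι : G →* D) (f : G → ℤ) (T : ℤ) : Set D :=
  Fil S ι (fun g h => f g ≤ f h) {h | T ≤ f h}

/-- all translates of `x` are limits of elements of the rational group ring -/
def App [CharZero D] (S : Stage G) (ι : G →* D) (f : G → ℤ) (x : D) : Prop :=
  ∀ (q : G) (T : ℤ), ∃ a ∈ Qs ι Set.univ, ι q * x - a ∈ FT S ι f T

/-- the ring map on the integral group ring -/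
noncomputable def zi (ι : G →* D) : MonoidAlgebra ℤ G →+* D :=
  (MonoidAlgebra.lift ℤ D G ι).toRingHom

/-- change of group -/
noncomputable abbrev md {K : Type} [Group K] (j : K →* G) :
    MonoidAlgebra ℤ K →+* MonoidAlgebra ℤ G := MonoidAlgebra.mapDomainRingHom ℤ j

/-- exactness in degree one after base change along `ρ` -/
def DEx {R E J : Type} [Ring R] [Ring E] [Fintype J] (ρ : R →+* E) (dj : J → ℤ)
    (b : Matrix J J R) : Prop :=
  ∀ x : J → E, (∀ i, dj i ≠ 1 → x i = 0) → x ᵥ* b.map ρ = 0 → ∃ y, y ᵥ* b.map ρ = x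

/-- every derivation on `K` is inner -/
def Der (ι : G →* D) (K : Subgroup G) : Prop :=
  ∀ δ : G → D, (∀ g ∈ K, ∀ h ∈ K, δ (g * h) = δ g + ι g * δ h) →
    ∃ d : D, ∀ g ∈ K, δ g = (ι g - 1) * d

/-- boundary of a one chain of the bar complex -/
noncomputable def bdry (ι : G →* D) (x : G →₀ D) : D := x.sum fun g d => d * (ι g - 1)

/-- boundaries of two chains with coefficients in the span over the closure of `M` -/
noncomputable def Rel (ι : G →* D) (M : Subgroup G) : AddSubgroup (G →₀ D) :=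
  AddSubgroup.closure {y | ∃ (g h : G) (r : D), r ∈ Sp ι M Set.univ ∧
    y = Finsupp.single (g * h) r - Finsupp.single g r - Finsupp.single h (r * ι g)}

/-- vanishing of the first homology with these coefficients -/
def Acy (ι : G →* D) (M : Subgroup G) : Prop :=
  ∀ x : G →₀ D, (∀ g, x g ∈ Sp ι M Set.univ) → bdry ι x = 0 → x ∈ Rel ι M

instance Stage.instN (S : Stage G) : S.N.Normal := S.nN
instance Stage.instA (S : Stage G) : S.A.Normal := S.nA
instance Stage.instFi (S : Stage G) : S.A.FiniteIndex := S.fi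

/-- the projection of group rings at a stage -/
noncomputable def Stage.pr (S : Stage G) :
    MonoidAlgebra ℤ G →+* MonoidAlgebra ℤ (G ⧸ S.N) :=
  md (QuotientGroup.mk' S.N)

/-- the properties of the division ring of a tower -/
structure Env (T : Tw G) (ι : G →* D) : Prop where
  ind : ∀ j, Ind ι (T.st j).N
  top : dcl ι ⊤ = ⊤
  inj : ∀ {J : Type} [Fintype J] (A : Matrix J J (MonoidAlgebra ℤ G)),
    (∀ᶠ n in atTop, ∀ x : J → MonoidAlgebra ℤ (G ⧸ (T.st n).N),
      x ᵥ* A.map (T.st n).pr = 0 → x = 0) →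
    ∀ x : J → D, x ᵥ* A.map (zi ι) = 0 → x = 0
  ex : ∀ {J : Type} [Fintype J] (dj : J → ℤ) (b : Matrix J J (MonoidAlgebra ℤ G)),
    DEx (zi ι) dj b → ∃ᶠ n in atTop, ∀ x : J → MonoidAlgebra ℤ (G ⧸ (T.st n).N),
      (∀ i, dj i ≠ 1 → x i = 0) → x ᵥ* b.map (T.st n).pr = 0 →
      ∃ s : MonoidAlgebra ℤ (G ⧸ (T.st n).N), s ≠ 0 ∧ ∃ y, y ᵥ* b.map (T.st n).pr = s • x

end Pool.Agent.Lib.MP_fd3021_gt.Rf
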