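import Pool.Agent.Lib.MP_fd3021_gt.Rf.Stg
import Pool.Agent.Lib.MP_fd3021_gt.LA

/-! Boxes in the virtually abelian quotient of a stage. -/

namespace Pool.Agent.Lib.MP_fd3021_gt.Rf

open Matrix Filter

theorem box_aux_lat {G : Type} [Group G] (S : Stage G) :
    ∃ (r : ℕ) (ϑ : S.A →* Multiplicative (Fin r → ℤ)), Function.Surjective ϑ ∧
      ∀ a : S.A, ϑ a = 1 ↔ (a : G) ∈ S.N := by
  obtain ⟨r, θ, hθ⟩ := S.lat
  let R : Submodule ℤ (Fin r → ℤ) := AddSubgroup.toIntSubmodule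
    { carrier := {v | ∃ a, θ a = Multiplicative.ofAdd v}
      zero_mem' := ⟨1, map_one θ⟩
      add_mem' := by
        rintro v w ⟨a, ha⟩ ⟨b, hb⟩
        exact ⟨a * b, by rw [map_mul, ha, hb, ofAdd_add]⟩
      neg_mem' := by
        rintro v ⟨a, ha⟩
        exact ⟨a⁻¹, by rw [map_inv, ha, ofAdd_neg]⟩ }
  obtain ⟨r', b⟩ := Submodule.basisOfPid (Pi.basisFun ℤ (Fin r)) R
  have hm : ∀ a, (θ a).toAdd ∈ R := fun a => ⟨a, rfl⟩
  refine ⟨r', MonoidHom.mk' (fun a => Multiplicative.ofAdd (b.equivFun ⟨_, hm a⟩)) ?_, ?_, ?_⟩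
  · intro a a'
    rw [← ofAdd_add, ← map_add]
    refine congrArg _ (congrArg _ (Subtype.ext ?_))
    change (θ (a * a')).toAdd = (θ a).toAdd + (θ a').toAdd
    rw [map_mul, toAdd_mul]
  · intro v
    obtain ⟨a, ha⟩ := (b.equivFun.symm v.toAdd).2
    refine ⟨a, ?_⟩
    have h1 : (⟨_, hm a⟩ : R) = b.equivFun.symm v.toAdd :=
      Subtype.ext (congrArg Multiplicative.toAdd ha)
    change Multiplicative.ofAdd (b.equivFun ⟨_, hm a⟩) = v
    rw [h1, LinearEquiv.apply_symm_apply, ofAdd_toAdd]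
  · intro a
    rw [← hθ]
    change Multiplicative.ofAdd (b.equivFun ⟨_, hm a⟩) = 1 ↔ _
    rw [ofAdd_eq_one, LinearEquiv.map_eq_zero_iff, Subtype.ext_iff]
    exact toAdd_eq_zero

theorem box_aux_sub {G : Type} [Group G] (S : Stage G) {r : ℕ}
    {ϑ : S.A →* Multiplicative (Fin r → ℤ)} (hs : Function.Surjective ϑ)
    (hk : ∀ a : S.A, ϑ a = 1 ↔ (a : G) ∈ S.N) (n : ℕ) [NeZero n] :
    ∃ L : FiniteIndexNormalSubgroup G, S.N ≤ L.toSubgroup ∧ L.toSubgroup ≤ S.A ∧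
      (∀ a : S.A, (a : G) ∈ L.toSubgroup → ∀ i, (n : ℤ) ∣ (ϑ a).toAdd i) ∧
      L.toSubgroup.index ≤ n ^ r * S.A.index := by
  let ρ : S.A →* Multiplicative (Fin r → ZMod n) :=
    MonoidHom.mk' (fun a => Multiplicative.ofAdd fun i => (((ϑ a).toAdd i : ℤ) : ZMod n)) (by
      intro a a'
      rw [← ofAdd_add, map_mul, toAdd_mul]
      refine congrArg _ (funext fun i => ?_)
      exact Int.cast_add _ _)
  have hL : ∀ a : S.A, (a : G) ∈ ρ.ker.map S.A.subtype ↔ ∀ i, (n : ℤ) ∣ (ϑ a).toAdd i := by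
    intro a
    rw [← S.A.subtype_apply, Subgroup.mem_map_iff_mem S.A.subtype_injective, MonoidHom.mem_ker]
    change (Multiplicative.ofAdd fun i => (((ϑ a).toAdd i : ℤ) : ZMod n)) = 1 ↔ _
    rw [ofAdd_eq_one, funext_iff]
    exact forall_congr' fun i => ZMod.intCast_zmod_eq_zero_iff_dvd _ _
  have hN : S.N ≤ ρ.ker.map S.A.subtype := fun g hg => (hL ⟨g, S.le hg⟩).2 fun i => by
    rw [(hk ⟨g, S.le hg⟩).2 hg]
    exact dvd_zero _
  have hidx : (ρ.ker.map S.A.subtype).index = Nat.card ρ.range * S.A.index := by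
    rw [Subgroup.index_map_subtype, Subgroup.index_ker]
  have hnorm : (ρ.ker.map S.A.subtype).Normal := ⟨fun g hg c => by
    have hgA : g ∈ S.A := Subgroup.map_subtype_le _ hg
    choose v hv using (hL ⟨g, hgA⟩).1 hg
    obtain ⟨b, hb⟩ := hs (Multiplicative.ofAdd v)
    have h1 : g * ((b : G) ^ n)⁻¹ ∈ S.N := (hk (⟨g, hgA⟩ * (b ^ n)⁻¹)).1 (by
      rw [map_mul, map_inv, map_pow, hb, mul_inv_eq_one]
      refine Multiplicative.toAdd.injective (funext fun i => ?_)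
      rw [hv, toAdd_pow, toAdd_ofAdd, Pi.smul_apply, nsmul_eq_mul])
    have h2 : (c * b * c⁻¹) ^ n ∈ ρ.ker.map S.A.subtype :=
      (hL (⟨_, S.nA.conj_mem _ b.2 c⟩ ^ n)).2 fun i => by
        rw [map_pow, toAdd_pow, Pi.smul_apply, nsmul_eq_mul]
        exact dvd_mul_right _ _
    have h3 := mul_mem (hN (S.nN.conj_mem _ h1 c)) h2
    rwa [conj_pow, show c * (g * ((b : G) ^ n)⁻¹) * c⁻¹ * (c * (b : G) ^ n * c⁻¹) = c * g * c⁻¹ by
      group] at h3⟩
  have hfi : (ρ.ker.map S.A.subtype).FiniteIndex := ⟨by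
    rw [hidx]
    exact mul_ne_zero Nat.card_pos.ne' S.fi.index_ne_zero⟩
  refine ⟨⟨ρ.ker.map S.A.subtype, hnorm, hfi⟩, hN, Subgroup.map_subtype_le _,
    fun a ha => (hL a).1 ha, ?_⟩
  change (ρ.ker.map S.A.subtype).index ≤ _
  rw [hidx]
  refine Nat.mul_le_mul_right _ ((Subgroup.card_le_card_group _).trans_eq ?_)
  change Nat.card (Fin r → ZMod n) = _
  rw [Nat.card_fun, Nat.card_zmod, Nat.card_eq_fintype_card, Fintype.card_fin]

theorem box_aux_num (r m : ℕ) {ε : ℝ} (hε : 0 < ε) :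
    ∃ k : ℕ, 0 < k ∧ (1 - ε) * ((k + m : ℕ) : ℝ) ^ r ≤ (k : ℝ) ^ r := by
  obtain ⟨k, hk⟩ := exists_nat_gt (r * m / ε)
  have hk0 : (0 : ℝ) < k := lt_of_le_of_lt (by positivity) hk
  have hn : (0 : ℝ) < k + m := by positivity
  refine ⟨k, by exact_mod_cast hk0, ?_⟩
  have h1 : (m : ℝ) / (k + m) ≤ 1 := (div_le_one hn).2 (by linarith)
  have h2 := one_add_mul_le_pow (a := -((m : ℝ) / (k + m))) (by linarith) r
  have h3 : (r : ℝ) * (m / (k + m)) ≤ ε := by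
    rw [← mul_div_assoc, div_le_iff₀ hn]
    rw [div_lt_iff₀ hε] at hk
    nlinarith [mul_nonneg hε.le (Nat.cast_nonneg (α := ℝ) m)]
  have h4 : (k : ℝ) = (1 + -((m : ℝ) / (k + m))) * (k + m) := by
    field_simp
    ring
  push_cast
  calc _ ≤ (1 + -((m : ℝ) / (k + m))) ^ r * ((k : ℝ) + m) ^ r :=
        mul_le_mul_of_nonneg_right (by linarith) (by positivity)
    _ = _ := by rw [← mul_pow, ← h4]

theorem box {G : Type} [Group G] (S : Stage G) (X : Finset G) {ε : ℝ} (hε : 0 < ε) :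
    ∃ (L : FiniteIndexNormalSubgroup G) (T : Finset G), S.N ≤ L.toSubgroup ∧
      (∀ t ∈ T, ∀ t' ∈ T, ∀ x ∈ X, ∀ x' ∈ X, mkQ L (t * x) = mkQ L (t' * x') →
        (t * x)⁻¹ * (t' * x') ∈ S.N) ∧
      (∀ t ∈ T, ∀ t' ∈ T, t⁻¹ * t' ∈ S.N → t = t') ∧ (1 - ε) * dg L ≤ T.card := by
  classical
  obtain ⟨r, ϑ, hs, hk⟩ := box_aux_lat S
  choose β hβ using hs
  have hα : ∀ g : G, g * (QuotientGroup.mk g : G ⧸ S.A).out⁻¹ ∈ S.A := fun g =>
    S.nA.mem_comm (QuotientGroup.eq.1 (QuotientGroup.out_eq' _))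
  obtain ⟨m, hm⟩ := Finite.exists_le fun p : (G ⧸ S.A) × X × Fin r =>
    ((ϑ ⟨_, hα (p.1.out * p.2.1)⟩).toAdd p.2.2).natAbs
  obtain ⟨k, hk0, hkm⟩ := box_aux_num r (2 * m) hε
  have : NeZero (k + 2 * m) := ⟨by omega⟩
  obtain ⟨L, hNL, hLA, hL, hidx⟩ := box_aux_sub S (fun v => ⟨β v, hβ v⟩) hk (k + 2 * m)
  let _ : Fintype (G ⧸ S.A) := Fintype.ofFinite _
  let F : (Fin r → Fin k) × (G ⧸ S.A) → G := fun p =>
    β (Multiplicative.ofAdd fun i => ((p.1 i : ℕ) : ℤ)) * p.2.out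
  have hq : ∀ (b : S.A) (g : G), (QuotientGroup.mk (b * g) : G ⧸ S.A) = QuotientGroup.mk g :=
    fun b g => QuotientGroup.eq.2 (S.nA.mem_comm (by
      rw [_root_.mul_inv_rev, mul_inv_cancel_left]
      exact inv_mem b.2))
  have hF : ∀ p p', (F p)⁻¹ * F p' ∈ S.N → p = p' := by
    rintro ⟨v, c⟩ ⟨v', c'⟩ h
    have h1 : c = c' := by
      have h2 := QuotientGroup.eq.2 (S.le h)
      rwa [hq, hq, QuotientGroup.out_eq', QuotientGroup.out_eq'] at h2
    subst h1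
    have h2 := S.nN.mem_comm h
    rw [_root_.mul_inv_rev, mul_assoc, mul_inv_cancel_left] at h2
    have h3 := (hk (β _ * (β _)⁻¹)).2 h2
    rw [map_mul, map_inv, hβ, hβ, mul_inv_eq_one] at h3
    refine Prod.ext (funext fun i => Fin.ext ?_) rfl
    have h4 := congrFun (Multiplicative.ofAdd.injective h3) i
    exact (Int.natCast_inj.1 h4).symm
  refine ⟨L, Finset.univ.image F, hNL, ?_, ?_, ?_⟩
  · intro t ht t' ht' x hx x' hx' h
    obtain ⟨⟨v, c⟩, -, rfl⟩ := Finset.mem_image.1 ht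
    obtain ⟨⟨v', c'⟩, -, rfl⟩ := Finset.mem_image.1 ht'
    have h1 : (F (v, c) * x)⁻¹ * (F (v', c') * x') ∈ L.toSubgroup := QuotientGroup.eq.1 h
    have h2 : (QuotientGroup.mk (c.out * x) : G ⧸ S.A) = QuotientGroup.mk (c'.out * x') := by
      have h3 := QuotientGroup.eq.2 (hLA h1)
      rwa [mul_assoc, mul_assoc, hq, hq] at h3
    have h3 : F (v', c') * x' * (F (v, c) * x)⁻¹ =
        (β (Multiplicative.ofAdd fun i => ((v' i : ℕ) : ℤ)) * ⟨_, hα (c'.out * x')⟩ *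
          (β (Multiplicative.ofAdd fun i => ((v i : ℕ) : ℤ)) * ⟨_, hα (c.out * x)⟩)⁻¹ : S.A) := by
      simp only [F, Subgroup.coe_mul, Subgroup.coe_inv, h2]
      group
    have h4 := L.isNormal'.mem_comm h1
    refine S.nN.mem_comm ?_
    rw [h3] at h4 ⊢
    refine (hk _).1 (Multiplicative.toAdd.injective (funext fun i => ?_))
    refine Int.eq_zero_of_abs_lt_dvd (hL _ h4 i) ?_
    have h5 := hm (c, ⟨x, hx⟩, i)
    have h6 := hm (c', ⟨x', hx'⟩, i)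
    have h7 := (v i).2
    have h8 := (v' i).2
    simp only [map_mul, map_inv, hβ, toAdd_mul, toAdd_inv, toAdd_ofAdd, Pi.add_apply,
      Pi.neg_apply] at h5 h6 ⊢
    rw [abs_lt]
    omega
  · intro t ht t' ht' h
    obtain ⟨p, -, rfl⟩ := Finset.mem_image.1 ht
    obtain ⟨p', -, rfl⟩ := Finset.mem_image.1 ht'
    rw [hF p p' h]
  · rw [Finset.card_image_of_injective _ fun p p' h => hF p p' (by
      rw [h, inv_mul_cancel]; exact one_mem _), Finset.card_univ, Fintype.card_prod,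
      Fintype.card_fun, Fintype.card_fin, Fintype.card_fin, ← Nat.card_eq_fintype_card,
      ← Subgroup.index_eq_card]
    have h1 : dg L = L.toSubgroup.index := by
      rw [dg, ← Nat.card_eq_fintype_card]
      rfl
    rcases le_total 0 (1 - ε) with h | h
    · calc (1 - ε) * dg L ≤ (1 - ε) * (((k + 2 * m) ^ r * S.A.index : ℕ) : ℝ) := by
            rw [h1]
            exact mul_le_mul_of_nonneg_left (Nat.cast_le.2 hidx) h
        _ ≤ _ := by
            rw [Nat.cast_mul, Nat.cast_mul, Nat.cast_pow, Nat.cast_pow, ← mul_assoc]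
            exact mul_le_mul_of_nonneg_right hkm (Nat.cast_nonneg _)
    · refine le_trans (mul_nonpos_of_nonpos_of_nonneg h ?_) (Nat.cast_nonneg _)
      rw [h1]
      exact Nat.cast_nonneg _

end Pool.Agent.Lib.MP_fd3021_gt.Rf
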