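import Pool.Agent.Lib.MP_fd3021_gt.Rf.Base

/-! Small doubling and the Ore condition. -/

namespace Pool.Agent.Lib.MP_fd3021_gt.Rf

open Matrix Filter

theorem dbl_aux_growth (k m : ℕ) : ∃ n : ℕ, (n + 1) ^ k * m < 2 ^ n := by
  have h1 := (tendsto_pow_const_div_const_pow_of_one_lt k (r := 2) one_lt_two).const_mul
    (2 * m : ℝ)
  rw [mul_zero] at h1
  obtain ⟨n, h2, h3⟩ := ((h1.eventually_lt_const one_pos).and (eventually_ge_atTop 1)).exists
  obtain ⟨n, rfl⟩ := Nat.exists_eq_add_of_le' h3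
  refine ⟨n, ?_⟩
  rw [← mul_div_assoc, div_lt_one (by positivity), pow_succ] at h2
  have h4 : ((n + 1 : ℕ) : ℝ) ^ k * m < 2 ^ n := by linarith
  exact_mod_cast h4

open Pointwise in
theorem doubling {Λ : Type} [Group Λ] [DecidableEq Λ] (B : Subgroup Λ) [B.Normal] [B.FiniteIndex]
    (hc : ∀ a ∈ B, ∀ b ∈ B, a * b = b * a) (X : Finset Λ) :
    ∃ Y : Finset Λ, Y.Nonempty ∧ (Y * X).card < 2 * Y.card := by
  classical
  let _ : CommGroup B := { (inferInstance : Group B) with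
    mul_comm := fun a b => Subtype.ext (hc a a.2 b b.2) }
  have := Fintype.ofFinite (Λ ⧸ B)
  have h1 : ∀ g : Λ, ∃ (b : B) (q : Λ ⧸ B), g = b * (q.out)⁻¹ := fun g => by
    obtain ⟨b, hb⟩ := QuotientGroup.mk_out_eq_mul B g⁻¹
    exact ⟨b, QuotientGroup.mk g⁻¹, by rw [hb, _root_.mul_inv_rev, inv_inv, mul_inv_cancel_left]⟩
  choose c t hct using fun i : (Λ ⧸ B) × X => h1 ((i.1.out)⁻¹ * i.2)
  obtain ⟨Y, hY⟩ : ∃ Y : ℕ → Finset Λ, ∀ n, Y n =
      ((Fintype.piFinset fun _ : (Λ ⧸ B) × X => Finset.range (n + 1)) ×ˢ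
        (Finset.univ : Finset (Λ ⧸ B))).image
        fun p => ((∏ i, c i ^ p.1 i : B) : Λ) * (p.2.out)⁻¹ := ⟨_, fun _ => rfl⟩
  have h2 : ∀ n, (Y n).Nonempty := fun n => by
    rw [hY]
    exact (Finset.Nonempty.product (Fintype.piFinset_nonempty.2 fun _ =>
      Finset.nonempty_range_add_one) Finset.univ_nonempty).image _
  have h3 : ∀ n, (Y n).card ≤ (n + 1) ^ Fintype.card ((Λ ⧸ B) × X) * Fintype.card (Λ ⧸ B) :=
    fun n => by
      rw [hY]
      refine Finset.card_image_le.trans (le_of_eq ?_)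
      rw [Finset.card_product, Fintype.card_piFinset, Finset.prod_const, Finset.card_range,
        Finset.card_univ, Finset.card_univ]
  have h4 : ∀ n, Y n * X ⊆ Y (n + 1) := fun n z hz => by
    obtain ⟨y, hy, x, hx, rfl⟩ := Finset.mem_mul.1 hz
    rw [hY] at hy ⊢
    obtain ⟨⟨e, q⟩, he, rfl⟩ := Finset.mem_image.1 hy
    refine Finset.mem_image.2 ⟨(e + Pi.single (q, ⟨x, hx⟩) 1, t (q, ⟨x, hx⟩)),
      Finset.mem_product.2 ⟨Fintype.mem_piFinset.2 fun i => ?_, Finset.mem_univ _⟩, ?_⟩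
    · have h5 := Finset.mem_range.1 (Fintype.mem_piFinset.1 (Finset.mem_product.1 he).1 i)
      have h6 : (Pi.single (q, ⟨x, hx⟩) 1 : (Λ ⧸ B) × X → ℕ) i ≤ 1 := by
        rw [Pi.single_apply]
        split_ifs <;> omega
      rw [Finset.mem_range]
      dsimp only at h5 ⊢
      rw [Pi.add_apply]
      omega
    · have h5 : ∏ i, c i ^ (Pi.single (q, ⟨x, hx⟩) 1 : (Λ ⧸ B) × X → ℕ) i = c (q, ⟨x, hx⟩) := by
        rw [Finset.prod_eq_single (q, ⟨x, hx⟩) (fun i _ hi => by rw [Pi.single_eq_of_ne hi, pow_zero])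
          fun h => absurd (Finset.mem_univ _) h, Pi.single_eq_same, pow_one]
      dsimp only
      simp only [Pi.add_apply, pow_add, Finset.prod_mul_distrib]
      rw [h5, Subgroup.coe_mul, mul_assoc, mul_assoc, ← hct]
  by_contra h0
  push Not at h0
  have h5 : ∀ n, 2 ^ n ≤ (Y n).card := fun n => by
    induction n with
    | zero => exact (h2 0).card_pos
    | succ n ih =>
      have h6 := (h0 _ (h2 n)).trans (Finset.card_le_card (h4 n))
      rw [pow_succ]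
      omega
  obtain ⟨n, hn⟩ := dbl_aux_growth (Fintype.card ((Λ ⧸ B) × X)) (Fintype.card (Λ ⧸ B))
  exact absurd ((h5 n).trans (h3 n)) hn.not_ge

theorem ore_int {Λ : Type} [Group Λ] (B : Subgroup Λ) [B.Normal] [B.FiniteIndex]
    (hc : ∀ a ∈ B, ∀ b ∈ B, a * b = b * a) [NoZeroDivisors (MonoidAlgebra ℤ Λ)]
    (a b : MonoidAlgebra ℤ Λ) (hb : b ≠ 0) : ∃ s t, s ≠ 0 ∧ s * a = t * b := by
  classical
  obtain ⟨Y, -, hY⟩ := doubling B hc (a.coeff.support ∪ b.coeff.support)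
  obtain ⟨Z, hZ, hZ'⟩ : ∃ Z : Finset Λ, Z.card < 2 * Y.card ∧ ∀ x : MonoidAlgebra ℤ Λ,
      x.coeff.support ⊆ a.coeff.support ∪ b.coeff.support →
      ∀ s ∈ MonoidAlgebra.supported ℤ ℤ (Y : Set Λ),
        s * x ∈ MonoidAlgebra.supported ℤ ℤ (Z : Set Λ) :=
    ⟨_, hY, fun x hx s hs => MonoidAlgebra.mem_supported.2 (Finset.coe_subset.2
      ((MonoidAlgebra.support_coeff_mul_subset s x).trans (Finset.mul_subset_mul
        (Finset.coe_subset.1 (MonoidAlgebra.mem_supported.1 hs)) hx)))⟩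
  let W := MonoidAlgebra.supported ℤ ℤ (Y : Set Λ)
  let W' := MonoidAlgebra.supported ℤ ℤ (Z : Set Λ)
  let e : W ≃ₗ[ℤ] ((Y : Set Λ) →₀ ℤ) := MonoidAlgebra.supportedEquivFinsupp _
  let e' : W' ≃ₗ[ℤ] ((Z : Set Λ) →₀ ℤ) := MonoidAlgebra.supportedEquivFinsupp _
  have : Module.Finite ℤ W' := .equiv e'.symm
  let L : W × W →ₗ[ℤ] W' := LinearMap.codRestrict W'
    ((LinearMap.mulRight ℤ a ∘ₗ W.subtype).coprod (-(LinearMap.mulRight ℤ b ∘ₗ W.subtype)))
    fun p => W'.add_mem (hZ' a Finset.subset_union_left _ p.1.2)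
      (W'.neg_mem (hZ' b Finset.subset_union_right _ p.2.2))
  by_contra h0
  push Not at h0
  have h1 : Function.Injective L := by
    refine (injective_iff_map_eq_zero L).2 fun p hp => ?_
    have h2 : (p.1 : MonoidAlgebra ℤ Λ) * a = p.2 * b :=
      add_neg_eq_zero.1 (congrArg Subtype.val hp)
    have h3 : (p.1 : MonoidAlgebra ℤ Λ) = 0 := not_not.1 fun h => h0 _ _ h h2
    rw [h3, zero_mul] at h2
    exact Prod.ext (Subtype.ext h3) (Subtype.ext ((mul_eq_zero.1 h2.symm).resolve_right hb))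
  have h2 := LinearMap.finrank_le_finrank_of_injective h1
  rw [(e.prodCongr e).finrank_eq, e'.finrank_eq, Module.finrank_prod, Module.finrank_finsupp_self,
    Module.finrank_finsupp_self] at h2
  simp only [Finset.coe_sort_coe, Fintype.card_coe] at h2
  omega

/-- common left denominators in the division closure of a left Ore subring -/
theorem frac_closure {D : Type} [DivisionRing D] (S : Subring D)
    (hS : ∀ a ∈ S, ∀ b ∈ S, b ≠ 0 → ∃ s ∈ S, ∃ t ∈ S, s ≠ 0 ∧ s * a = t * b) (X : Finset D)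
    (hX : ∀ x ∈ X, x ∈ Subfield.closure (S : Set D)) :
    ∃ s ∈ S, s ≠ 0 ∧ ∀ x ∈ X, s * x ∈ S := by
  classical
  let F : Subfield D :=
    { carrier := {x | ∃ s ∈ S, s ≠ 0 ∧ s * x ∈ S}
      one_mem' := ⟨1, S.one_mem, one_ne_zero, S.mul_mem S.one_mem S.one_mem⟩
      zero_mem' := ⟨1, S.one_mem, one_ne_zero, S.mul_mem S.one_mem S.zero_mem⟩
      mul_mem' := by
        rintro x y ⟨s, s1, s2, s3⟩ ⟨t, t1, t2, t3⟩
        obtain ⟨s', a1, t', a2, a3, a4⟩ := hS _ s3 t t1 t2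
        refine ⟨s' * s, S.mul_mem a1 s1, mul_ne_zero a3 s2, ?_⟩
        rw [← mul_assoc, mul_assoc s', a4, mul_assoc]
        exact S.mul_mem a2 t3
      add_mem' := by
        rintro x y ⟨s, s1, s2, s3⟩ ⟨t, t1, t2, t3⟩
        obtain ⟨s', a1, t', a2, a3, a4⟩ := hS s s1 t t1 t2
        refine ⟨s' * s, S.mul_mem a1 s1, mul_ne_zero a3 s2, ?_⟩
        rw [mul_add, mul_assoc, a4, mul_assoc]
        exact S.add_mem (S.mul_mem a1 s3) (S.mul_mem a2 t3)
      neg_mem' := by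
        rintro x ⟨s, s1, s2, s3⟩
        exact ⟨s, s1, s2, by rw [mul_neg]; exact S.neg_mem s3⟩
      inv_mem' := by
        rintro x ⟨s, s1, s2, s3⟩
        rcases eq_or_ne x 0 with rfl | hx
        · exact ⟨s, s1, s2, by rwa [_root_.inv_zero]⟩
        · exact ⟨s * x, s3, mul_ne_zero s2 hx, by rwa [mul_inv_cancel_right₀ hx]⟩ }
  have hF : Subfield.closure (S : Set D) ≤ F := Subfield.closure_le.2 fun x hx =>
    ⟨1, S.one_mem, one_ne_zero, S.mul_mem S.one_mem hx⟩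
  induction X using Finset.induction_on with
  | empty => exact ⟨1, S.one_mem, one_ne_zero, fun x hx => absurd hx (Finset.notMem_empty x)⟩
  | insert x X _ ih =>
    obtain ⟨s, s1, s2, s3⟩ := ih fun y hy => hX y (Finset.mem_insert_of_mem hy)
    obtain ⟨t, t1, t2, t3⟩ := hF (hX x (Finset.mem_insert_self x X))
    obtain ⟨s', a1, t', a2, a3, a4⟩ := hS s s1 t t1 t2
    refine ⟨s' * s, S.mul_mem a1 s1, mul_ne_zero a3 s2, fun y hy => ?_⟩
    rcases Finset.mem_insert.1 hy with rfl | hy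
    · rw [a4, mul_assoc]
      exact S.mul_mem a2 t3
    · rw [mul_assoc]
      exact S.mul_mem a1 (s3 y hy)

end Pool.Agent.Lib.MP_fd3021_gt.Rf
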