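import Pool.Agent.Lib.MP_fd3021_gt.XDefs

/-! Towers of finite index subgroups with characters dual to walls whose first L2-Betti number
vanishes. -/

namespace Pool.Agent.Lib.MP_fd3021_gt

/-- `A` has a finite free complex that resolves `ℤ` in degree `0` and has first L2-Betti number
zero. -/
def B1Zero (A : Type) [Group A] : Prop :=
  ∃ (J : Type) (_ : Fintype J) (_ : DecidableEq J) (dj : J → ℤ)
    (b : Matrix J J (MonoidAlgebra ℤ A)), ResTo 1 dj b ∧ spec (lap dj b 1) {0} = 0

/-- `K` is an HNN extension over a nontrivial subgroup `A` with `B1Zero A`, and `φ` is the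
exponent sum of the stable letter. -/
def DualWall {K : Type} [Group K] (φ : K →* Multiplicative ℤ) : Prop :=
  ∃ (V : Type) (_ : Group V) (A B : Subgroup V) (α : A ≃* B) (e : HNNExtension V A B α ≃* K),
    (∀ v, φ (e (HNNExtension.of v)) = 1) ∧ φ (e HNNExtension.t) = Multiplicative.ofAdd 1 ∧
      Nontrivial A ∧ B1Zero A

/-- A descending chain `G = A 0 ≥ A 1 ≥ ...` of normal subgroups of finite index with trivial
intersection and finite sets `Φ i` of characters `A i → ℤ` dual to walls, whose common kernels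
`H i` are normal in `G`, descend and satisfy `H i ≤ A (i + 1)`. -/
def WallTower (G : Type) [Group G] : Prop :=
  ∃ (A H : ℕ → Subgroup G) (Φ : ∀ i, Finset (A i →* Multiplicative ℤ)),
    A 0 = ⊤ ∧ (∀ g, (∀ i, g ∈ A i) → g = 1) ∧ ∀ i,
      (A i).Normal ∧ (A i).FiniteIndex ∧ (H i).Normal ∧ A (i + 1) ≤ A i ∧ H (i + 1) ≤ H i ∧
      H i ≤ A (i + 1) ∧ (∀ g : A i, (g : G) ∈ H i ↔ ∀ φ ∈ Φ i, φ g = 1) ∧
      ∀ φ ∈ Φ i, DualWall φ

end Pool.Agent.Lib.MP_fd3021_gt
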