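import Pool.Agent.Lib.MP_fd3021_gt.Rf.Supp
import Pool.Agent.Lib.MP_fd3021_gt.Rf.Dbl

/-! Denominators. -/

namespace Pool.Agent.Lib.MP_fd3021_gt.Rf

open Matrix Filter

variable {G D : Type} [Group G] [DivisionRing D] {ι : G →* D} {M N K : Subgroup G}

theorem den_aux_rep [M.Normal] {R R' : Set G}
    (h : ∀ g ∈ R, ∃ z ∈ R', g * z⁻¹ ∈ M) {a : D} (ha : a ∈ Sp ι M R) : a ∈ Sp ι M R' := by
  refine Sp_ind (C := fun a => a ∈ Sp ι M R') (Submodule.zero_mem _)
    (fun a b ha hb => Submodule.add_mem _ ha hb) ?_ ha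
  intro d hd g hg
  obtain ⟨z, hz, hm⟩ := h g hg
  have e : d * ι g = (d * ι (g * z⁻¹)) * ι z := by
    rw [mul_assoc, ← map_mul, inv_mul_cancel_right]
  rw [e]
  exact Sp_smul (Subfield.mul_mem _ hd (iota_mem hm)) (mem_Sp hz)

theorem ore_Sp (hI : Ind ι N) (hM : N ≤ M) [M.Normal] (hK : M ≤ K)
    (hc : ∀ a ∈ K, ∀ b ∈ K, a * b * a⁻¹ * b⁻¹ ∈ M) {a b : D} (ha : a ∈ Sp ι M K)
    (hb : b ∈ Sp ι M K) (h0 : b ≠ 0) :
    ∃ s ∈ Sp ι M K, ∃ t ∈ Sp ι M K, s ≠ 0 ∧ s * a = t * b := by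
  classical
  obtain ⟨Ta, hTa, ha'⟩ := Sp_fin ha
  obtain ⟨Tb, hTb, hb'⟩ := Sp_fin hb
  let π : K →* K ⧸ M.subgroupOf K := QuotientGroup.mk' (M.subgroupOf K)
  have hπ : ∀ x y : K, (x : G) * (y : G)⁻¹ ∈ M ↔ π x = π y := by
    intro x y
    rw [← mul_inv_eq_one (a := π x), ← map_inv, ← map_mul]
    exact (QuotientGroup.eq_one_iff (N := M.subgroupOf K) (x * y⁻¹)).symm
  have hcomm : ∀ x ∈ (⊤ : Subgroup (K ⧸ M.subgroupOf K)), ∀ y ∈ (⊤ : Subgroup (K ⧸ M.subgroupOf K)),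
      x * y = y * x := by
    intro x _ y _
    obtain ⟨x, rfl⟩ := QuotientGroup.mk'_surjective (M.subgroupOf K) x
    obtain ⟨y, rfl⟩ := QuotientGroup.mk'_surjective (M.subgroupOf K) y
    rw [← map_mul, ← map_mul]
    apply (hπ _ _).1
    have := hc x x.2 y y.2
    simpa [mul_assoc] using this
  let T : Finset K := (Ta ∪ Tb).subtype (fun g => g ∈ K)
  obtain ⟨Y, hY, hcard⟩ := doubling (⊤ : Subgroup (K ⧸ M.subgroupOf K)) hcomm (T.image π)
  obtain ⟨σ, hσ⟩ : ∃ σ : K ⧸ M.subgroupOf K → K, ∀ x, π (σ x) = x :=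
    ⟨fun x => x.out, fun x => QuotientGroup.out_eq' x⟩
  let Z : Finset (K ⧸ M.subgroupOf K) := Finset.image₂ (· * ·) Y (T.image π)
  have hZ : Z.card < 2 * Y.card := hcard
  let R' : Finset G := Z.image (fun z => (σ z : G))
  have key : ∀ (T0 : Finset G), T0 ⊆ Ta ∪ Tb → (T0 : Set G) ⊆ K → ∀ c ∈ Sp ι M (T0 : Set G),
      ∀ y ∈ Y, ι (σ y : G) * c ∈ Sp ι M (R' : Set G) := by
    intro T0 h1 h2 c hc' y hy
    have h3 : ι (σ y : G) * c ∈ Sp ι M {g | ∃ z ∈ (R' : Set G), g * z⁻¹ ∈ M} := by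
      refine Sp_mul (P := {(σ y : G)}) (Q := (T0 : Set G)) ?_ (mem_Sp rfl) hc'
      intro p hp q hq
      have hp' : p = (σ y : G) := hp
      subst hp'
      have hqK : q ∈ K := h2 hq
      refine ⟨(σ (y * π ⟨q, hqK⟩) : G), ?_, ?_⟩
      · refine Finset.mem_coe.2 (Finset.mem_image.2 ⟨y * π ⟨q, hqK⟩, ?_, rfl⟩)
        refine Finset.mem_image₂.2 ⟨y, hy, π ⟨q, hqK⟩, ?_, rfl⟩
        exact Finset.mem_image.2 ⟨⟨q, hqK⟩, Finset.mem_subtype.2 (h1 hq), rfl⟩
      · refine (hπ (σ y * ⟨q, hqK⟩) (σ (y * π ⟨q, hqK⟩))).2 ?_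
        rw [map_mul, hσ, hσ]
    exact den_aux_rep (fun g hg => hg) h3
  let v : Y ⊕ Y → D := Sum.elim (fun y => ι (σ y : G) * a) (fun y => ι (σ y : G) * b)
  have hdep : ¬ LinearIndependent (dcl ι M) v := by
    intro hli
    have h1 := linearIndependent_le_span_aux' v hli ((R'.image ι : Finset D) : Set D) (by
      rintro _ ⟨i, rfl⟩
      rw [Finset.coe_image]
      rcases i with y | y
      · exact key Ta Finset.subset_union_left hTa a ha' y y.2
      · exact key Tb Finset.subset_union_right hTb b hb' y y.2)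
    have h2 : (R'.image ι).card ≤ Z.card := Finset.card_image_le.trans Finset.card_image_le
    simp only [Fintype.card_sum, Fintype.card_coe, Finset.coe_sort_coe] at h1
    omega
  obtain ⟨g, hg, i, hi⟩ := Fintype.not_linearIndependent_iff.1 hdep
  have hσi : Function.Injective (fun y : Y => (σ y : G)) := by
    intro y y' h
    have h' : σ y = σ y' := Subtype.ext h
    apply Subtype.ext
    rw [← hσ y, h', hσ]
  have hind : LinearIndependent (dcl ι M) (fun y : Y => ι (σ y : G)) := by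
    have h1 := hI M hM (Set.range (fun y : Y => (σ y : G))) (by
      rintro _ ⟨y, rfl⟩ _ ⟨y', rfl⟩ h
      have := (hπ _ _).1 h
      rw [hσ, hσ] at this
      simp only [this])
    exact h1.comp (fun y : Y => (⟨(σ y : G), ⟨y, rfl⟩⟩ : Set.range (fun y : Y => (σ y : G))))
      (fun y y' h => hσi (Subtype.mk.inj h))
  have hmem : ∀ l : Y → dcl ι M, ∑ y : Y, l y • ι (σ y : G) ∈ Sp ι M K := fun l =>
    Submodule.sum_mem _ fun y _ => Submodule.smul_mem _ _ (mem_Sp (σ y).2)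
  have heq : (∑ y : Y, g (Sum.inl y) • ι (σ y : G)) * a =
      (-∑ y : Y, g (Sum.inr y) • ι (σ y : G)) * b := by
    rw [Fintype.sum_sum_type] at hg
    rw [neg_mul, Finset.sum_mul, Finset.sum_mul, eq_neg_iff_add_eq_zero]
    simpa only [v, Sum.elim_inl, Sum.elim_inr, smul_mul_assoc] using hg
  refine ⟨_, hmem fun y => g (Sum.inl y), _, Submodule.neg_mem _ (hmem fun y => g (Sum.inr y)),
    ?_, heq⟩
  intro hs
  rw [hs, zero_mul] at heq
  have ht : ∑ y : Y, g (Sum.inr y) • ι (σ y : G) = 0 :=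
    neg_eq_zero.1 ((mul_eq_zero.1 heq.symm).resolve_right h0)
  rcases i with y | y
  · exact hi (Fintype.linearIndependent_iff.1 hind _ hs y)
  · exact hi (Fintype.linearIndependent_iff.1 hind _ ht y)

/-- the span over a subgroup is a subring -/
def den_aux_ring (ι : G →* D) (M K : Subgroup G) [M.Normal] : Subring D where
  carrier := Sp ι M K
  mul_mem' := fun ha hb => Sp_mul (fun _ hp _ hq => K.mul_mem hp hq) ha hb
  one_mem' := by
    have := mem_Sp (ι := ι) (M := M) (P := (K : Set G)) K.one_mem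
    rwa [map_one] at this
  add_mem' := fun ha hb => Submodule.add_mem _ ha hb
  zero_mem' := Submodule.zero_mem _
  neg_mem' := fun ha => Submodule.neg_mem _ ha

theorem den_aux_merge (hI : Ind ι N) (hM : N ≤ M) [M.Normal] (hK : M ≤ K)
    (hc : ∀ a ∈ K, ∀ b ∈ K, a * b * a⁻¹ * b⁻¹ ∈ M) {s t : D} (hs : s ∈ Sp ι M K)
    (ht : t ∈ Sp ι M K) (hs0 : s ≠ 0) (ht0 : t ≠ 0) :
    ∃ r ∈ Sp ι M K, r ≠ 0 ∧ (∀ x, s * x ∈ Sp ι M Set.univ → r * x ∈ Sp ι M Set.univ) ∧
      ∀ x, t * x ∈ Sp ι M Set.univ → r * x ∈ Sp ι M Set.univ := by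
  obtain ⟨u, hu, w, hw, hu0, h⟩ := ore_Sp hI hM hK hc hs ht ht0
  refine ⟨u * s, Sp_mul (fun _ hp _ hq => K.mul_mem hp hq) hu hs, mul_ne_zero hu0 hs0, ?_, ?_⟩
  · intro x hx
    rw [mul_assoc]
    exact Sp_mul (fun _ _ _ _ => Set.mem_univ _) hu hx
  · intro x hx
    rw [h, mul_assoc]
    exact Sp_mul (fun _ _ _ _ => Set.mem_univ _) hw hx

theorem den_aux_one (hI : Ind ι N) (hM : N ≤ M) [M.Normal] (hK : M ≤ K)
    (hc : ∀ a ∈ K, ∀ b ∈ K, a * b * a⁻¹ * b⁻¹ ∈ M) {x : D} (hx : x ∈ Sp ι K Set.univ) :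
    ∃ s ∈ Sp ι M K, s ≠ 0 ∧ s * x ∈ Sp ι M Set.univ := by
  refine Sp_ind (C := fun x => ∃ s ∈ Sp ι M K, s ≠ 0 ∧ s * x ∈ Sp ι M Set.univ) ?_ ?_ ?_ hx
  · refine ⟨1, (den_aux_ring ι M K).one_mem, one_ne_zero, ?_⟩
    rw [mul_zero]
    exact Submodule.zero_mem _
  · rintro a b ⟨s, hs, hs0, hsa⟩ ⟨t, ht, ht0, htb⟩
    obtain ⟨r, hr, hr0, h1, h2⟩ := den_aux_merge hI hM hK hc hs ht hs0 ht0
    refine ⟨r, hr, hr0, ?_⟩
    rw [mul_add]
    exact Submodule.add_mem _ (h1 a hsa) (h2 b htb)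
  · intro d hd g _
    have hd' : d ∈ Subfield.closure ((den_aux_ring ι M K : Subring D) : Set D) := by
      refine Subfield.closure_mono ?_ hd
      rintro _ ⟨k, hk, rfl⟩
      exact mem_Sp (P := (K : Set G)) hk
    obtain ⟨s, hs, hs0, h⟩ := frac_closure (den_aux_ring ι M K)
      (fun a ha b hb h0 => ore_Sp hI hM hK hc ha hb h0) {d}
      (fun x hx => by rw [Finset.mem_singleton.1 hx]; exact hd')
    refine ⟨s, hs, hs0, ?_⟩
    rw [← mul_assoc]
    exact Sp_mul (P := (K : Set G)) (Q := Set.univ) (fun _ _ _ _ => Set.mem_univ _)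
      (h d (Finset.mem_singleton_self d)) (mem_Sp (Set.mem_univ g))

theorem den (hI : Ind ι N) (hM : N ≤ M) [M.Normal] (hK : M ≤ K)
    (hc : ∀ a ∈ K, ∀ b ∈ K, a * b * a⁻¹ * b⁻¹ ∈ M) (X : Finset D)
    (hX : ∀ x ∈ X, x ∈ Sp ι K Set.univ) :
    ∃ s ∈ Sp ι M K, s ≠ 0 ∧ ∀ x ∈ X, s * x ∈ Sp ι M Set.univ := by
  classical
  induction X using Finset.induction_on with
  | empty => exact ⟨1, (den_aux_ring ι M K).one_mem, one_ne_zero, by simp⟩
  | insert x X _ ih =>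
    obtain ⟨s, hs, hs0, hsx⟩ := den_aux_one hI hM hK hc (hX x (Finset.mem_insert_self x X))
    obtain ⟨t, ht, ht0, htX⟩ := ih fun y hy => hX y (Finset.mem_insert_of_mem hy)
    obtain ⟨r, hr, hr0, h1, h2⟩ := den_aux_merge hI hM hK hc hs ht hs0 ht0
    refine ⟨r, hr, hr0, fun y hy => ?_⟩
    rcases Finset.mem_insert.1 hy with rfl | hy
    · exact h1 _ hsx
    · exact h2 _ (htX y hy)

theorem top_Sp (A : Subgroup G) [A.Normal] [A.FiniteIndex] (h : dcl ι ⊤ = ⊤) (u : D) :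
    u ∈ Sp ι A Set.univ := by
  classical
  have hmul : ∀ {a b : D}, a ∈ Sp ι A Set.univ → b ∈ Sp ι A Set.univ →
      a * b ∈ Sp ι A Set.univ := fun ha hb => Sp_mul (fun _ _ _ _ => Set.mem_univ _) ha hb
  have hone : (1 : D) ∈ Sp ι A Set.univ := by
    have := mem_Sp (ι := ι) (M := A) (P := Set.univ) (Set.mem_univ 1)
    rwa [map_one] at this
  have hfin : Module.Finite (dcl ι A) (Sp ι A Set.univ) := by
    have e : Sp ι A Set.univ = Sp ι A (Set.range fun q : G ⧸ A => q.out) := by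
      apply le_antisymm
      · intro a ha
        refine den_aux_rep ?_ ha
        intro g _
        refine ⟨_, ⟨(g : G ⧸ A), rfl⟩, ?_⟩
        apply (QuotientGroup.eq_one_iff _).1
        simp
      · intro a ha
        exact Sp_mono (Set.subset_univ _) ha
    rw [e]
    exact Module.Finite.span_of_finite _ ((Set.finite_range _).image _)
  have hinv : ∀ x ∈ Sp ι A Set.univ, x⁻¹ ∈ Sp ι A Set.univ := by
    intro x hx
    by_cases h0 : x = 0
    · rw [h0, _root_.inv_zero]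
      exact Submodule.zero_mem _
    let r : Sp ι A Set.univ →ₗ[dcl ι A] Sp ι A Set.univ :=
      { toFun := fun w => ⟨w.1 * x, hmul w.2 hx⟩
        map_add' := fun w w' => Subtype.ext (add_mul _ _ _)
        map_smul' := fun c w => Subtype.ext (smul_mul_assoc _ _ _) }
    have hinj : Function.Injective r := fun w w' hw =>
      Subtype.ext (mul_right_cancel₀ h0 (congrArg Subtype.val hw))
    obtain ⟨w, hw⟩ := LinearMap.injective_iff_surjective.1 hinj ⟨1, hone⟩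
    have hw' : w.1 * x = 1 := congrArg Subtype.val hw
    rw [← eq_inv_of_mul_eq_one_left hw']
    exact w.2
  let W : Subfield D :=
    { carrier := Sp ι A Set.univ
      mul_mem' := hmul
      one_mem' := hone
      add_mem' := fun ha hb => Submodule.add_mem _ ha hb
      zero_mem' := Submodule.zero_mem _
      neg_mem' := fun ha => Submodule.neg_mem _ ha
      inv_mem' := hinv }
  have hle : dcl ι ⊤ ≤ W := by
    refine Subfield.closure_le.2 ?_
    rintro _ ⟨g, _, rfl⟩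
    exact mem_Sp (P := Set.univ) (Set.mem_univ g)
  exact hle (h ▸ Subfield.mem_top u)

theorem Env.ctx {T : Tw G} (h : Env T ι) (j : ℕ) : Ctx (T.st j) ι :=
  ⟨h.ind j, top_Sp _ h.top⟩

end Pool.Agent.Lib.MP_fd3021_gt.Rf
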