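import Pool.Agent.Lib.MP_fd3021_gt.Rf.DvA

/-! Derivations and finite complexes. -/

namespace Pool.Agent.Lib.MP_fd3021_gt.Rf

open Matrix Filter

variable {G D : Type} [Group G] [DivisionRing D] {ι : G →* D}

/-- the boundary of a chain on the generators -/
noncomputable def dv_aux_bd {S : Type} [Fintype S] (γ : S → G) (y : S → MonoidAlgebra ℤ G) :
    MonoidAlgebra ℤ G := ∑ s, y s * (MonoidAlgebra.single (γ s) 1 - 1)

section
variable {S : Type} [Fintype S] {γ : S → G}

theorem dv_aux_add (y y' : S → MonoidAlgebra ℤ G) :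
    dv_aux_bd γ (y + y') = dv_aux_bd γ y + dv_aux_bd γ y' := by
  simp only [dv_aux_bd, Pi.add_apply, add_mul, Finset.sum_add_distrib]

theorem dv_aux_sub (y y' : S → MonoidAlgebra ℤ G) :
    dv_aux_bd γ (y - y') = dv_aux_bd γ y - dv_aux_bd γ y' := by
  simp only [dv_aux_bd, Pi.sub_apply, sub_mul, Finset.sum_sub_distrib]

theorem dv_aux_smul (a : MonoidAlgebra ℤ G) (y : S → MonoidAlgebra ℤ G) :
    dv_aux_bd γ (a • y) = a * dv_aux_bd γ y := by
  simp only [dv_aux_bd, Pi.smul_apply, smul_eq_mul, Finset.mul_sum, mul_assoc]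

theorem dv_aux_single [DecidableEq S] (s : S) :
    dv_aux_bd γ (Pi.single s 1) = MonoidAlgebra.single (γ s) 1 - 1 := by
  rw [dv_aux_bd, Finset.sum_eq_single s (fun t _ ht => by rw [Pi.single_eq_of_ne ht, zero_mul])
    (fun h => absurd (Finset.mem_univ s) h), Pi.single_eq_same, one_mul]

theorem dv_aux_w (hγ : Subgroup.closure (Set.range γ) = ⊤) (g : G) :
    ∃ y, dv_aux_bd γ y = MonoidAlgebra.single g 1 - 1 := by
  classical
  have hg : g ∈ Subgroup.closure (Set.range γ) := hγ ▸ Subgroup.mem_top g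
  induction hg using Subgroup.closure_induction with
  | mem x hx =>
    obtain ⟨s, rfl⟩ := hx
    exact ⟨_, dv_aux_single s⟩
  | one => exact ⟨0, by simp [dv_aux_bd, MonoidAlgebra.one_def]⟩
  | mul a b _ _ ha hb =>
    obtain ⟨y, hy⟩ := ha
    obtain ⟨y', hy'⟩ := hb
    refine ⟨y + (MonoidAlgebra.single a 1 : MonoidAlgebra ℤ G) • y', ?_⟩
    rw [dv_aux_add, dv_aux_smul, hy, hy', mul_sub, MonoidAlgebra.single_mul_single, mul_one,
      mul_one]
    abel
  | inv a _ ha =>
    obtain ⟨y, hy⟩ := ha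
    refine ⟨(-MonoidAlgebra.single a⁻¹ 1 : MonoidAlgebra ℤ G) • y, ?_⟩
    rw [dv_aux_smul, hy, neg_mul, mul_sub, MonoidAlgebra.single_mul_single, inv_mul_cancel,
      mul_one, mul_one, neg_sub, MonoidAlgebra.one_def]

theorem dv_aux_aug_add (a b : MonoidAlgebra ℤ G) : aug (a + b) = aug a + aug b := by
  unfold aug
  rw [MonoidAlgebra.coeff_add]
  exact Finsupp.sum_add_index' (fun _ => rfl) fun _ _ _ => rfl

omit [Group G] in
theorem dv_aux_aug_single (g : G) (n : ℤ) : aug (MonoidAlgebra.single g n) = n := by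
  unfold aug
  rw [MonoidAlgebra.coeff_single]
  exact Finsupp.sum_single_index rfl

theorem dv_aux_aug_zero : aug (0 : MonoidAlgebra ℤ G) = 0 := by
  simp [aug]

theorem dv_aux_aug_gen (g : G) :
    aug (MonoidAlgebra.single g 1 - 1 : MonoidAlgebra ℤ G) = 0 := by
  have h := dv_aux_aug_add (MonoidAlgebra.single g 1 - 1 : MonoidAlgebra ℤ G) 1
  rw [sub_add_cancel, MonoidAlgebra.one_def, dv_aux_aug_single, dv_aux_aug_single] at h
  rw [MonoidAlgebra.one_def]
  omega

theorem dv_aux_ker (hγ : Subgroup.closure (Set.range γ) = ⊤) (x : MonoidAlgebra ℤ G) :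
    ∃ y, dv_aux_bd γ y = x - MonoidAlgebra.single 1 (aug x) := by
  induction x using MonoidAlgebra.induction_linear with
  | zero => exact ⟨0, by simp [dv_aux_bd, dv_aux_aug_zero]⟩
  | add a b ha hb =>
    obtain ⟨y, hy⟩ := ha
    obtain ⟨y', hy'⟩ := hb
    refine ⟨y + y', ?_⟩
    rw [dv_aux_add, hy, hy', dv_aux_aug_add, MonoidAlgebra.single_add]
    abel
  | single g n =>
    obtain ⟨y, hy⟩ := dv_aux_w hγ g
    refine ⟨(MonoidAlgebra.single 1 n : MonoidAlgebra ℤ G) • y, ?_⟩
    rw [dv_aux_smul, hy, dv_aux_aug_single, mul_sub, MonoidAlgebra.single_mul_single, one_mul,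
      mul_one, mul_one]

/-- cycles over the division ring are spanned by integral cycles -/
theorem dv_aux_span (h : Der ι ⊤) (hγ : Subgroup.closure (Set.range γ) = ⊤) (x : S → D)
    (hx : ∑ s, x s * (ι (γ s) - 1) = 0) :
    x ∈ Submodule.span D ((fun z s => zi ι (z s)) '' {z | dv_aux_bd γ z = 0}) := by
  classical
  by_contra hn
  obtain ⟨u, hu, hZ⟩ := Submodule.exists_le_ker_of_notMem hn
  choose w hw using dv_aux_w hγ
  have hz : ∀ z, dv_aux_bd γ z = 0 → u (fun s => zi ι (z s)) = 0 := fun z hz =>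
    hZ (Submodule.subset_span ⟨z, hz, rfl⟩)
  have h1 : ∀ g, zi ι (MonoidAlgebra.single g 1) = ι g := fun g => by
    rw [zi_single, Int.cast_one, one_mul]
  obtain ⟨d, hd⟩ := h (fun g => u fun s => zi ι (w g s)) fun g _ k _ => by
    have h2 := hz (w (g * k) - (w g + (MonoidAlgebra.single g 1 : MonoidAlgebra ℤ G) • w k)) (by
      rw [dv_aux_sub, dv_aux_add, dv_aux_smul, hw, hw, hw, mul_sub,
        MonoidAlgebra.single_mul_single, mul_one, mul_one]
      abel)
    have h3 : (fun s => zi ι ((w (g * k) -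
        (w g + (MonoidAlgebra.single g 1 : MonoidAlgebra ℤ G) • w k)) s)) =
        (fun s => zi ι (w (g * k) s)) - ((fun s => zi ι (w g s)) + ι g • fun s => zi ι (w k s)) := by
      funext s
      simp only [Pi.sub_apply, Pi.add_apply, Pi.smul_apply, smul_eq_mul, map_sub, map_add, map_mul,
        h1]
    rw [h3, map_sub, map_add, map_smul, sub_eq_zero, smul_eq_mul] at h2
    exact h2
  have h4 : ∀ s, u (Pi.single s 1) = (ι (γ s) - 1) * d := fun s => by
    have h2 := hz (w (γ s) - Pi.single s 1) (by rw [dv_aux_sub, hw, dv_aux_single, sub_self])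
    have h3 : (fun t => zi ι ((w (γ s) - Pi.single s 1 : S → MonoidAlgebra ℤ G) t)) =
        (fun t => zi ι (w (γ s) t)) - Pi.single s 1 := by
      funext t
      rw [Pi.sub_apply, Pi.sub_apply, map_sub]
      by_cases ht : t = s
      · rw [ht, Pi.single_eq_same, Pi.single_eq_same, map_one]
      · rw [Pi.single_eq_of_ne ht, Pi.single_eq_of_ne ht, map_zero]
    rw [h3, map_sub, sub_eq_zero] at h2
    rw [← h2]
    exact hd _ (Subgroup.mem_top _)
  apply hu
  have h5 : x = ∑ s, x s • (Pi.single s 1 : S → D) := by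
    funext t
    simp [Finset.sum_apply, Pi.single_apply]
  rw [h5, map_sum]
  simp only [map_smul, h4, smul_eq_mul, ← mul_assoc]
  rw [← Finset.sum_mul, hx, zero_mul]

end

/-- the differential of a presentation complex -/
noncomputable def dv_aux_mat {S K : Type} (γ : S → G) (z : K → S → MonoidAlgebra ℤ G) :
    Matrix (Unit ⊕ S ⊕ K) (Unit ⊕ S ⊕ K) (MonoidAlgebra ℤ G)
  | .inr (.inl s), .inl _ => MonoidAlgebra.single (γ s) 1 - 1
  | .inr (.inr k), .inr (.inl s) => z k s
  | _, _ => 0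

/-- the degrees of a presentation complex -/
def dv_aux_deg {S K : Type} : Unit ⊕ S ⊕ K → ℤ
  | .inl _ => 0
  | .inr (.inl _) => 1
  | .inr (.inr _) => 2

theorem exists_B [Group.FG G] (h : Der ι ⊤) : ∃ (J : Type) (_ : Fintype J) (_ : DecidableEq J)
    (dj : J → ℤ) (b : Matrix J J (MonoidAlgebra ℤ G)), ResTo 1 dj b ∧ DEx (zi ι) dj b := by
  classical
  obtain ⟨T, hT⟩ := Group.fg_def.1 (inferInstance : Group.FG G)
  let γ : T → G := Subtype.val
  have hγ : Subgroup.closure (Set.range γ) = ⊤ := by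
    rw [← hT]
    congr 1
    ext g
    simp [γ]
  obtain ⟨F, hF, e⟩ := (Submodule.fg_span_iff_fg_span_finset_subset _).1
    (IsNoetherian.noetherian (Submodule.span D
      ((fun (z : T → MonoidAlgebra ℤ G) s => zi ι (z s)) '' {z | dv_aux_bd γ z = 0})))
  choose z hz hz' using fun k : F => hF k.2
  have h1 : ∀ g, zi ι (MonoidAlgebra.single g 1) = ι g := fun g => by
    rw [zi_single, Int.cast_one, one_mul]
  refine ⟨Unit ⊕ T ⊕ F, inferInstance, inferInstance, dv_aux_deg, dv_aux_mat γ z,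
    ⟨?_, ?_, ?_, Sum.elim (fun _ => 1) fun _ => 0, ?_, ⟨fun _ => 1, by simp⟩, ?_, ?_⟩, ?_⟩
  · rintro (_ | _ | _) <;> simp [dv_aux_deg]
  · rintro (_ | _ | _) (_ | _ | _) <;> simp [dv_aux_deg, dv_aux_mat]
  · ext1 i j
    rw [Matrix.mul_apply, Fintype.sum_sum_type, Fintype.sum_sum_type]
    rcases i with _ | _ | k <;> rcases j with _ | _ | _ <;>
      simp only [dv_aux_mat, mul_zero, zero_mul, Finset.sum_const_zero, add_zero, zero_add,
        Matrix.zero_apply]
    exact hz k
  · rintro (_ | _ | _) <;> simp [dv_aux_deg]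
  · rintro (_ | _ | _) <;> simp [dv_aux_mat, dv_aux_aug_zero, dv_aux_aug_gen]
  · intro x hx _ ha
    have ha' : aug (x (.inl ())) = 0 := by simpa using ha
    obtain ⟨y, hy⟩ := dv_aux_ker hγ (x (.inl ()))
    rw [ha', MonoidAlgebra.single_zero, sub_zero] at hy
    refine ⟨Sum.elim 0 (Sum.elim y 0), funext fun j => ?_⟩
    rw [Matrix.vecMul, dotProduct, Fintype.sum_sum_type, Fintype.sum_sum_type]
    rcases j with _ | s | k
    · simp only [dv_aux_mat, Sum.elim_inl, Sum.elim_inr, mul_zero, Finset.sum_const_zero,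
        add_zero, zero_add]
      exact hy
    · rw [hx (.inr (.inl s)) (by simp [dv_aux_deg])]
      simp [dv_aux_mat]
    · rw [hx (.inr (.inr k)) (by simp [dv_aux_deg])]
      simp [dv_aux_mat]
  · intro x hx hb
    have h2 := congrFun hb (.inl ())
    rw [Matrix.vecMul, dotProduct, Fintype.sum_sum_type, Fintype.sum_sum_type] at h2
    simp only [Matrix.map_apply, dv_aux_mat, map_zero, mul_zero, Finset.sum_const_zero, add_zero,
      zero_add, map_sub, map_one, h1, Pi.zero_apply] at h2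
    have h3 := dv_aux_span h hγ (fun s => x (.inr (.inl s))) h2
    rw [e, Submodule.mem_span_finset] at h3
    obtain ⟨c, -, hc⟩ := h3
    refine ⟨Sum.elim 0 (Sum.elim 0 fun k => c k), funext fun j => ?_⟩
    rw [Matrix.vecMul, dotProduct, Fintype.sum_sum_type, Fintype.sum_sum_type]
    rcases j with _ | s | k
    · rw [hx (.inl _) (by simp [dv_aux_deg])]
      simp [dv_aux_mat]
    · have h4 := congrFun hc s
      rw [Finset.sum_apply, ← Finset.sum_coe_sort] at h4
      simp only [Matrix.map_apply, dv_aux_mat, Sum.elim_inl, Sum.elim_inr, map_zero, mul_zero,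
        Finset.sum_const_zero, zero_add]
      rw [← h4]
      refine Finset.sum_congr rfl fun k _ => ?_
      rw [Pi.smul_apply, smul_eq_mul, ← congrFun (hz' k) s]
    · rw [hx (.inr (.inr k)) (by simp [dv_aux_deg])]
      simp [dv_aux_mat]

end Pool.Agent.Lib.MP_fd3021_gt.Rf
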