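import Pool.Agent.Lib.MP_fd3021_gt.Rf.LinA

/-! Linear algebra over a division ring. -/

namespace Pool.Agent.Lib.MP_fd3021_gt.Rf

open Matrix Filter

variable {R E J : Type} [Ring R] [DivisionRing E] [Fintype J] {ρ : R →+* E} {dj : J → ℤ}
  {b : Matrix J J R}

/-- rows supported in one degree -/
theorem lin_aux_sub {S : Type} [Ring S] {p : ℤ} (x : J → S) (hx : ∀ i, dj i ≠ p → x i = 0)
    (M : Matrix J J S) (k : {i // dj i = p}) :
    ((fun i : {i // dj i = p} => x i) ᵥ* M.submatrix (↑) (↑)) k = (x ᵥ* M) k := by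
  classical
  simp only [vecMul, dotProduct, submatrix_apply]
  rw [← Fintype.sum_subtype_add_sum_subtype (fun i => dj i = p) fun i => x i * M i k]
  rw [Finset.sum_eq_zero (s := (Finset.univ : Finset {i // ¬ dj i = p}))
    fun i _ => by rw [hx i i.2, zero_mul], add_zero]

section star

variable {Γ : Type} [Group Γ]

/-- the involution of the group ring -/
noncomputable def lin_aux_st : MonoidAlgebra ℤ Γ →+ MonoidAlgebra ℤ Γ where
  toFun a := a.mapDomain (·⁻¹)
  map_zero' := MonoidAlgebra.mapDomain_zero _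
  map_add' := MonoidAlgebra.mapDomain_add _

theorem lin_aux_single (g : Γ) (c : ℤ) :
    lin_aux_st (MonoidAlgebra.single g c) = MonoidAlgebra.single g⁻¹ c :=
  MonoidAlgebra.mapDomain_single

theorem lin_aux_coeff (a : MonoidAlgebra ℤ Γ) (g : Γ) : (lin_aux_st a).coeff g⁻¹ = a.coeff g :=
  Finsupp.mapDomain_apply (inv_injective (G := Γ)) a.coeff g

theorem lin_aux_st_st (a : MonoidAlgebra ℤ Γ) : lin_aux_st (lin_aux_st a) = a := by
  ext g
  have h1 := lin_aux_coeff (lin_aux_st a) g⁻¹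
  rw [inv_inv] at h1
  exact h1.trans (lin_aux_coeff a g)

theorem lin_aux_mul (a c : MonoidAlgebra ℤ Γ) :
    lin_aux_st (a * c) = lin_aux_st c * lin_aux_st a := by
  induction a using MonoidAlgebra.induction_linear with
  | zero => simp
  | add a a' h h' => rw [add_mul, map_add, map_add, mul_add, h, h']
  | single g r =>
    induction c using MonoidAlgebra.induction_linear with
    | zero => simp
    | add c c' h h' => rw [mul_add, map_add, map_add, add_mul, h, h']
    | single g' r' =>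
      simp only [MonoidAlgebra.single_mul_single, lin_aux_single, _root_.mul_inv_rev, mul_comm r r']

/-- the scalar product of two rows -/
noncomputable def lin_aux_ip (u v : J → MonoidAlgebra ℤ Γ) : ℤ :=
  (∑ i, u i * lin_aux_st (v i)).coeff 1

theorem lin_aux_ip_adj (u v : J → MonoidAlgebra ℤ Γ) (M : Matrix J J (MonoidAlgebra ℤ Γ)) :
    lin_aux_ip (u ᵥ* M) v = lin_aux_ip u (v ᵥ* adj M) := by
  unfold lin_aux_ip
  congr 2
  simp only [vecMul, dotProduct, map_sum, lin_aux_mul, Finset.sum_mul, Finset.mul_sum]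
  rw [Finset.sum_comm]
  refine Finset.sum_congr rfl fun i _ => Finset.sum_congr rfl fun k _ => ?_
  rw [show lin_aux_st (adj M k i) = M i k from lin_aux_st_st (M i k), mul_assoc]

theorem lin_aux_ip_self (u : J → MonoidAlgebra ℤ Γ) :
    lin_aux_ip u u = ∑ i, ∑ g ∈ (u i).coeff.support, (u i).coeff g * (u i).coeff g := by
  unfold lin_aux_ip
  rw [MonoidAlgebra.coeff_sum, Finsupp.finsetSum_apply]
  refine Finset.sum_congr rfl fun i _ => ?_
  rw [MonoidAlgebra.coeff_mul_apply_left, Finsupp.sum]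
  refine Finset.sum_congr rfl fun g _ => ?_
  rw [mul_one, lin_aux_coeff]

theorem lin_aux_ip_nonneg (u : J → MonoidAlgebra ℤ Γ) : 0 ≤ lin_aux_ip u u := by
  rw [lin_aux_ip_self]
  exact Finset.sum_nonneg fun i _ => Finset.sum_nonneg fun g _ => mul_self_nonneg _

theorem lin_aux_ip_zero {u : J → MonoidAlgebra ℤ Γ} (h : lin_aux_ip u u = 0) : u = 0 := by
  rw [lin_aux_ip_self, Finset.sum_eq_zero_iff_of_nonneg
    fun i _ => Finset.sum_nonneg fun g _ => mul_self_nonneg _] at h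
  funext i
  have h1 := (Finset.sum_eq_zero_iff_of_nonneg fun g _ => mul_self_nonneg _).1
    (h i (Finset.mem_univ i))
  ext g
  by_contra h2
  exact h2 (mul_self_eq_zero.1 (h1 g (Finsupp.mem_support_iff.2 h2)))

omit [Fintype J] in
theorem lin_aux_adj_adj (c : Matrix J J (MonoidAlgebra ℤ Γ)) : adj (adj c) = c := by
  funext i j
  exact lin_aux_st_st (c i j)

end star

theorem dex_of_lap {G : Type} [Group G] {ρ : MonoidAlgebra ℤ G →+* E}
    {b : Matrix J J (MonoidAlgebra ℤ G)} (hg : ∀ i j, b i j ≠ 0 → dj i = dj j + 1)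
    (hb : b * b = 0) (h : ∀ x, x ᵥ* (lap dj b 1).map ρ = 0 → x = 0) : DEx ρ dj b := by
  obtain ⟨B, hB⟩ : ∃ B, B = b.map ρ := ⟨_, rfl⟩
  obtain ⟨A, hA⟩ : ∃ A, A = (adj b).map ρ := ⟨_, rfl⟩
  have hBB : B * B = 0 := by
    rw [hB, ← Matrix.map_mul, hb, Matrix.map_zero _ (map_zero ρ)]
  have hAB : ∀ i k, dj i ≠ dj k → (A * B) i k = 0 := fun i k hik => by
    rw [Matrix.mul_apply]
    refine Finset.sum_eq_zero fun j _ => ?_
    by_cases h1 : b j i = 0
    · have h2 : adj b i j = 0 := by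
        change lin_aux_st (b j i) = 0
        rw [h1, map_zero]
      rw [hA, Matrix.map_apply, h2, map_zero, zero_mul]
    by_cases h2 : b j k = 0
    · rw [hB, Matrix.map_apply, h2, map_zero, mul_zero]
    have h3 := hg j i h1
    have h4 := hg j k h2
    omega
  let Z : Submodule E (J → E) :=
    { carrier := {x | (∀ i, dj i ≠ 1 → x i = 0) ∧ x ᵥ* B = 0}
      add_mem' := fun {x y} hx hy => ⟨fun i hi => by rw [Pi.add_apply, hx.1 i hi, hy.1 i hi, add_zero],
        by rw [add_vecMul, hx.2, hy.2, add_zero]⟩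
      zero_mem' := ⟨fun _ _ => rfl, zero_vecMul B⟩
      smul_mem' := fun c x hx => ⟨fun i hi => by rw [Pi.smul_apply, hx.1 i hi, smul_zero],
        by rw [smul_vecMul, hx.2, smul_zero]⟩ }
  have hZ : ∀ x ∈ Z, (A * B).vecMulLinear x ∈ Z := fun x hx => by
    refine ⟨fun k hk => ?_, ?_⟩
    · change ∑ i, x i * (A * B) i k = 0
      refine Finset.sum_eq_zero fun i _ => ?_
      by_cases hi : dj i = 1
      · rw [hAB i k (hi ▸ Ne.symm hk), mul_zero]
      · rw [hx.1 i hi, zero_mul]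
    · change (x ᵥ* (A * B)) ᵥ* B = 0
      rw [vecMul_vecMul, Matrix.mul_assoc, hBB, Matrix.mul_zero, vecMul_zero]
  have hinj : Function.Injective ((A * B).vecMulLinear.restrict hZ) := by
    rw [injective_iff_map_eq_zero]
    intro z hz
    have h1 : z.1 ᵥ* (A * B) = 0 := congrArg Subtype.val hz
    have h2 : (lap dj b 1).map ρ = (A * B + B * A).submatrix (↑) (↑) := by
      rw [hA, hB, ← Matrix.map_mul, ← Matrix.map_mul, ← Matrix.map_add _ (map_add ρ)]
      rfl
    have h3 := h (fun i => z.1 i) (funext fun k => by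
      rw [h2, lin_aux_sub z.1 z.2.1, vecMul_add, h1, ← vecMul_vecMul, z.2.2, zero_vecMul, add_zero]
      rfl)
    refine Subtype.ext (funext fun i => ?_)
    by_cases hi : dj i = 1
    · exact congrFun h3 ⟨i, hi⟩
    · exact z.2.1 i hi
  intro x hx h0
  rw [← hB] at h0 ⊢
  obtain ⟨z, hz⟩ := LinearMap.injective_iff_surjective.1 hinj ⟨x, hx, h0⟩
  exact ⟨z.1 ᵥ* A, (vecMul_vecMul _ _ _).trans (congrArg Subtype.val hz)⟩

/-- positivity: exactness up to denominators makes the Laplacian injective -/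
theorem lap_inj {Γ : Type} [Group Γ] [NoZeroDivisors (MonoidAlgebra ℤ Γ)]
    {b : Matrix J J (MonoidAlgebra ℤ Γ)} (hg : ∀ i j, b i j ≠ 0 → dj i = dj j + 1)
    (h : ∀ x : J → MonoidAlgebra ℤ Γ, (∀ i, dj i ≠ 1 → x i = 0) → x ᵥ* b = 0 →
      ∃ s : MonoidAlgebra ℤ Γ, s ≠ 0 ∧ ∃ y, y ᵥ* b = s • x) :
    ∀ x, x ᵥ* lap dj b 1 = 0 → x = 0 := by
  classical
  intro x hx
  obtain ⟨z, hz, rfl⟩ : ∃ z : J → MonoidAlgebra ℤ Γ, (∀ i, dj i ≠ 1 → z i = 0) ∧
      x = fun i : {i // dj i = 1} => z i :=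
    ⟨fun i => if h : dj i = 1 then x ⟨i, h⟩ else 0, fun i hi => dif_neg hi,
      funext fun i => by simp only [dif_pos i.2]⟩
  have h1 : lin_aux_ip (z ᵥ* (adj b * b + b * adj b)) z = 0 := by
    unfold lin_aux_ip
    rw [Finset.sum_eq_zero fun k _ => ?_]
    · rfl
    by_cases hk : dj k = 1
    · rw [← lin_aux_sub z hz _ ⟨k, hk⟩]
      exact mul_eq_zero_of_left (congrFun hx ⟨k, hk⟩) _
    · rw [hz k hk, map_zero, mul_zero]
  have h2 : lin_aux_ip (z ᵥ* (adj b * b + b * adj b)) z =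
      lin_aux_ip (z ᵥ* adj b) (z ᵥ* adj b) + lin_aux_ip (z ᵥ* b) (z ᵥ* b) := by
    have h3 := lin_aux_ip_adj (z ᵥ* b) z (adj b)
    rw [lin_aux_adj_adj] at h3
    rw [← lin_aux_ip_adj, ← h3, vecMul_add, vecMul_vecMul, vecMul_vecMul]
    simp only [lin_aux_ip, Pi.add_apply, add_mul, Finset.sum_add_distrib, MonoidAlgebra.coeff_add,
      Finsupp.add_apply]
  have h4 := lin_aux_ip_nonneg (z ᵥ* adj b)
  have h5 := lin_aux_ip_nonneg (z ᵥ* b)
  have h6 : z ᵥ* adj b = 0 := lin_aux_ip_zero (by omega)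
  obtain ⟨s, s0, y, hy⟩ := h z hz (lin_aux_ip_zero (by omega))
  have h7 : s • z = 0 := lin_aux_ip_zero (by
    rw [show lin_aux_ip (s • z) (s • z) = lin_aux_ip (y ᵥ* b) (s • z) by rw [hy],
      lin_aux_ip_adj, smul_vecMul, h6, smul_zero]
    simp [lin_aux_ip])
  funext i
  exact (mul_eq_zero.1 (congrFun h7 i)).resolve_left s0

theorem lap_map {K G : Type} [Group K] [Group G] (j : K →* G)
    (b : Matrix J J (MonoidAlgebra ℤ K)) (p : ℤ) :
    lap dj (b.map (md j)) p = (lap dj b p).map (md j) := by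
  have h : adj (b.map (md j)) = (adj b).map (md j) := by
    funext k i
    apply MonoidAlgebra.ext
    change Finsupp.mapDomain (·⁻¹) (Finsupp.mapDomain j (b i k).coeff) =
      Finsupp.mapDomain j (Finsupp.mapDomain (·⁻¹) (b i k).coeff)
    rw [← Finsupp.mapDomain_comp, ← Finsupp.mapDomain_comp]
    exact congrArg (fun f => Finsupp.mapDomain f (b i k).coeff)
      (funext fun g => (map_inv j g).symm)
  unfold lap
  rw [h, ← Matrix.map_mul, ← Matrix.map_mul, ← Matrix.map_add _ (map_add _)]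
  rfl

theorem isSpec_map {K G : Type} [Group K] [Group G] [DecidableEq J] (j : K →* G)
    (hj : Function.Injective j) (A : Matrix J J (MonoidAlgebra ℤ K))
    (μ : MeasureTheory.Measure ℝ) : IsSpec (A.map (md j)) μ ↔ IsSpec A μ := by
  have h : ∀ k : ℕ, ∑ i, ((((A.map (md j) ^ k) i i).coeff 1 : ℤ) : ℝ) =
      ∑ i, ((((A ^ k) i i).coeff 1 : ℤ) : ℝ) := fun k => by
    rw [← Matrix.map_pow]
    refine Finset.sum_congr rfl fun i _ => ?_
    have h1 := Finsupp.mapDomain_apply hj ((A ^ k) i i).coeff 1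
    rw [map_one] at h1
    exact congrArg _ h1
  simp only [IsSpec, h]

end Pool.Agent.Lib.MP_fd3021_gt.Rf
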