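import Pool.Agent.Lib.MP_fd3021_gt.Rf.Supp
import Pool.Agent.Lib.MP_fd3021_gt.Rf.Lin

/-! Derivations and finite complexes. -/

namespace Pool.Agent.Lib.MP_fd3021_gt.Rf

open Matrix Filter

variable {G D : Type} [Group G] [DivisionRing D] {ι : G →* D}

/-- the additive extension of a function on the group -/
noncomputable def DvA_aux_ext (δ : G → D) : MonoidAlgebra ℤ G →+ D where
  toFun a := a.coeff.sum fun g n => (n : D) * δ g
  map_zero' := by simp
  map_add' a b := by
    rw [MonoidAlgebra.coeff_add]
    exact Finsupp.sum_add_index' (by simp) (by simp [add_mul])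

theorem DvA_aux_single (δ : G → D) (g : G) (n : ℤ) :
    DvA_aux_ext δ (MonoidAlgebra.single g n) = (n : D) * δ g := by
  change (MonoidAlgebra.single g n).coeff.sum (fun g n => (n : D) * δ g) = _
  rw [MonoidAlgebra.coeff_single]
  exact Finsupp.sum_single_index (by simp)

theorem DvA_aux_aug_single (g : G) (n : ℤ) : aug (MonoidAlgebra.single g n) = n := by
  rw [aug, MonoidAlgebra.coeff_single]
  exact Finsupp.sum_single_index rfl

theorem DvA_aux_aug_add (a b : MonoidAlgebra ℤ G) : aug (a + b) = aug a + aug b := by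
  rw [aug, MonoidAlgebra.coeff_add]
  exact Finsupp.sum_add_index' (by simp) (by simp)

theorem DvA_aux_aug_zero : aug (0 : MonoidAlgebra ℤ G) = 0 := by simp [aug]

theorem DvA_aux_aug_sub (a b : MonoidAlgebra ℤ G) : aug (a - b) = aug a - aug b := by
  have := DvA_aux_aug_add (a - b) b
  rw [sub_add_cancel] at this
  omega

theorem DvA_aux_mul {δ : G → D} (hδ : ∀ g h, δ (g * h) = δ g + ι g * δ h)
    (a b : MonoidAlgebra ℤ G) :
    DvA_aux_ext δ (a * b) = DvA_aux_ext δ a * (aug b : D) + zi ι a * DvA_aux_ext δ b := by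
  induction a using MonoidAlgebra.induction_linear with
  | zero => simp
  | add a a' h h' => simp only [add_mul, map_add, h, h']; abel
  | single g m =>
    induction b using MonoidAlgebra.induction_linear with
    | zero => simp [DvA_aux_aug_zero]
    | add b b' h h' =>
      simp only [mul_add, map_add, h, h', DvA_aux_aug_add, Int.cast_add]; abel
    | single h n =>
      rw [MonoidAlgebra.single_mul_single, DvA_aux_single, DvA_aux_single, DvA_aux_single,
        DvA_aux_aug_single, zi_single, hδ, Int.cast_mul, mul_add, mul_assoc (m : D) (δ g),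
        ← Int.cast_comm n (δ g), mul_assoc (m : D) (ι g), ← mul_assoc (ι g),
        ← Int.cast_comm n (ι g)]
      simp only [mul_assoc]

theorem der_of_dex {J : Type} [Fintype J] {dj : J → ℤ} {b : Matrix J J (MonoidAlgebra ℤ G)}
    (hb : ResTo 1 dj b) (h : DEx (zi ι) dj b) : Der ι ⊤ := by
  classical
  obtain ⟨h0, hg, hbb, ε, hε, ⟨x0, hx0⟩, haug, hex⟩ := hb
  intro δ hδ'
  have hδ : ∀ g h, δ (g * h) = δ g + ι g * δ h := fun g h => hδ' g trivial h trivial
  have hδ1 : δ 1 = 0 := by
    have := hδ 1 1
    rw [mul_one, map_one, one_mul] at this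
    exact left_eq_add.1 this
  let u : J → D := fun i => ∑ j, DvA_aux_ext δ (b i j) * (ε j : D)
  have key : ∀ y : J → MonoidAlgebra ℤ G,
      ∑ j, DvA_aux_ext δ ((y ᵥ* b) j) * (ε j : D) = ∑ i, zi ι (y i) * u i := by
    intro y
    have e1 : ∀ j, DvA_aux_ext δ ((y ᵥ* b) j) * (ε j : D) =
        ∑ i, (DvA_aux_ext δ (y i) * ((aug (b i j) * ε j : ℤ) : D) +
          zi ι (y i) * (DvA_aux_ext δ (b i j) * (ε j : D))) := fun j => by
      simp only [vecMul, dotProduct, map_sum, Finset.sum_mul]
      refine Finset.sum_congr rfl fun i _ => ?_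
      rw [DvA_aux_mul hδ, add_mul, Int.cast_mul, mul_assoc, mul_assoc]
    rw [Finset.sum_congr rfl fun j _ => e1 j, Finset.sum_comm]
    refine Finset.sum_congr rfl fun i _ => ?_
    rw [Finset.sum_add_distrib, ← Finset.mul_sum, ← Finset.mul_sum, ← Int.cast_sum, haug i]
    simp [u]
  have hu : ∀ i, dj i ≠ 1 → u i = 0 := fun i hi => by
    refine Finset.sum_eq_zero fun j _ => ?_
    by_cases h1 : b i j = 0
    · simp [h1]
    · have := hg i j h1
      rw [hε j (by omega)]
      simp
  have hbu : b.map (zi ι) *ᵥ u = 0 := by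
    funext k
    have h1 := key (b k)
    have h2 : b k ᵥ* b = 0 := by
      funext j
      have := congrFun (congrFun hbb k) j
      simpa [Matrix.mul_apply, vecMul, dotProduct] using this
    rw [h2] at h1
    simp only [Pi.zero_apply, map_zero, zero_mul, Finset.sum_const_zero] at h1
    simpa [mulVec, dotProduct] using h1.symm
  obtain ⟨v, hv⟩ := h.factor u hu hg hbu
  let v' : J → D := fun j => if dj j = 0 then v j else 0
  have hv' : ∀ i, ∑ j, zi ι (b i j) * v' j = u i := fun i => by
    by_cases hi : dj i = 1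
    · rw [← hv i hi]
      simp only [mulVec, dotProduct, map_apply]
      refine Finset.sum_congr rfl fun j _ => ?_
      by_cases h1 : b i j = 0
      · simp [h1]
      · have := hg i j h1
        simp only [v']
        rw [if_pos (by omega)]
    · rw [hu i hi]
      refine Finset.sum_eq_zero fun j _ => ?_
      by_cases h1 : b i j = 0
      · simp [h1]
      · have := hg i j h1
        simp only [v']
        rw [if_neg (by omega), mul_zero]
  refine ⟨∑ j, (x0 j : D) * v' j, fun g _ => ?_⟩
  let x : J → MonoidAlgebra ℤ G := fun j =>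
    if dj j = 0 then MonoidAlgebra.single g (x0 j) - MonoidAlgebra.single 1 (x0 j) else 0
  obtain ⟨y, hy⟩ := hex x (fun i hi => if_neg (by omega))
    (by
      funext j
      refine Finset.sum_eq_zero fun i _ => ?_
      by_cases h1 : b i j = 0
      · simp [h1]
      · have := hg i j h1
        have := h0 j
        simp only [x]
        rw [if_neg (by omega), zero_mul])
    (Finset.sum_eq_zero fun i _ => by
      simp only [x]
      split_ifs
      · rw [DvA_aux_aug_sub, DvA_aux_aug_single, DvA_aux_aug_single, sub_self, zero_mul]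
      · rw [DvA_aux_aug_zero, zero_mul])
  have h1 := key y
  rw [hy] at h1
  have h2 : ∑ j, DvA_aux_ext δ (x j) * (ε j : D) = δ g := by
    have e : ∀ j, DvA_aux_ext δ (x j) * (ε j : D) = δ g * ((x0 j * ε j : ℤ) : D) := fun j => by
      simp only [x]
      split_ifs with hj
      · rw [map_sub, DvA_aux_single, DvA_aux_single, hδ1, mul_zero, sub_zero, Int.cast_comm,
          Int.cast_mul, mul_assoc]
      · rw [hε j hj]
        simp
    rw [Finset.sum_congr rfl fun j _ => e j, ← Finset.mul_sum, ← Int.cast_sum, hx0]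
    simp
  have h3 : ∑ i, zi ι (y i) * u i = ∑ j, zi ι (x j) * v' j := by
    rw [← hy]
    simp only [← hv', Finset.mul_sum, vecMul, dotProduct, map_sum, map_mul, Finset.sum_mul,
      mul_assoc]
    exact Finset.sum_comm
  rw [← h2, h1, h3, Finset.mul_sum]
  refine Finset.sum_congr rfl fun j _ => ?_
  simp only [x, v']
  split_ifs
  · rw [map_sub, zi_single, zi_single, map_one, ← mul_sub, Int.cast_comm, mul_assoc]
  · simp

theorem der_map {V : Type} [Group V] (j : V →* G) (hj : Function.Injective j) (K : Subgroup V) :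
    Der (ι.comp j) K ↔ Der ι (K.map j) := by
  classical
  constructor
  · intro h δ hδ
    obtain ⟨d, hd⟩ := h (fun v => δ (j v)) fun g hg k hk => by
      rw [map_mul]
      exact hδ _ ⟨g, hg, rfl⟩ _ ⟨k, hk, rfl⟩
    exact ⟨d, by rintro _ ⟨g, hg, rfl⟩; exact hd g hg⟩
  · intro h δ hδ
    have e : ∀ v, Function.extend j δ 0 (j v) = δ v := fun v => hj.extend_apply _ _ v
    obtain ⟨d, hd⟩ := h (Function.extend j δ 0) (by
      rintro _ ⟨g, hg, rfl⟩ _ ⟨k, hk, rfl⟩
      rw [← map_mul, e, e, e]
      exact hδ g hg k hk)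
    exact ⟨d, fun g hg => (e g).symm.trans (hd _ ⟨g, hg, rfl⟩)⟩

theorem ResTo_mono {J : Type} [Fintype J] {dj : J → ℤ} {b : Matrix J J (MonoidAlgebra ℤ G)}
    {r r' : ℤ} (h : r' ≤ r) (hb : ResTo r dj b) : ResTo r' dj b := by
  obtain ⟨h0, hg, hbb, ε, hε, hx0, haug, hex⟩ := hb
  exact ⟨h0, hg, hbb, ε, hε, hx0, haug, fun x hx => hex x fun i hi => hx i (h.trans hi)⟩

end Pool.Agent.Lib.MP_fd3021_gt.Rf
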