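import Pool.Agent.Lib.MP_fd3021_gt.Rf.Supp
import Pool.Agent.Lib.MP_fd3021_gt.Rf.Dbl

/-! The Ore field of one stage. -/

namespace Pool.Agent.Lib.MP_fd3021_gt.Rf

open Matrix Filter

variable {G : Type} [Group G]

theorem Stage.up (S : Stage G) : UniqueProds (G ⧸ S.N) := by
  classical
  let r : G ⧸ S.N → G ⧸ S.N → Prop := fun a b => ∃ p ∈ S.P, (p : G ⧸ S.N) = b * a⁻¹
  have h0 : ∀ a, ¬ r a a := fun a ⟨p, hp, e⟩ =>
    S.disj p hp ((QuotientGroup.eq_one_iff p).1 (by rw [e, mul_inv_cancel]))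
  have h1 : ∀ a b c, r a b → r b c → r a c := fun a b c ⟨p, hp, e⟩ ⟨q, hq, e'⟩ =>
    ⟨q * p, S.mul q hq p hp, by rw [QuotientGroup.mk_mul, e, e']; group⟩
  have h2 : ∀ a b, r a b ∨ a = b ∨ r b a := fun a b => by
    obtain ⟨g, hg⟩ := QuotientGroup.mk_surjective (b * a⁻¹)
    rcases S.tri g with h | h | h
    · exact .inl ⟨g, h, hg⟩
    · rw [(QuotientGroup.eq_one_iff g).2 h] at hg
      exact .inr (.inl (mul_inv_eq_one.1 hg.symm).symm)
    · exact .inr (.inr ⟨g⁻¹, h, by rw [QuotientGroup.mk_inv, hg]; group⟩)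
  have : IsStrictTotalOrder (G ⧸ S.N) r :=
    { irrefl := h0
      trans := h1
      trichotomous := fun a b hab hba => ((h2 a b).resolve_left hab).resolve_right hba }
  let := linearOrderOfSTO r
  have : MulRightStrictMono (G ⧸ S.N) := ⟨fun c a b (⟨p, hp, e⟩ : r a b) =>
    (⟨p, hp, by rw [e]; simp [Function.swap, mul_assoc]⟩ : r (a * c) (b * c))⟩
  infer_instance

theorem Stage.nzd (S : Stage G) : NoZeroDivisors (MonoidAlgebra ℤ (G ⧸ S.N)) :=
  haveI := S.up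
  inferInstance

theorem exa_aux_comm (S : Stage G) : ∀ a ∈ S.A.map (QuotientGroup.mk' S.N),
    ∀ b ∈ S.A.map (QuotientGroup.mk' S.N), a * b = b * a := by
  rintro _ ⟨a, ha, rfl⟩ _ ⟨b, hb, rfl⟩
  have := (QuotientGroup.eq_one_iff _).2 (S.comm a ha b hb)
  simp only [QuotientGroup.mk_mul, QuotientGroup.mk_inv, mul_inv_eq_iff_eq_mul, one_mul] at this
  exact this

instance exa_aux_normal (S : Stage G) : (S.A.map (QuotientGroup.mk' S.N)).Normal :=
  S.nA.map _ (QuotientGroup.mk'_surjective _)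

instance exa_aux_fi (S : Stage G) : (S.A.map (QuotientGroup.mk' S.N)).FiniteIndex :=
  ⟨fun e => S.fi.1 (Nat.eq_zero_of_zero_dvd
    (e ▸ S.A.index_map_dvd (QuotientGroup.mk'_surjective S.N)))⟩

theorem exa_aux_ore (S : Stage G) (M : Subgroup (G ⧸ S.N)) (a b : MonoidAlgebra ℤ M) (hb : b ≠ 0) :
    ∃ s t, s ≠ 0 ∧ s * a = t * b :=
  haveI : UniqueProds M := .of_injective_mulHom M.subtype.toMulHom M.subtype_injective S.up
  ore_int ((S.A.map (QuotientGroup.mk' S.N)).subgroupOf M)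
    (fun a ha b hb => Subtype.ext (exa_aux_comm S _ ha _ hb)) a b hb

theorem exa_aux_range {R E : Type} [Ring R] [DivisionRing E] (μ : R →+* E)
    (ho : ∀ a b : R, b ≠ 0 → ∃ s t, s ≠ 0 ∧ s * a = t * b) (hμ : ∀ x, x ≠ 0 → μ x ≠ 0) :
    ∀ a ∈ μ.range, ∀ b ∈ μ.range, b ≠ 0 →
      ∃ s ∈ μ.range, ∃ t ∈ μ.range, s ≠ 0 ∧ s * a = t * b := by
  rintro _ ⟨a, rfl⟩ _ ⟨b, rfl⟩ hb
  obtain ⟨s, t, h1, h2⟩ := ho a b fun e => hb (by rw [e, map_zero])
  exact ⟨_, ⟨s, rfl⟩, _, ⟨t, rfl⟩, hμ s h1, by rw [← map_mul, h2, map_mul]⟩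

theorem Stage.field (S : Stage G) : ∃ (E : Type) (_ : DivisionRing E)
    (ρ : MonoidAlgebra ℤ (G ⧸ S.N) →+* E), Function.Injective ρ ∧
      ∀ X : Finset E, ∃ s, s ≠ 0 ∧ ∀ x ∈ X, ∃ a, ρ s * x = ρ a := by
  have := S.nzd
  have ho : ∀ a b : MonoidAlgebra ℤ (G ⧸ S.N), b ≠ 0 → ∃ s t, s ≠ 0 ∧ s * a = t * b :=
    ore_int (S.A.map (QuotientGroup.mk' S.N)) (exa_aux_comm S)
  obtain ⟨o⟩ := (OreLocalization.nonempty_oreSet_iff_of_noZeroDivisors
    (S := nonZeroDivisors (MonoidAlgebra ℤ (G ⧸ S.N)))).2 fun r s => by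
      obtain ⟨a, b, h1, h2⟩ := ho r s (nonZeroDivisors.coe_ne_zero s)
      exact ⟨b, ⟨a, mem_nonZeroDivisors_of_ne_zero h1⟩, h2⟩
  let ρ : MonoidAlgebra ℤ (G ⧸ S.N) →+* OreLocalization (nonZeroDivisors _) _ :=
    OreLocalization.numeratorRingHom
  have hρ : Function.Injective ρ :=
    OreLocalization.numeratorHom_inj fun x hx => (mem_nonZeroDivisors_iff.1 hx).1
  refine ⟨_, inferInstance, ρ, hρ, fun X => ?_⟩
  obtain ⟨_, ⟨s, rfl⟩, h1, h2⟩ := frac_closure ρ.range (exa_aux_range ρ ho fun x hx =>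
    (map_ne_zero_iff ρ hρ).2 hx) X fun x _ => by
      induction x using OreLocalization.ind with
      | _ r s =>
      have h3 : ρ s * (OreLocalization.oreDiv r s) = ρ r := OreLocalization.mul_cancel
      have h4 : ρ s ≠ 0 := (map_ne_zero_iff ρ hρ).2 (nonZeroDivisors.coe_ne_zero s)
      rw [← inv_mul_cancel_left₀ h4 (OreLocalization.oreDiv r s), h3]
      exact mul_mem (inv_mem (Subfield.subset_closure ⟨_, rfl⟩)) (Subfield.subset_closure ⟨_, rfl⟩)
  exact ⟨s, fun e => h1 (by rw [e, map_zero]), fun x hx => (h2 x hx).imp fun a e => e.symm⟩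

theorem Stage.ind (S : Stage G) {E : Type} [DivisionRing E]
    (ρ : MonoidAlgebra ℤ (G ⧸ S.N) →+* E) (hρ : Function.Injective ρ) (ι : G →* E)
    (hι : ∀ g, ι g = ρ (S.pr (MonoidAlgebra.single g 1))) : Ind ι S.N := by
  classical
  intro M hM T hT
  let M' := M.map (QuotientGroup.mk' S.N)
  have hj : Function.Injective (md M'.subtype) :=
    MonoidAlgebra.mapDomain_injective M'.subtype_injective
  let μ := ρ.comp (md M'.subtype)
  have hμ : Function.Injective μ := hρ.comp hj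
  have hι' : ∀ g, ι g = ρ (MonoidAlgebra.single (g : G ⧸ S.N) 1) := fun g => by
    rw [hι]; simp [Stage.pr]
  have hle : dcl ι M ≤ Subfield.closure (μ.range : Set E) := Subfield.closure_mono (by
    rintro _ ⟨m, hm, rfl⟩
    exact ⟨MonoidAlgebra.single ⟨(m : G ⧸ S.N), m, hm, rfl⟩ 1, by rw [hι']; simp [μ]⟩)
  refine linearIndependent_iff'.2 fun s c hc j hjs => ?_
  obtain ⟨σ, -, h1, h2⟩ := frac_closure μ.range (exa_aux_range μ (exa_aux_ore S M') fun x hx =>
    (map_ne_zero_iff μ hμ).2 hx) (s.image fun i => (c i : E)) (by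
      simp only [Finset.forall_mem_image]
      exact fun i _ => hle (c i).2)
  choose! a ha using fun i (hi : i ∈ s) =>
    RingHom.mem_range.1 (h2 _ (Finset.mem_image_of_mem (fun i => (c i : E)) hi))
  have h3 : ∑ i ∈ s, md M'.subtype (a i) * MonoidAlgebra.single ((i : G) : G ⧸ S.N) 1 = 0 := by
    refine hρ ?_
    rw [map_zero, map_sum, ← mul_zero σ, ← hc, Finset.mul_sum]
    refine Finset.sum_congr rfl fun i hi => ?_
    rw [map_mul, ← hι', show ρ (md M'.subtype (a i)) = _ from ha i hi, mul_assoc]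
    rfl
  have h4 : a j = 0 := by
    ext m
    have h5 := congrArg (fun x : MonoidAlgebra ℤ (G ⧸ S.N) =>
      x.coeff ((m : G ⧸ S.N) * ((j : G) : G ⧸ S.N))) h3
    simp only [MonoidAlgebra.coeff_sum, Finsupp.finsetSum_apply,
      MonoidAlgebra.coeff_mul_single_apply, mul_one] at h5
    rw [Finset.sum_eq_single j, mul_inv_cancel_right] at h5
    · exact (Finsupp.mapDomain_apply M'.subtype_injective _ m).symm.trans h5
    · intro i _ hij
      refine Finsupp.mapDomain_of_notMem_range _ _ fun ⟨m', e⟩ => hij (Subtype.ext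
        (hT j j.2 i i.2 ?_).symm)
      have h6 : (((j : G) * (i : G)⁻¹ : G) : G ⧸ S.N) ∈ M' := by
        have : (((j : G) * (i : G)⁻¹ : G) : G ⧸ S.N) = (m : G ⧸ S.N)⁻¹ * M'.subtype m' := by
          rw [e, QuotientGroup.mk_mul, QuotientGroup.mk_inv, mul_assoc, inv_mul_cancel_left]
        exact this ▸ mul_mem (inv_mem m.2) m'.2
      obtain ⟨k, k1, k2⟩ := h6
      simpa using mul_mem k1 (hM (QuotientGroup.eq.1 k2))
    · exact fun h => (h hjs).elim
  have h5 := ha j hjs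
  rw [h4, map_zero] at h5
  exact Subtype.ext ((mul_eq_zero.1 h5.symm).resolve_left h1)

end Pool.Agent.Lib.MP_fd3021_gt.Rf
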