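import Pool.Agent.Lib.MP_fd3021_gt.Rf.ExU

/-! The division ring of a tower. -/

namespace Pool.Agent.Lib.MP_fd3021_gt.Rf

open Matrix Filter

section aux

variable {R E J : Type} [Ring R] [DivisionRing E] [Fintype J] {ρ : R →+* E}

theorem exb_aux_den (hd : ∀ X : Finset E, ∃ s, s ≠ 0 ∧ ∀ x ∈ X, ∃ a, ρ s * x = ρ a) (w : J → E)
    (A : Matrix J J R) : ∃ s, s ≠ 0 ∧ ∃ y : J → R, (∀ j, ρ s * w j = ρ (y j)) ∧
      ∀ k, ρ ((y ᵥ* A) k) = ρ s * (w ᵥ* A.map ρ) k := by
  classical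
  obtain ⟨s, hs, h⟩ := hd (Finset.univ.image w)
  choose y hy using fun j => h (w j) (Finset.mem_image_of_mem w (Finset.mem_univ j))
  refine ⟨s, hs, y, hy, fun k => ?_⟩
  simp only [vecMul, dotProduct, map_sum, map_mul, Finset.mul_sum, Matrix.map_apply, ← hy,
    mul_assoc]

theorem exb_aux_inj (hρ : Function.Injective ρ)
    (hd : ∀ X : Finset E, ∃ s, s ≠ 0 ∧ ∀ x ∈ X, ∃ a, ρ s * x = ρ a) {A : Matrix J J R}
    (h : ∀ x : J → R, x ᵥ* A = 0 → x = 0) {w : J → E} (hw : ∀ k, (w ᵥ* A.map ρ) k = 0) (j : J) :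
    w j = 0 := by
  obtain ⟨s, hs, y, h1, h2⟩ := exb_aux_den hd w A
  have h3 := h y (funext fun k => hρ (by rw [h2, hw, mul_zero, Pi.zero_apply, map_zero]))
  have h4 := h1 j
  rw [h3, Pi.zero_apply, map_zero] at h4
  exact (mul_eq_zero.1 h4).resolve_left fun e => hs (hρ (e.trans (map_zero ρ).symm))

theorem exb_aux_ex [DecidableEq J] (hρ : Function.Injective ρ)
    (hd : ∀ X : Finset E, ∃ s, s ≠ 0 ∧ ∀ x ∈ X, ∃ a, ρ s * x = ρ a) {b : Matrix J J R}
    {dj : J → ℤ} {σ σ' : Matrix J J E}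
    (h : ∀ i k, dj i = 1 → (1 : Matrix J J E) i k = (σ * b.map ρ + b.map ρ * σ') i k) (x : J → R)
    (hx : ∀ i, dj i ≠ 1 → x i = 0) (h0 : x ᵥ* b = 0) : ∃ s : R, s ≠ 0 ∧ ∃ y, y ᵥ* b = s • x := by
  obtain ⟨s, hs, y, -, h2⟩ := exb_aux_den hd ((ρ ∘ x) ᵥ* σ) b
  refine ⟨s, hs, y, funext fun k => hρ ?_⟩
  have h3 : (ρ ∘ x) ᵥ* b.map ρ = 0 := funext fun l => by
    rw [← RingHom.map_vecMul, h0, Pi.zero_apply, Pi.zero_apply, map_zero]
  have h4 : (ρ ∘ x) ᵥ* (1 : Matrix J J E) = (ρ ∘ x) ᵥ* (σ * b.map ρ + b.map ρ * σ') := by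
    refine funext fun l => Finset.sum_congr rfl fun i _ => ?_
    by_cases hi : dj i = 1
    · exact congrArg (_ * ·) (h i l hi)
    · simp [hx i hi]
  rw [vecMul_one, vecMul_add, ← vecMul_vecMul, ← vecMul_vecMul, h3, zero_vecMul, add_zero] at h4
  rw [h2, ← h4, Pi.smul_apply, smul_eq_mul, map_mul, Function.comp_apply]

end aux

variable {G : Type} [Group G]

section ultra

variable {E : ℕ → Type} [∀ n, DivisionRing (E n)] {U : Ultrafilter ℕ} {D : Type} [DivisionRing D]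
  {π : (∀ n, E n) →+* D}

theorem exb_aux_inv (hπ : ∀ x, π x = 0 ↔ ∀ᶠ n in (U : Filter ℕ), x n = 0) (x : ∀ n, E n) :
    π (fun n => (x n)⁻¹) = (π x)⁻¹ := by
  by_cases h : π x = 0
  · rw [h, _root_.inv_zero, hπ]
    exact ((hπ x).1 h).mono fun n hn => by rw [hn, _root_.inv_zero]
  · have h1 := Ultrafilter.eventually_not.2 (mt (hπ x).2 h)
    have h2 := (hπ (x * (fun n => (x n)⁻¹) - 1)).2 (h1.mono fun n hn => by
      rw [Pi.sub_apply, Pi.mul_apply, mul_inv_cancel₀ hn, Pi.one_apply, sub_self])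
    rw [map_sub, map_mul, map_one, sub_eq_zero] at h2
    exact eq_inv_of_mul_eq_one_right h2

theorem exb_aux_dcl (hπ : ∀ x, π x = 0 ↔ ∀ᶠ n in (U : Filter ℕ), x n = 0) {κ : ∀ n, G →* E n}
    {ι : G →* D} (hι : ∀ g, ι g = π fun n => κ n g) (M : Subgroup G) {d : D} (hd : d ∈ dcl ι M) :
    ∃ x, π x = d ∧ ∀ n, x n ∈ dcl (κ n) M := by
  induction hd using Subfield.closure_induction with
  | mem _ h =>
    obtain ⟨g, hg, rfl⟩ := h
    exact ⟨_, (hι g).symm, fun n => iota_mem hg⟩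
  | one => exact ⟨1, map_one π, fun n => one_mem _⟩
  | add _ _ _ _ h1 h2 =>
    obtain ⟨x, rfl, hx⟩ := h1
    obtain ⟨y, rfl, hy⟩ := h2
    exact ⟨x + y, map_add π x y, fun n => add_mem (hx n) (hy n)⟩
  | neg _ _ h1 =>
    obtain ⟨x, rfl, hx⟩ := h1
    exact ⟨-x, map_neg π x, fun n => neg_mem (hx n)⟩
  | inv _ _ h1 =>
    obtain ⟨x, rfl, hx⟩ := h1
    exact ⟨_, exb_aux_inv hπ x, fun n => inv_mem (hx n)⟩
  | mul _ _ _ _ h1 h2 =>
    obtain ⟨x, rfl, hx⟩ := h1
    obtain ⟨y, rfl, hy⟩ := h2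
    exact ⟨x * y, map_mul π x y, fun n => mul_mem (hx n) (hy n)⟩

theorem exb_aux_ind (hπ : ∀ x, π x = 0 ↔ ∀ᶠ n in (U : Filter ℕ), x n = 0) {κ : ∀ n, G →* E n}
    {ι : G →* D} (hι : ∀ g, ι g = π fun n => κ n g) {M : Subgroup G} {W : Set G}
    (h : ∀ᶠ n in (U : Filter ℕ), LinearIndepOn (dcl (κ n) M) (κ n) W) :
    LinearIndepOn (dcl ι M) ι W := by
  rw [linearIndepOn_iff']
  intro t c ht h0 i hi
  choose x hx hx' using fun g => exb_aux_dcl hπ hι M (c g).2
  have h1 : π (∑ g ∈ t, x g * fun n => κ n g) = 0 := by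
    rw [map_sum, ← h0]
    exact Finset.sum_congr rfl fun g _ => by
      rw [map_mul, hx, ← hι]
      rfl
  refine Subtype.ext ((hx i).symm.trans ((hπ _).2 ((h.and ((hπ _).1 h1)).mono fun n hn => ?_)))
  have h2 := linearIndepOn_iff'.1 hn.1 t (fun g => ⟨x g n, hx' g n⟩) ht (by
    rw [← hn.2, Finset.sum_apply]
    rfl) i hi
  exact congrArg Subtype.val h2

end ultra

theorem exists_env (T : Tw G) :
    ∃ (D : Type) (_ : DivisionRing D) (_ : CharZero D) (ι : G →* D), Env T ι := by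
  choose E inst ρ hρ hd using fun n => (T.st n).field
  have hU : ((hyperfilter ℕ : Ultrafilter ℕ) : Filter ℕ) ≤ atTop := Nat.hyperfilter_le_atTop
  obtain ⟨D, _, π, hs, hπ⟩ := exists_ultra E (hyperfilter ℕ)
  let Ψ : MonoidAlgebra ℤ G →+* ∀ n, E n := RingHom.pi fun n => (ρ n).comp (T.st n).pr
  let κ : ∀ n, G →* E n := fun n =>
    ((ρ n).comp (T.st n).pr).toMonoidHom.comp (MonoidAlgebra.of ℤ G)
  let ι : G →* D := (π.comp Ψ).toMonoidHom.comp (MonoidAlgebra.of ℤ G)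
  have hz : zi ι = π.comp Ψ := by
    refine MonoidAlgebra.ringHom_ext (fun m => ?_) fun g => ?_
    · exact RingHom.congr_fun (RingHom.ext_int ((zi ι).comp MonoidAlgebra.singleOneRingHom)
        ((π.comp Ψ).comp MonoidAlgebra.singleOneRingHom)) m
    · rw [zi_single, Int.cast_one, one_mul]
      rfl
  have hc : CharZero D := charZero_of_inj_zero fun m hm => by
    obtain ⟨n, hn⟩ := ((hπ m).1 ((map_natCast π m).trans hm)).exists
    have h1 : ρ n m = ρ n 0 := by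
      rw [map_natCast, map_zero]
      exact hn
    have h2 := hρ n h1
    rw [MonoidAlgebra.natCast_def, MonoidAlgebra.single_eq_zero] at h2
    exact Nat.cast_eq_zero.1 h2
  refine env_sub T ι (fun j M hM W hW => exb_aux_ind (κ := κ) hπ (fun _ => rfl) ?_)
    (fun A hA x hx => ?_) fun {J} _ dj b hb => ?_
  · exact ((eventually_ge_atTop j).filter_mono hU).mono fun n hn =>
      (T.st n).ind (ρ n) (hρ n) (κ n) (fun _ => rfl) M ((T.antiN hn).trans hM) W hW
  · choose y hy using fun j => hs (x j)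
    have h1 := eventually_all.2 fun k => (hπ ((y ᵥ* A.map Ψ) k)).1 (by
      rw [RingHom.map_vecMul, show π ∘ y = x from funext hy, Matrix.map_map, ← RingHom.coe_comp,
        ← hz, hx, Pi.zero_apply])
    refine funext fun j => (hy j).symm.trans ((hπ _).2 ((h1.and (hA.filter_mono hU)).mono fun n hn => ?_))
    exact exb_aux_inj (hρ n) (hd n) hn.2 (w := fun j => y j n) (fun k =>
      (RingHom.map_vecMul (Pi.evalRingHom E n) (A.map Ψ) y k).symm.trans (hn.1 k)) j
  · classical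
    obtain ⟨s, s', h⟩ := hb.contr'
    choose σ hσ using fun i k => hs (s i k)
    choose σ' hσ' using fun i k => hs (s' i k)
    have h1 : ∀ i k, ∀ᶠ n in ((hyperfilter ℕ : Ultrafilter ℕ) : Filter ℕ), dj i = 1 →
        ((1 : Matrix J J (∀ n, E n)) - (Matrix.of σ * b.map Ψ + b.map Ψ * Matrix.of σ')) i k n
          = 0 := fun i k => by
      by_cases hi : dj i = 1
      · refine ((hπ _).1 ?_).mono fun n hn _ => hn
        have h2 := congrFun (h i hi) k
        simp only [hz, Pi.add_apply, vecMul, dotProduct, Matrix.map_apply, RingHom.comp_apply,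
          Pi.single_apply, ← hσ, ← hσ'] at h2
        simp only [Matrix.sub_apply, Matrix.add_apply, Matrix.mul_apply, map_sub, map_add, map_sum,
          map_mul, Matrix.map_apply, Matrix.of_apply, ← h2, Matrix.one_apply, eq_comm (a := k)]
        split_ifs <;> simp
      · exact Eventually.of_forall fun n h2 => absurd h2 hi
    refine (((eventually_all.2 fun i => eventually_all.2 (h1 i)).mono
      fun n hn => ?_).frequently).filter_mono hU
    refine exb_aux_ex (hρ n) (hd n) (σ := Matrix.of fun i k => σ i k n)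
      (σ' := Matrix.of fun i k => σ' i k n) fun i k hi => ?_
    have h2 := hn i k hi
    simp only [Matrix.sub_apply, Matrix.add_apply, Matrix.mul_apply, Pi.sub_apply, Pi.add_apply,
      Finset.sum_apply, Pi.mul_apply, sub_eq_zero, Matrix.one_apply, Matrix.of_apply] at h2 ⊢
    refine Eq.trans ?_ h2
    split_ifs <;> rfl

end Pool.Agent.Lib.MP_fd3021_gt.Rf
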