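import Pool.Agent.Lib.MP_fd3021_gt.Rf.ExA
import Pool.Agent.Lib.MP_fd3021_gt.Rf.Lin

/-! The division ring of a tower. -/

namespace Pool.Agent.Lib.MP_fd3021_gt.Rf

open Matrix Filter

theorem exists_ultra (E : ℕ → Type) [∀ n, DivisionRing (E n)] (U : Ultrafilter ℕ) :
    ∃ (D : Type) (_ : DivisionRing D) (π : (∀ n, E n) →+* D), Function.Surjective π ∧
      ∀ x, π x = 0 ↔ ∀ᶠ n in (U : Filter ℕ), x n = 0 := by
  classical
  let I : Ideal (∀ n, E n) :=
    { carrier := {x | ∀ᶠ n in (U : Filter ℕ), x n = 0}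
      add_mem' := fun {a b} ha hb => by
        filter_upwards [ha, hb] with n h1 h2
        simp [h1, h2]
      zero_mem' := Eventually.of_forall fun _ => rfl
      smul_mem' := fun c x hx => by
        filter_upwards [hx] with n h1
        simp [h1] }
  have hI : ∀ x, x ∈ I ↔ ∀ᶠ n in (U : Filter ℕ), x n = 0 := fun _ => Iff.rfl
  have : I.IsTwoSided := ⟨fun {a} b ha => by
    rw [hI] at ha ⊢
    filter_upwards [ha] with n h1
    simp [h1]⟩
  have : Nontrivial ((∀ n, E n) ⧸ I) := by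
    refine ⟨1, 0, fun h => ?_⟩
    have h1 : Ideal.Quotient.mk I 1 = 0 := by rw [map_one]; exact h
    obtain ⟨n, hn⟩ := ((hI _).1 (Ideal.Quotient.eq_zero_iff_mem.1 h1)).exists
    exact one_ne_zero hn
  have hu : ∀ a : (∀ n, E n) ⧸ I, IsUnit a ∨ a = 0 := by
    intro a
    obtain ⟨x, rfl⟩ := Ideal.Quotient.mk_surjective a
    by_cases hx : x ∈ I
    · exact Or.inr (Ideal.Quotient.eq_zero_iff_mem.2 hx)
    · left
      have h1 : ∀ᶠ n in (U : Filter ℕ), ¬ x n = 0 := Ultrafilter.eventually_not.2 hx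
      refine ⟨⟨Ideal.Quotient.mk I x, Ideal.Quotient.mk I fun n => (x n)⁻¹, ?_, ?_⟩, rfl⟩
      · rw [← map_mul, ← map_one (Ideal.Quotient.mk I), Ideal.Quotient.eq, hI]
        filter_upwards [h1] with n hn
        simp [hn]
      · rw [← map_mul, ← map_one (Ideal.Quotient.mk I), Ideal.Quotient.eq, hI]
        filter_upwards [h1] with n hn
        simp [hn]
  exact ⟨(∀ n, E n) ⧸ I, DivisionRing.ofIsUnitOrEqZero hu, Ideal.Quotient.mk I,
    Ideal.Quotient.mk_surjective, fun x => Ideal.Quotient.eq_zero_iff_mem⟩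

variable {G : Type} [Group G]

theorem exu_aux_dcl {D D' : Type} [DivisionRing D] [DivisionRing D'] (j : D' →+* D)
    {ι : G →* D} {ι' : G →* D'} (h : ∀ g, j (ι' g) = ι g) (M : Subgroup G) :
    (dcl ι' M).map j = dcl ι M := by
  unfold dcl
  rw [RingHom.map_field_closure, Set.image_image]
  simp only [h]

theorem exu_aux_ind {D D' : Type} [DivisionRing D] [DivisionRing D'] (j : D' →+* D)
    {ι : G →* D} {ι' : G →* D'} (h : ∀ g, j (ι' g) = ι g) {N : Subgroup G} (hI : Ind ι N) :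
    Ind ι' N := by
  intro M hM T hT
  have h1 := hI M hM T hT
  have hm : ∀ c : dcl ι' M, j c ∈ dcl ι M := fun c => by
    rw [← exu_aux_dcl j h M]
    exact ⟨c, c.2, rfl⟩
  unfold LinearIndepOn at h1 ⊢
  rw [linearIndependent_iff'] at h1 ⊢
  intro s g hg i hi
  have h2 := h1 s (fun i => ⟨j (g i), hm _⟩) (by
    have h3 := congrArg j hg
    rw [map_sum, map_zero] at h3
    rw [← h3]
    refine Finset.sum_congr rfl fun k _ => ?_
    change j (g k) * ι k = j ((g k : D') * ι' k)
    rw [map_mul, h]) i hi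
  have h4 : j (g i) = 0 := congrArg Subtype.val h2
  exact Subtype.ext (j.injective (h4.trans (map_zero j).symm))

theorem exu_aux_zi {D D' : Type} [DivisionRing D] [DivisionRing D'] (j : D' →+* D)
    {ι : G →* D} {ι' : G →* D'} (h : ∀ g, j (ι' g) = ι g) (x : MonoidAlgebra ℤ G) :
    j (zi ι' x) = zi ι x := by
  induction x using MonoidAlgebra.induction_linear with
  | zero => simp
  | add a b ha hb => rw [map_add, map_add, map_add, ha, hb]
  | single g n => rw [zi_single, zi_single, map_mul, map_intCast, h]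

theorem exu_aux_dex {R D D' J : Type} [Ring R] [DivisionRing D] [DivisionRing D'] [Fintype J]
    (j : D' →+* D) {ρ : R →+* D} {ρ' : R →+* D'} (h : ∀ x, j (ρ' x) = ρ x) {dj : J → ℤ}
    {b : Matrix J J R} (hb : DEx ρ' dj b) : DEx ρ dj b := by
  classical
  obtain ⟨s, s', hs⟩ := hb.contr'
  have hB : (b.map ρ').map j = b.map ρ := by
    ext i k
    simp [h]
  intro x hx h0
  have h1 : ∀ i, dj i = 1 → ∀ k, (1 : Matrix J J D) i k =
      (s.map j * b.map ρ + b.map ρ * s'.map j) i k := by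
    intro i hi k
    have h2 : (1 : Matrix J J D') i k = (s * b.map ρ' + b.map ρ' * s') i k := by
      have h3 := congrFun (hs i hi) k
      rw [Matrix.one_apply, Matrix.add_apply, Matrix.mul_apply, Matrix.mul_apply]
      rw [Pi.single_apply] at h3
      simp only [eq_comm (a := i)]
      exact h3
    have h4 := congrArg j h2
    rw [← hB, ← Matrix.map_mul, ← Matrix.map_mul]
    rw [Matrix.add_apply, map_add] at h4
    rw [Matrix.add_apply, Matrix.map_apply, Matrix.map_apply, ← h4, Matrix.one_apply,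
      Matrix.one_apply]
    split_ifs <;> simp
  have h5 : x ᵥ* (1 : Matrix J J D) = x ᵥ* (s.map j * b.map ρ + b.map ρ * s'.map j) := by
    funext k
    simp only [Matrix.vecMul, dotProduct]
    refine Finset.sum_congr rfl fun i _ => ?_
    by_cases hi : dj i = 1
    · rw [h1 i hi k]
    · rw [hx i hi, zero_mul, zero_mul]
  rw [Matrix.vecMul_one, Matrix.vecMul_add, ← Matrix.vecMul_vecMul, ← Matrix.vecMul_vecMul, h0,
    Matrix.zero_vecMul, add_zero] at h5
  exact ⟨_, h5.symm⟩

/-- passing to the division closure of the group -/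
theorem env_sub (T : Tw G) {D : Type} [DivisionRing D] [CharZero D] (ι : G →* D)
    (ind : ∀ j, Ind ι (T.st j).N)
    (inj : ∀ {J : Type} [Fintype J] (A : Matrix J J (MonoidAlgebra ℤ G)),
      (∀ᶠ n in atTop, ∀ x : J → MonoidAlgebra ℤ (G ⧸ (T.st n).N),
        x ᵥ* A.map (T.st n).pr = 0 → x = 0) → ∀ x : J → D, x ᵥ* A.map (zi ι) = 0 → x = 0)
    (ex : ∀ {J : Type} [Fintype J] (dj : J → ℤ) (b : Matrix J J (MonoidAlgebra ℤ G)),
      DEx (zi ι) dj b → ∃ᶠ n in atTop, ∀ x : J → MonoidAlgebra ℤ (G ⧸ (T.st n).N),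
        (∀ i, dj i ≠ 1 → x i = 0) → x ᵥ* b.map (T.st n).pr = 0 →
        ∃ s : MonoidAlgebra ℤ (G ⧸ (T.st n).N), s ≠ 0 ∧ ∃ y, y ᵥ* b.map (T.st n).pr = s • x) :
    ∃ (D' : Type) (_ : DivisionRing D') (_ : CharZero D') (ι' : G →* D'), Env T ι' := by
  let j : dcl ι ⊤ →+* D := (dcl ι ⊤).subtype
  let ι' : G →* dcl ι ⊤ :=
    { toFun := fun g => ⟨ι g, iota_mem (Subgroup.mem_top g)⟩
      map_one' := Subtype.ext (map_one ι)
      map_mul' := fun g h => Subtype.ext (map_mul ι g h) }
  have h : ∀ g, j (ι' g) = ι g := fun _ => rfl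
  refine ⟨dcl ι ⊤, inferInstance, j.charZero, ι', fun n => exu_aux_ind j h (ind n), ?_, ?_, ?_⟩
  · refine eq_top_iff.2 fun x _ => ?_
    have h1 : (x : D) ∈ (dcl ι' ⊤).map j := by
      rw [exu_aux_dcl j h]
      exact x.2
    obtain ⟨y, hy, hxy⟩ := h1
    have h2 : y = x := Subtype.ext hxy
    exact h2 ▸ hy
  · intro J _ A hA x hx
    have h1 := inj A hA (fun i => j (x i)) (by
      funext k
      have h2 := congrArg j (congrFun hx k)
      simp only [Matrix.vecMul, dotProduct, Matrix.map_apply, map_sum, map_mul, Pi.zero_apply,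
        map_zero, exu_aux_zi j h] at h2 ⊢
      exact h2)
    funext i
    exact j.injective ((congrFun h1 i).trans (map_zero j).symm)
  · intro J _ dj b hb
    exact ex dj b (exu_aux_dex j (exu_aux_zi j h) hb)

end Pool.Agent.Lib.MP_fd3021_gt.Rf
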