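import Pool.Agent.Lib.MP_fd3021_gt.Rf.HtA

/-! The filtration of a height function and the ring of approximable elements. -/

namespace Pool.Agent.Lib.MP_fd3021_gt.Rf

open Matrix Filter

variable {G D : Type} [Group G] [DivisionRing D] {ι : G →* D} {S : Stage G} {f : G → ℤ}
  {u v x y : D} {T T' : ℤ}

variable [CharZero D]

theorem ht_aux_span (c : Ctx S ι) (hf : IsV S.A S.N f) {P : Set G}
    (h : ∀ g ∈ P, ∃ a ∈ Qs ι Set.univ, ι g * y - a ∈ FT S ι f T) (hu : u ∈ Qs ι P) :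
    ∃ a ∈ Qs ι Set.univ, u * y - a ∈ FT S ι f T := by
  induction hu using Submodule.span_induction with
  | mem z hz =>
    obtain ⟨g, hg, rfl⟩ := hz
    exact h g hg
  | zero => exact ⟨0, zero_mem _, by simpa using FT_zero c hf⟩
  | add z w _ _ hz hw =>
    obtain ⟨a, ha, h1⟩ := hz
    obtain ⟨b, hb, h2⟩ := hw
    refine ⟨a + b, add_mem ha hb, ?_⟩
    rw [add_mul, add_sub_add_comm]
    exact FT_add c hf h1 h2
  | smul l z _ hz =>
    obtain ⟨a, ha, h1⟩ := hz
    refine ⟨l • a, Submodule.smul_mem _ l ha, ?_⟩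
    rw [smul_mul_assoc, ← smul_sub]
    exact FT_rat c hf l h1

theorem App_iota (c : Ctx S ι) (hf : IsV S.A S.N f) (g : G) : App S ι f (ι g) := by
  intro q T
  refine ⟨ι (q * g), mem_Qs (Set.mem_univ _), ?_⟩
  rw [map_mul, sub_self]
  exact FT_zero c hf

theorem App_zero (c : Ctx S ι) (hf : IsV S.A S.N f) : App S ι f (0 : D) := by
  intro q T
  exact ⟨0, zero_mem _, by simpa using FT_zero c hf⟩

theorem App.add (c : Ctx S ι) (hf : IsV S.A S.N f) (hx : App S ι f x) (hy : App S ι f y) :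
    App S ι f (x + y) := by
  intro q T
  obtain ⟨a, ha, h1⟩ := hx q T
  obtain ⟨b, hb, h2⟩ := hy q T
  refine ⟨a + b, add_mem ha hb, ?_⟩
  rw [mul_add, add_sub_add_comm]
  exact FT_add c hf h1 h2

theorem App.neg (c : Ctx S ι) (hf : IsV S.A S.N f) (hx : App S ι f x) : App S ι f (-x) := by
  intro q T
  obtain ⟨a, ha, h1⟩ := hx q T
  refine ⟨-a, neg_mem ha, ?_⟩
  have := FT_sub c hf (FT_zero c hf) h1
  rwa [zero_sub, neg_sub', ← mul_neg] at this

theorem App.qs (c : Ctx S ι) (hf : IsV S.A S.N f) (hx : App S ι f x) (hu : u ∈ Qs ι Set.univ)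
    (T : ℤ) : ∃ a ∈ Qs ι Set.univ, u * x - a ∈ FT S ι f T := by
  exact ht_aux_span c hf (fun g _ => hx g T) hu

theorem App.mul (c : Ctx S ι) (hf : IsV S.A S.N f) (hx : App S ι f x) (hy : App S ι f y) :
    App S ι f (x * y) := by
  intro q T
  obtain ⟨C, -, hC⟩ := FT_bdd c hf y
  obtain ⟨a, ha, h1⟩ := hx q (T + C)
  obtain ⟨b, hb, h2⟩ := hy.qs c hf ha T
  refine ⟨b, hb, ?_⟩
  have h3 := hC _ _ h1
  rw [add_sub_cancel_right] at h3
  have := FT_add c hf h3 h2
  rwa [sub_mul, sub_add_sub_cancel, mul_assoc] at this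

/-- the geometric series -/
theorem App.inv (c : Ctx S ι) (hf : IsV S.A S.N f) (hx : App S ι f x) (h0 : x ≠ 0)
    (h : ∀ g, ∃ (q : G) (l : ℚ), l ≠ 0 ∧ ι q * x - l • ι g ∈ FT S ι f (f g + 1)) :
    App S ι f x⁻¹ := by
  intro q0 T
  obtain ⟨C, -, hC⟩ := FT_bdd c hf x⁻¹
  have hC' : ∀ u ∈ FT S ι f (T + C), u * x⁻¹ ∈ FT S ι f T := fun u hu => by
    have := hC _ u hu
    rwa [add_sub_cancel_right] at this
  have key : ∀ n : ℕ, ∀ g, T + C - f g ≤ n →
      ∃ a ∈ Qs ι Set.univ, ι g * x⁻¹ - a ∈ FT S ι f T := by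
    intro n
    induction n with
    | zero =>
      intro g hg
      refine ⟨0, zero_mem _, ?_⟩
      rw [sub_zero]
      refine hC' _ (FT_of_Qs c hf (mem_Qs ?_))
      change T + C ≤ f g
      omega
    | succ n ih =>
      intro g hg
      obtain ⟨q, l, hl, h1⟩ := h g
      obtain ⟨a, ha, h2⟩ := hx q (max (f g + 1) (T + C))
      have h3 := FT_sub c hf h1 (FT_mono (le_max_left _ _) h2)
      rw [sub_sub_sub_cancel_left] at h3
      have h4 := Qs_of_FT c hf
        (sub_mem ha (Submodule.smul_mem _ l (mem_Qs (Set.mem_univ g)))) h3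
      obtain ⟨b, hb, h5⟩ := ht_aux_span c hf (y := x⁻¹) (T := T) (fun k hk => ih k (by
        have : f g + 1 ≤ f k := hk
        omega)) h4
      have h6 := hC' _ (FT_mono (le_max_right _ _) h2)
      refine ⟨l⁻¹ • (ι q - b),
        Submodule.smul_mem _ _ (sub_mem (mem_Qs (Set.mem_univ q)) hb), ?_⟩
      have h7 := FT_rat c hf l⁻¹ (FT_sub c hf (FT_sub c hf (FT_zero c hf) h5) h6)
      have e : l⁻¹ • (0 - ((a - l • ι g) * x⁻¹ - b) - (ι q * x - a) * x⁻¹) =
          ι g * x⁻¹ - l⁻¹ • (ι q - b) := by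
        rw [sub_mul, sub_mul, mul_assoc, mul_inv_cancel₀ h0, mul_one, smul_mul_assoc,
          show 0 - (a * x⁻¹ - l • (ι g * x⁻¹) - b) - (ι q - a * x⁻¹) =
            l • (ι g * x⁻¹) - (ι q - b) by abel, smul_sub, smul_smul, inv_mul_cancel₀ hl,
          one_smul]
      rwa [e] at h7
  exact key (T + C - f q0).toNat q0 (Int.self_le_toNat _)

end Pool.Agent.Lib.MP_fd3021_gt.Rf
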