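import Pool.Agent.Lib.MP_fd3021_gt.Rf.StgA

/-! From the tower of the statement to a tower of stages. -/

namespace Pool.Agent.Lib.MP_fd3021_gt.Rf

open Matrix Filter

variable {G : Type} [Group G]

theorem stg_aux_neg {A N : Subgroup G} {f : G → ℤ} (hf : IsV A N f) :
    IsV A N fun x => - f x := by
  refine ⟨fun n hn g => ?_, fun a ha g => ?_⟩
  · simp only [hf.1 n hn g]
  · simp only [hf.2 a ha g]
    ring

theorem stg_aux_pow (S : Stage G) {p : G} (hp : p ∈ S.P) {n : ℕ} (hn : n ≠ 0) : p ^ n ∈ S.P := by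
  obtain ⟨m, rfl⟩ := Nat.exists_eq_succ_of_ne_zero hn
  induction m with
  | zero => simpa using hp
  | succ m ih =>
    rw [pow_succ]
    exact S.mul _ (ih (Nat.succ_ne_zero m)) _ hp

/-- the stage with the opposite order -/
def stg_aux_op (S : Stage G) : Stage G where
  A := S.A
  N := S.N
  P := {g | g⁻¹ ∈ S.P}
  nA := S.nA
  nN := S.nN
  fi := S.fi
  le := S.le
  comm := S.comm
  mul := fun p hp q hq => by
    change (p * q)⁻¹ ∈ S.P
    rw [_root_.mul_inv_rev]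
    exact S.mul _ hq _ hp
  tri := fun g => by
    rcases S.tri g with h | h | h
    · exact Or.inr (Or.inr (by simpa using h))
    · exact Or.inr (Or.inl h)
    · exact Or.inl h
  disj := fun g hg h => S.disj _ hg (S.N.inv_mem h)
  sat := fun n hn p hp => by
    change (n * p)⁻¹ ∈ S.P
    have h := S.sat _ (S.nN.conj_mem _ (S.N.inv_mem hn) p⁻¹) _ hp
    have e : p⁻¹ * n⁻¹ * p⁻¹⁻¹ * p⁻¹ = (n * p)⁻¹ := by group
    rwa [e] at h
  conj := fun a ha p hp => by
    change (a * p * a⁻¹)⁻¹ ∈ S.P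
    have h := S.conj a ha _ hp
    have e : a * p⁻¹ * a⁻¹ = (a * p * a⁻¹)⁻¹ := by group
    rwa [e] at h
  lat := S.lat
  real := fun T hT => by
    classical
    obtain ⟨f, hf, hf'⟩ := S.real (T.image Prod.swap) (by
      intro x hx
      obtain ⟨y, hy, rfl⟩ := Finset.mem_image.mp hx
      simpa using hT y hy)
    exact ⟨fun x => - f x, stg_aux_neg hf,
      fun x hx => neg_lt_neg (hf' x.swap (Finset.mem_image_of_mem _ hx))⟩

/-- the tower with the opposite orders -/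
theorem Tw.exists_op (T : Tw G) : ∃ T' : Tw G, ∀ j, (T'.st j).A = (T.st j).A ∧
    (T'.st j).N = (T.st j).N ∧ ∀ g, g ∈ (T'.st j).P ↔ g⁻¹ ∈ (T.st j).P := by
  exact ⟨⟨fun j => stg_aux_op (T.st j), fun h => T.antiA h, fun h => T.antiN h,
    fun h _ hg => T.monoP h hg, T.sep⟩, fun _ => ⟨rfl, rfl, fun _ => Iff.rfl⟩⟩

theorem Tw.rf (T : Tw G) : Group.ResiduallyFinite G := by
  rw [Group.residuallyFinite_iff_exists_finiteIndex]
  intro g hg
  obtain ⟨j, hj⟩ := T.sep g hg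
  exact ⟨(T.st j).A, (T.st j).fi, hj⟩

theorem Tw.sep_fin (T : Tw G) (X : Finset G) :
    ∀ᶠ j in atTop, ∀ a ∈ X, ∀ b ∈ X, a * b⁻¹ ∈ (T.st j).N → a = b := by
  rw [Filter.eventually_all_finset]
  intro a _
  rw [Filter.eventually_all_finset]
  intro b _
  by_cases hab : a = b
  · exact Filter.Eventually.of_forall fun _ _ => hab
  · obtain ⟨j, hj⟩ := T.sep (a * b⁻¹) fun h => hab (mul_inv_eq_one.mp h)
    filter_upwards [Filter.eventually_ge_atTop j] with i hi h
    exact absurd (T.antiA hi ((T.st i).le h)) hj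

theorem Tw.pos [Nontrivial G] (T : Tw G) : ∀ᶠ j in atTop, ∃ g ∈ (T.st j).A, g ∈ (T.st j).P := by
  obtain ⟨g, hg⟩ := exists_ne (1 : G)
  obtain ⟨j, hj⟩ := T.sep g hg
  have hp : ∃ p, p ∈ (T.st j).P := by
    rcases (T.st j).tri g with h | h | h
    · exact ⟨g, h⟩
    · exact absurd ((T.st j).le h) hj
    · exact ⟨g⁻¹, h⟩
  obtain ⟨p, hp⟩ := hp
  filter_upwards [Filter.eventually_ge_atTop j] with i hi
  exact ⟨p ^ (T.st i).A.index, Subgroup.pow_index_mem _ p,
    stg_aux_pow (T.st i) (T.monoP hi hp) (T.st i).fi.index_ne_zero⟩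

theorem IsV.exists_hom {A N : Subgroup G} {f : G → ℤ} (hf : IsV A N f) {g : G} (hg : g ∈ A)
    (h : f 1 < f g) : ∃ ψ : A →* Multiplicative ℤ, Function.Surjective ψ ∧
      ∀ a : A, ψ a = 1 ↔ f a = f 1 := by
  let H : AddSubgroup ℤ :=
    { carrier := {n | ∃ a ∈ A, f a - f 1 = n}
      zero_mem' := ⟨1, A.one_mem, sub_self _⟩
      add_mem' := by
        rintro _ _ ⟨a, ha, rfl⟩ ⟨b, hb, rfl⟩
        refine ⟨a * b, A.mul_mem ha hb, ?_⟩
        rw [hf.2 a ha b]
        ring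
      neg_mem' := by
        rintro _ ⟨a, ha, rfl⟩
        refine ⟨a⁻¹, A.inv_mem ha, ?_⟩
        have h1 := hf.2 a ha a⁻¹
        rw [mul_inv_cancel] at h1
        omega }
  obtain ⟨d, hd⟩ := Int.subgroup_cyclic H
  have hdiv : ∀ a ∈ A, d ∣ f a - f 1 := by
    intro a ha
    have h1 : f a - f 1 ∈ H := ⟨a, ha, rfl⟩
    rw [hd, AddSubgroup.mem_closure_singleton] at h1
    obtain ⟨n, hn⟩ := h1
    exact ⟨n, by rw [← hn, smul_eq_mul, mul_comm]⟩
  have hd0 : d ≠ 0 := by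
    rintro rfl
    have h1 := zero_dvd_iff.mp (hdiv g hg)
    omega
  have hdH : d ∈ H := by
    rw [hd]
    exact AddSubgroup.subset_closure rfl
  obtain ⟨a0, ha0, hd1⟩ := hdH
  let ψ : A →* Multiplicative ℤ :=
    { toFun := fun a => Multiplicative.ofAdd ((f a - f 1) / d)
      map_one' := by simp
      map_mul' := by
        intro a b
        rw [← ofAdd_add, ← Int.add_ediv_of_dvd_right (hdiv b b.2)]
        congr 2
        rw [Subgroup.coe_mul, hf.2 a a.2 b]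
        ring }
  have hψ : ∀ a : A, ψ a = Multiplicative.ofAdd ((f a - f 1) / d) := fun _ => rfl
  refine ⟨ψ, fun n => ⟨(⟨a0, ha0⟩ : A) ^ (Multiplicative.toAdd n), ?_⟩, fun a => ?_⟩
  · rw [map_zpow, hψ]
    change Multiplicative.ofAdd ((f a0 - f 1) / d) ^ _ = n
    rw [hd1, Int.ediv_self hd0, ← ofAdd_zsmul, smul_eq_mul, mul_one, ofAdd_toAdd]
  · rw [hψ, ofAdd_eq_one]
    obtain ⟨k, hk⟩ := hdiv a a.2
    rw [hk, Int.mul_ediv_cancel_left _ hd0]
    constructor
    · rintro rfl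
      omega
    · intro h1
      rw [h1, sub_self] at hk
      exact (mul_eq_zero.mp hk.symm).resolve_left hd0

theorem Stage.Ev.mono {S : Stage G} {p q : (G → ℤ) → Prop} (h : S.Ev p)
    (hpq : ∀ f, IsV S.A S.N f → p f → q f) : S.Ev q := by
  obtain ⟨T, hT, h⟩ := h
  exact ⟨T, hT, fun f hf hf' => hpq f hf (h f hf hf')⟩

theorem Stage.Ev.of_forall {S : Stage G} {p : (G → ℤ) → Prop} (h : ∀ f, IsV S.A S.N f → p f) :
    S.Ev p := by
  exact ⟨∅, by simp, fun f hf _ => h f hf⟩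

theorem Stage.Ev.and {S : Stage G} {p q : (G → ℤ) → Prop} (h : S.Ev p) (h' : S.Ev q) :
    S.Ev fun f => p f ∧ q f := by
  classical
  obtain ⟨T, hT, h⟩ := h
  obtain ⟨T', hT', h'⟩ := h'
  refine ⟨T ∪ T', fun x hx => (Finset.mem_union.mp hx).elim (hT x) (hT' x), fun f hf hf' => ?_⟩
  exact ⟨h f hf fun x hx => hf' x (Finset.mem_union_left _ hx),
    h' f hf fun x hx => hf' x (Finset.mem_union_right _ hx)⟩

theorem Stage.Ev.all {S : Stage G} {κ : Type} [Finite κ] {p : κ → (G → ℤ) → Prop}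
    (h : ∀ k, S.Ev (p k)) : S.Ev fun f => ∀ k, p k f := by
  classical
  choose T hT h using h
  have := Fintype.ofFinite κ
  refine ⟨Finset.univ.biUnion T, fun x hx => ?_, fun f hf hf' k => ?_⟩
  · obtain ⟨k, _, hk⟩ := Finset.mem_biUnion.mp hx
    exact hT k x hk
  · exact h k f hf fun x hx => hf' x (Finset.mem_biUnion.mpr ⟨k, Finset.mem_univ k, hx⟩)

theorem Stage.Ev.exists {S : Stage G} {p : (G → ℤ) → Prop} (h : S.Ev p) :
    ∃ f, IsV S.A S.N f ∧ p f := by
  obtain ⟨T, hT, h⟩ := h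
  obtain ⟨f, hf, hf'⟩ := S.real T hT
  exact ⟨f, hf, h f hf hf'⟩

/-- one height function for both directions -/
theorem Stage.Ev.both {S S' : Stage G} (hA : S'.A = S.A) (hN : S'.N = S.N)
    (hP : ∀ g, g ∈ S'.P ↔ g⁻¹ ∈ S.P) {p p' : (G → ℤ) → Prop} (h : S.Ev p) (h' : S'.Ev p')
    {g : G} (hg : g ∈ S.P) :
    ∃ f, IsV S.A S.N f ∧ IsV S'.A S'.N (fun x => - f x) ∧ p f ∧ p' (fun x => - f x) ∧
      f 1 < f g := by
  classical
  obtain ⟨T, hT, h⟩ := h
  obtain ⟨T', hT', h'⟩ := h'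
  obtain ⟨f, hf, hf'⟩ := S.real (insert (1, g) (T ∪ T'.image Prod.swap)) (by
    intro x hx
    rcases Finset.mem_insert.mp hx with rfl | hx
    · simpa using hg
    rcases Finset.mem_union.mp hx with hx | hx
    · exact hT x hx
    · obtain ⟨y, hy, rfl⟩ := Finset.mem_image.mp hx
      simpa using (hP _).mp (hT' y hy))
  have hf2 : IsV S'.A S'.N fun x => - f x := by
    rw [hA, hN]
    exact stg_aux_neg hf
  refine ⟨f, hf, hf2, h f hf fun x hx => ?_, h' _ hf2 fun x hx => ?_,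
    hf' (1, g) (Finset.mem_insert_self _ _)⟩
  · exact hf' x (Finset.mem_insert_of_mem (Finset.mem_union_left _ hx))
  · exact neg_lt_neg (hf' x.swap (Finset.mem_insert_of_mem
      (Finset.mem_union_right _ (Finset.mem_image_of_mem _ hx))))

/-- a finite right transversal -/
theorem exists_transv (A : Subgroup G) [A.FiniteIndex] :
    ∃ T : Finset G, ∀ g, ∃ a ∈ A, ∃ t ∈ T, g = a * t := by
  classical
  have := Fintype.ofFinite (G ⧸ A)
  refine ⟨Finset.univ.image fun q : G ⧸ A => (Quotient.out q)⁻¹, fun g => ?_⟩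
  obtain ⟨a, ha⟩ := QuotientGroup.mk_out_eq_mul A g⁻¹
  refine ⟨a, a.2, _, Finset.mem_image_of_mem _ (Finset.mem_univ ((g⁻¹ : G) : G ⧸ A)), ?_⟩
  rw [ha]
  group

end Pool.Agent.Lib.MP_fd3021_gt.Rf
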