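import Pool.Agent.Lib.MP_fd3021_gt.Rf.Val
import Pool.Agent.Lib.MP_fd3021_gt.Rf.Stg

/-! The filtration of a height function and the ring of approximable elements. -/

namespace Pool.Agent.Lib.MP_fd3021_gt.Rf

open Matrix Filter

variable {G D : Type} [Group G] [DivisionRing D] {ι : G →* D} {S : Stage G} {f : G → ℤ}
  {u v x y : D} {T T' : ℤ}

theorem isHt_V (hf : IsV S.A S.N f) : IsHt S fun g h => f g ≤ f h := by
  refine ⟨fun g h => le_total _ _, fun h1 h2 => le_trans h1 h2, fun n hn g => ?_,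
    fun a ha a' ha' g g' h1 h2 => ?_, fun a ha a' ha' g g' h1 h2 h3 => ?_⟩
  · simp only [hf.1 n hn g, le_refl, and_self]
  · have e1 := hf.2 a ha g
    have e2 := hf.2 a' ha' g'
    omega
  · have e1 := hf.2 a ha g
    have e2 := hf.2 a' ha' g'
    omega

omit [Group G] in
theorem hta_aux_up (f : G → ℤ) (T : ℤ) : Up (fun g h => f g ≤ f h) {h | T ≤ f h} :=
  fun _ hg _ h => le_trans hg h

theorem hta_aux_shift (hf : IsV S.A S.N f) {z : G} (hz : z ∈ S.A) (h : G) :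
    f (z⁻¹ * h) = f h - (f z - f 1) := by
  have e := hf.2 z hz (z⁻¹ * h)
  rw [mul_inv_cancel_left] at e
  omega

theorem FT_mono (h : T' ≤ T) (hu : u ∈ FT S ι f T) : u ∈ FT S ι f T' := by
  exact Fil_mono (fun _ hg => le_trans h hg) hu

theorem FT_zero (c : Ctx S ι) (hf : IsV S.A S.N f) : (0 : D) ∈ FT S ι f T := by
  exact Fil_zero c (isHt_V hf)

theorem FT_add (c : Ctx S ι) (hf : IsV S.A S.N f) (hu : u ∈ FT S ι f T) (hv : v ∈ FT S ι f T) :
    u + v ∈ FT S ι f T := by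
  exact Fil_add c (isHt_V hf) (hta_aux_up f T) hu hv

theorem FT_sub (c : Ctx S ι) (hf : IsV S.A S.N f) (hu : u ∈ FT S ι f T) (hv : v ∈ FT S ι f T) :
    u - v ∈ FT S ι f T := by
  rw [sub_eq_add_neg]
  exact FT_add c hf hu (Fil_neg hv)

theorem FT_sum (c : Ctx S ι) (hf : IsV S.A S.N f) {κ : Type} (s : Finset κ) {w : κ → D}
    (h : ∀ k ∈ s, w k ∈ FT S ι f T) : ∑ k ∈ s, w k ∈ FT S ι f T := by
  classical
  induction s using Finset.induction_on with
  | empty => simpa using FT_zero c hf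
  | insert k s hk ih =>
    rw [Finset.sum_insert hk]
    exact FT_add c hf (h k (Finset.mem_insert_self _ _))
      (ih fun j hj => h j (Finset.mem_insert_of_mem hj))

theorem FT_A (c : Ctx S ι) (hf : IsV S.A S.N f) {a : G} (ha : a ∈ S.A) (hu : u ∈ FT S ι f T) :
    ι a * u ∈ FT S ι f (T + (f a - f 1)) := by
  refine Fil_mono (fun h hh => ?_) ((Fil_A c (isHt_V hf) (hta_aux_up f T) ha).2 hu)
  have e := hta_aux_shift hf ha h
  simp only [Set.mem_ofPred_eq] at hh ⊢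
  omega

theorem FT_exists (c : Ctx S ι) (hf : IsV S.A S.N f) (u : D) : ∃ T, u ∈ FT S ι f T := by
  obtain ⟨s, z, hs, h⟩ := exists_rep c (isHt_V hf) u
  obtain ⟨X, -, hX⟩ := Sp_fin h
  obtain ⟨T, hT⟩ := (X.finite_toSet.image fun h => f (z⁻¹ * h)).bddBelow
  exact ⟨T, s, z, hs, Sp_mono (fun h hh => hT ⟨h, hh, rfl⟩) hX⟩

/-- right multiplication is bounded -/
theorem FT_bdd (c : Ctx S ι) (hf : IsV S.A S.N f) (y : D) :
    ∃ C : ℤ, 0 ≤ C ∧ ∀ T, ∀ u ∈ FT S ι f T, u * y ∈ FT S ι f (T - C) := by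
  obtain ⟨X, hX⟩ := exists_transv S.A
  choose t ht using fun g : G => FT_exists c hf (ι g * y)
  obtain ⟨C, hC⟩ := (X.finite_toSet.image fun h => f h - t h).bddAbove
  have h1 : ∀ g, ι g * y ∈ FT S ι f (f g - max C 0) := fun g => by
    obtain ⟨a, ha, k, hk, rfl⟩ := hX g
    rw [map_mul, mul_assoc]
    refine FT_mono ?_ (FT_A c hf ha (ht k))
    have e := hf.2 a ha k
    have e1 : f k - t k ≤ C := hC ⟨k, hk, rfl⟩
    omega
  have h2 : ∀ T, ∀ a ∈ Sp ι S.N {h | T ≤ f h}, a * y ∈ FT S ι f (T - max C 0) := fun T a ha => by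
    refine Sp_ind (C := fun a => a * y ∈ FT S ι f (T - max C 0)) ?_ (fun a b h h' => ?_)
      (fun d hd g hg => ?_) ha
    · rw [zero_mul]
      exact FT_zero c hf
    · rw [add_mul]
      exact FT_add c hf h h'
    · rw [mul_assoc]
      refine Fil_smul c (isHt_V hf) (hta_aux_up f _) hd (FT_mono ?_ (h1 g))
      have e : T ≤ f g := hg
      omega
  refine ⟨max C 0, le_max_right _ _, fun T u hu => ?_⟩
  obtain ⟨s, z, hs, h⟩ := hu
  refine (Fil_lead_iff c (isHt_V hf) (hta_aux_up f _) hs).1 ?_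
  rw [← mul_assoc]
  refine Fil_mono (fun h hh => ?_) (h2 (T + (f z - f 1)) _ (Sp_mono (fun h hh => ?_) h))
  · have e := hta_aux_shift hf hs.1 h
    simp only [Set.mem_ofPred_eq] at hh ⊢
    omega
  · have e := hta_aux_shift hf hs.1 h
    simp only [Set.mem_ofPred_eq] at hh ⊢
    omega

variable [CharZero D]

theorem FT_rat (c : Ctx S ι) (hf : IsV S.A S.N f) (l : ℚ) (hu : u ∈ FT S ι f T) :
    l • u ∈ FT S ι f T := by
  rw [Rat.smul_def]
  exact Fil_smul c (isHt_V hf) (hta_aux_up f T) (SubfieldClass.ratCast_mem _ l) hu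

theorem FT_of_Qs (c : Ctx S ι) (hf : IsV S.A S.N f) (hu : u ∈ Qs ι {h | T ≤ f h}) :
    u ∈ FT S ι f T := by
  exact Fil_of_Sp c (isHt_V hf) (Sp_of_Qs hu)

theorem Qs_of_FT (c : Ctx S ι) (hf : IsV S.A S.N f) (hu : u ∈ Qs ι Set.univ)
    (h : u ∈ FT S ι f T) : u ∈ Qs ι {h | T ≤ f h} := by
  have h1 := Sp_of_Fil c (isHt_V hf) (hta_aux_up f T) h (Sp_of_Qs hu)
  refine Qs_mono Set.inter_subset_right (Qs_of_Sp c.ind (fun m hm q hq => ?_) hu h1)
  have e := hf.1 m hm q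
  simp only [Set.mem_ofPred_eq] at hq ⊢
  omega

end Pool.Agent.Lib.MP_fd3021_gt.Rf
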