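import Pool.Agent.Lib.MP_fd3021_gt.Rf.L2A

/-! The first L2-Betti number and exactness over the division ring. -/

namespace Pool.Agent.Lib.MP_fd3021_gt.Rf

open Matrix Filter

open MeasureTheory

variable {G : Type} [Group G]

theorem l2_aux_key {α β γ : Type} (f : α → β) (π : β → γ) (z : α →₀ ℤ)
    (hi : ∀ a ∈ z.support, ∀ a' ∈ z.support, π (f a) = π (f a') → f a = f a')
    (h : z.mapDomain (π ∘ f) = 0) : z.mapDomain f = 0 := by
  classical
  rw [Finsupp.mapDomain_comp] at h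
  refine Finsupp.mapDomain_injOn (f '' z.support) (f := π) ?_ ?_ ?_ ?_
  · rintro _ ⟨a, ha, rfl⟩ _ ⟨a', ha', rfl⟩ e
    exact hi a ha a' ha' e
  · intro b hb
    simpa using Finsupp.mapDomain_support hb
  · simp
  · rw [h, Finsupp.mapDomain_zero]

theorem l2_aux_ker (S : Stage G) {I : Type} [Fintype I] [DecidableEq I]
    {A : Matrix I I (MonoidAlgebra ℤ G)} (L : FiniteIndexNormalSubgroup G) (B X : Finset G)
    (hL : S.N ≤ L.toSubgroup) (hX : ∀ i j, (A i j).coeff.support ⊆ X)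
    (hB : Set.InjOn (mkQ L) B)
    (hs : ∀ t ∈ B, ∀ t' ∈ B, ∀ x ∈ X, ∀ x' ∈ X, mkQ L (t * x) = mkQ L (t' * x') →
      (t * x)⁻¹ * (t' * x') ∈ S.N)
    (h : ∀ x : I → MonoidAlgebra ℤ (G ⧸ S.N), x ᵥ* A.map S.pr = 0 → x = 0)
    (x : I × QQ L → ℤ) (hx : ∀ i ∉ Finset.univ ×ˢ B.image (mkQ L), x i = 0)
    (h0 : x ᵥ* rep L A = 0) : x = 0 := by
  classical
  let π : G ⧸ S.N →* QQ L := QuotientGroup.lift S.N (mkQ L) fun g hg =>
    (QuotientGroup.eq_one_iff (N := L.toSubgroup) g).2 (hL hg)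
  have hπ : (md π).comp S.pr = md (mkQ L) := by
    rw [Stage.pr, ← MonoidAlgebra.mapDomainRingHom_comp]
    rfl
  obtain ⟨y, hy⟩ : ∃ y : I → MonoidAlgebra ℤ G, ∀ i,
      y i = ∑ t ∈ B, MonoidAlgebra.single t (x (i, mkQ L t)) := ⟨_, fun _ => rfl⟩
  have h1 : ∀ i q, (md (mkQ L) (y i)).coeff q = x (i, q) := fun i q => by
    rw [hy, map_sum, MonoidAlgebra.coeff_sum, Finsupp.finsetSum_apply]
    have e : ∀ t, (md (mkQ L) (MonoidAlgebra.single t (x (i, mkQ L t)))).coeff q =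
        if mkQ L t = q then x (i, mkQ L t) else 0 := fun t => by
      simp [Finsupp.single_apply]
    simp only [e]
    rw [← Finset.sum_image (g := mkQ L) (f := fun r => if r = q then x (i, r) else 0) hB,
      Finset.sum_ite_eq']
    split_ifs with hq
    · rfl
    · exact (hx _ fun hm => hq (Finset.mem_product.1 hm).2).symm
  have h2 : ∀ k, md (mkQ L) ((y ᵥ* A) k) = 0 := fun k => by
    ext q
    have e := congrFun h0 (k, q)
    rw [vecMul, dotProduct, Fintype.sum_prod_type] at e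
    rw [vecMul, dotProduct, map_sum, MonoidAlgebra.coeff_sum, Finsupp.finsetSum_apply]
    refine Eq.trans (Finset.sum_congr rfl fun i _ => ?_) e
    rw [map_mul, MonoidAlgebra.coeff_mul_apply_left, Finsupp.sum_fintype _ _ (by simp)]
    refine Finset.sum_congr rfl fun r _ => ?_
    rw [h1, lrep_apply]
  have h3 : ∀ k, ∀ g ∈ ((y ᵥ* A) k).coeff.support, ∃ t ∈ B, ∃ u ∈ X, t * u = g := fun k g hg => by
    rw [vecMul, dotProduct, MonoidAlgebra.coeff_sum] at hg
    obtain ⟨i, -, hi⟩ := Finset.mem_biUnion.1 (Finsupp.support_finsetSum hg)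
    obtain ⟨t, ht, u, hu, rfl⟩ := Finset.mem_mul.1 (MonoidAlgebra.support_coeff_mul_subset _ _ hi)
    refine ⟨t, ?_, u, hX _ _ hu, rfl⟩
    rw [hy, MonoidAlgebra.coeff_sum] at ht
    obtain ⟨t', ht', e⟩ := Finset.mem_biUnion.1 (Finsupp.support_finsetSum ht)
    rw [MonoidAlgebra.coeff_single] at e
    rwa [Finset.mem_singleton.1 (Finsupp.support_single_subset e)]
  have h4 : ∀ k, S.pr ((y ᵥ* A) k) = 0 := fun k => by
    rw [← MonoidAlgebra.coeff_eq_zero]
    refine l2_aux_key (QuotientGroup.mk' S.N) π _ (fun a ha a' ha' e => ?_)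
      (MonoidAlgebra.coeff_eq_zero.2 (h2 k))
    obtain ⟨t, ht, u, hu, rfl⟩ := h3 k a ha
    obtain ⟨t', ht', u', hu', rfl⟩ := h3 k a' ha'
    exact QuotientGroup.eq.2 (hs t ht t' ht' u hu u' hu' e)
  have h5 := h (S.pr ∘ y) (funext fun k => by
    rw [← RingHom.map_vecMul, h4]
    rfl)
  funext ⟨i, q⟩
  have h6 : S.pr (y i) = 0 := congrFun h5 i
  rw [← h1, ← hπ, RingHom.comp_apply, h6, map_zero]
  rfl

theorem atom_of_inj (T : Tw G) {I : Type} [Fintype I] [DecidableEq I]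
    {A : Matrix I I (MonoidAlgebra ℤ G)} {K : ℝ} {μ : Measure ℝ} (hA : Good A K)
    (hμ : IsSpec A μ) (h : ∃ᶠ n in atTop, ∀ x : I → MonoidAlgebra ℤ (G ⧸ (T.st n).N),
      x ᵥ* A.map (T.st n).pr = 0 → x = 0) : μ {0} = 0 := by
  classical
  have := T.rf
  have := hμ.1
  rw [← measureReal_eq_zero_iff]
  have hm : (0 : ℝ) ≤ Fintype.card I := Nat.cast_nonneg _
  refine le_antisymm (le_of_forall_pos_le_add fun η hη => ?_) measureReal_nonneg
  obtain ⟨ε, hε, e1, e2⟩ : ∃ ε : ℝ, 0 < ε ∧ ε < 1 ∧ (Fintype.card I + 1) * ε ≤ η := by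
    refine ⟨min (1 / 2) (η / (Fintype.card I + 1)), lt_min (by norm_num) (by positivity),
      (min_le_left _ _).trans_lt (by norm_num), ?_⟩
    rw [← le_div_iff₀' (by positivity)]
    exact min_le_right _ _
  obtain ⟨X0, hX0⟩ := ker_approx hA hμ hε
  let X : Finset G := insert 1 (X0 ∪ Finset.univ.biUnion fun x : I × I => (A x.1 x.2).coeff.support)
  have x1 : (1 : G) ∈ X := Finset.mem_insert_self _ _
  have x2 : X0 ⊆ X := fun _ hx => Finset.mem_insert_of_mem (Finset.mem_union_left _ hx)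
  have x3 : ∀ i j, (A i j).coeff.support ⊆ X := fun i j _ hx => Finset.mem_insert_of_mem
    (Finset.mem_union_right _ (Finset.mem_biUnion.2 ⟨(i, j), Finset.mem_univ _, hx⟩))
  obtain ⟨n, hn, hsep⟩ := (h.and_eventually (T.sep_fin X)).exists
  obtain ⟨L, B, hL, hs, hB, hc⟩ := box (T.st n) X hε
  have d0 := dg_pos L
  have hB' : Set.InjOn (mkQ L) B := fun t ht t' ht' e => hB t ht t' ht' (by
    simpa only [mul_one] using hs t ht t' ht' 1 x1 1 x1 (by rwa [mul_one, mul_one]))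
  obtain ⟨t, ht⟩ : B.Nonempty := Finset.card_pos.1 (Nat.cast_pos.1
    ((mul_pos (sub_pos.2 e1) d0).trans_le hc))
  have h1 := hX0 L fun a ha b hb e => by
    have h2 := hs t ht t ht a (x2 ha) b (x2 hb) (by rw [map_mul, map_mul, e])
    rw [_root_.mul_inv_rev, mul_assoc, inv_mul_cancel_left, (T.st n).nN.mem_comm_iff] at h2
    exact (hsep b (x2 hb) a (x2 ha) h2).symm
  have h2 := ker_le' (hA L).1 _ (l2_aux_ker (T.st n) L B X hL x3 hB' hs hn)
  rw [Finset.card_product, Finset.card_image_of_injOn hB', Finset.card_univ, Fintype.card_prod,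
    Nat.cast_mul, Nat.cast_mul] at h2
  change _ ≤ _ * dg L - _ at h2
  have h3 := (abs_le.1 h1).1
  have h4 := mul_le_mul_of_nonneg_left hc hm
  have h5 := mul_le_mul_of_nonneg_right e2 d0.le
  rw [zero_add]
  refine le_of_mul_le_mul_right ?_ d0
  linarith

theorem dex_iff {T : Tw G} {D : Type} [DivisionRing D] {ι : G →* D} (h : Env T ι) {K : Type}
    [Group K] (j : K →* G) (hj : Function.Injective j) {J : Type} [Fintype J] [DecidableEq J]
    {dj : J → ℤ} {b : Matrix J J (MonoidAlgebra ℤ K)} (hg : ∀ i j, b i j ≠ 0 → dj i = dj j + 1)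
    (hb : b * b = 0) : DEx (zi (ι.comp j)) dj b ↔ spec (lap dj b 1) {0} = 0 := by
  have := T.rf
  have hg' : ∀ i k, b.map (md j) i k ≠ 0 → dj i = dj k + 1 := fun i k e =>
    hg i k fun e' => e (by rw [Matrix.map_apply, e', map_zero])
  have hb' : b.map (md j) * b.map (md j) = 0 := by
    rw [← Matrix.map_mul, hb, Matrix.map_zero _ (map_zero _)]
  have e : ⇑(zi (ι.comp j)) = zi ι ∘ md j := by
    funext x
    induction x using MonoidAlgebra.induction_linear with
    | zero => simp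
    | add a c ha hc => simpa only [map_add, Function.comp_apply] using congrArg₂ (· + ·) ha hc
    | single g r => simp [zi]
  have e' : DEx (zi (ι.comp j)) dj b ↔ DEx (zi ι) dj (b.map (md j)) := by
    rw [DEx, DEx, Matrix.map_map, e]
  obtain ⟨C, hC⟩ := good_lap hg' 1
  have h1 := hC.isSpec
  have hμ : IsSpec (lap dj (b.map (md j)) 1) (spec (lap dj b 1)) := by
    rw [lap_map] at h1 ⊢
    exact (isSpec_map j hj _ _).2 (Classical.epsilon_spec ⟨_, (isSpec_map j hj _ _).1 h1⟩)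
  rw [e']
  refine ⟨fun hd => atom_of_inj T hC hμ ((h.ex dj _ hd).mono fun n hn => ?_),
    fun h0 => dex_of_lap hg' hb' (h.inj _ (inj_of_atom T hC hμ h0))⟩
  have := (T.st n).nzd
  rw [Stage.pr, ← lap_map]
  exact lap_inj (fun i k e => hg' i k fun e' => e (by rw [Matrix.map_apply, e', map_zero])) hn

end Pool.Agent.Lib.MP_fd3021_gt.Rf
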