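import Pool.Agent.Lib.MP_fd3021_gt.Rf.Apx
import Pool.Agent.Lib.MP_fd3021_gt.Rf.Box
import Pool.Agent.Lib.MP_fd3021_gt.Rf.ExA
import Pool.Agent.Lib.MP_fd3021_gt.Rf.Lin

/-! The first L2-Betti number and exactness over the division ring. -/

namespace Pool.Agent.Lib.MP_fd3021_gt.Rf

open Matrix Filter

open MeasureTheory

variable {G : Type} [Group G]

theorem l2a_aux_vec (L : FiniteIndexNormalSubgroup G) {I : Type} [Fintype I]
    (A : Matrix I I (MonoidAlgebra ℤ G)) (y : I → MonoidAlgebra ℤ (QQ L)) (j : I) (r : QQ L) :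
    ((fun p : I × QQ L => (y p.1).coeff p.2) ᵥ* rep L A) (j, r) =
      (∑ i, y i * md (mkQ L) (A i j)).coeff r := by
  simp only [Matrix.vecMul, dotProduct, lrep_apply, MonoidAlgebra.coeff_sum,
    Finsupp.finsetSum_apply, Fintype.sum_prod_type]
  refine Finset.sum_congr rfl fun i _ => ?_
  rw [MonoidAlgebra.coeff_mul_apply_left, Finsupp.sum_fintype _ _ (by simp)]

theorem l2a_aux_zero {Q R : Type} [Group Q] [Group R] (π : Q →* R) (z : MonoidAlgebra ℤ Q)
    (W : Set Q) (hW : Set.InjOn π W) (hz : (z.coeff.support : Set Q) ⊆ W) (h : md π z = 0) :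
    z = 0 := by
  have h1 : Finsupp.mapDomain π z.coeff = Finsupp.mapDomain π (0 : Q →₀ ℤ) := by
    rw [Finsupp.mapDomain_zero]
    exact congrArg MonoidAlgebra.coeff h
  have h2 : z.coeff = 0 := Finsupp.mapDomain_injOn W hW hz (by simp) h1
  exact MonoidAlgebra.coeff_injective h2

theorem inj_of_atom (T : Tw G) {I : Type} [Fintype I] [DecidableEq I]
    {A : Matrix I I (MonoidAlgebra ℤ G)} {K : ℝ} {μ : Measure ℝ} (hA : Good A K)
    (hμ : IsSpec A μ) (h : μ {0} = 0) :
    ∀ᶠ n in atTop, ∀ x : I → MonoidAlgebra ℤ (G ⧸ (T.st n).N),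
      x ᵥ* A.map (T.st n).pr = 0 → x = 0 := by
  classical
  have := T.rf
  obtain ⟨X0, hX0⟩ := ker_approx hA hμ (ε := 1 / 4) (by norm_num)
  filter_upwards [T.sep_fin X0] with n hn x hx
  generalize T.st n = S at hn x hx ⊢
  by_contra hne
  obtain ⟨i0, hi0⟩ := Function.ne_iff.1 hne
  have := S.nzd
  obtain ⟨L, Y, hNL, hsep, hdist, hcard⟩ :=
    box S (X0 ∪ (x i0).coeff.support.image Quotient.out) (ε := 1 / 4) (by norm_num)
  have hd : 0 < dg L := by
    unfold dg
    exact_mod_cast Fintype.card_pos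
  have hY : Y.Nonempty := by
    rw [← Finset.card_pos]
    have : (0 : ℝ) < Y.card := by linarith
    exact_mod_cast this
  obtain ⟨t0, ht0⟩ := hY
  have hinj : Set.InjOn (mkQ L) X0 := by
    intro a ha b hb hab
    have h1 := hsep t0 ht0 t0 ht0 b (Finset.mem_union_left _ hb) a (Finset.mem_union_left _ ha)
      (by rw [map_mul, map_mul, hab])
    have h2 := S.nN.conj_mem _ h1 b
    refine hn a ha b hb ?_
    have e : b * ((t0 * b)⁻¹ * (t0 * a)) * b⁻¹ = a * b⁻¹ := by group
    rwa [e] at h2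
  have hup := (abs_le.1 (hX0 L hinj)).2
  have hz : μ.real {0} = 0 := by simp [Measure.real, h]
  rw [hz] at hup
  let π : G ⧸ S.N →* QQ L := QuotientGroup.lift S.N (mkQ L) fun g hg =>
    (QuotientGroup.eq_one_iff (N := L.toSubgroup) g).2 (hNL hg)
  have hπ : ∀ g : G, π (g : G ⧸ S.N) = mkQ L g := fun g => rfl
  have hcomp : ∀ a : MonoidAlgebra ℤ G, md (mkQ L) a = md π (S.pr a) := by
    intro a
    have e : mkQ L = π.comp (QuotientGroup.mk' S.N) := MonoidHom.ext fun g => rfl
    rw [e, md, MonoidAlgebra.mapDomainRingHom_comp]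
    rfl
  let v : Y → I × QQ L → ℤ := fun t p =>
    (md π (MonoidAlgebra.single ((t : G) : G ⧸ S.N) 1 * x p.1)).coeff p.2
  have hv0 : ∀ t, v t ᵥ* rep L A = 0 := by
    intro t
    funext ⟨j, r⟩
    have e := l2a_aux_vec L A
      (fun i => md π (MonoidAlgebra.single ((t : G) : G ⧸ S.N) 1 * x i)) j r
    have e1 : ∑ i, x i * S.pr (A i j) = 0 := congrFun hx j
    refine e.trans ?_
    simp only [hcomp, ← map_mul, ← map_sum, mul_assoc, ← Finset.mul_sum, e1, mul_zero, map_zero]
    rfl
  have hli : LinearIndependent ℤ v := by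
    rw [Fintype.linearIndependent_iff]
    intro c hc
    set s : MonoidAlgebra ℤ (G ⧸ S.N) :=
      ∑ t : Y, c t • MonoidAlgebra.single ((t : G) : G ⧸ S.N) (1 : ℤ) with hs
    have h1 : md π (s * x i0) = 0 := by
      ext r
      have e := congrFun hc (i0, r)
      rw [Finset.sum_apply] at e
      rw [hs, Finset.sum_mul, map_sum, MonoidAlgebra.coeff_sum, Finsupp.finsetSum_apply]
      refine Eq.trans ?_ e
      refine Finset.sum_congr rfl fun t _ => ?_
      rw [smul_mul_assoc, map_zsmul]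
      rfl
    have h2 : s * x i0 = 0 := by
      refine l2a_aux_zero π _
        {q | ∃ t ∈ Y, ∃ w ∈ (x i0).coeff.support, q = (t : G ⧸ S.N) * w} ?_ ?_ h1
      · rintro _ ⟨t, ht, w, hw, rfl⟩ _ ⟨t', ht', w', hw', rfl⟩ he
        have e1 : ∀ (t : G) (w : G ⧸ S.N),
            (t : G ⧸ S.N) * w = ((t * Quotient.out w : G) : G ⧸ S.N) := fun t w => by
          rw [QuotientGroup.mk_mul, QuotientGroup.out_eq']
        rw [e1, e1] at he ⊢
        exact QuotientGroup.eq.2 (hsep t ht t' ht' _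
          (Finset.mem_union_right _ (Finset.mem_image_of_mem _ hw)) _
          (Finset.mem_union_right _ (Finset.mem_image_of_mem _ hw')) he)
      · intro q hq
        rw [Finset.mem_coe, Finsupp.mem_support_iff, hs, Finset.sum_mul, MonoidAlgebra.coeff_sum,
          Finsupp.finsetSum_apply] at hq
        obtain ⟨t, -, ht⟩ := Finset.exists_ne_zero_of_sum_ne_zero hq
        refine ⟨t, t.2, ((t : G) : G ⧸ S.N)⁻¹ * q, ?_, by group⟩
        rw [Finsupp.mem_support_iff]
        intro h0
        apply ht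
        rw [smul_mul_assoc, MonoidAlgebra.coeff_smul_apply, MonoidAlgebra.coeff_single_mul_apply,
          h0, mul_zero, smul_zero]
    have h3 : s = 0 := (mul_eq_zero.1 h2).resolve_right hi0
    intro t
    have h4 : s.coeff ((t : G) : G ⧸ S.N) = c t := by
      rw [hs, MonoidAlgebra.coeff_sum, Finsupp.finsetSum_apply, Finset.sum_eq_single t]
      · simp
      · intro u _ hu
        have : ((u : G) : G ⧸ S.N) ≠ ((t : G) : G ⧸ S.N) := fun e =>
          hu (Subtype.ext (hdist u u.2 t t.2 (QuotientGroup.eq.1 e)))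
        rw [MonoidAlgebra.coeff_smul_apply, MonoidAlgebra.coeff_single,
          Finsupp.single_eq_of_ne this.symm, smul_zero]
      · simp
    rw [← h4, h3]
    rfl
  have hge := ker_ge (hA L).1 v hli hv0
  rw [Fintype.card_coe] at hge
  linarith

end Pool.Agent.Lib.MP_fd3021_gt.Rf
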