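import Pool.Agent.Lib.MP_fd3021_gt.Rf.LexA

/-! The filtration of the order of a stage. -/

namespace Pool.Agent.Lib.MP_fd3021_gt.Rf

open Matrix Filter

variable {G D : Type} [Group G] [DivisionRing D] {ι : G →* D} {S : Stage G} {u x : D} {g : G}

theorem lex_aux_set (S : Stage G) (g : G) :
    {h | h * g⁻¹ ∈ S.P} = {h | ¬ S.lex h g} := by
  ext h
  exact (not_lex S g h).symm

/-- leading positions are multiplied by the leading position of a left factor -/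
theorem lex_aux_lead (c : Ctx S ι) {t : D} {y : G} (ht : Lead S ι S.lex t y) :
    (t * u ∈ Fil S ι S.lex {h | S.lex (y * g) h} ↔ u ∈ Fil S ι S.lex {h | S.lex g h}) ∧
      (t * u ∈ Fil S ι S.lex {h | h * (y * g)⁻¹ ∈ S.P} ↔
        u ∈ Fil S ι S.lex {h | h * g⁻¹ ∈ S.P}) := by
  have r := isHt_lex S
  constructor
  · rw [← Fil_lead_iff c r (up_ge r g) ht]
    refine iff_of_eq (congrArg (fun W => t * u ∈ Fil S ι S.lex W) ?_)
    ext h
    exact (shift_ge r ht.1 g h).symm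
  · rw [lex_aux_set, lex_aux_set, ← Fil_lead_iff c r (up_gt r g) ht]
    refine iff_of_eq (congrArg (fun W => t * u ∈ Fil S ι S.lex W) ?_)
    ext h
    exact not_congr (shift_le r ht.1 g h).symm

theorem lex_aux_iota (c : Ctx S ι) {b : G} (hb : b ∈ S.A) : Lead S ι S.lex (ι b) b := by
  have h := lead_iota c (isHt_lex S) hb (d := 1) (one_mem _) one_ne_zero
  rwa [one_mul] at h

theorem lex_aux_strict (c : Ctx S ι) {a : D} (ha : a ∈ Sp ι S.N Set.univ) {p : G} (hp : p ∈ S.P)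
    (h : a ∈ Fil S ι S.lex {h | S.lex g h}) :
    ι p * a ∈ Fil S ι S.lex {h | h * g⁻¹ ∈ S.P} := by
  have r := isHt_lex S
  refine Fil_of_Sp c r (Sp_mul (P := {p}) (Q := {h | S.lex g h}) ?_ (mem_Sp rfl)
    (Sp_of_Fil c r (up_ge r g) h ha))
  intro p' hp' q hq
  obtain rfl : p = p' := hp'.symm
  change p * q * g⁻¹ ∈ S.P
  rcases hq with hq | hq
  · rw [mul_assoc]
    exact S.mul _ hp _ hq
  · have h1 := S.sat _ (S.nN.conj_mem _ hq p) _ hp
    rwa [show p * (q * g⁻¹) * p⁻¹ * p = p * q * g⁻¹ by group] at h1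

/-- every position is the leading position of a translate -/
theorem lex_surj (c : Ctx S ι) (h0 : x ≠ 0) (g : G) : ∃ q,
    ι q * x ∈ Fil S ι S.lex {h | S.lex g h} ∧ ι q * x ∉ Fil S ι S.lex {h | h * g⁻¹ ∈ S.P} := by
  have r := isHt_lex S
  obtain ⟨s, z₀, hs, ha⟩ := exists_rep c r x
  have ha0 : s * x ≠ 0 := mul_ne_zero hs.ne h0
  have hq : ∀ q : G, ι q * (s * x) ∈ Sp ι S.N Set.univ := fun q =>
    Sp_mul (P := Set.univ) (Q := Set.univ) (fun _ _ _ _ => Set.mem_univ _)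
      (mem_Sp (Set.mem_univ _)) ha
  have hl : ∀ q : G, ∃ k, ι q * (s * x) ∈ Fil S ι S.lex {h | S.lex k h} ∧
      ι q * (s * x) ∉ Fil S ι S.lex {h | h * k⁻¹ ∈ S.P} := fun q => by
    obtain ⟨k, h1, h2⟩ := Fil_lead c r (mul_ne_zero (iota_ne q) ha0)
    exact ⟨k, h1, by rwa [lex_aux_set]⟩
  choose l hl1 hl2 using hl
  have hinj : ∀ q q' : G, l q' * (l q)⁻¹ ∈ S.A → q' * q⁻¹ ∈ S.A := by
    intro q q' hb
    have h1 := lex_aux_lead (u := ι q * (s * x)) (g := l q) c (lex_aux_iota c hb)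
    rw [inv_mul_cancel_right, ← mul_assoc, ← map_mul] at h1
    have h2 := h1.1.2 (hl1 q)
    have h3 := fun h => hl2 q (h1.2.1 h)
    generalize l q' * (l q)⁻¹ = b at hb h2 h3
    rcases S.tri (q' * (b * q)⁻¹) with h | h | h
    · have h4 := lex_aux_strict c (hq _) h h2
      rw [← mul_assoc, ← map_mul, inv_mul_cancel_right] at h4
      exact absurd h4 (hl2 q')
    · have h4 := mul_mem (S.le h) hb
      rwa [show q' * (b * q)⁻¹ * b = q' * q⁻¹ by group] at h4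
    · have h4 := lex_aux_strict c (hq _) h (hl1 q')
      rw [← mul_assoc, ← map_mul, show (q' * (b * q)⁻¹)⁻¹ * q' = b * q by group] at h4
      exact absurd h4 h3
  have hF : Function.Injective fun k : G ⧸ S.A => (QuotientGroup.mk (l k.out) : G ⧸ S.A) := by
    intro k k' h
    have h1 := hinj _ _ (S.nA.mem_comm (QuotientGroup.eq.1 h))
    rw [← k.out_eq', ← k'.out_eq']
    exact QuotientGroup.eq.2 (S.nA.mem_comm h1)
  obtain ⟨k, hk⟩ := Finite.surjective_of_injective hF (QuotientGroup.mk g)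
  have hk1 : g * (l k.out)⁻¹ ∈ S.A := S.nA.mem_comm (QuotientGroup.eq.1 hk)
  generalize k.out = q at hk1
  have hs1 : ι q * s * ι q⁻¹ ∈ Sp ι S.N S.A := by
    refine Sp_mul (P := {h | q⁻¹ * h ∈ S.A}) (Q := {q⁻¹}) ?_
      (Sp_mul (P := {q}) (Q := {a | a ∈ S.A ∧ S.lex z₀ a}) ?_ (mem_Sp rfl) hs.2.1) (mem_Sp rfl)
    · rintro p hp _ rfl
      exact S.nA.mem_comm hp
    · rintro _ rfl p hp
      change _⁻¹ * (_ * p) ∈ S.A
      rw [inv_mul_cancel_left]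
      exact hp.1
  obtain ⟨z, hz⟩ := exists_Lead c r hs1
    (mul_ne_zero (mul_ne_zero (iota_ne q) hs.ne) (iota_ne q⁻¹))
  have h1 := lex_aux_lead (u := ι q * x) (g := z⁻¹ * l q) c hz
  have h2 : ι q * s * ι q⁻¹ * (ι q * x) = ι q * (s * x) := by
    rw [mul_assoc, ← mul_assoc (ι q⁻¹), ← map_mul, inv_mul_cancel, map_one, one_mul, mul_assoc]
  rw [mul_inv_cancel_left, h2] at h1
  have h3 := lex_aux_lead (u := ι q * x) (g := z⁻¹ * l q) c
    (lex_aux_iota c (mul_mem hk1 hz.1))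
  rw [show g * (l q)⁻¹ * z * (z⁻¹ * l q) = g by group, ← mul_assoc, ← map_mul] at h3
  exact ⟨_, h3.1.2 (h1.1.1 (hl1 q)), fun h => hl2 q (h1.2.2 (h3.2.1 h))⟩

theorem lex_ev (c : Ctx S ι) (hu : u ∈ Fil S ι S.lex {h | h * g⁻¹ ∈ S.P}) :
    S.Ev fun f => u ∈ FT S ι f (f g + 1) := by
  classical
  obtain ⟨s, z, ⟨hz, hs1, hs2⟩, hsu⟩ := hu
  obtain ⟨T₁, hT₁, hs3⟩ := Sp_fin hs1
  obtain ⟨T₂, hT₂, hs4⟩ := Sp_fin hsu
  refine ⟨(T₁.filter fun a => a * z⁻¹ ∈ S.P).image (fun a => (z, a)) ∪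
    T₂.image (fun h => (g, z⁻¹ * h)), fun x hx => ?_, fun f hf hT => ?_⟩
  · rcases Finset.mem_union.1 hx with hx | hx
    · obtain ⟨a, ha, rfl⟩ := Finset.mem_image.1 hx
      exact (Finset.mem_filter.1 ha).2
    · obtain ⟨a, ha, rfl⟩ := Finset.mem_image.1 hx
      exact hT₂ ha
  have h1 : ∀ a ∈ T₁, a * z⁻¹ ∈ S.P → f z < f a := fun a ha hp =>
    hT (z, a) (Finset.mem_union_left _
      (Finset.mem_image_of_mem _ (Finset.mem_filter.2 ⟨ha, hp⟩)))
  have h2 : ∀ a b : G, a * b⁻¹ ∈ S.N → f a = f b := fun a b h => by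
    have h3 := hf.1 _ h b
    rwa [inv_mul_cancel_right] at h3
  refine ⟨s, z, ⟨hz, Sp_mono (fun a ha => And.intro (hT₁ ha).1 ?_) hs3, fun h => hs2 ?_⟩,
    Sp_mono (fun h hh => ?_) hs4⟩
  · rcases (hT₁ ha).2 with h | h
    · exact (h1 a ha h).le
    · exact (h2 a z h).ge
  · obtain ⟨s₀, hs₀, s₁, hs₁, e⟩ := Sp_split {a | a * z⁻¹ ∈ S.N} hs3
    have h3 : s₁ ∈ Sp ι S.N {a | ¬ f a ≤ f z} :=
      Sp_mono (fun a ha => not_le.2 (h1 a ha.1 ((hT₁ ha.1).2.resolve_right ha.2))) hs₁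
    have h4 : s₀ ∈ Sp ι S.N {a | ¬ f a ≤ f z} := by
      rw [eq_sub_of_add_eq e.symm]
      exact sub_mem h h3
    have h5 : s₀ = 0 := by
      refine Sp_disj c.ind le_rfl ?_ hs₀ h4
      exact fun p hp q hq hpq => hq ((h2 p q hpq).symm.trans (h2 p z hp.2)).le
    rw [e, h5, zero_add]
    exact Sp_mono (fun a ha => (not_lex S z a).2 ((hT₁ ha.1).2.resolve_right ha.2)) hs₁
  · exact hT (g, z⁻¹ * h) (Finset.mem_union_right _ (Finset.mem_image_of_mem _ hh))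

theorem lex_aux_desc {N N' : Subgroup G} (hI : Ind ι N) (hN : N' ≤ N) {W : Set G}
    (hW : ∀ n ∈ N, ∀ q ∈ W, n * q ∈ W) {a : D} (h1 : a ∈ Sp ι N' Set.univ) (h2 : a ∈ Sp ι N W) :
    a ∈ Sp ι N' W := by
  obtain ⟨a₁, ha₁, a₂, ha₂, e⟩ := Sp_split W h1
  have h3 : a₂ ∈ Sp ι N W := by
    rw [eq_sub_of_add_eq' e.symm]
    exact sub_mem h2 (Sp_mono' hN (Sp_mono Set.inter_subset_right ha₁))
  have h4 : a₂ = 0 := Sp_disj hI le_rfl (fun p hp q hq hpq => hp.2 (by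
    have h5 := hW _ hpq q hq
    rwa [inv_mul_cancel_right] at h5)) (Sp_mono' hN ha₂) h3
  rw [e, h4, add_zero]
  exact Sp_mono Set.inter_subset_right ha₁

theorem lex_deep {S' : Stage G} (c : Ctx S ι) (c' : Ctx S' ι) (hA : S'.A ≤ S.A)
    (hN : S'.N ≤ S.N) (hP : S.P ⊆ S'.P) (hu : u ∈ Fil S ι S.lex {h | h * g⁻¹ ∈ S.P}) :
    u ∈ Fil S' ι S'.lex {h | h * g⁻¹ ∈ S.P} := by
  have r := isHt_lex S
  obtain ⟨s, z, hs, hsu⟩ := exists_rep c' (isHt_lex S') u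
  have h1 : Lead S ι S.lex s z := by
    refine ⟨hA hs.1, Sp_mono' hN (Sp_mono (fun a ha => And.intro (hA ha.1) ?_) hs.2.1),
      fun h => hs.2.2 ?_⟩
    · rcases S.tri (a * z⁻¹) with h | h | h
      · exact Or.inl h
      · exact Or.inr h
      · rcases ha.2 with h' | h'
        · have h2 := S'.mul _ h' _ (hP h)
          rw [mul_inv_cancel] at h2
          exact absurd (one_mem _) (S'.disj _ h2)
        · exact absurd (inv_mem h') (S'.disj _ (hP h))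
    · refine Sp_mono (fun a ha => (not_lex S' z a).2 (hP ((not_lex S z a).1 ha)))
        (lex_aux_desc c.ind hN (up_sat r (up_gt r z)) (Sp_mono (Set.subset_univ _) hs.2.1) h)
  exact ⟨s, z, hs, lex_aux_desc c.ind hN (up_sat r (up_shift r h1.1 (up_P S g))) hsu
    (Fil_rep c r (up_P S g) hu h1 (Sp_mono' hN hsu))⟩

end Pool.Agent.Lib.MP_fd3021_gt.Rf
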