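import Pool.Agent.Lib.MP_fd3021_gt.Rf.Val
import Pool.Agent.Lib.MP_fd3021_gt.Rf.Stg

/-! The filtration of the order of a stage. -/

namespace Pool.Agent.Lib.MP_fd3021_gt.Rf

open Matrix Filter

variable {G D : Type} [Group G] [DivisionRing D] {ι : G →* D} {S : Stage G} {u x : D} {g : G}

theorem lexA_aux_PQ (S : Stage G) {p q : G} (hp : p ∈ S.P) (hq : q ∈ S.P ∨ q ∈ S.N) :
    p * q ∈ S.P := by
  rcases hq with hq | hq
  · exact S.mul p hp q hq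
  · have h := S.sat _ (S.nN.conj_mem q hq p) p hp
    rwa [inv_mul_cancel_right] at h

theorem lexA_aux_QP (S : Stage G) {p q : G} (hq : q ∈ S.P ∨ q ∈ S.N) (hp : p ∈ S.P) :
    q * p ∈ S.P := by
  rcases hq with hq | hq
  · exact S.mul q hq p hp
  · exact S.sat q hq p hp

theorem lexA_aux_QQ (S : Stage G) {p q : G} (hp : p ∈ S.P ∨ p ∈ S.N) (hq : q ∈ S.P ∨ q ∈ S.N) :
    p * q ∈ S.P ∨ p * q ∈ S.N := by
  rcases hp with hp | hp
  · exact Or.inl (lexA_aux_PQ S hp hq)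
  · rcases hq with hq | hq
    · exact Or.inl (S.sat p hp q hq)
    · exact Or.inr (S.N.mul_mem hp hq)

theorem lexA_aux_inv (S : Stage G) {p : G} (hp : p ∈ S.P) : ¬ (p⁻¹ ∈ S.P ∨ p⁻¹ ∈ S.N) := by
  intro h
  have h1 := lexA_aux_PQ S hp h
  rw [mul_inv_cancel] at h1
  exact S.disj 1 h1 S.N.one_mem

theorem lexA_aux_conj (S : Stage G) {a q : G} (ha : a ∈ S.A) (hq : q ∈ S.P ∨ q ∈ S.N) :
    a * q * a⁻¹ ∈ S.P ∨ a * q * a⁻¹ ∈ S.N :=
  hq.imp (S.conj a ha q) fun h => S.nN.conj_mem q h a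

theorem isHt_lex (S : Stage G) : IsHt S S.lex := by
  have key : ∀ a a' g g' : G, a' * g' * (a * g)⁻¹ = a' * (g' * g⁻¹) * a'⁻¹ * (a' * a⁻¹) := by
    intro a a' g g'
    group
  refine ⟨fun g h => ?_, fun {g h k} h1 h2 => ?_, fun n hn g => ⟨Or.inr ?_, Or.inr ?_⟩,
    fun a _ a' ha' g g' h1 h2 => ?_, fun a _ a' ha' g g' h1 h2 h3 => ?_⟩
  · rcases S.tri (h * g⁻¹) with h1 | h1 | h1
    · exact Or.inl (Or.inl h1)
    · exact Or.inl (Or.inr h1)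
    · rw [_root_.mul_inv_rev, inv_inv] at h1
      exact Or.inr (Or.inl h1)
  · have h3 := lexA_aux_QQ S h2 h1
    have e : k * h⁻¹ * (h * g⁻¹) = k * g⁻¹ := by group
    rw [e] at h3
    exact h3
  · have e : g * (n * g)⁻¹ = n⁻¹ := by group
    rw [e]
    exact S.N.inv_mem hn
  · rw [mul_inv_cancel_right]
    exact hn
  · unfold Stage.lex
    rw [key]
    exact lexA_aux_QQ S (lexA_aux_conj S ha' h2) h1
  · have h4 : a' * g' * (a * g)⁻¹ ∉ S.P := by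
      intro h5
      refine lexA_aux_inv S h5 ?_
      rw [_root_.mul_inv_rev (a' * g'), inv_inv]
      exact h3
    rw [key] at h4
    constructor
    · rcases h1 with h1 | h1
      · exact absurd (lexA_aux_QP S (lexA_aux_conj S ha' h2) h1) h4
      · refine Or.inr ?_
        have h5 := S.N.inv_mem h1
        rwa [_root_.mul_inv_rev, inv_inv] at h5
    · rcases h2 with h2 | h2
      · exact absurd (lexA_aux_PQ S (S.conj a' ha' _ h2) h1) h4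
      · refine Or.inr ?_
        have h5 := S.N.inv_mem h2
        rwa [_root_.mul_inv_rev, inv_inv] at h5

theorem not_lex (S : Stage G) (g h : G) : ¬ S.lex h g ↔ h * g⁻¹ ∈ S.P := by
  constructor
  · intro h1
    rcases S.tri (g * h⁻¹) with h2 | h2 | h2
    · exact absurd (Or.inl h2) h1
    · exact absurd (Or.inr h2) h1
    · rwa [_root_.mul_inv_rev, inv_inv] at h2
  · intro h1 h2
    refine lexA_aux_inv S h1 ?_
    rw [_root_.mul_inv_rev, inv_inv]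
    exact h2

theorem up_P (S : Stage G) (g : G) : Up S.lex {h | h * g⁻¹ ∈ S.P} := by
  intro h hh k hk
  have h3 := lexA_aux_QP S hk hh
  have e : k * h⁻¹ * (h * g⁻¹) = k * g⁻¹ := by group
  rw [e] at h3
  exact h3

/-- the leading component -/
theorem lex_comp (c : Ctx S ι) (hu : u ∈ Fil S ι S.lex {h | S.lex g h}) :
    ∃ d ∈ dcl ι S.N, u - d * ι g ∈ Fil S ι S.lex {h | h * g⁻¹ ∈ S.P} := by
  obtain ⟨s, z, hs, ha⟩ := hu
  obtain ⟨s0, hs0, s1, hs1, es⟩ := Sp_split {h | h * z⁻¹ ∈ S.N} hs.2.1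
  obtain ⟨a0, ha0, a1, ha1, ea⟩ := Sp_split {h | h * (z * g)⁻¹ ∈ S.N} ha
  obtain ⟨d1, hd1, e1⟩ := Sp_coset (Sp_mono Set.inter_subset_right hs0)
  obtain ⟨d2, hd2, e2⟩ := Sp_coset (Sp_mono Set.inter_subset_right ha0)
  have hs2 : s1 ∈ Sp ι S.N {h | h * z⁻¹ ∈ S.P} :=
    Sp_mono (fun h hh => hh.1.2.resolve_right hh.2) hs1
  have ha2 : a1 ∈ Sp ι S.N {h | z⁻¹ * h ∈ {h | h * g⁻¹ ∈ S.P}} := by
    refine Sp_mono (fun h hh => Or.resolve_right hh.1 fun h1 => hh.2 ?_) ha1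
    have h2 := S.nN.conj_mem _ h1 z
    have e : z * (z⁻¹ * h * g⁻¹) * z⁻¹ = h * (z * g)⁻¹ := by group
    rw [e] at h2
    exact h2
  have h0 : d1 ≠ 0 := by
    rintro rfl
    refine hs.2.2 ?_
    rw [es, e1, zero_mul, zero_add]
    exact Sp_mono (fun h hh => (not_lex S z h).2 hh) hs2
  have hd : ι z⁻¹ * (d1⁻¹ * d2) * ι z⁻¹⁻¹ ∈ dcl ι S.N :=
    dcl_conj z⁻¹ ((dcl ι S.N).mul_mem ((dcl ι S.N).inv_mem hd1) hd2)
  rw [inv_inv] at hd
  refine ⟨_, hd, s, z, hs, ?_⟩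
  have hz : ι z * ι z⁻¹ = 1 := by rw [← map_mul, mul_inv_cancel, map_one]
  have e3 : s0 * (ι z⁻¹ * (d1⁻¹ * d2) * ι z * ι g) = a0 := by
    rw [e1, e2, map_mul]
    calc d1 * ι z * (ι z⁻¹ * (d1⁻¹ * d2) * ι z * ι g)
        = d1 * (ι z * ι z⁻¹) * d1⁻¹ * d2 * (ι z * ι g) := by simp only [mul_assoc]
      _ = d2 * (ι z * ι g) := by rw [hz, mul_one, mul_inv_cancel₀ h0, one_mul]
  have e4 : s * (u - ι z⁻¹ * (d1⁻¹ * d2) * ι z * ι g) =
      a1 - s1 * (ι z⁻¹ * (d1⁻¹ * d2) * ι z) * ι g := by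
    rw [mul_sub, ea, mul_assoc s1]
    conv_lhs => rw [es, add_mul, e3]
    abel
  rw [e4]
  refine Submodule.sub_mem _ ha2 (Sp_mul (Q := {g}) ?_ (Sp_mul_dcl hs2 hd) (mem_Sp rfl))
  rintro p hp q rfl
  have h2 := S.conj z⁻¹ (S.A.inv_mem hs.1) _ hp
  have e : z⁻¹ * (p * z⁻¹) * z⁻¹⁻¹ = z⁻¹ * (p * q) * q⁻¹ := by group
  rw [e] at h2
  exact h2

/-- the leading position is unique modulo `N` -/
theorem lex_unique (c : Ctx S ι) {g' : G} (h1 : u ∈ Fil S ι S.lex {h | S.lex g h})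
    (h2 : u ∉ Fil S ι S.lex {h | h * g⁻¹ ∈ S.P}) (h3 : u ∈ Fil S ι S.lex {h | S.lex g' h})
    (h4 : u ∉ Fil S ι S.lex {h | h * g'⁻¹ ∈ S.P}) : g' * g⁻¹ ∈ S.N := by
  rcases S.tri (g' * g⁻¹) with h5 | h5 | h5
  · exact absurd (Fil_mono (fun h hh => up_P S g g' h5 h hh) h3) h2
  · exact h5
  · rw [_root_.mul_inv_rev, inv_inv] at h5
    exact absurd (Fil_mono (fun h hh => up_P S g' g h5 h hh) h1) h4

end Pool.Agent.Lib.MP_fd3021_gt.Rf
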