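import Pool.Agent.Lib.MP_fd3021_gt.Rf.Base

/-! Linear algebra over a division ring. -/

namespace Pool.Agent.Lib.MP_fd3021_gt.Rf

open Matrix Filter

/-- every linear map over a division ring has an inner inverse -/
theorem linA_aux_inner {E V W : Type} [DivisionRing E] [AddCommGroup V] [Module E V]
    [AddCommGroup W] [Module E W] (f : V →ₗ[E] W) :
    ∃ g : W →ₗ[E] V, ∀ x, f (g (f x)) = f x := by
  obtain ⟨r, hr⟩ := LinearMap.exists_rightInverse_of_surjective f.rangeRestrict
    (LinearMap.range_rangeRestrict f)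
  obtain ⟨g, hg⟩ := LinearMap.exists_extend r
  refine ⟨g, fun x => ?_⟩
  have h1 : g (f x) = r (f.rangeRestrict x) := by
    rw [← hg]; rfl
  have h2 : f.rangeRestrict (r (f.rangeRestrict x)) = f.rangeRestrict x :=
    LinearMap.congr_fun hr (f.rangeRestrict x)
  rw [h1]
  exact congrArg Subtype.val h2

/-- a contraction on a subspace whose cycles are boundaries -/
theorem linA_aux_contr {E V : Type} [DivisionRing E] [AddCommGroup V] [Module E V]
    (β : V →ₗ[E] V) (U : Submodule E V) (h : ∀ x ∈ U, β x = 0 → ∃ y, β y = x) :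
    ∃ σ σ' : V →ₗ[E] V, (∀ x, σ' x ∈ U) ∧ ∀ x ∈ U, x = β (σ x) + σ' (β x) := by
  obtain ⟨g, hg⟩ := linA_aux_inner (β ∘ₗ U.subtype)
  obtain ⟨g2, hg2⟩ := linA_aux_inner β
  refine ⟨g2 ∘ₗ (LinearMap.id - (U.subtype ∘ₗ g) ∘ₗ β), U.subtype ∘ₗ g,
    fun x => (g x).2, fun x hx => ?_⟩
  have h1 : β ((g (β x) : V)) = β x := hg ⟨x, hx⟩
  obtain ⟨y, hy⟩ := h (x - (g (β x) : V)) (U.sub_mem hx (g (β x)).2) (by
    rw [map_sub, h1, sub_self])
  have h2 : β (g2 (x - (g (β x) : V))) = x - (g (β x) : V) := by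
    rw [← hy]; exact hg2 y
  change x = β (g2 (x - (g (β x) : V))) + (g (β x) : V)
  rw [h2, sub_add_cancel]

variable {R E J : Type} [Ring R] [DivisionRing E] [Fintype J] {ρ : R →+* E} {dj : J → ℤ}
  {b : Matrix J J R}

/-- the matrices of a contraction, the second one with values in degree one -/
theorem linA_aux_mat [DecidableEq J] (h : DEx ρ dj b) :
    ∃ s s' : Matrix J J E, (∀ i k, dj k ≠ 1 → s' i k = 0) ∧
      ∀ x : J → E, (∀ i, dj i ≠ 1 → x i = 0) →
        x = (x ᵥ* s) ᵥ* b.map ρ + (x ᵥ* b.map ρ) ᵥ* s' := by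
  let U : Submodule E (J → E) :=
    { carrier := {x | ∀ i, dj i ≠ 1 → x i = 0}
      add_mem' := fun {x y} hx hy i hi => by
        change x i + y i = 0
        rw [hx i hi, hy i hi, add_zero]
      zero_mem' := fun _ _ => rfl
      smul_mem' := fun c x hx i hi => by
        change c * x i = 0
        rw [hx i hi, mul_zero] }
  obtain ⟨σ, σ', h1, h2⟩ := linA_aux_contr (b.map ρ).vecMulLinear U (fun x hx h0 => h x hx h0)
  have key : ∀ (τ : (J → E) →ₗ[E] (J → E)) (x : J → E),
      x ᵥ* (Matrix.of fun i => τ (Pi.single i 1)) = τ x := by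
    intro τ x
    have hx : x = ∑ i, x i • (Pi.single i 1 : J → E) := by
      funext j
      simp [Finset.sum_apply, Pi.single_apply]
    conv_rhs => rw [hx, map_sum]
    funext k
    simp [Matrix.vecMul, dotProduct, Finset.sum_apply]
  refine ⟨Matrix.of fun i => σ (Pi.single i 1), Matrix.of fun i => σ' (Pi.single i 1),
    fun i k hk => h1 (Pi.single i 1) k hk, fun x hx => ?_⟩
  rw [key, key]
  exact h2 x hx

/-- a contraction in degree one -/
theorem DEx.contr [DecidableEq J] (hg : ∀ i j, b i j ≠ 0 → dj i = dj j + 1) (h : DEx ρ dj b) :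
    ∃ s s' : Matrix J J E, (∀ i k, dj k ≠ 2 → s i k = 0) ∧ (∀ i k, dj k ≠ 1 → s' i k = 0) ∧
      ∀ x : J → E, (∀ i, dj i ≠ 1 → x i = 0) →
        x = (x ᵥ* s) ᵥ* b.map ρ + (x ᵥ* b.map ρ) ᵥ* s' := by
  obtain ⟨s, s', h1, h2⟩ := linA_aux_mat h
  refine ⟨Matrix.of fun i k => if dj k = 2 then s i k else 0, s',
    fun i k hk => if_neg hk, h1, fun x hx => ?_⟩
  have hz : ∀ i j, dj i ≠ dj j + 1 → ρ (b i j) = 0 := by
    intro i j hij
    have : b i j = 0 := by
      by_contra hne
      exact hij (hg i j hne)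
    rw [this, map_zero]
  have ht : ∀ k, (x ᵥ* (Matrix.of fun i k => if dj k = 2 then s i k else 0 : Matrix J J E)) k
      = if dj k = 2 then (x ᵥ* s) k else 0 := by
    intro k
    by_cases hk : dj k = 2 <;> simp [Matrix.vecMul, dotProduct, hk]
  funext j
  by_cases hj : dj j = 1
  · rw [congrFun (h2 x hx) j]
    simp only [Pi.add_apply]
    congr 1
    change ∑ k, (x ᵥ* s) k * ρ (b k j) = ∑ k,
      (x ᵥ* (Matrix.of fun i k => if dj k = 2 then s i k else 0 : Matrix J J E)) k * ρ (b k j)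
    refine Finset.sum_congr rfl fun k _ => ?_
    rw [ht]
    by_cases hk : dj k = 2
    · rw [if_pos hk]
    · rw [hz k j (by omega), mul_zero, mul_zero]
  · rw [hx j hj]
    have e1 : ((x ᵥ* (Matrix.of fun i k => if dj k = 2 then s i k else 0 : Matrix J J E)) ᵥ*
        b.map ρ) j = 0 := by
      change ∑ k,
        (x ᵥ* (Matrix.of fun i k => if dj k = 2 then s i k else 0 : Matrix J J E)) k * ρ (b k j)
          = 0
      refine Finset.sum_eq_zero fun k _ => ?_
      rw [ht]
      by_cases hk : dj k = 2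
      · rw [hz k j (by omega), mul_zero]
      · rw [if_neg hk, zero_mul]
    have e2 : ((x ᵥ* b.map ρ) ᵥ* s') j = 0 := by
      change ∑ k, (x ᵥ* b.map ρ) k * s' k j = 0
      exact Finset.sum_eq_zero fun k _ => by rw [h1 k j hj, mul_zero]
    rw [Pi.add_apply, e1, e2, add_zero]

/-- the same without degrees for the matrices -/
theorem DEx.contr' [DecidableEq J] (h : DEx ρ dj b) :
    ∃ s s' : Matrix J J E, ∀ i, dj i = 1 →
      Pi.single i 1 = s i ᵥ* b.map ρ + (b.map ρ) i ᵥ* s' := by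
  obtain ⟨s, s', -, h2⟩ := linA_aux_mat h
  refine ⟨s, s', fun i hi => ?_⟩
  have h3 := h2 (Pi.single i 1) (fun k hk => Pi.single_eq_of_ne (by rintro rfl; exact hk hi) 1)
  rw [Matrix.single_one_vecMul, Matrix.single_one_vecMul] at h3
  exact h3

/-- a functional on chains of degree one that kills the boundaries factors over the
differential -/
theorem DEx.factor (h : DEx ρ dj b) (u : J → E) (hu : ∀ i, dj i ≠ 1 → u i = 0)
    (hg : ∀ i j, b i j ≠ 0 → dj i = dj j + 1) (h0 : b.map ρ *ᵥ u = 0) :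
    ∃ v : J → E, ∀ i, dj i = 1 → (b.map ρ *ᵥ v) i = u i := by
  classical
  obtain ⟨s, s', h2⟩ := h.contr'
  refine ⟨s' *ᵥ u, fun i hi => ?_⟩
  have h3 := congrArg (fun x => x ⬝ᵥ u) (h2 i hi)
  simp only [add_dotProduct, ← Matrix.dotProduct_mulVec, h0, dotProduct_zero, zero_add,
    single_dotProduct, one_mul] at h3
  rw [h3]
  rfl

end Pool.Agent.Lib.MP_fd3021_gt.Rf
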