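import Pool.Agent.Lib.MP_fd3021_gt.Rf.PairA

/-! The characters with acyclic kernel are closed under linear combinations. -/

namespace Pool.Agent.Lib.MP_fd3021_gt.Rf

open Matrix Filter

variable {G D : Type} [Group G] [DivisionRing D] {ι : G →* D} {N M K : Subgroup G}

/-- the annihilator of a class -/
def pairAnn (ι : G →* D) (M : Subgroup G) [M.Normal] (x : G →₀ D) : Submodule (dcl ι M) D where
  carrier := {v | v • x ∈ Rel ι M}
  add_mem' := fun {a b} ha hb => by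
    change (a + b) • x ∈ Rel ι M
    rw [add_smul]
    exact add_mem ha hb
  zero_mem' := by
    change (0 : D) • x ∈ Rel ι M
    rw [zero_smul]
    exact zero_mem _
  smul_mem' := fun d v hv => by
    change ((d : D) * v) • x ∈ Rel ι M
    rw [mul_smul]
    refine Rel_smul ?_ hv
    have h := Sp_smul (P := Set.univ) d.2 (mem_Sp (ι := ι) (M := M) (Set.mem_univ 1))
    rwa [map_one, mul_one] at h

theorem pair_aux_fin [M.Normal] {K₁ K₂ : Subgroup G} {x : G →₀ D}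
    (h₂ : ∃ F : Finset G, ∀ k ∈ K₂, ∃ u ∈ Sp ι M F, (ι k - u) • x ∈ Rel ι M)
    (h₁ : ∀ f : G, ∃ F : Finset G, ∀ k ∈ K₁, ∃ u ∈ Sp ι M F,
      (ι k - u) • (ι f • x) ∈ Rel ι M) :
    ∃ F : Finset G, ∀ k₁ ∈ K₁, ∀ k₂ ∈ K₂, ι (k₁ * k₂) ∈ Sp ι M F ⊔ pairAnn ι M x := by
  classical
  obtain ⟨F₂, h₂⟩ := h₂
  choose F₁ h₁ using h₁
  refine ⟨F₂.biUnion fun f => (F₁ f).image (· * f), fun k₁ hk₁ k₂ hk₂ => ?_⟩
  obtain ⟨u, hu, hr⟩ := h₂ k₂ hk₂
  have e : ι (k₁ * k₂) = ι k₁ * u + ι k₁ * (ι k₂ - u) := by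
    rw [map_mul, mul_sub, add_sub_cancel]
  rw [e]
  refine add_mem ?_ (Submodule.mem_sup_right ?_)
  · refine Sp_ind (C := fun u => ι k₁ * u ∈ Sp ι M
      (F₂.biUnion fun f => (F₁ f).image (· * f) : Finset G) ⊔ pairAnn ι M x) ?_ ?_ ?_ hu
    · simp only [mul_zero]
      exact zero_mem _
    · intro a b ha hb
      simp only [mul_add]
      exact add_mem ha hb
    · intro d hd f hf
      obtain ⟨u', hu', hr'⟩ := h₁ f k₁ hk₁
      have e' : ι k₁ * (d * ι f) = (⟨_, dcl_conj k₁ hd⟩ : dcl ι M) •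
          (u' * ι f + (ι k₁ - u') * ι f) := by
        change _ = (ι k₁ * d * ι k₁⁻¹) * _
        rw [← add_mul, add_sub_cancel, ← map_mul, mul_assoc, mul_assoc, ← map_mul,
          inv_mul_cancel_left]
      rw [e']
      refine Submodule.smul_mem _ _ (add_mem (Submodule.mem_sup_left ?_)
        (Submodule.mem_sup_right ?_))
      · refine Sp_mul (Q := {f}) ?_ hu' (mem_Sp rfl)
        rintro p hp _ rfl
        exact Finset.mem_coe.2 (Finset.mem_biUnion.2 ⟨_, hf, Finset.mem_image_of_mem _ hp⟩)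
      · change ((ι k₁ - u') * ι f) • x ∈ Rel ι M
        rwa [mul_smul]
  · change (ι k₁ * (ι k₂ - u)) • x ∈ Rel ι M
    rw [mul_smul]
    exact Rel_smul (mem_Sp (Set.mem_univ _)) hr

theorem pair_aux_dep (hI : Ind ι N) (hM : N ≤ M) (R : Submodule (dcl ι M) D) (F : Finset G)
    (z : ℤ → G) (hz : ∀ m n, z m * (z n)⁻¹ ∈ M → m = n) (h : ∀ n, ι (z n) ∈ Sp ι M F ⊔ R) :
    ∃ s ∈ Sp ι M (Set.range z), s ≠ 0 ∧ s ∈ R := by
  have hli : LinearIndependent (dcl ι M) fun n => ι (z n) := by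
    have h1 : LinearIndependent (dcl ι M) fun t : Set.range z => ι t :=
      hI M hM (Set.range z) (by
        rintro _ ⟨m, rfl⟩ _ ⟨n, rfl⟩ e
        rw [hz m n e])
    exact h1.comp (fun n => ⟨z n, n, rfl⟩) fun m n e => hz m n (by
      rw [show z m = z n from congrArg Subtype.val e, mul_inv_cancel]
      exact one_mem _)
  have hfin : Module.Finite (dcl ι M) (Sp ι M F) :=
    Module.Finite.span_of_finite _ (F.finite_toSet.image _)
  have hm : ∀ n, R.mkQ (ι (z n)) ∈ (Sp ι M F).map R.mkQ := fun n => by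
    obtain ⟨a, ha, r, hr, e⟩ := Submodule.mem_sup.1 (h n)
    refine ⟨a, ha, ?_⟩
    rw [← e, map_add, R.mkQ_apply r, (Submodule.Quotient.mk_eq_zero R).2 hr, add_zero]
  have hd := Module.Finite.not_linearIndependent_of_infinite (R := dcl ι M)
    fun n => (⟨_, hm n⟩ : (Sp ι M F).map R.mkQ)
  obtain ⟨s, g, h1, i, hi, h2⟩ := not_linearIndependent_iff.1 hd
  refine ⟨∑ n ∈ s, g n • ι (z n), Submodule.sum_mem _ fun n _ =>
    Submodule.smul_mem _ _ (mem_Sp ⟨n, rfl⟩), fun h0 => h2 ?_, ?_⟩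
  · exact linearIndependent_iff'.1 hli s g h0 i hi
  · rw [← Submodule.Quotient.mk_eq_zero, ← R.mkQ_apply, map_sum]
    have h3 := congrArg Subtype.val h1
    simpa using h3

theorem der_pair (hI : Ind ι N) (hc : ∀ a b : G, a * b * a⁻¹ * b⁻¹ ∈ N)
    (φ₁ φ₂ ψ : G →* Multiplicative ℤ) (h₁ : N ≤ φ₁.ker) (h₂ : N ≤ φ₂.ker)
    (hψ : φ₁.ker ⊓ φ₂.ker ≤ ψ.ker) (h0 : ψ ≠ 1) (d₁ : Der ι φ₁.ker) (d₂ : Der ι φ₂.ker) :
    Der ι ψ.ker := by
  have hM : N ≤ φ₁.ker ⊓ φ₂.ker := le_inf h₁ h₂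
  have hc' : ∀ K : Subgroup G, ∀ a ∈ K, ∀ b ∈ K, a * b * a⁻¹ * b⁻¹ ∈ φ₁.ker ⊓ φ₂.ker :=
    fun _ a _ b _ => hM (hc a b)
  have t₁ := (acy_iff hI hM inf_le_left (hc' _)).1 (acy_of_der hI h₁ d₁)
  have t₂ := (acy_iff hI hM inf_le_right (hc' _)).1 (acy_of_der hI h₂ d₂)
  refine der_of_acy hI (hM.trans hψ) ((acy_iff hI hM hψ (hc' _)).2 fun v hv hb => ?_)
  by_cases hy : ∃ y, φ₂ y = 1 ∧ φ₁ y ≠ 1
  swap
  · obtain ⟨s, hs, h3⟩ := t₂ v hv hb
    refine ⟨s, Sp_mono (fun g hg => hψ ⟨?_, hg⟩) hs, h3⟩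
    by_contra h4
    exact hy ⟨g, hg, h4⟩
  by_cases hx : ∃ x, φ₁ x = 1 ∧ φ₂ x ≠ 1
  swap
  · obtain ⟨s, hs, h3⟩ := t₁ v hv hb
    refine ⟨s, Sp_mono (fun g hg => hψ ⟨hg, ?_⟩) hs, h3⟩
    by_contra h4
    exact hx ⟨g, hg, h4⟩
  obtain ⟨y, y2, y1⟩ := hy
  obtain ⟨x, x1, x2⟩ := hx
  obtain ⟨F, hF⟩ := pair_aux_fin (ι := ι) (M := φ₁.ker ⊓ φ₂.ker) (K₁ := φ₁.ker) (K₂ := φ₂.ker)
    (x := v) (by
      obtain ⟨s, hs, h3, h4⟩ := t₂ v hv hb
      exact fin_translates hI hM inf_le_right φ₁ (fun k hk => ⟨fun h => ⟨h, hk⟩, fun h => h.1⟩)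
        hs h3 h4) fun f => by
      obtain ⟨s, hs, h3, h4⟩ := t₁ (ι f • v) (fun g => Sp_mul (P := Set.univ)
        (fun _ _ _ _ => Set.mem_univ _) (mem_Sp (Set.mem_univ f)) (hv g))
        (by rw [bdry_smul, hb, mul_zero])
      exact fin_translates hI hM inf_le_left φ₂ (fun k hk => ⟨fun h => ⟨hk, h⟩, fun h => h.2⟩)
        hs h3 h4
  have a1 : (φ₁ y).toAdd ≠ 0 := fun h => y1 (toAdd_eq_zero.1 h)
  have a2 : (φ₂ x).toAdd ≠ 0 := fun h => x2 (toAdd_eq_zero.1 h)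
  have hne : ¬ ((ψ x).toAdd = 0 ∧ (ψ y).toAdd = 0) := by
    rintro ⟨b1, b2⟩
    refine h0 (MonoidHom.ext fun g => ?_)
    have h3 : g ^ ((φ₁ y).toAdd * (φ₂ x).toAdd) * y ^ (-((φ₁ g).toAdd * (φ₂ x).toAdd)) *
        x ^ (-((φ₂ g).toAdd * (φ₁ y).toAdd)) ∈ φ₁.ker ⊓ φ₂.ker := by
      constructor
      · change φ₁ _ = 1
        rw [← toAdd_eq_zero]
        simp only [map_mul, map_zpow, toAdd_mul, toAdd_zpow, x1, toAdd_one, smul_eq_mul]
        ring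
      · change φ₂ _ = 1
        rw [← toAdd_eq_zero]
        simp only [map_mul, map_zpow, toAdd_mul, toAdd_zpow, y2, toAdd_one, smul_eq_mul]
        ring
    have h4 : (ψ _).toAdd = 0 := toAdd_eq_zero.2 (hψ h3)
    simp only [map_mul, map_zpow, toAdd_mul, toAdd_zpow, b1, b2, smul_eq_mul, mul_zero,
      add_zero] at h4
    exact toAdd_eq_zero.1 ((mul_eq_zero.1 h4).resolve_left (mul_ne_zero a1 a2))
  obtain ⟨s, hs, h3, h4⟩ := pair_aux_dep hI hM (pairAnn ι _ v) F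
    (fun n => x ^ (n * (ψ y).toAdd) * y ^ (-(n * (ψ x).toAdd))) (fun m n e => by
      have e1 : (φ₁ _).toAdd = 0 := toAdd_eq_zero.2 e.1
      have e2 : (φ₂ _).toAdd = 0 := toAdd_eq_zero.2 e.2
      simp only [map_mul, map_inv, map_zpow, toAdd_mul, toAdd_inv, toAdd_zpow, x1, y2, toAdd_one,
        smul_eq_mul] at e1 e2
      by_contra h5
      have h6 : m - n ≠ 0 := sub_ne_zero.2 h5
      refine hne ⟨?_, ?_⟩
      · refine mul_left_cancel₀ (mul_ne_zero h6 a1) ?_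
        linarith
      · refine mul_left_cancel₀ (mul_ne_zero h6 a2) ?_
        linarith)
    fun n => hF _ (zpow_mem (show x ∈ φ₁.ker from x1) _) _ (zpow_mem (show y ∈ φ₂.ker from y2) _)
  refine ⟨s, Sp_mono ?_ hs, h3, h4⟩
  rintro _ ⟨n, rfl⟩
  change ψ _ = 1
  rw [← toAdd_eq_zero]
  simp only [map_mul, map_zpow, toAdd_mul, toAdd_zpow, smul_eq_mul]
  ring

theorem der_span (hI : Ind ι N) (hc : ∀ a b : G, a * b * a⁻¹ * b⁻¹ ∈ N)
    (Φ : Finset (G →* Multiplicative ℤ)) (hN : ∀ φ ∈ Φ, N ≤ φ.ker) (hd : ∀ φ ∈ Φ, Der ι φ.ker)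
    (ψ : G →* Multiplicative ℤ) (hψ : ∀ g, (∀ φ ∈ Φ, φ g = 1) → ψ g = 1) (h0 : ψ ≠ 1) :
    Der ι ψ.ker := by
  classical
  induction Φ using Finset.induction_on generalizing ψ with
  | empty => exact absurd (MonoidHom.ext fun g => hψ g (by simp)) h0
  | insert φ Φ _ ih =>
    have ih' := ih (fun χ h => hN χ (Finset.mem_insert_of_mem h))
      fun χ h => hd χ (Finset.mem_insert_of_mem h)
    have hψ' : ∀ g, φ g = 1 → (∀ χ ∈ Φ, χ g = 1) → ψ g = 1 := fun g h1 h2 =>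
      hψ g fun χ h => (Finset.mem_insert.1 h).elim (fun e => e ▸ h1) (h2 χ)
    by_cases h1 : ∀ g, (∀ χ ∈ Φ, χ g = 1) → ψ g = 1
    · exact ih' ψ h1 h0
    push Not at h1
    obtain ⟨y, hy, y0⟩ := h1
    have a1 : (ψ y).toAdd ≠ 0 := fun h => y0 (toAdd_eq_zero.1 h)
    have a2 : (φ y).toAdd ≠ 0 := fun h => y0 (hψ' y (toAdd_eq_zero.1 h) hy)
    obtain ⟨χ, hχ⟩ : ∃ χ : G →* Multiplicative ℤ, ∀ g,
        (χ g).toAdd = (φ y).toAdd * (ψ g).toAdd - (ψ y).toAdd * (φ g).toAdd :=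
      ⟨ψ ^ (φ y).toAdd * φ ^ (-(ψ y).toAdd), fun g => by
        simp only [MonoidHom.mul_apply, MonoidHom.zpow_apply, toAdd_mul, toAdd_zpow, smul_eq_mul]
        ring⟩
    have hk : ∀ g, (∀ χ ∈ Φ, χ g = 1) → χ g = 1 := fun g hg => by
      have h2 := hψ' (g ^ (φ y).toAdd * y ^ (-(φ g).toAdd)) (by
        rw [← toAdd_eq_zero]
        simp only [map_mul, map_zpow, toAdd_mul, toAdd_zpow, smul_eq_mul]
        ring) fun χ h => by rw [map_mul, map_zpow, map_zpow, hg χ h, hy χ h]; simp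
      rw [← toAdd_eq_zero] at h2 ⊢
      simp only [map_mul, map_zpow, toAdd_mul, toAdd_zpow, smul_eq_mul] at h2
      rw [hχ]
      linarith
    have hφ := hd φ (Finset.mem_insert_self _ _)
    by_cases h2 : χ = 1
    · have h3 : ψ.ker = φ.ker := by
        ext g
        have h4 := hχ g
        rw [h2, MonoidHom.one_apply, toAdd_one, eq_comm, sub_eq_zero] at h4
        rw [MonoidHom.mem_ker, MonoidHom.mem_ker, ← toAdd_eq_zero, ← toAdd_eq_zero (x := φ g)]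
        constructor
        · intro h
          rw [h, mul_zero] at h4
          exact (mul_eq_zero.1 h4.symm).resolve_left a1
        · intro h
          rw [h, mul_zero] at h4
          exact (mul_eq_zero.1 h4).resolve_left a2
      rwa [h3]
    · refine der_pair hI hc χ φ ψ (fun g hg => hk g fun χ h =>
        hN χ (Finset.mem_insert_of_mem h) hg) (hN φ (Finset.mem_insert_self _ _)) ?_ h0
        (ih' χ hk h2) hφ
      rintro g ⟨g1, g2⟩
      have h4 := hχ g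
      rw [show χ g = 1 from g1, show φ g = 1 from g2, toAdd_one, mul_zero, sub_zero] at h4
      exact toAdd_eq_zero.1 ((mul_eq_zero.1 h4.symm).resolve_left a2)

end Pool.Agent.Lib.MP_fd3021_gt.Rf
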