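import Pool.Agent.Lib.MP_fd3021_gt.Rf.ResA
import Pool.Agent.Lib.MP_fd3021_gt.LC

/-! Restriction of a complex to a subgroup of finite index: spectral measures. -/

namespace Pool.Agent.Lib.MP_fd3021_gt.Rf

open Matrix Filter

open MeasureTheory

variable {G I : Type} [Group G] (H : Subgroup G) [Fintype (G ⧸ H)] [DecidableEq (G ⧸ H)]
  [Fintype I] [DecidableEq I] {deg : I → ℤ} {c : Matrix I I (MonoidAlgebra ℤ G)}

theorem resB_aux_pow (A : Matrix I I (MonoidAlgebra ℤ G)) (k : ℕ) :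
    res H A ^ k = res H (A ^ k) := by
  induction k with
  | zero => rw [pow_zero, pow_zero, res_one]
  | succ k ih => rw [pow_succ, pow_succ, ih, res_mul]

theorem resB_aux_sub {R K J : Type} [Ring R] [Fintype K] [DecidableEq K] [Fintype J]
    [DecidableEq J] (M : Matrix J J R) (e : K ≃ J) (k : ℕ) :
    M.submatrix e e ^ k = (M ^ k).submatrix e e := by
  induction k with
  | zero => rw [pow_zero, pow_zero, Matrix.submatrix_one_equiv]
  | succ k ih => rw [pow_succ, pow_succ, ih, Matrix.submatrix_mul_equiv]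

omit [DecidableEq (G ⧸ H)] in
theorem resB_aux_card : (Fintype.card (G ⧸ H) : NNReal) ≠ 0 := by
  have : Nonempty (G ⧸ H) := ⟨(1 : G)⟩
  exact_mod_cast Fintype.card_ne_zero

theorem resB_aux_spec {K : Type} [Fintype K] [DecidableEq K] (A : Matrix I I (MonoidAlgebra ℤ G))
    (e : K ≃ I × (G ⧸ H)) (μ : Measure ℝ) :
    IsSpec ((res H A).submatrix e e) ((Fintype.card (G ⧸ H) : NNReal) • μ) ↔ IsSpec A μ := by
  have hc := resB_aux_card H
  have hc' : ((Fintype.card (G ⧸ H) : ℕ) : ℝ) ≠ 0 := by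
    have : Nonempty (G ⧸ H) := ⟨(1 : G)⟩
    exact_mod_cast Fintype.card_ne_zero
  have htr : ∀ k : ℕ, ∑ x, (((((res H A).submatrix e e ^ k) x x).coeff 1 : ℤ) : ℝ) =
      (Fintype.card (G ⧸ H) : ℝ) * ∑ i, ((((A ^ k) i i).coeff 1 : ℤ) : ℝ) := by
    intro k
    rw [resB_aux_sub, resB_aux_pow]
    have h1 : ∀ x : I × (G ⧸ H), (res H (A ^ k) x x).coeff 1 = ((A ^ k) x.1 x.1).coeff 1 := by
      intro x
      rw [res_coeff]
      simp
    have h2 := e.sum_comp fun x => (((res H (A ^ k) x x).coeff 1 : ℤ) : ℝ)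
    simp only [Matrix.submatrix_apply]
    rw [h2]
    simp only [h1]
    rw [Fintype.sum_prod_type, Finset.mul_sum]
    refine Finset.sum_congr rfl fun i _ => ?_
    simp
  have hz : ∀ s : Set ℝ, ((Fintype.card (G ⧸ H) : NNReal) • μ) s = 0 ↔ μ s = 0 := by
    intro s
    rw [Measure.coe_nnreal_smul_apply, mul_eq_zero]
    exact or_iff_right (by exact_mod_cast hc)
  have hi : ∀ k : ℕ, ∫ x, x ^ k ∂((Fintype.card (G ⧸ H) : NNReal) • μ) =
      (Fintype.card (G ⧸ H) : ℝ) * ∫ x, x ^ k ∂μ := by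
    intro k
    rw [integral_smul_nnreal_measure, NNReal.smul_def, smul_eq_mul, NNReal.coe_natCast]
  unfold IsSpec
  simp only [hz, hi, htr, mul_right_inj' hc']
  refine and_congr_left fun _ => ⟨fun h => ?_, fun h => inferInstance⟩
  have h3 : μ = (Fintype.card (G ⧸ H) : NNReal)⁻¹ • ((Fintype.card (G ⧸ H) : NNReal) • μ) := by
    rw [smul_smul, inv_mul_cancel₀ hc, one_smul]
  rw [h3]
  infer_instance

/-- the basis elements of one degree after restriction -/
def resB_aux_equiv (Q : Type) (deg : I → ℤ) (p : ℤ) :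
    {x : I × Q // deg x.1 = p} ≃ {i // deg i = p} × Q where
  toFun x := (⟨x.1.1, x.2⟩, x.1.2)
  invFun y := ⟨(y.1.1, y.2), y.1.2⟩
  left_inv _ := rfl
  right_inv _ := rfl

theorem isSpec_lap_res (p : ℤ) (μ : Measure ℝ) :
    IsSpec (lap (fun x : I × (G ⧸ H) => deg x.1) (res H c) p)
      ((Fintype.card (G ⧸ H) : NNReal) • μ) ↔ IsSpec (lap deg c p) μ := by
  have h : lap (fun x : I × (G ⧸ H) => deg x.1) (res H c) p =
      (res H (lap deg c p)).submatrix (resB_aux_equiv (G ⧸ H) deg p)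
        (resB_aux_equiv (G ⧸ H) deg p) := by
    unfold lap
    rw [res_adj, ← res_mul, ← res_mul, ← res_add]
    rfl
  rw [h]
  exact resB_aux_spec H _ _ μ

theorem isSpec_dd_res (p : ℤ) (μ : Measure ℝ) :
    IsSpec (dd (fun x : I × (G ⧸ H) => deg x.1) (res H c) p)
      ((Fintype.card (G ⧸ H) : NNReal) • μ) ↔ IsSpec (dd deg c p) μ := by
  have h : dd (fun x : I × (G ⧸ H) => deg x.1) (res H c) p =
      (res H (dd deg c p)).submatrix (resB_aux_equiv (G ⧸ H) deg p)
        (resB_aux_equiv (G ⧸ H) deg p) := by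
    unfold dd
    rw [res_adj, ← res_mul]
    rfl
  rw [h]
  exact resB_aux_spec H _ _ μ

theorem resB_aux_uniq {J K Γ : Type} [Group Γ] [Fintype J] [DecidableEq J] [Fintype K]
    [DecidableEq K] {A : Matrix J J (MonoidAlgebra ℤ G)} {B : Matrix K K (MonoidAlgebra ℤ Γ)}
    {n : NNReal} (hn : n ≠ 0) (h : ∀ μ, IsSpec B (n • μ) ↔ IsSpec A μ) (hB : ∃! μ, IsSpec B μ) :
    (∃! μ, IsSpec A μ) ∧ spec B = n • spec A := by
  obtain ⟨ν, hν, hu⟩ := hB
  have e : n • (n⁻¹ • ν) = ν := by rw [smul_smul, mul_inv_cancel₀ hn, one_smul]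
  have hA : IsSpec A (n⁻¹ • ν) := (h _).1 (by rw [e]; exact hν)
  refine ⟨⟨_, hA, fun μ hμ => ?_⟩, ?_⟩
  · rw [← hu _ ((h μ).2 hμ), smul_smul, inv_mul_cancel₀ hn, one_smul]
  · have h1 : IsSpec A (spec A) := Classical.epsilon_spec ⟨_, hA⟩
    have h2 : IsSpec B (spec B) := Classical.epsilon_spec ⟨_, hν⟩
    rw [hu _ h2, hu _ ((h _).2 h1)]

theorem resB_aux_int {n : NNReal} (hn : n ≠ 0) {μ : Measure ℝ} {f : ℝ → ℝ} {s : Set ℝ}
    (h : IntegrableOn f s (n • μ)) : IntegrableOn f s μ := by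
  have e : μ = n⁻¹ • (n • μ) := by rw [smul_smul, inv_mul_cancel₀ hn, one_smul]
  rw [e]
  unfold IntegrableOn at h ⊢
  rw [Measure.restrict_smul]
  exact h.smul_measure_nnreal

variable [Group.ResiduallyFinite H]

theorem atom_res (hg : ∀ i j, c i j ≠ 0 → deg i = deg j + 1) (p : ℤ)
    (h : spec (lap deg c p) {0} = 0) :
    spec (lap (fun x : I × (G ⧸ H) => deg x.1) (res H c) p) {0} = 0 := by
  have hg' : ∀ x y : I × (G ⧸ H), res H c x y ≠ 0 → deg x.1 = deg y.1 + 1 := by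
    intro x y hxy
    refine hg _ _ fun h0 => hxy ?_
    apply MonoidAlgebra.ext
    ext a
    rw [res_coeff, h0]
    rfl
  obtain ⟨K, hK⟩ := good_lap (deg := fun x : I × (G ⧸ H) => deg x.1) hg' p
  have h1 := (resB_aux_uniq (resB_aux_card H) (isSpec_lap_res H (deg := deg) (c := c) p)
    ⟨_, hK.isSpec, fun _ h => spec_unique hK h hK.isSpec⟩).2
  rw [h1, Measure.coe_nnreal_smul_apply, h, mul_zero]

theorem concl_res (hg : ∀ i j, c i j ≠ 0 → deg i = deg j + 1)
    (h : DetAcyclic (fun x : I × (G ⧸ H) => deg x.1) (res H c) ∧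
      0 ≤ rho (fun x : I × (G ⧸ H) => deg x.1) (res H c)) :
    DetAcyclic deg c ∧ 0 ≤ rho deg c := by
  have _ := hg
  have hc := resB_aux_card H
  have hl := fun p => resB_aux_uniq hc (isSpec_lap_res H (deg := deg) (c := c) p) (h.1 p).1
  have hd := fun p => resB_aux_uniq hc (isSpec_dd_res H (deg := deg) (c := c) p) (h.1 p).2.1
  refine ⟨fun p => ?_, ?_⟩
  · obtain ⟨-, -, h3, h4, h5⟩ := h.1 p
    rw [(hl p).2] at h3 h4
    rw [(hd p).2] at h5
    refine ⟨(hl p).1, (hd p).1, ?_, resB_aux_int hc h4, resB_aux_int hc h5⟩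
    rw [Measure.coe_nnreal_smul_apply, mul_eq_zero] at h3
    exact h3.resolve_left (by exact_mod_cast hc)
  · have him : Finset.univ.image (fun x : I × (G ⧸ H) => deg x.1) = Finset.univ.image deg := by
      ext p
      simp only [Finset.mem_image, Finset.mem_univ, true_and]
      exact ⟨fun ⟨x, hx⟩ => ⟨x.1, hx⟩, fun ⟨i, hi⟩ => ⟨(i, ((1 : G) : G ⧸ H)), hi⟩⟩
    have hr : rho (fun x : I × (G ⧸ H) => deg x.1) (res H c) =
        (Fintype.card (G ⧸ H) : ℝ) * rho deg c := by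
      unfold rho
      rw [him, mul_left_comm, Finset.mul_sum _ _ (Fintype.card (G ⧸ H) : ℝ)]
      congr 1
      refine Finset.sum_congr rfl fun p _ => ?_
      rw [(hl p).2, Measure.restrict_smul, integral_smul_nnreal_measure, NNReal.smul_def,
        smul_eq_mul, NNReal.coe_natCast]
      ring
    have hp : (0 : ℝ) < Fintype.card (G ⧸ H) := by
      have : Nonempty (G ⧸ H) := ⟨(1 : G)⟩
      exact_mod_cast Fintype.card_pos
    have h2 := h.2
    rw [hr] at h2
    exact nonneg_of_mul_nonneg_right h2 hp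

end Pool.Agent.Lib.MP_fd3021_gt.Rf
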