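import Pool.Agent.Lib.MP_fd3021_gt.Rf.SikA

/-! Finite generation of the kernel from approximable contractions in both directions. -/

namespace Pool.Agent.Lib.MP_fd3021_gt.Rf

open Matrix Filter

variable {G D I : Type} [Group G] [DivisionRing D] [CharZero D] {ι : G →* D} [Fintype I]
  {deg : I → ℤ} {c : Matrix I I (MonoidAlgebra ℤ G)}

theorem sik_aux_bdd {S : Stage G} {f : G → ℤ} (hf : IsV S.A S.N f) (X : Finset G) :
    ∃ B : ℤ, ∀ g, ∀ h ∈ X, f g - B ≤ f (g * h) ∧ f (g * h) ≤ f g + B := by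
  classical
  obtain ⟨T, hT⟩ := exists_transv S.A
  obtain ⟨B, hB⟩ := ((T ×ˢ X).image fun p : G × G => |f (p.1 * p.2) - f p.1|).bddAbove
  refine ⟨B, fun g h hh => ?_⟩
  obtain ⟨a, ha, t, ht, rfl⟩ := hT g
  have h1 : |f (t * h) - f t| ≤ B := hB (Finset.mem_coe.2 (Finset.mem_image.2
    ⟨(t, h), Finset.mem_product.2 ⟨ht, hh⟩, rfl⟩))
  rw [mul_assoc, hf.2 a ha (t * h), hf.2 a ha t]
  obtain ⟨h2, h3⟩ := abs_le.1 h1
  constructor <;> omega

theorem sik_aux_win {S : Stage G} {f : G → ℤ} (hf : IsV S.A S.N f) (K : Subgroup G)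
    (hK : ∀ g, g ∈ K ↔ g ∈ S.A ∧ f g = f 1) (lo hi : ℤ) :
    ∃ F : Finset G, ∀ g, lo ≤ f g → f g ≤ hi → ∃ t ∈ F, g * t⁻¹ ∈ K := by
  classical
  obtain ⟨T, hT⟩ := exists_transv S.A
  have hex : ∀ p : G × ℤ, ∃ r : G, (∃ g, g * p.1⁻¹ ∈ S.A ∧ f g = p.2) →
      r * p.1⁻¹ ∈ S.A ∧ f r = p.2 := fun p => by
    by_cases h : ∃ g, g * p.1⁻¹ ∈ S.A ∧ f g = p.2
    · obtain ⟨g, hg⟩ := h
      exact ⟨g, fun _ => hg⟩
    · exact ⟨1, fun h' => absurd h' h⟩
  choose r hr using hex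
  refine ⟨(T ×ˢ Finset.Icc lo hi).image r, fun g h1 h2 => ?_⟩
  obtain ⟨a, ha, t, ht, e⟩ := hT g
  have h3 : g * t⁻¹ ∈ S.A := by rw [e, mul_inv_cancel_right]; exact ha
  obtain ⟨h4, h5⟩ := hr (t, f g) ⟨g, h3, rfl⟩
  refine ⟨r (t, f g), Finset.mem_image.2 ⟨(t, f g), Finset.mem_product.2
    ⟨ht, Finset.mem_Icc.2 ⟨h1, h2⟩⟩, rfl⟩, ?_⟩
  have h6 : g * (r (t, f g))⁻¹ ∈ S.A := by
    have := S.A.mul_mem h3 (S.A.inv_mem h4)
    rwa [show g * t⁻¹ * (r (t, f g) * t⁻¹)⁻¹ = g * (r (t, f g))⁻¹ by group] at this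
  have h7 := hf.2 _ h6 (r (t, f g))
  rw [inv_mul_cancel_right] at h7
  simp only at h5
  exact (hK _).2 ⟨h6, by omega⟩

theorem sik_aux_row {P R : Set G} {X : Finset G} (hX : ∀ i j, (c i j).coeff.support ⊆ X)
    (h : ∀ p ∈ P, ∀ q ∈ X, p * q ∈ R) {d : I → D} (hd : ∀ i, d i ∈ Qs ι P) (j : I) :
    (d ᵥ* c.map (zi ι)) j ∈ Qs ι R := by
  simp only [vecMul, dotProduct, map_apply]
  exact Submodule.sum_mem _ fun i _ => Qs_mul (Q := ((c i j).coeff.support : Set G))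
    (fun p hp q hq => h p hp q (hX i j hq)) (hd i) (zi_mem _)

omit [CharZero D] in
theorem sik_aux_fill (h0 : ∀ i, 0 ≤ deg i) (hg : ∀ i j, c i j ≠ 0 → deg i = deg j + 1)
    {ε : I → ℤ} (hex : ∀ x : I → MonoidAlgebra ℤ G, (∀ i, 2 ≤ deg i → x i = 0) → x ᵥ* c = 0 →
      ∑ i, aug (x i) * ε i = 0 → ∃ y, y ᵥ* c = x) {x₀ : I → ℤ} (hx : ∀ i, deg i ≠ 0 → x₀ i = 0)
    (k : G) : ∃ y : I → MonoidAlgebra ℤ G, (∀ i, deg i ≠ 1 → y i = 0) ∧
      (fun i => zi ι (y i)) ᵥ* c.map (zi ι) = fun i => (x₀ i : D) * (ι k - 1) := by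
  classical
  set x : I → MonoidAlgebra ℤ G := fun i =>
    MonoidAlgebra.single k (x₀ i) - MonoidAlgebra.single 1 (x₀ i) with hxd
  have hx0 : ∀ i, deg i ≠ 0 → x i = 0 := fun i hi => by simp [hxd, hx i hi]
  obtain ⟨y, hy⟩ := hex x (fun i hi => hx0 i (by omega)) (by
    funext j
    simp only [vecMul, dotProduct, Pi.zero_apply]
    refine Finset.sum_eq_zero fun i _ => ?_
    by_cases hi : deg i = 0
    · have : c i j = 0 := by
        by_contra hc
        have := hg i j hc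
        have := h0 j
        omega
      rw [this, mul_zero]
    · rw [hx0 i hi, zero_mul]) (by
    refine Finset.sum_eq_zero fun i _ => ?_
    have : aug (x i) = 0 := by
      simp only [aug, hxd, MonoidAlgebra.coeff_sub, MonoidAlgebra.coeff_single]
      rw [Finsupp.sum_sub_index fun _ _ _ => rfl]
      simp
    rw [this, zero_mul])
  refine ⟨fun i => if deg i = 1 then y i else 0, fun i hi => if_neg hi, ?_⟩
  funext j
  have e1 : ∑ i, (if deg i = 1 then y i else 0) * c i j = x j := by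
    by_cases hj : deg j = 0
    · rw [← hy]
      simp only [vecMul, dotProduct]
      refine Finset.sum_congr rfl fun i _ => ?_
      split_ifs with hi
      · rfl
      · have : c i j = 0 := by
          by_contra hc
          have := hg i j hc
          omega
        rw [this, mul_zero, mul_zero]
    · rw [hx0 j hj]
      refine Finset.sum_eq_zero fun i _ => ?_
      split_ifs with hi
      · have : c i j = 0 := by
          by_contra hc
          have := hg i j hc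
          omega
        rw [this, mul_zero]
      · rw [zero_mul]
  have e2 := congrArg (zi ι) e1
  simp only [map_sum, map_mul, hxd, map_sub, zi_single, map_one] at e2
  simp only [vecMul, dotProduct, map_apply]
  rw [e2, mul_sub]

theorem sikorav {S S' : Stage G} (cx : Ctx S ι) (cx' : Ctx S' ι) (hι : LinearIndependent ℚ ι)
    (hc : ResTo 2 deg c) {f : G → ℤ} (hf : IsV S.A S.N f)
    (hf' : IsV S'.A S'.N fun x => - f x) {s s' : Matrix I I D}
    (h : ∀ x : I → D, (∀ i, deg i ≠ 1 → x i = 0) →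
      x = (x ᵥ* s) ᵥ* c.map (zi ι) + (x ᵥ* c.map (zi ι)) ᵥ* s')
    (hs : ∀ i k, App S ι f (s i k)) (hs' : ∀ i k, App S' ι (fun x => - f x) (s i k))
    (K : Subgroup G) (hK : ∀ g, g ∈ K ↔ g ∈ S.A ∧ f g = f 1) : K.FG := by
  classical
  obtain ⟨h0, hg, hcc, ε, hε0, ⟨x, hx⟩, hε, hex⟩ := id hc
  obtain ⟨L, hL⟩ := push (c := c) (s' := s') cx hf hs
  obtain ⟨L', hL'⟩ := push (c := c) (s' := s') cx' hf' hs'
  set X : Finset G := Finset.univ.biUnion fun p : I × I => (c p.1 p.2).coeff.support with hXd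
  have hX : ∀ i j, (c i j).coeff.support ⊆ X := fun i j =>
    Finset.subset_biUnion_of_mem (fun p : I × I => (c p.1 p.2).coeff.support)
      (Finset.mem_univ (i, j))
  obtain ⟨B, hB⟩ := sik_aux_bdd hf X
  obtain ⟨F, hF⟩ := sik_aux_win hf K hK (f 1 - max L B) (f 1 + max L' B)
  have hLB := le_max_left L B
  have hLB' := le_max_right L B
  have hLB2 := le_max_left L' B
  have hLB2' := le_max_right L' B
  have hc2 : c.map (zi ι) * c.map (zi ι) = 0 := by
    rw [← Matrix.map_mul, hcc, Matrix.map_zero _ (map_zero _)]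
  refine fg_of_window hι hc K F ε (fun i => if deg i = 0 then x i else 0) ?_ hε fun k hk => ?_
  · rw [← hx]
    refine Finset.sum_congr rfl fun i _ => ?_
    split_ifs with hi
    · rfl
    · rw [hε0 i hi, mul_zero, mul_zero]
  obtain ⟨y, hy1, hy⟩ := sik_aux_fill (ι := ι) h0 hg hex
    (x₀ := fun i => if deg i = 0 then x i else 0) (fun i hi => if_neg hi) k
  set w : I → D := fun i => zi ι (y i) with hw
  have hk1 := ((hK k).1 hk).2
  have hw1 := h w fun i hi => by simp [hw, hy1 i hi]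
  have hwq : ∀ i, w i ∈ Qs ι Set.univ := fun i => Qs_mono (Set.subset_univ _) (zi_mem _)
  have hb : ∀ P : Set G, k ∈ P → 1 ∈ P → ∀ i, (w ᵥ* c.map (zi ι)) i ∈ Qs ι P :=
    fun P h1 h2 i => by
      rw [hy]
      simp only
      rw [← zsmul_eq_mul, ← map_one ι]
      exact Submodule.smul_of_tower_mem _ _ (Submodule.sub_mem _ (mem_Qs h1) (mem_Qs h2))
  obtain ⟨a, ha, hu⟩ := hL (f 1) w hw1 hwq (hb _ hk1.ge (le_refl (f 1)))
  obtain ⟨a', ha', hv⟩ := hL' (- f 1) w hw1 hwq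
    (hb _ (show - f 1 ≤ - f k by omega) (le_refl (- f 1)))
  have hsp : ∀ i, ∃ a₁ ∈ Qs ι (Set.univ ∩ {g | f 1 ≤ f g}),
      ∃ a₂ ∈ Qs ι (Set.univ \ {g | f 1 ≤ f g}), a' i - a i = a₁ + a₂ := fun i =>
    Qs_split _ (Submodule.sub_mem _ (ha' i) (ha i))
  choose d₁ hd₁ d₂ hd₂ hd using hsp
  have hdd : a' - a = d₁ + d₂ := funext hd
  have e1 : w - a ᵥ* c.map (zi ι) - d₁ ᵥ* c.map (zi ι) =
      w - a' ᵥ* c.map (zi ι) + d₂ ᵥ* c.map (zi ι) := by
    have := congrArg (· ᵥ* c.map (zi ι)) hdd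
    simp only [sub_vecMul, add_vecMul] at this
    rw [sub_eq_iff_eq_add] at this
    rw [this]
    abel
  refine ⟨w - a ᵥ* c.map (zi ι) - d₁ ᵥ* c.map (zi ι), fun i => ?_, ?_⟩
  · have m1 : (w - a ᵥ* c.map (zi ι) - d₁ ᵥ* c.map (zi ι)) i ∈
        Qs ι {g | f 1 - max L B ≤ f g} := by
      refine Submodule.sub_mem _ (Qs_mono (fun g hg => ?_) (hu i))
        (sik_aux_row hX (fun p hp q hq => ?_) hd₁ i)
      · have : f 1 - L ≤ f g := hg
        show f 1 - max L B ≤ f g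
        omega
      · have h1 : f 1 ≤ f p := hp.2
        have h2 := (hB p q hq).1
        show f 1 - max L B ≤ f (p * q)
        omega
    have m2 : (w - a ᵥ* c.map (zi ι) - d₁ ᵥ* c.map (zi ι)) i ∈
        Qs ι {g | f g ≤ f 1 + max L' B} := by
      rw [e1]
      refine Submodule.add_mem _ (Qs_mono (fun g hg => ?_) (hv i))
        (sik_aux_row hX (fun p hp q hq => ?_) hd₂ i)
      · have : - f 1 - L' ≤ - f g := hg
        show f g ≤ f 1 + max L' B
        omega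
      · have h1 : ¬ f 1 ≤ f p := hp.2
        have h2 := (hB p q hq).2
        show f (p * q) ≤ f 1 + max L' B
        omega
    refine Qs_mono (fun g hg => hF g hg.1 hg.2) (Qs_of_Sp cx.ind (fun m hm q hq => ?_) m1
      (Sp_of_Qs m2))
    show f (m * q) ≤ f 1 + max L' B
    rw [hf.1 m hm]
    exact hq
  · rw [sub_vecMul, sub_vecMul, vecMul_vecMul, vecMul_vecMul, hc2, vecMul_zero, vecMul_zero,
      sub_zero, sub_zero, hy]

end Pool.Agent.Lib.MP_fd3021_gt.Rf
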