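import Pool.Agent.Lib.MP_fd3021_gt.Rf.Base

/-! Derivations on the kernel of a character dual to a wall. -/

namespace Pool.Agent.Lib.MP_fd3021_gt.Rf

open Matrix Filter

variable {G D : Type} [Group G] [DivisionRing D] {ι : G →* D}

theorem wall_aux_inv (g : G) : ι g * ι g⁻¹ = 1 := by rw [← map_mul, mul_inv_cancel, map_one]

theorem wall_aux_inv' (g : G) : ι g⁻¹ * ι g = 1 := by rw [← map_mul, inv_mul_cancel, map_one]

theorem der_conj {K : Subgroup G} (g : G) (h : Der ι K) :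
    Der ι (K.map (MulAut.conj g).toMonoidHom) := by
  intro δ hδ
  obtain ⟨d, hd⟩ := h (fun x => ι g⁻¹ * δ (g * x * g⁻¹)) fun x hx y hy => by
    have e : g * (x * y) * g⁻¹ = (g * x * g⁻¹) * (g * y * g⁻¹) := by group
    rw [e, hδ (g * x * g⁻¹) ⟨x, hx, rfl⟩ (g * y * g⁻¹) ⟨y, hy, rfl⟩, mul_add, ← mul_assoc, ← mul_assoc, ← map_mul,
      ← map_mul]
    congr 3
    group
  refine ⟨ι g * d, ?_⟩
  rintro _ ⟨x, hx, rfl⟩
  have h1 : δ (g * x * g⁻¹) = ι g * ((ι x - 1) * d) := by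
    rw [← hd x hx, ← mul_assoc, wall_aux_inv, one_mul]
  change δ (g * x * g⁻¹) = (ι (g * x * g⁻¹) - 1) * (ι g * d)
  rw [h1, ← mul_assoc, ← mul_assoc, sub_mul, mul_sub, ← map_mul, ← map_mul, mul_one, one_mul,
    inv_mul_cancel_right]

/-- affine maps of the division ring -/
def wallAff (ι : G →* D) (g : G) (c : D) : Equiv.Perm D where
  toFun x := ι g * x + c
  invFun x := ι g⁻¹ * (x - c)
  left_inv x := by
    simp only [add_sub_cancel_right]
    rw [← mul_assoc, wall_aux_inv', one_mul]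
  right_inv x := by
    simp only []
    rw [← mul_assoc, wall_aux_inv, one_mul, sub_add_cancel]

theorem wallAff_apply (g : G) (c x : D) : wallAff ι g c x = ι g * x + c := rfl

theorem wallAff_mul (g h : G) (c d : D) :
    wallAff ι g c * wallAff ι h d = wallAff ι (g * h) (c + ι g * d) := by
  ext x
  simp only [Equiv.Perm.mul_apply, wallAff_apply, map_mul, mul_add, mul_assoc]
  abel

theorem wallAff_inv (g : G) (c : D) :
    (wallAff ι g c)⁻¹ = wallAff ι g⁻¹ (-(ι g⁻¹ * c)) := by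
  ext x
  change ι g⁻¹ * (x - c) = _
  rw [wallAff_apply, mul_sub, sub_eq_add_neg]

variable {V : Type} [Group V] {A B : Subgroup V} {α : A ≃* B}

theorem der_base (e : HNNExtension V A B α ≃* G)
    (hA : Der ι (A.map (e.toMonoidHom.comp HNNExtension.of))) (hG : Der ι ⊤) :
    Der ι (e.toMonoidHom.comp HNNExtension.of).range := by
  intro δ hδ
  obtain ⟨j, hj⟩ : ∃ j : V →* G, j = e.toMonoidHom.comp HNNExtension.of := ⟨_, rfl⟩
  have hj' : ∀ v, j v = e (HNNExtension.of v) := fun v => by rw [hj]; rfl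
  rw [← hj] at hA hδ ⊢
  obtain ⟨τ, hτ⟩ : ∃ τ, τ = e HNNExtension.t := ⟨_, rfl⟩
  have hc : ∀ a : A, j (α a) = τ * j a * τ⁻¹ := fun a => by
    rw [hj', hj', hτ, HNNExtension.equiv_eq_conj, map_mul, map_mul, map_inv]
  obtain ⟨u, hu⟩ := hA δ fun g hg h hh =>
    hδ g (Subgroup.map_le_range _ _ hg) h (Subgroup.map_le_range _ _ hh)
  have hr : ∀ g ∈ (A.map j).map (MulAut.conj τ).toMonoidHom, g ∈ j.range := by
    rintro _ ⟨_, ⟨a, ha, rfl⟩, rfl⟩
    exact ⟨_, hc ⟨a, ha⟩⟩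
  obtain ⟨u', hu'⟩ := der_conj τ hA δ fun g hg h hh => hδ g (hr g hg) h (hr h hh)
  let f : V →* Equiv.Perm D := MonoidHom.mk' (fun v => wallAff ι (j v) (δ (j v))) fun v w => by
    rw [wallAff_mul, map_mul, hδ _ ⟨v, rfl⟩ _ ⟨w, rfl⟩]
  have hx : ∀ a : A, wallAff ι τ (ι τ * u - u') * f a = f (α a) * wallAff ι τ (ι τ * u - u') := by
    intro a
    change wallAff ι τ _ * wallAff ι (j a) _ = wallAff ι (j (α a)) _ * _
    have h1 := hu (j a) ⟨a, a.2, rfl⟩
    have h2 : δ (τ * j a * τ⁻¹) = (ι (τ * j a * τ⁻¹) - 1) * u' :=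
      hu' _ ⟨j a, ⟨a, a.2, rfl⟩, rfl⟩
    rw [wallAff_mul, wallAff_mul, hc, h1, h2, inv_mul_cancel_right]
    congr 1
    have h3 : ι (τ * j a * τ⁻¹) * (ι τ * u) = ι τ * (ι (j a) * u) := by
      rw [← mul_assoc, ← map_mul, inv_mul_cancel_right, map_mul, mul_assoc]
    rw [mul_sub (ι (τ * j a * τ⁻¹)), h3]
    noncomm_ring
  have key : ∀ w, ∃ c, HNNExtension.lift f _ hx w = wallAff ι (e w) c := by
    intro w
    induction w using HNNExtension.induction_on with
    | of v => exact ⟨δ (j v), by rw [HNNExtension.lift_of, ← hj']; rfl⟩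
    | t => exact ⟨_, by rw [HNNExtension.lift_t, hτ]⟩
    | mul x y hx' hy' =>
      obtain ⟨c, hc⟩ := hx'
      obtain ⟨d, hd⟩ := hy'
      exact ⟨_, by rw [map_mul, hc, hd, wallAff_mul, map_mul]⟩
    | inv x hx' =>
      obtain ⟨c, hc⟩ := hx'
      exact ⟨_, by rw [map_inv, hc, wallAff_inv, map_inv e]⟩
  obtain ⟨d, hd⟩ := hG (fun g => HNNExtension.lift f _ hx (e.symm g) 0) fun g _ h _ => by
    obtain ⟨c, hc⟩ := key (e.symm g)
    rw [map_mul, map_mul, Equiv.Perm.mul_apply, hc, e.apply_symm_apply, wallAff_apply,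
      wallAff_apply, mul_zero, zero_add, add_comm]
  refine ⟨d, ?_⟩
  rintro _ ⟨v, rfl⟩
  rw [← hd _ (Subgroup.mem_top _), hj', e.symm_apply_apply, HNNExtension.lift_of, ← hj']
  change _ = wallAff ι (j v) (δ (j v)) 0
  rw [wallAff_apply, mul_zero, zero_add]

theorem der_wall (hι : Function.Injective ι) (e : HNNExtension V A B α ≃* G)
    (φ : G →* Multiplicative ℤ) (h1 : ∀ v, φ (e (HNNExtension.of v)) = 1)
    (h2 : φ (e HNNExtension.t) = Multiplicative.ofAdd 1) [Nontrivial A]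
    (hA : Der ι (A.map (e.toMonoidHom.comp HNNExtension.of))) (hG : Der ι ⊤) :
    Der ι φ.ker := by
  intro δ hδ
  have hb := der_base e hA hG
  obtain ⟨j, hj⟩ : ∃ j : V →* G, j = e.toMonoidHom.comp HNNExtension.of := ⟨_, rfl⟩
  have hj' : ∀ v, j v = e (HNNExtension.of v) := fun v => by rw [hj]; rfl
  rw [← hj] at hb
  obtain ⟨τ, hτ⟩ : ∃ τ, τ = e HNNExtension.t := ⟨_, rfl⟩
  have hc : ∀ a : A, j (α a) = τ * j a * τ⁻¹ := fun a => by
    rw [hj', hj', hτ, HNNExtension.equiv_eq_conj, map_mul, map_mul, map_inv]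
  have hk : ∀ (g : G) (v : V), g * j v * g⁻¹ ∈ φ.ker := fun g v =>
    φ.normal_ker.conj_mem _ (by rw [hj']; exact h1 v) g
  have hr : ∀ g, ∀ x ∈ j.range.map (MulAut.conj g).toMonoidHom, x ∈ φ.ker := by
    rintro g _ ⟨_, ⟨v, rfl⟩, rfl⟩
    exact hk g v
  have hd : ∀ n : ℤ, ∃ d : D, ∀ v, δ (τ ^ n * j v * (τ ^ n)⁻¹) =
      (ι (τ ^ n * j v * (τ ^ n)⁻¹) - 1) * d := fun n => by
    obtain ⟨d, hd⟩ := der_conj (τ ^ n) hb δ fun g hg h hh => hδ g (hr _ g hg) h (hr _ h hh)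
    exact ⟨d, fun v => hd _ ⟨j v, ⟨v, rfl⟩, rfl⟩⟩
  choose d hd using hd
  obtain ⟨a, ha⟩ := exists_ne (1 : A)
  have hs : ∀ n, d (n + 1) = d n := fun n => by
    have e1 : τ ^ (n + 1) * j a * (τ ^ (n + 1))⁻¹ = τ ^ n * j (α a) * (τ ^ n)⁻¹ := by
      rw [hc]
      group
    have e2 := hd (n + 1) a
    rw [e1, hd n] at e2
    refine (mul_left_cancel₀ (fun h0 => ha ?_) e2).symm
    rw [← e1, sub_eq_zero, ← map_one ι] at h0
    have h3 : j a = 1 := by simpa using hι h0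
    rw [hj', ← map_one e, ← map_one (HNNExtension.of (φ := α))] at h3
    exact Subtype.ext (HNNExtension.of_injective α (e.injective h3))
  have h0 : ∀ n, d n = d 0 := fun n => by
    induction n using Int.induction_on with
    | zero => rfl
    | succ n ih => rw [hs, ih]
    | pred n ih => rw [← hs, sub_add_cancel, ih]
  have hone : δ 1 = 0 := by
    have := hδ 1 (one_mem _) 1 (one_mem _)
    rw [mul_one, map_one, one_mul] at this
    exact left_eq_add.1 this
  let S : Subgroup G :=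
    { carrier := {k | k ∈ φ.ker ∧ δ k = (ι k - 1) * d 0}
      one_mem' := ⟨one_mem _, by rw [hone, map_one, sub_self, zero_mul]⟩
      mul_mem' := fun {x y} hx hy => ⟨mul_mem hx.1 hy.1, by
        rw [hδ x hx.1 y hy.1, hx.2, hy.2, map_mul]
        noncomm_ring⟩
      inv_mem' := fun {x} hx => ⟨inv_mem hx.1, by
        have h3 := hδ x⁻¹ (inv_mem hx.1) x hx.1
        rw [inv_mul_cancel, hone, hx.2, ← mul_assoc, mul_sub, wall_aux_inv', mul_one] at h3
        rw [eq_neg_of_add_eq_zero_left h3.symm, ← neg_mul, neg_sub]⟩ }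
  have key : ∀ w, ∀ n : ℤ, τ ^ n * e w * (τ ^ (n + (φ (e w)).toAdd))⁻¹ ∈ S := by
    intro w
    induction w using HNNExtension.induction_on with
    | of v =>
      intro n
      rw [h1, toAdd_one, add_zero, ← hj']
      exact ⟨hk _ v, by rw [hd, h0]⟩
    | t =>
      intro n
      rw [h2, toAdd_ofAdd, ← hτ, _root_.zpow_add_one, mul_inv_cancel]
      exact one_mem _
    | mul x y hx hy =>
      intro n
      have e1 : τ ^ n * e (x * y) * (τ ^ (n + (φ (e (x * y))).toAdd))⁻¹ =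
          (τ ^ n * e x * (τ ^ (n + (φ (e x)).toAdd))⁻¹) * (τ ^ (n + (φ (e x)).toAdd) * e y *
            (τ ^ (n + (φ (e x)).toAdd + (φ (e y)).toAdd))⁻¹) := by
        rw [map_mul, map_mul, toAdd_mul, add_assoc]
        group
      rw [e1]
      exact mul_mem (hx _) (hy _)
    | inv x hx =>
      intro n
      have e1 : τ ^ n * e x⁻¹ * (τ ^ (n + (φ (e x⁻¹)).toAdd))⁻¹ =
          (τ ^ (n - (φ (e x)).toAdd) * e x *
            (τ ^ (n - (φ (e x)).toAdd + (φ (e x)).toAdd))⁻¹)⁻¹ := by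
        rw [map_inv, map_inv, toAdd_inv, sub_add_cancel, ← sub_eq_add_neg]
        group
      rw [e1]
      exact inv_mem (hx _)
  refine ⟨d 0, fun g hg => ?_⟩
  have h3 := key (e.symm g) 0
  rw [e.apply_symm_apply, show φ g = 1 from hg, toAdd_one, add_zero, zpow_zero, one_mul, inv_one,
    mul_one] at h3
  exact h3.2

end Pool.Agent.Lib.MP_fd3021_gt.Rf
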