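import Pool.Agent.Lib.MP_fd3021_gt.Rf.Rep
import Pool.Agent.Lib.MP_fd3021_gt.Rf.Sik
import Pool.Agent.Lib.MP_fd3021_gt.Rf.Pair
import Pool.Agent.Lib.MP_fd3021_gt.Rf.Dv
import Pool.Agent.Lib.MP_fd3021_gt.Rf.Wall
import Pool.Agent.Lib.MP_fd3021_gt.Rf.ExB
import Pool.Agent.Lib.MP_fd3021_gt.Rf.L2
import Pool.Agent.Lib.MP_fd3021_gt.Rf.ResB
import Pool.Agent.Lib.MP_fd3021_gt.XMain

/-! Assembly. -/

namespace Pool.Agent.Lib.MP_fd3021_gt.Rf

open Matrix Filter

variable {G I : Type} [Group G] [Fintype I] [DecidableEq I] {deg : I → ℤ}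
  {c : Matrix I I (MonoidAlgebra ℤ G)}

/-- the kernel of a wall character has only inner derivations -/
theorem der_dual {T : Tw G} {D : Type} [DivisionRing D] {ι : G →* D} (h : Env T ι)
    (hι : Function.Injective ι) (A : Subgroup G) (hA : Der (ι.comp A.subtype) ⊤)
    {φ : A →* Multiplicative ℤ} (hφ : DualWall φ) : Der (ι.comp A.subtype) φ.ker := by
  obtain ⟨V, _, A₀, B₀, α, e, h1, h2, hn, J, _, _, dj, b, hb, hb0⟩ := hφ
  have hi : Function.Injective (ι.comp A.subtype) := hι.comp Subtype.val_injective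
  refine der_wall hi e φ h1 h2 ?_ hA
  set k : V →* A := e.toMonoidHom.comp HNNExtension.of with hk
  have hki : Function.Injective k := e.injective.comp (HNNExtension.of_injective α)
  have hj : Function.Injective (A.subtype.comp (k.comp A₀.subtype)) :=
    Subtype.val_injective.comp (hki.comp Subtype.val_injective)
  have h3 := der_of_dex hb ((dex_iff h _ hj hb.2.1 hb.2.2.1).2 hb0)
  have h4 := (der_map (ι := ι.comp A.subtype) (k.comp A₀.subtype)
    (hki.comp Subtype.val_injective) ⊤).1 h3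
  have e1 : Subgroup.map (k.comp A₀.subtype) ⊤ = A₀.map k := by
    rw [← Subgroup.map_map, ← MonoidHom.range_eq_map, Subgroup.range_subtype]
  rwa [e1] at h4

/-- a virtual algebraic fibration whose kernel has first L2-Betti number zero -/
theorem exists_fibre [Nontrivial G] (hT : WallTower G) (h : ResTo 2 deg c)
    (b1 : spec (lap deg c 1) {0} = 0) : Group.ResiduallyFinite G ∧
    ∃ (A : Subgroup G) (_ : A.FiniteIndex) (ψ : A →* Multiplicative ℤ), Function.Surjective ψ ∧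
      ∃ (J : Type) (_ : Fintype J) (_ : DecidableEq J) (dj : J → ℤ)
        (b : Matrix J J (MonoidAlgebra ℤ ψ.ker)), ResTo 1 dj b ∧ spec (lap dj b 1) {0} = 0 := by
  obtain ⟨T, hΦ⟩ := exists_tw hT
  obtain ⟨T', hT'⟩ := T.exists_op
  obtain ⟨D, _, _, ι, hE⟩ := exists_env T
  refine ⟨T.rf, ?_⟩
  have cx : ∀ j, Ctx (T.st j) ι := hE.ctx
  have cx' : ∀ j, Ctx (T'.st j) ι := fun j =>
    ⟨by rw [(hT' j).2.1]; exact (cx j).ind, by rw [(hT' j).1]; exact (cx j).top⟩
  have hli : LinearIndependent ℚ ι := linInd_rat hE.ind fun X => (T.sep_fin X).exists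
  have hι : Function.Injective ι := hli.injective
  have hd : DEx (zi ι) deg c :=
    (dex_iff hE (MonoidHom.id G) Function.injective_id h.2.1 h.2.2.1).2 b1
  obtain ⟨s, s', -, -, hs⟩ := hd.contr h.2.1
  have e1 : ∀ᶠ j in atTop, ∀ x : I × I, (T.st j).Ev fun f => App (T.st j) ι f (s x.1 x.2) :=
    eventually_all.2 fun x => rep_all T cx hE.top _
  have e2 : ∀ᶠ j in atTop, ∀ x : I × I, (T'.st j).Ev fun f => App (T'.st j) ι f (s x.1 x.2) :=
    eventually_all.2 fun x => rep_all T' cx' hE.top _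
  obtain ⟨j, h1, h2, g, hgA, hgP⟩ := (e1.and (e2.and T.pos)).exists
  obtain ⟨f, hf, hf', p1, p2, hg⟩ := Stage.Ev.both (hT' j).1 (hT' j).2.1 (hT' j).2.2
    (Stage.Ev.all h1) (Stage.Ev.all h2) hgP
  let A := (T.st j).A
  obtain ⟨ψ, hψ, hk⟩ : ∃ ψ : A →* Multiplicative ℤ, Function.Surjective ψ ∧
      ∀ a : A, ψ a = 1 ↔ f a = f 1 := hf.exists_hom hgA hg
  have hfg : (ψ.ker.map A.subtype).FG := by
    refine sikorav (cx j) (cx' j) hli h hf hf' hs (fun i k => p1 (i, k)) (fun i k => p2 (i, k)) _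
      fun x => ⟨?_, fun hx => ⟨⟨x, hx.1⟩, (hk _).2 hx.2, rfl⟩⟩
    rintro ⟨a, ha, rfl⟩
    exact ⟨a.2, (hk a).1 ha⟩
  have hfg' : Group.FG ψ.ker := by
    have := (Group.fg_iff_subgroup_fg _).2 hfg
    exact Group.fg_of_surjective
      (f := (ψ.ker.equivMapOfInjective A.subtype Subtype.val_injective).symm.toMonoidHom)
      (MulEquiv.surjective _)
  have hG : Der ι ⊤ := der_of_dex (ResTo_mono (by norm_num) h) hd
  have hGA : Der (ι.comp A.subtype) ⊤ := by
    rw [der_map A.subtype Subtype.val_injective, ← MonoidHom.range_eq_map, Subgroup.range_subtype]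
    exact der_fi (cx j) hG
  obtain ⟨Φ, hN, hw⟩ := hΦ j
  have hψ1 : ψ ≠ 1 := by
    rintro rfl
    obtain ⟨a, ha⟩ := hψ (Multiplicative.ofAdd 1)
    have h5 : (0 : ℤ) = 1 := congrArg Multiplicative.toAdd ha
    omega
  have hK : Der (ι.comp A.subtype) ψ.ker := by
    refine der_span ((cx j).ind.comp (T.st j).le) (fun a b => (T.st j).comm a a.2 b b.2) Φ
      (fun φ hφ x hx => (hN x).1 hx φ hφ) (fun φ hφ => der_dual hE hι A hGA (hw φ hφ)) ψ
      (fun x hx => (hk x).2 ?_) hψ1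
    simpa using hf.1 x ((hN x).2 hx) 1
  have hK' : Der (ι.comp (A.subtype.comp ψ.ker.subtype)) ⊤ := by
    refine (der_map (ι := ι.comp A.subtype) ψ.ker.subtype Subtype.val_injective ⊤).2 ?_
    rwa [← MonoidHom.range_eq_map, Subgroup.range_subtype]
  obtain ⟨J, _, _, dj, b, hb, hbd⟩ := exists_B hK'
  exact ⟨A, inferInstance, ψ, hψ, J, inferInstance, inferInstance, dj, b, hb,
    (dex_iff hE _ (Subtype.val_injective.comp Subtype.val_injective) hb.2.1 hb.2.2.1).1 hbd⟩

omit [DecidableEq I] in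
theorem res_dual (H : Subgroup G) [Fintype (G ⧸ H)] {r n : ℤ}
    (h' : ResTo r (fun i => n - deg i) (adj c)) :
    ResTo r (fun x : I × (G ⧸ H) => n - deg x.1) (adj (res H c)) := by
  rw [res_adj]
  exact resTo_res H h'

theorem wall_main0 [Nontrivial G] (h : ResTo 2 deg c) (h' : ResTo 2 (fun i => 5 - deg i) (adj c))
    (b1 : spec (lap deg c 1) {0} = 0) (b2 : spec (lap deg c 2) {0} = 0)
    (b3 : spec (lap deg c 3) {0} = 0) (hT : WallTower G) :
    DetAcyclic deg c ∧ 0 ≤ rho deg c := by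
  classical
  obtain ⟨hrf, A, _, ψ, hψ, J, _, _, dj, b, hb, hb0⟩ := exists_fibre hT h b1
  letI : Fintype (G ⧸ A) := Fintype.ofFinite _
  refine concl_res A h.2.1 ?_
  have key := alg_fibred ψ hψ 2 (deg := fun x : I × (G ⧸ A) => deg x.1) (c := res A c)
    (dj := dj) (b := b) (resTo_res A h) (res_dual A h') (atom_res A h.2.1 2 b2)
    (atom_res A h.2.1 3 b3) hb fun p hp hp' => ?_
  · simpa using key
  · by_cases h1 : p = 1
    · rwa [h1]
    · have hp0 : p < 0 := by
        obtain ⟨k, hk⟩ := hp'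
        push_cast at hp hk
        omega
      obtain ⟨K, hK⟩ := good_lap hb.2.1 p
      obtain ⟨hfin, -, hm⟩ := hK.isSpec
      have hE : IsEmpty {i // dj i = p} := ⟨fun i => by have := hb.1 i.1; have := i.2; omega⟩
      have h1 := hm 0
      simp only [pow_zero, MeasureTheory.integral_const, smul_eq_mul, mul_one,
        Finset.univ_eq_empty, Finset.sum_empty] at h1
      have h2 : spec (lap dj b p) = 0 := by
        rwa [MeasureTheory.measureReal_eq_zero_iff,
          MeasureTheory.Measure.measure_univ_eq_zero] at h1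
      simp [h2]

theorem wall_main (h : ResTo 2 deg c) (h' : ResTo 2 (fun i => 5 - deg i) (adj c))
    (b1 : spec (lap deg c 1) {0} = 0) (b2 : spec (lap deg c 2) {0} = 0)
    (b3 : spec (lap deg c 3) {0} = 0) (H : Subgroup G) [H.FiniteIndex] [Nontrivial H]
    (hT : WallTower H) : DetAcyclic deg c ∧ 0 ≤ rho deg c := by
  classical
  obtain ⟨T, -⟩ := exists_tw hT
  haveI := T.rf
  letI : Fintype (G ⧸ H) := Fintype.ofFinite _
  exact concl_res H h.2.1 (wall_main0 (resTo_res H h) (res_dual H h') (atom_res H h.2.1 1 b1)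
    (atom_res H h.2.1 2 b2) (atom_res H h.2.1 3 b3) hT)

end Pool.Agent.Lib.MP_fd3021_gt.Rf
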