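import Pool.Agent.Lib.MP_fd3021_gt.Rf.Bar
import Pool.Agent.Lib.MP_fd3021_gt.Rf.Den

/-! The characters with acyclic kernel are closed under linear combinations. -/

namespace Pool.Agent.Lib.MP_fd3021_gt.Rf

open Matrix Filter

variable {G D : Type} [Group G] [DivisionRing D] {ι : G →* D} {N M K : Subgroup G}

theorem pairA_aux_dcl (hK : M ≤ K) {a : D} (ha : a ∈ Sp ι M K) : a ∈ dcl ι K :=
  Sp_ind (C := fun a => a ∈ dcl ι K) (zero_mem _) (fun _ _ => add_mem)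
    (fun _ hd _ hg => mul_mem (dcl_mono hK hd) (iota_mem hg)) ha

theorem pairA_aux_univ {d : D} (hd : d ∈ dcl ι M) : d ∈ Sp ι M Set.univ := by
  simpa using Sp_smul hd (mem_Sp (ι := ι) (M := M) (Set.mem_univ (1 : G)))

theorem pairA_aux_rel (hI : Ind ι N) (hM : N ≤ M) [M.Normal] (hK : M ≤ K)
    (hc : ∀ a ∈ K, ∀ b ∈ K, a * b * a⁻¹ * b⁻¹ ∈ M) {y : G →₀ D} (hy : y ∈ Rel ι K) :
    ∃ s ∈ Sp ι M K, s ≠ 0 ∧ s • y ∈ Rel ι M := by
  classical
  induction hy using AddSubgroup.closure_induction with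
  | mem y hy =>
    obtain ⟨g, h, r, hr, rfl⟩ := hy
    obtain ⟨s, hs, h0, h1⟩ := den hI hM hK hc {r} (by simpa using hr)
    refine ⟨s, hs, h0, AddSubgroup.subset_closure ⟨g, h, s * r, h1 r (by simp), ?_⟩⟩
    simp only [smul_sub, Finsupp.smul_single, smul_eq_mul, mul_assoc]
  | zero => exact ⟨ι 1, mem_Sp K.one_mem, iota_ne 1, by simp⟩
  | add y z _ _ hy hz =>
    obtain ⟨a, ha, a0, hy⟩ := hy
    obtain ⟨b, hb, b0, hz⟩ := hz
    obtain ⟨s, hs, t, ht, s0, e⟩ := ore_Sp hI hM hK hc ha hb b0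
    refine ⟨s * a, Sp_mul (fun _ hp _ hq => K.mul_mem hp hq) hs ha, mul_ne_zero s0 a0, ?_⟩
    rw [smul_add]
    refine add_mem ?_ ?_
    · rw [mul_smul]
      exact Rel_smul (Sp_mono (Set.subset_univ _) hs) hy
    · rw [e, mul_smul]
      exact Rel_smul (Sp_mono (Set.subset_univ _) ht) hz
  | neg y _ hy =>
    obtain ⟨a, ha, a0, hy⟩ := hy
    exact ⟨a, ha, a0, by rw [smul_neg]; exact neg_mem hy⟩

/-- acyclicity over `K` is torsion over the span of `K` -/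
theorem acy_iff (hI : Ind ι N) (hM : N ≤ M) [M.Normal] [K.Normal] (hK : M ≤ K)
    (hc : ∀ a ∈ K, ∀ b ∈ K, a * b * a⁻¹ * b⁻¹ ∈ M) : Acy ι K ↔
      ∀ x : G →₀ D, (∀ g, x g ∈ Sp ι M Set.univ) → bdry ι x = 0 →
        ∃ s ∈ Sp ι M K, s ≠ 0 ∧ s • x ∈ Rel ι M := by
  classical
  refine ⟨fun h x hx h0 => pairA_aux_rel hI hM hK hc (h x (fun g => Sp_mono' hK (hx g)) h0),
    fun h x hx h0 => ?_⟩
  obtain ⟨s, hs, s0, h1⟩ := den hI hM hK hc (x.support.image x) (fun v hv => by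
    obtain ⟨g, -, rfl⟩ := Finset.mem_image.1 hv
    exact hx g)
  obtain ⟨t, ht, t0, h2⟩ := h (s • x) (fun g => by
    rw [Finsupp.smul_apply, smul_eq_mul]
    by_cases hg : g ∈ x.support
    · exact h1 _ (Finset.mem_image_of_mem _ hg)
    · rw [Finsupp.notMem_support_iff.1 hg, mul_zero]
      exact zero_mem _) (by rw [bdry_smul, h0, mul_zero])
  have h3 := Rel_smul (pairA_aux_univ (inv_mem (mul_mem (pairA_aux_dcl hK ht)
    (pairA_aux_dcl hK hs)))) (Rel_mono hK h2)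
  rwa [smul_smul t, smul_smul, inv_mul_cancel₀ (mul_ne_zero t0 s0), one_smul] at h3

theorem pairA_aux_side (hI : Ind ι N) (hM : N ≤ M) [M.Normal] (hK : M ≤ K) (f : G → ℤ)
    (hf : ∀ g h, f (g * h) = f g + f h) (hφ : ∀ k ∈ K, f k = 0 ↔ k ∈ M) {s : D} {B : ℤ}
    (hs : s ∈ Sp ι M {k | k ∈ K ∧ -B ≤ f k ∧ f k ≤ B}) (h0 : s ≠ 0)
    (W : Submodule (dcl ι M) D) (h1 : ∀ g, ι g * s ∈ W)
    (h2 : ∀ k ∈ K, -B ≤ f k → f k ≤ B → ι k ∈ W) : ∀ k ∈ K, -B ≤ f k → ι k ∈ W := by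
  obtain ⟨c, ⟨cK, c1, c2⟩, h3, h4⟩ := exists_lead hI hM (le := fun g h => f h ≤ f g)
    (fun g h => le_total _ _) (fun h h' => h'.trans h)
    (fun n hn g => by rw [hf, (hφ n (hK hn)).2 hn, zero_add]; exact ⟨le_rfl, le_rfl⟩) hs h0
  have hdiv : ∀ k, f (k * c⁻¹) = f k - f c := fun k => by
    have := hf (k * c⁻¹) c
    rw [inv_mul_cancel_right] at this
    omega
  obtain ⟨s₀, h5, s', h6, e⟩ := Sp_split {h | h * c⁻¹ ∈ M} h3
  obtain ⟨d, hd, rfl⟩ := Sp_coset (Sp_mono Set.inter_subset_right h5)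
  have h7 : s' ∈ Sp ι M {k | k ∈ K ∧ -B ≤ f k ∧ f k < f c} := by
    refine Sp_mono ?_ h6
    rintro k ⟨⟨⟨kK, k1, -⟩, k2⟩, k3⟩
    refine ⟨kK, k1, lt_of_le_of_ne k2 fun k4 => k3 ?_⟩
    exact (hφ _ (K.mul_mem kK (K.inv_mem cK))).1 (by rw [hdiv, k4, sub_self])
  have d0 : d ≠ 0 := by
    rintro rfl
    rw [zero_mul, zero_add] at e
    exact h4 (e ▸ Sp_mono (fun k hk => not_le.2 hk.2.2) h7)
  have key : ∀ n : ℕ, ∀ k ∈ K, -B ≤ f k → f k < -B + n → ι k ∈ W := by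
    intro n
    induction n with
    | zero => intro k _ k1 k2; omega
    | succ n ih =>
      intro k kK k1 k2
      by_cases k3 : f k ≤ B
      · exact h2 k kK k1 k3
      have h8 : ι (k * c⁻¹) * s' ∈ Sp ι M {h | h ∈ K ∧ -B ≤ f h ∧ f h < -B + n} := by
        refine Sp_mul (P := {k * c⁻¹}) ?_ (mem_Sp rfl) h7
        rintro _ rfl q ⟨qK, q1, q2⟩
        refine ⟨K.mul_mem (K.mul_mem kK (K.inv_mem cK)) qK, ?_⟩
        rw [hf, hdiv]
        omega
      have h9 : ι (k * c⁻¹) * s' ∈ W := by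
        refine Submodule.span_le.2 ?_ h8
        rintro _ ⟨h, ⟨hK', l1, l2⟩, rfl⟩
        exact ih h hK' l1 l2
      have h10 := W.smul_mem ⟨_, inv_mem (dcl_conj (k * c⁻¹) hd)⟩ (W.sub_mem (h1 (k * c⁻¹)) h9)
      have e1 : ι (k * c⁻¹) * s - ι (k * c⁻¹) * s' =
          ι (k * c⁻¹) * d * ι (k * c⁻¹)⁻¹ * ι k := by
        rw [e, mul_add, add_sub_cancel_right, mul_assoc _ _ (ι k), ← map_mul, mul_assoc,
          _root_.mul_inv_rev, inv_inv, inv_mul_cancel_right]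
      rw [e1] at h10
      change _⁻¹ * (_ * ι k) ∈ W at h10
      rwa [inv_mul_cancel_left₀ (mul_ne_zero (mul_ne_zero (iota_ne _) d0) (iota_ne _))] at h10
  intro k kK k1
  exact key ((f k + B).toNat + 1) k kK k1 (by omega)

/-- a torsion class has finitely many independent translates -/
theorem fin_translates (hI : Ind ι N) (hM : N ≤ M) [M.Normal] (hK : M ≤ K)
    (φ : G →* Multiplicative ℤ) (hφ : ∀ k ∈ K, φ k = 1 ↔ k ∈ M) {x : G →₀ D} {s : D}
    (hs : s ∈ Sp ι M K) (h0 : s ≠ 0) (hx : s • x ∈ Rel ι M) :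
    ∃ F : Finset G, ∀ k ∈ K, ∃ u ∈ Sp ι M F, (ι k - u) • x ∈ Rel ι M := by
  classical
  let f : G → ℤ := fun g => (φ g).toAdd
  have hf : ∀ g h, f (g * h) = f g + f h := fun g h => by simp only [f, map_mul, toAdd_mul]
  have hf0 : ∀ k ∈ K, f k = 0 ↔ k ∈ M := fun k hk => toAdd_eq_zero.trans (hφ k hk)
  obtain ⟨T, hT, hsT⟩ := Sp_fin hs
  obtain ⟨B, hB⟩ := (T.image fun t => (f t).natAbs).exists_le
  have hB' : ∀ t ∈ T, (f t).natAbs ≤ B := fun t ht => hB _ (Finset.mem_image_of_mem _ ht)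
  have hρ : ∀ n : ℤ, ∃ r, ∀ k ∈ K, f k = n → k * r⁻¹ ∈ M := fun n => by
    by_cases h : ∃ r ∈ K, f r = n
    · obtain ⟨r, rK, e⟩ := h
      refine ⟨r, fun k kK e' => (hf0 _ (K.mul_mem kK (K.inv_mem rK))).1 ?_⟩
      have := hf (k * r⁻¹) r
      rw [inv_mul_cancel_right] at this
      omega
    · exact ⟨1, fun k kK e => (h ⟨k, kK, e⟩).elim⟩
  choose ρ hρ using hρ
  let R : Submodule (dcl ι M) D :=
    { carrier := {v | v • x ∈ Rel ι M}
      add_mem' := fun {a b} ha hb => by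
        change (a + b) • x ∈ Rel ι M
        rw [add_smul]
        exact add_mem ha hb
      zero_mem' := by
        change (0 : D) • x ∈ Rel ι M
        rw [zero_smul]
        exact zero_mem _
      smul_mem' := fun d a ha => by
        change (d.1 * a) • x ∈ Rel ι M
        rw [mul_smul]
        exact Rel_smul (pairA_aux_univ d.2) ha }
  refine ⟨(Finset.Icc (-B : ℤ) B).image ρ, fun k kK => ?_⟩
  have h1 : ∀ g, ι g * s ∈ Sp ι M ((Finset.Icc (-B : ℤ) B).image ρ : Finset G) ⊔ R := fun g => by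
    refine Submodule.mem_sup_right ?_
    change (ι g * s) • x ∈ Rel ι M
    rw [mul_smul]
    exact Rel_smul (mem_Sp (Set.mem_univ g)) hx
  have h2 : ∀ k ∈ K, -B ≤ f k → f k ≤ B →
      ι k ∈ Sp ι M ((Finset.Icc (-B : ℤ) B).image ρ : Finset G) ⊔ R := fun k kK k1 k2 => by
    refine Submodule.mem_sup_left ?_
    have := Sp_smul (ι := ι) (iota_mem (hρ _ k kK rfl))
      (mem_Sp (P := ((Finset.Icc (-B : ℤ) B).image ρ : Finset G))
        (Finset.mem_image_of_mem ρ (Finset.mem_Icc.2 ⟨k1, k2⟩)))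
    rwa [← map_mul, inv_mul_cancel_right] at this
  have h3 : ι k ∈ Sp ι M ((Finset.Icc (-B : ℤ) B).image ρ : Finset G) ⊔ R := by
    by_cases k1 : -B ≤ f k
    · refine pairA_aux_side hI hM hK f hf hf0 (B := B) (Sp_mono (fun t ht => ?_) hsT) h0 _ h1 h2
        k kK k1
      have := hB' t ht
      exact ⟨hT ht, by omega, by omega⟩
    · refine pairA_aux_side hI hM hK (fun g => -f g) (fun g h => by rw [hf, neg_add])
        (fun k kK => neg_eq_zero.trans (hf0 k kK)) (B := B)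
        (Sp_mono (fun t ht => ?_) hsT) h0 _ h1
        (fun k kK k1 k2 => h2 k kK (by omega) (by omega)) k kK (by omega)
      have := hB' t ht
      exact ⟨hT ht, by omega, by omega⟩
  obtain ⟨u, hu, r, hr, e⟩ := Submodule.mem_sup.1 h3
  exact ⟨u, hu, by rw [← e, add_sub_cancel_left]; exact hr⟩

end Pool.Agent.Lib.MP_fd3021_gt.Rf
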