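import Pool.Agent.Lib.MP_fd3021_gt.Rf.RepA

/-! Every element of the division ring is approximable deep in the tower. -/

namespace Pool.Agent.Lib.MP_fd3021_gt.Rf

open Matrix Filter

variable {G D : Type} [Group G] [DivisionRing D] [CharZero D] {ι : G →* D} {x : D}

theorem rep_inv {S : Stage G} (c : Ctx S ι) (h0 : x ≠ 0) (hx : S.Ev fun f => App S ι f x)
    (h : ∀ q, ∃ (g : G) (l : ℚ), l ≠ 0 ∧
      ι q * x - l • ι g ∈ Fil S ι S.lex {h | h * g⁻¹ ∈ S.P}) :
    S.Ev fun f => App S ι f x⁻¹ := by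
  have r := isHt_lex S
  have key : ∀ g, ∃ (q : G) (l : ℚ), l ≠ 0 ∧
      ι q * x - l • ι g ∈ Fil S ι S.lex {h | h * g⁻¹ ∈ S.P} := by
    intro g
    obtain ⟨q, q1, q2⟩ := lex_surj c h0 g
    obtain ⟨k, l, hl, hk⟩ := h q
    have hlk : l • ι k ∈ Sp ι S.N {h | h * k⁻¹ ∈ S.N} :=
      Sp_of_Qs (Submodule.smul_mem _ _ (mem_Qs (by simp)))
    have k1 : ι q * x ∈ Fil S ι S.lex {h | S.lex k h} := by
      have := Fil_add c r (up_ge r k) (Fil_mono (fun h hh => Or.inl hh) hk)
        (Fil_of_Sp c r (Sp_mono (fun h hh => Or.inr hh) hlk))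
      rwa [sub_add_cancel] at this
    have k2 : ι q * x ∉ Fil S ι S.lex {h | h * k⁻¹ ∈ S.P} := by
      intro h1
      have h2 := Fil_add c r (up_P S k) h1 (Fil_neg hk)
      rw [show ι q * x + -(ι q * x - l • ι k) = l • ι k by abel] at h2
      have h3 := Sp_of_Fil c r (up_P S k) h2 (Sp_mono (Set.subset_univ _) hlk)
      have h4 : l • ι k = 0 := by
        refine Sp_disj (P := {h | h * k⁻¹ ∈ S.N}) (Q := {h | h * k⁻¹ ∈ S.P}) c.ind le_rfl
          (fun p hp q hq hpq => S.disj (q * k⁻¹) hq ?_) hlk h3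
        have := S.N.mul_mem (S.N.inv_mem hpq) hp
        simpa [mul_assoc] using this
      exact iota_ne (ι := ι) k ((smul_eq_zero.1 h4).resolve_left hl)
    have hn : g * k⁻¹ ∈ S.N := lex_unique c k1 k2 q1 q2
    refine ⟨g * k⁻¹ * q, l, hl, ?_⟩
    have h1 := (Fil_A c r (up_P S k) (S.le hn)).2 hk
    have e : ι (g * k⁻¹) * (ι q * x - l • ι k) = ι (g * k⁻¹ * q) * x - l • ι g := by
      rw [mul_sub, mul_smul_comm, ← map_mul, ← mul_assoc, ← map_mul, inv_mul_cancel_right]
    rw [e] at h1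
    refine Fil_mono (fun h hh => ?_) h1
    have := S.conj _ (S.le hn) _ hh
    simpa [mul_assoc] using this
  choose q l hl hq using key
  obtain ⟨R, hR⟩ := exists_transv S.A
  have hall := Stage.Ev.all (κ := R) fun t => lex_ev c (hq t)
  refine (hx.and hall).mono fun f hf hh => App.inv c hf hh.1 h0 fun g => ?_
  obtain ⟨b, hb, t, ht, rfl⟩ := hR g
  refine ⟨b * q t, l t, hl t, ?_⟩
  have h1 := FT_A c hf hb (hh.2 ⟨t, ht⟩)
  have e : ι b * (ι (q t) * x - l t • ι t) = ι (b * q t) * x - l t • ι (b * t) := by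
    rw [mul_sub, mul_smul_comm, ← map_mul, ← mul_assoc, ← map_mul]
  rw [e] at h1
  refine FT_mono (le_of_eq ?_) h1
  rw [hf.2 b hb t]
  ring

theorem rep_all (T : Tw G) (c : ∀ j, Ctx (T.st j) ι) (htop : dcl ι ⊤ = ⊤) (x : D) :
    ∀ᶠ j in atTop, (T.st j).Ev fun f => App (T.st j) ι f x := by
  have hx : x ∈ dcl ι ⊤ := by rw [htop]; trivial
  unfold dcl at hx
  induction hx using Subfield.closure_induction with
  | mem y hy =>
    obtain ⟨g, -, rfl⟩ := hy
    exact Eventually.of_forall fun j => Stage.Ev.of_forall fun f hf => App_iota (c j) hf g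
  | one =>
    refine Eventually.of_forall fun j => Stage.Ev.of_forall fun f hf => ?_
    simpa using App_iota (c j) hf 1
  | add y z _ _ hy hz =>
    filter_upwards [hy, hz] with j h1 h2
    exact (h1.and h2).mono fun f hf h => h.1.add (c j) hf h.2
  | neg y _ hy =>
    filter_upwards [hy] with j h1
    exact h1.mono fun f hf h => h.neg (c j) hf
  | mul y z _ _ hy hz =>
    filter_upwards [hy, hz] with j h1 h2
    exact (h1.and h2).mono fun f hf h => h.1.mul (c j) hf h.2
  | inv y _ hy =>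
    by_cases h0 : y = 0
    · refine Eventually.of_forall fun j => Stage.Ev.of_forall fun f hf => ?_
      rw [h0, _root_.inv_zero]
      exact App_zero (c j) hf
    · obtain ⟨i, hi⟩ := hy.exists
      filter_upwards [hy, rep_mono T c h0 hi] with j h1 h2
      exact rep_inv (c j) h0 h1 h2

end Pool.Agent.Lib.MP_fd3021_gt.Rf
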