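import Pool.Agent.Lib.MP_fd3021_gt.Rf.Ht
import Pool.Agent.Lib.MP_fd3021_gt.Rf.Lex

/-! Every element of the division ring is approximable deep in the tower. -/

namespace Pool.Agent.Lib.MP_fd3021_gt.Rf

open Matrix Filter

variable {G D : Type} [Group G] [DivisionRing D] [CharZero D] {ι : G →* D} {x : D}

theorem repa_setP (S : Stage G) (g : G) : {h | ¬ S.lex h g} = {h | h * g⁻¹ ∈ S.P} :=
  Set.ext fun h => not_lex S g h

theorem repa_satR (S : Stage G) {p n : G} (hp : p ∈ S.P) (hn : n ∈ S.N) : p * n ∈ S.P := by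
  have := S.sat _ (S.nN.conj_mem n hn p) p hp
  simpa using this

/-- the leading component of a translate of an approximable element is a rational combination -/
theorem rep_lead {S : Stage G} (c : Ctx S ι) (h0 : x ≠ 0) (hx : S.Ev fun f => App S ι f x)
    (q : G) : ∃ (g : G) (a : D), a ≠ 0 ∧ a ∈ Qs ι {h | h * g⁻¹ ∈ S.N} ∧
      ι q * x - a ∈ Fil S ι S.lex {h | h * g⁻¹ ∈ S.P} := by
  obtain ⟨g, h1, h2⟩ := Fil_lead c (isHt_lex S) (mul_ne_zero (iota_ne (ι := ι) q) h0)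
  rw [repa_setP] at h2
  obtain ⟨d, hd, h3⟩ := lex_comp c h1
  have hd0 : d * ι g ≠ 0 := by
    intro e
    rw [e, sub_zero] at h3
    exact h2 h3
  obtain ⟨f, hf, ha, hb⟩ := (hx.and (lex_ev c h3)).exists
  obtain ⟨a, haQ, ha'⟩ := ha q (f g + 1)
  have h4 : d * ι g - a ∈ FT S ι f (f g + 1) := by
    have := FT_sub c hf ha' hb
    rwa [show ι q * x - a - (ι q * x - d * ι g) = d * ι g - a by abel] at this
  have hdg : d * ι g ∈ Sp ι S.N {h | h * g⁻¹ ∈ S.N} :=
    Sp_smul hd (mem_Sp (by simp))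
  have h5 : d * ι g - a ∈ Sp ι S.N {h | f g + 1 ≤ f h} :=
    Sp_of_Fil c (isHt_V hf) (fun a ha b hab => le_trans ha hab) h4
      (Submodule.sub_mem _ (Sp_mono (Set.subset_univ _) hdg) (Sp_of_Qs haQ))
  obtain ⟨a₁, k1, a₂, k2, rfl⟩ := Qs_split {h | h * g⁻¹ ∈ S.N} haQ
  have k1' : a₁ ∈ Qs ι {h | h * g⁻¹ ∈ S.N} := Qs_mono Set.inter_subset_right k1
  have h6 : d * ι g - a₁ ∈ Sp ι S.N {h | h * g⁻¹ ∉ S.N} := by
    have e : d * ι g - a₁ = d * ι g - (a₁ + a₂) + a₂ := by abel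
    rw [e]
    refine Submodule.add_mem _ (Sp_mono (fun h hh hn => ?_) h5)
      (Sp_mono (fun h hh => hh.2) (Sp_of_Qs k2))
    have e1 := hf.1 _ hn g
    rw [inv_mul_cancel_right] at e1
    have : f g + 1 ≤ f h := hh
    omega
  have h7 : d * ι g - a₁ = 0 := by
    refine Sp_disj (P := {h | h * g⁻¹ ∈ S.N}) (Q := {h | h * g⁻¹ ∉ S.N}) c.ind le_rfl
      (fun p hp q hq hpq => hq ?_) (Submodule.sub_mem _ hdg (Sp_of_Qs k1')) h6
    have := S.N.mul_mem (S.N.inv_mem hpq) hp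
    simpa [mul_assoc] using this
  have h8 : a₁ = d * ι g := (sub_eq_zero.1 h7).symm
  exact ⟨g, a₁, h8 ▸ hd0, k1', h8 ▸ h3⟩

omit [Group G] in
theorem repa_min {le : G → G → Prop} (htot : ∀ g h, le g h ∨ le h g)
    (htr : ∀ {g h k}, le g h → le h k → le g k) (T : Finset G) (hT : T.Nonempty) :
    ∃ c ∈ T, ∀ h ∈ T, le c h := by
  classical
  induction hT using Finset.Nonempty.cons_induction with
  | singleton a => exact ⟨a, by simp, fun h hh => by
      rw [Finset.mem_singleton.1 hh]; exact (htot a a).elim id id⟩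
  | cons a s ha hs ih =>
    obtain ⟨c, hc, hc'⟩ := ih
    rcases htot a c with h | h
    · refine ⟨a, Finset.mem_cons_self _ _, fun b hb => ?_⟩
      rcases Finset.mem_cons.1 hb with rfl | hb
      · exact (htot b b).elim id id
      · exact htr h (hc' b hb)
    · refine ⟨c, Finset.mem_cons.2 (Or.inr hc), fun b hb => ?_⟩
      rcases Finset.mem_cons.1 hb with rfl | hb
      · exact h
      · exact hc' b hb

/-- deeper in the tower it is a monomial -/
theorem rep_mono (T : Tw G) (c : ∀ j, Ctx (T.st j) ι) (h0 : x ≠ 0) {i : ℕ}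
    (hx : (T.st i).Ev fun f => App (T.st i) ι f x) : ∀ᶠ j in atTop, ∀ q, ∃ (g : G) (l : ℚ),
      l ≠ 0 ∧ ι q * x - l • ι g ∈ Fil (T.st j) ι (T.st j).lex {h | h * g⁻¹ ∈ (T.st j).P} := by
  classical
  choose g a ha0 haQ haF using rep_lead (c i) h0 hx
  choose W l hW hl hsum using fun q => Qs_repr (haQ q)
  obtain ⟨R, hR⟩ := exists_transv (T.st i).A
  filter_upwards [T.sep_fin (R.biUnion W), eventually_ge_atTop i] with j hj hij q
  obtain ⟨b, hb, t, ht, rfl⟩ := hR q
  have hne : (W t).Nonempty := by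
    rw [Finset.nonempty_iff_ne_empty]
    intro e
    exact ha0 t (by rw [hsum t, e, Finset.sum_empty])
  have r := isHt_lex (T.st j)
  obtain ⟨w, hw, hmin⟩ := repa_min (le := fun u v => (T.st j).lex (b * u) (b * v))
    (fun u v => r.total _ _) (fun h1 h2 => r.trans h1 h2) (W t) hne
  refine ⟨b * w, l t w, hl t w hw, ?_⟩
  have h1 : ι b * (ι t * x - a t) ∈ Fil (T.st i) ι (T.st i).lex
      {h | h * (b * g t)⁻¹ ∈ (T.st i).P} := by
    refine Fil_mono (fun h hh => ?_) ((Fil_A (c i) (isHt_lex _) (up_P _ (g t)) hb).2 (haF t))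
    have := (T.st i).conj b hb _ hh
    simpa [mul_assoc] using this
  have h2 := lex_deep (c i) (c j) (T.antiA hij) (T.antiN hij) (T.monoP hij) h1
  have h3 : ι b * (ι t * x - a t) ∈ Fil (T.st j) ι (T.st j).lex
      {h | h * (b * w)⁻¹ ∈ (T.st j).P} := by
    refine Fil_mono (fun h hh => T.monoP hij ?_) h2
    have hn : w * (g t)⁻¹ ∈ (T.st i).N := hW t hw
    have hn' := (T.st i).nN.conj_mem _ ((T.st i).N.inv_mem hn) b
    have := repa_satR (T.st i) hh hn'
    simpa [mul_assoc] using this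
  have h4 : ∑ v ∈ (W t).erase w, l t v • ι (b * v) ∈ Fil (T.st j) ι (T.st j).lex
      {h | h * (b * w)⁻¹ ∈ (T.st j).P} := by
    refine Fil_of_Sp (c j) r (Sp_of_Qs (Submodule.sum_mem _ fun v hv =>
      Submodule.smul_mem _ _ (mem_Qs ?_)))
    obtain ⟨hv1, hv2⟩ := Finset.mem_erase.1 hv
    rcases hmin v hv2 with h | h
    · exact h
    · refine absurd (hj v (Finset.mem_biUnion.2 ⟨t, ht, hv2⟩) w
        (Finset.mem_biUnion.2 ⟨t, ht, hw⟩) ?_) hv1
      have := (T.st j).nN.conj_mem _ h b⁻¹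
      simpa [mul_assoc] using this
  have h5 := Fil_add (c j) r (up_P _ (b * w)) h3 h4
  have e : ι (b * t) * x - l t w • ι (b * w) =
      ι b * (ι t * x - a t) + ∑ v ∈ (W t).erase w, l t v • ι (b * v) := by
    rw [hsum t, ← Finset.add_sum_erase _ _ hw, mul_sub, mul_add, Finset.mul_sum]
    simp only [map_mul, mul_smul_comm, mul_assoc]
    abel
  rwa [e]

end Pool.Agent.Lib.MP_fd3021_gt.Rf
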