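import Pool.Agent.Lib.MP_fd3021_gt.Rf.ResM

/-! Restriction of a complex to a subgroup of finite index: algebra. -/

namespace Pool.Agent.Lib.MP_fd3021_gt.Rf

open Matrix Filter

variable {G I J K : Type} [Group G] (H : Subgroup G)

theorem resA_aux_inj (g : G) {q q' : G ⧸ H} {h h' : H}
    (e : g * (h : G) * q.out⁻¹ = g * (h' : G) * q'.out⁻¹) : q = q' := by
  rw [← q.out_eq', ← q'.out_eq', QuotientGroup.eq]
  have h1 : q.out⁻¹ * q'.out = (h : G)⁻¹ * h' := by
    have h2 : (h : G) * q.out⁻¹ = (h' : G) * q'.out⁻¹ := by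
      rw [mul_assoc, mul_assoc] at e
      exact mul_left_cancel e
    rw [eq_inv_mul_iff_mul_eq, ← mul_assoc, h2, inv_mul_cancel_right]
  rw [h1]
  exact H.mul_mem (H.inv_mem h.2) h'.2

theorem resA_aux_surj (g u : G) : ∃ (q : G ⧸ H) (h : H), g * (h : G) * q.out⁻¹ = u := by
  obtain ⟨h, hh⟩ := QuotientGroup.mk_out_eq_mul H (u⁻¹ * g)
  refine ⟨(u⁻¹ * g : G), h, ?_⟩
  rw [hh]
  group

/-- the component of an element of the group ring along one coset -/
noncomputable def resA_aux_cut (q : G ⧸ H) (a : MonoidAlgebra ℤ G) (q' : G ⧸ H) :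
    MonoidAlgebra ℤ H :=
  res H (Matrix.of fun (_ _ : Unit) => a) ((), q) ((), q')

theorem resA_aux_coeff (q : G ⧸ H) (a : MonoidAlgebra ℤ G) (q' : G ⧸ H) (h : H) :
    (resA_aux_cut H q a q').coeff h = a.coeff (q.out * (h : G) * q'.out⁻¹) := rfl

theorem resA_aux_ext (q : G ⧸ H) {a b : MonoidAlgebra ℤ G}
    (e : ∀ q', resA_aux_cut H q a q' = resA_aux_cut H q b q') : a = b := by
  apply MonoidAlgebra.ext
  ext u
  obtain ⟨q', h, rfl⟩ := resA_aux_surj H q.out u
  rw [← resA_aux_coeff, e, resA_aux_coeff]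

theorem resA_aux_zero (q q' : G ⧸ H) : resA_aux_cut H q 0 q' = 0 := by
  apply MonoidAlgebra.ext
  ext h
  rfl

/-- the augmentation as an additive map -/
noncomputable def resA_aux_aug (G : Type) : MonoidAlgebra ℤ G →+ ℤ :=
  AddMonoidHom.mk' aug fun a b => by
    unfold aug
    rw [MonoidAlgebra.coeff_add]
    exact Finsupp.sum_add_index' (fun _ => rfl) fun _ _ _ => rfl

variable [Fintype (G ⧸ H)]

theorem resA_aux_glue (q : G ⧸ H) (x : G ⧸ H → MonoidAlgebra ℤ H) :
    ∃ a : MonoidAlgebra ℤ G, (∀ q', resA_aux_cut H q a q' = x q') ∧ aug a = ∑ q', aug (x q') := by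
  refine ⟨∑ q' : G ⧸ H, .ofCoeff
    (Finsupp.mapDomain (fun h : H => q.out * (h : G) * q'.out⁻¹) (x q').coeff), fun q' => ?_, ?_⟩
  · apply MonoidAlgebra.ext
    ext h
    rw [resA_aux_coeff, MonoidAlgebra.coeff_sum, Finsupp.finsetSum_apply,
      Finset.sum_eq_single q']
    · exact Finsupp.mapDomain_apply (f := fun h : H => q.out * (h : G) * q'.out⁻¹)
        (fun a b e => by simpa using e) _ h
    · intro q₂ _ hne
      refine Finsupp.mapDomain_of_notMem_range _ _ ?_
      rintro ⟨h', e⟩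
      exact hne (resA_aux_inj H _ e)
    · intro hq
      exact absurd (Finset.mem_univ _) hq
  · change resA_aux_aug G _ = _
    rw [map_sum]
    refine Finset.sum_congr rfl fun q' _ => ?_
    exact Finsupp.sum_mapDomain_index (h := fun (_ : G) (n : ℤ) => n) (fun _ => rfl)
      fun _ _ _ => rfl

theorem resA_aux_sum (q : G ⧸ H) (a : MonoidAlgebra ℤ G) :
    ∑ q', aug (resA_aux_cut H q a q') = aug a := by
  obtain ⟨b, h1, h2⟩ := resA_aux_glue H q (resA_aux_cut H q a)
  rw [← h2, resA_aux_ext H q h1]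

theorem resA_aux_mul [Fintype I] (q : G ⧸ H) (y : I → MonoidAlgebra ℤ G)
    (c : Matrix I J (MonoidAlgebra ℤ G)) :
    (fun x : I × (G ⧸ H) => resA_aux_cut H q (y x.1) x.2) ᵥ* res H c =
      fun x : J × (G ⧸ H) => resA_aux_cut H q ((y ᵥ* c) x.1) x.2 := by
  funext x
  exact (congrFun (congrFun (res_mul H (Matrix.of fun (_ : Unit) => y) c) ((), q)) x).symm

theorem resTo_res [Fintype I] {r : ℤ} {deg : I → ℤ} {c : Matrix I I (MonoidAlgebra ℤ G)}
    (h : ResTo r deg c) : ResTo r (fun x : I × (G ⧸ H) => deg x.1) (res H c) := by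
  classical
  obtain ⟨h0, hg, hc, ε, e0, ⟨w, hw⟩, e2, e3⟩ := h
  obtain ⟨q⟩ : Nonempty (G ⧸ H) := ⟨(1 : G)⟩
  refine ⟨fun x => h0 x.1, fun x y hxy => hg _ _ fun h1 => hxy ?_, ?_, fun x => ε x.1,
    fun x => e0 x.1, ⟨fun x => if x.2 = q then w x.1 else 0, ?_⟩, fun x => ?_, ?_⟩
  · apply MonoidAlgebra.ext
    ext a
    rw [res_coeff, h1]
    rfl
  · rw [← res_mul, hc, res_zero]
  · rw [Fintype.sum_prod_type, ← hw]
    refine Finset.sum_congr rfl fun i _ => ?_
    simp
  · rw [Fintype.sum_prod_type, ← e2 x.1]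
    refine Finset.sum_congr rfl fun j _ => ?_
    rw [← resA_aux_sum H x.2 (c x.1 j), Finset.sum_mul]
    rfl
  · intro x hx hxc hxe
    choose y hy ha using fun i => resA_aux_glue H q fun q' => x (i, q')
    have hxy : x = fun z : I × (G ⧸ H) => resA_aux_cut H q (y z.1) z.2 :=
      funext fun z => (hy z.1 z.2).symm
    obtain ⟨z, hz⟩ := e3 y
      (fun i hi => resA_aux_ext H q fun q' => by rw [hy, resA_aux_zero, hx (i, q') hi])
      (by
        funext j
        refine resA_aux_ext H q fun q' => ?_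
        rw [hxy, resA_aux_mul] at hxc
        rw [Pi.zero_apply, resA_aux_zero]
        exact congrFun hxc (j, q'))
      (by
        rw [Fintype.sum_prod_type] at hxe
        rw [← hxe]
        refine Finset.sum_congr rfl fun i _ => ?_
        rw [ha, Finset.sum_mul])
    refine ⟨fun u : I × (G ⧸ H) => resA_aux_cut H q (z u.1) u.2, ?_⟩
    rw [resA_aux_mul, hz, hxy]

end Pool.Agent.Lib.MP_fd3021_gt.Rf
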