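import Pool.Agent.Lib.MP_fd3021_gt.Rf.Base

/-! Restriction of a complex to a subgroup of finite index: algebra. -/

namespace Pool.Agent.Lib.MP_fd3021_gt.Rf

open Matrix Filter

variable {G I J K : Type} [Group G] (H : Subgroup G)

/-- the matrix of right multiplication over the subgroup, for the basis given by the inverses of
the chosen coset representatives -/
noncomputable def res (c : Matrix I J (MonoidAlgebra ℤ G)) :
    Matrix (I × (G ⧸ H)) (J × (G ⧸ H)) (MonoidAlgebra ℤ H) :=
  fun x y => .ofCoeff (Finsupp.comapDomain (fun h : H => x.2.out * (h : G) * y.2.out⁻¹)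
    (c x.1 y.1).coeff fun a _ b _ e => by simpa using e)

theorem res_coeff (c : Matrix I J (MonoidAlgebra ℤ G)) (x : I × (G ⧸ H)) (y : J × (G ⧸ H))
    (h : H) : (res H c x y).coeff h = (c x.1 y.1).coeff (x.2.out * (h : G) * y.2.out⁻¹) := rfl

theorem res_add (a b : Matrix I J (MonoidAlgebra ℤ G)) : res H (a + b) = res H a + res H b := by
  ext x y h
  simp [res_coeff]

theorem res_zero : res H (0 : Matrix I J (MonoidAlgebra ℤ G)) = 0 := by
  ext x y h
  simp [res_coeff]

theorem resm_aux_inv {L : Type} [Group L] (u : MonoidAlgebra ℤ L) (g : L) :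
    (u.mapDomain (·⁻¹)).coeff g = u.coeff g⁻¹ := by
  have := Finsupp.mapDomain_apply (f := fun x : L => x⁻¹) inv_injective u.coeff g⁻¹
  simpa [MonoidAlgebra.mapDomain] using this

theorem res_adj (c : Matrix I J (MonoidAlgebra ℤ G)) : adj (res H c) = res H (adj c) := by
  ext x y h
  simp only [adj, res_coeff, resm_aux_inv]
  simp [mul_assoc]

/-- the scalar form of the restriction -/
noncomputable def resm_aux_r (p q : G ⧸ H) (u : MonoidAlgebra ℤ G) : MonoidAlgebra ℤ H :=
  .ofCoeff (Finsupp.comapDomain (fun h : H => p.out * (h : G) * q.out⁻¹)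
    u.coeff fun a _ b _ e => by simpa using e)

theorem resm_aux_coeff (p q : G ⧸ H) (u : MonoidAlgebra ℤ G) (h : H) :
    (resm_aux_r H p q u).coeff h = u.coeff (p.out * (h : G) * q.out⁻¹) := rfl

theorem resm_aux_add (p q : G ⧸ H) (u v : MonoidAlgebra ℤ G) :
    resm_aux_r H p q (u + v) = resm_aux_r H p q u + resm_aux_r H p q v := by
  ext h
  simp [resm_aux_coeff]

theorem resm_aux_zero (p q : G ⧸ H) : resm_aux_r H p q 0 = 0 := by
  ext h
  simp [resm_aux_coeff]

theorem resm_aux_mem (p : G ⧸ H) (g : G) :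
    p.out⁻¹ * g * ((g⁻¹ * p.out : G) : G ⧸ H).out ∈ H := by
  have h1 : (((g⁻¹ * p.out : G) : G ⧸ H).out : G ⧸ H) = ((g⁻¹ * p.out : G) : G ⧸ H) :=
    QuotientGroup.out_eq' _
  have h2 := QuotientGroup.eq.mp h1.symm
  simpa [mul_assoc] using h2

theorem resm_aux_single_ne (p r : G ⧸ H) (g : G) (n : ℤ)
    (hr : r ≠ ((g⁻¹ * p.out : G) : G ⧸ H)) :
    resm_aux_r H p r (MonoidAlgebra.single g n) = 0 := by
  classical
  ext h
  rw [resm_aux_coeff, MonoidAlgebra.coeff_single, Finsupp.single_apply, if_neg]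
  · simp
  · intro e
    apply hr
    rw [← QuotientGroup.out_eq' r, eq_comm, QuotientGroup.eq, e]
    simp [mul_assoc]

theorem resm_aux_single (p : G ⧸ H) (g : G) (n : ℤ) :
    resm_aux_r H p ((g⁻¹ * p.out : G) : G ⧸ H) (MonoidAlgebra.single g n) =
      MonoidAlgebra.single ⟨_, resm_aux_mem H p g⟩ n := by
  classical
  ext h
  rw [resm_aux_coeff, MonoidAlgebra.coeff_single, Finsupp.single_apply, MonoidAlgebra.coeff_single, Finsupp.single_apply]
  congr 1
  apply propext
  constructor
  · intro e
    apply Subtype.ext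
    simp only
    generalize ((g⁻¹ * p.out : G) : G ⧸ H).out = w at e ⊢
    rw [e]
    simp [mul_assoc]
  · intro e
    rw [← e]
    simp [mul_assoc]

variable [Fintype (G ⧸ H)]

theorem resm_aux_mul (p q : G ⧸ H) (u v : MonoidAlgebra ℤ G) :
    resm_aux_r H p q (u * v) = ∑ r, resm_aux_r H p r u * resm_aux_r H r q v := by
  induction u using MonoidAlgebra.induction_linear with
  | zero => simp [resm_aux_zero]
  | add a b ha hb => simp [add_mul, resm_aux_add, ha, hb, Finset.sum_add_distrib]
  | single g n =>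
    rw [Finset.sum_eq_single ((g⁻¹ * p.out : G) : G ⧸ H)]
    · rw [resm_aux_single]
      ext h
      rw [resm_aux_coeff, MonoidAlgebra.coeff_single_mul_apply,
        MonoidAlgebra.coeff_single_mul_apply, resm_aux_coeff]
      simp [mul_assoc]
    · intro r _ hr
      rw [resm_aux_single_ne H p r g n hr, zero_mul]
    · simp

theorem res_mul [Fintype J] (a : Matrix I J (MonoidAlgebra ℤ G))
    (b : Matrix J K (MonoidAlgebra ℤ G)) : res H (a * b) = res H a * res H b := by
  ext1 x y
  have h0 : ∀ (s : Finset J) (f : J → MonoidAlgebra ℤ G), resm_aux_r H x.2 y.2 (∑ j ∈ s, f j) =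
      ∑ j ∈ s, resm_aux_r H x.2 y.2 (f j) := by
    intro s f
    ext h
    simp [resm_aux_coeff, MonoidAlgebra.coeff_sum, Finsupp.finsetSum_apply]
  change resm_aux_r H x.2 y.2 ((a * b) x.1 y.1) = _
  rw [Matrix.mul_apply, h0, Matrix.mul_apply, Fintype.sum_prod_type]
  refine Finset.sum_congr rfl fun j _ => ?_
  rw [resm_aux_mul]
  rfl

theorem res_one [DecidableEq I] [DecidableEq (G ⧸ H)] :
    res H (1 : Matrix I I (MonoidAlgebra ℤ G)) = 1 := by
  classical
  ext1 x y
  obtain ⟨i, p⟩ := x
  obtain ⟨j, q⟩ := y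
  change resm_aux_r H p q ((1 : Matrix I I (MonoidAlgebra ℤ G)) i j) = _
  by_cases hij : i = j
  · subst hij
    rw [Matrix.one_apply_eq]
    have hp : ((((1 : G)⁻¹ * p.out : G)) : G ⧸ H) = p := by simp
    by_cases hpq : p = q
    · subst hpq
      rw [Matrix.one_apply_eq]
      ext h
      rw [resm_aux_coeff, MonoidAlgebra.one_def, MonoidAlgebra.one_def,
        MonoidAlgebra.coeff_single, Finsupp.single_apply, MonoidAlgebra.coeff_single, Finsupp.single_apply]
      congr 1
      apply propext
      constructor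
      · intro e
        apply Subtype.ext
        have : (h : G) = p.out⁻¹ * (p.out * (h : G) * p.out⁻¹) * p.out := by simp [mul_assoc]
        rw [this, ← e]
        simp
      · intro e
        rw [← e]
        simp
    · rw [Matrix.one_apply_ne (by simpa using hpq), MonoidAlgebra.one_def]
      apply resm_aux_single_ne
      rw [hp]
      exact fun e => hpq e.symm
  · rw [Matrix.one_apply_ne hij, Matrix.one_apply_ne (by simp [hij]), resm_aux_zero]

end Pool.Agent.Lib.MP_fd3021_gt.Rf
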