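import Pool.Agent.Lib.MP_fd3021_gt.Rf.Ht
import Pool.Agent.Lib.MP_fd3021_gt.Rf.Lin

/-! Finite generation of the kernel from approximable contractions in both directions. -/

namespace Pool.Agent.Lib.MP_fd3021_gt.Rf

open Matrix Filter

variable {G D I : Type} [Group G] [DivisionRing D] [CharZero D] {ι : G →* D} [Fintype I]
  {deg : I → ℤ} {c : Matrix I I (MonoidAlgebra ℤ G)}

/-- pushing a chain into a half space -/
theorem push {S : Stage G} (cx : Ctx S ι) {f : G → ℤ} (hf : IsV S.A S.N f) {s s' : Matrix I I D}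
    (hs : ∀ i k, App S ι f (s i k)) : ∃ L : ℤ, ∀ (T : ℤ) (w : I → D),
      w = (w ᵥ* s) ᵥ* c.map (zi ι) + (w ᵥ* c.map (zi ι)) ᵥ* s' → (∀ i, w i ∈ Qs ι Set.univ) →
      (∀ i, (w ᵥ* c.map (zi ι)) i ∈ Qs ι {h | T ≤ f h}) → ∃ a : I → D,
        (∀ i, a i ∈ Qs ι Set.univ) ∧ ∀ i, (w - a ᵥ* c.map (zi ι)) i ∈ Qs ι {h | T - L ≤ f h} := by
  choose C hC0 hC using fun y : D => FT_bdd cx hf y
  have hle : ∀ (m : Matrix I I D) (k j : I), C (m k j) ≤ ∑ p : I × I, C (m p.1 p.2) := fun m k j =>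
    Finset.single_le_sum (f := fun p : I × I => C (m p.1 p.2)) (fun p _ => hC0 _)
      (Finset.mem_univ (k, j))
  have hnn : ∀ m : Matrix I I D, 0 ≤ ∑ p : I × I, C (m p.1 p.2) := fun m =>
    Finset.sum_nonneg fun p _ => hC0 _
  refine ⟨∑ p : I × I, C (c.map (zi ι) p.1 p.2) + ∑ p : I × I, C (s' p.1 p.2),
    fun T w hw hq hT => ?_⟩
  choose a ha hb using fun i k => (hs i k).qs cx hf (hq i) T
  have hA : ∀ k, (∑ i, a i k) ∈ Qs ι Set.univ := fun k => Submodule.sum_mem _ fun i _ => ha i k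
  refine ⟨fun k => ∑ i, a i k, hA, fun j => Qs_of_FT cx hf ?_ ?_⟩
  · rw [Pi.sub_apply]
    refine Submodule.sub_mem _ (hq j) ?_
    simp only [vecMul, dotProduct, map_apply]
    exact Submodule.sum_mem _ fun k _ =>
      Qs_mul (fun _ _ _ _ => Set.mem_univ _) (hA k) (zi_mem (c k j))
  · have e : (w - (fun k => ∑ i, a i k) ᵥ* c.map (zi ι)) j =
        ∑ k, (∑ i, (w i * s i k - a i k)) * c.map (zi ι) k j +
          ∑ k, (w ᵥ* c.map (zi ι)) k * s' k j := by
      have e1 := congrFun hw j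
      rw [Pi.sub_apply, e1, Pi.add_apply]
      simp only [vecMul, dotProduct, Finset.sum_sub_distrib, sub_mul]
      abel
    rw [e]
    refine FT_add cx hf (FT_sum cx hf _ fun k _ => ?_) (FT_sum cx hf _ fun k _ => ?_)
    · refine FT_mono ?_ (hC _ T _ (FT_sum cx hf _ fun i _ => hb i k))
      have := hle (c.map (zi ι)) k j
      have := hnn s'
      omega
    · refine FT_mono ?_ (hC _ T _ (FT_of_Qs cx hf (hT k)))
      have := hle s' k j
      have := hnn (c.map (zi ι))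
      omega

omit [Fintype I] in
theorem sikA_aux1 (hι : LinearIndependent ℚ ι) (χ : G → ℚ) :
    ∃ Λ : D →ₗ[ℚ] ℚ, ∀ g, Λ (ι g) = χ g := by
  obtain ⟨Λ, hΛ⟩ := LinearMap.exists_extend ((Finsupp.linearCombination ℚ χ).comp hι.repr)
  refine ⟨Λ, fun g => ?_⟩
  have hm : ι g ∈ Submodule.span ℚ (Set.range ι) := Submodule.subset_span ⟨g, rfl⟩
  have := LinearMap.congr_fun hΛ ⟨ι g, hm⟩
  rw [LinearMap.comp_apply, LinearMap.comp_apply, hι.repr_eq_single g ⟨ι g, hm⟩ rfl] at this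
  simpa using this

omit [Fintype I] in
theorem sikA_aux2 (Λ : D →ₗ[ℚ] ℚ) (g : G) (x : MonoidAlgebra ℤ G) (e : ℚ)
    (h : ∀ t ∈ x.coeff.support, Λ (ι (g * t)) = e) : Λ (ι g * zi ι x) = (aug x : ℚ) * e := by
  have e1 : zi ι x = ∑ t ∈ x.coeff.support, (x.coeff t : ℚ) • ι t := by
    have : zi ι x = MonoidAlgebra.lift ℤ D G ι x := rfl
    rw [this, MonoidAlgebra.lift_apply, Finsupp.sum]
    refine Finset.sum_congr rfl fun t _ => ?_
    rw [Int.cast_smul_eq_zsmul]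
  rw [e1, Finset.mul_sum, map_sum, aug, Finsupp.sum, Int.cast_sum, Finset.sum_mul]
  refine Finset.sum_congr rfl fun t ht => ?_
  rw [mul_smul_comm, ← map_mul, map_smul, h t ht, smul_eq_mul]

/-- fillings inside a finite union of cosets give finite generation -/
theorem fg_of_window (hι : LinearIndependent ℚ ι) {r : ℤ} (hc : ResTo r deg c) (K : Subgroup G)
    (F : Finset G) (ε x₀ : I → ℤ) (hx : ∑ i, x₀ i * ε i = 1)
    (hε : ∀ i, ∑ j, aug (c i j) * ε j = 0)
    (h : ∀ k ∈ K, ∃ w : I → D, (∀ i, w i ∈ Qs ι {g | ∃ t ∈ F, g * t⁻¹ ∈ K}) ∧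
      w ᵥ* c.map (zi ι) = fun i => (x₀ i : D) * (ι k - 1)) : K.FG := by
  classical
  obtain ⟨ρ, hρK, hρ⟩ : ∃ ρ : G → G, (∀ g, ρ g ∈ K) ∧ ∀ k ∈ K, ∀ g, ρ (k * g) = k * ρ g := by
    refine ⟨fun g => g * (Quotient.out (Quotient.mk (QuotientGroup.rightRel K) g))⁻¹,
      fun g => ?_, fun k hk g => ?_⟩
    · have := Quotient.exact (Quotient.out_eq (Quotient.mk (QuotientGroup.rightRel K) g))
      exact QuotientGroup.rightRel_apply.mp this
    · have : Quotient.mk (QuotientGroup.rightRel K) (k * g) =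
          Quotient.mk (QuotientGroup.rightRel K) g := by
        refine Quotient.sound (QuotientGroup.rightRel_apply.mpr ?_)
        simpa using hk
      simp only [this, mul_assoc]
  obtain ⟨X, hX1, hXt, hXK⟩ : ∃ X : Finset G, ρ 1 ∈ X ∧
      (∀ t ∈ F, ∀ i j, ∀ y ∈ (c i j).coeff.support, ρ (t * y) ∈ X) ∧ ∀ x ∈ X, x ∈ K := by
    refine ⟨(insert 1 (F.biUnion fun t => (Finset.univ : Finset (I × I)).biUnion fun p =>
      (c p.1 p.2).coeff.support.image fun y => t * y)).image ρ, ?_, fun t ht i j y hy => ?_,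
      fun x hx => ?_⟩
    · exact Finset.mem_image_of_mem _ (Finset.mem_insert_self _ _)
    · refine Finset.mem_image_of_mem _ (Finset.mem_insert_of_mem ?_)
      exact Finset.mem_biUnion.mpr ⟨t, ht, Finset.mem_biUnion.mpr ⟨(i, j), Finset.mem_univ _,
        Finset.mem_image_of_mem _ hy⟩⟩
    · obtain ⟨y, -, rfl⟩ := Finset.mem_image.mp hx
      exact hρK y
  refine ⟨X, le_antisymm ((Subgroup.closure_le K).mpr fun x hx => hXK x hx) fun k hk => ?_⟩
  obtain ⟨Λ, hΛ⟩ := sikA_aux1 hι fun g => if ρ g ∈ Subgroup.closure (X : Set G) then 1 else 0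
  have key : ∀ i, ∀ u ∈ Qs ι {g | ∃ t ∈ F, g * t⁻¹ ∈ K},
      ∑ j, Λ (u * zi ι (c i j)) * (ε j : ℚ) = 0 := by
    intro i u hu
    induction hu using Submodule.span_induction with
    | mem x hx =>
      obtain ⟨g, ⟨t, ht, hg⟩, rfl⟩ := hx
      have e : ∀ j, Λ (ι g * zi ι (c i j)) = (aug (c i j) : ℚ) *
          (if g * t⁻¹ ∈ Subgroup.closure (X : Set G) then 1 else 0) := fun j => by
        refine sikA_aux2 Λ g _ _ fun y hy => ?_
        have e1 : g * y = g * t⁻¹ * (t * y) := by group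
        have m : ρ (t * y) ∈ Subgroup.closure (X : Set G) :=
          Subgroup.subset_closure (hXt t ht i j y hy)
        rw [hΛ, e1, hρ _ hg]
        simp only [Subgroup.mul_mem_cancel_right _ m]
      have e2 : ∑ j, (aug (c i j) : ℚ) * (ε j : ℚ) = 0 := by exact_mod_cast hε i
      simp only [e, mul_right_comm _ _ (ε _ : ℚ), ← Finset.sum_mul, e2, zero_mul]
    | zero => simp
    | add x y _ _ hx hy => simp only [add_mul, map_add, Finset.sum_add_distrib, hx, hy, add_zero]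
    | smul a x _ hx =>
      simp only [smul_mul_assoc, map_smul, smul_eq_mul, mul_assoc, ← Finset.mul_sum, hx, mul_zero]
  obtain ⟨w, hw, hb⟩ := h k hk
  have s0 : ∑ j, Λ ((w ᵥ* c.map (zi ι)) j) * (ε j : ℚ) = 0 := by
    simp only [vecMul, dotProduct, map_apply, map_sum, Finset.sum_mul]
    rw [Finset.sum_comm]
    exact Finset.sum_eq_zero fun i _ => key i _ (hw i)
  have s1 : ∀ j, Λ ((x₀ j : D) * (ι k - 1)) = (x₀ j : ℚ) * (Λ (ι k) - Λ (ι 1)) := fun j => by
    rw [← zsmul_eq_mul, map_zsmul, map_sub, map_one ι, zsmul_eq_mul]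
  have e3 : ∑ j, (x₀ j : ℚ) * (ε j : ℚ) = 1 := by exact_mod_cast hx
  rw [hb] at s0
  simp only [s1, mul_right_comm _ _ (ε _ : ℚ), ← Finset.sum_mul, e3, one_mul] at s0
  have m1 : ρ 1 ∈ Subgroup.closure (X : Set G) := Subgroup.subset_closure hX1
  have e4 : ρ k = k * ρ 1 := by rw [← hρ k hk, mul_one]
  rw [hΛ, hΛ, e4, if_pos m1] at s0
  by_contra hn
  rw [if_neg (fun hm => hn ((Subgroup.mul_mem_cancel_right _ m1).mp hm))] at s0
  norm_num at s0

end Pool.Agent.Lib.MP_fd3021_gt.Rf
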