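import Pool.Agent.Lib.MP_fd3021_gt.Rf.Base

/-! From the tower of the statement to a tower of stages. -/

namespace Pool.Agent.Lib.MP_fd3021_gt.Rf

open Matrix Filter

variable {G : Type} [Group G]

/-- the order part of a stage -/
structure StgAPre (A N : Subgroup G) (P : Set G) : Prop where
  le : N ≤ A
  mul : ∀ p ∈ P, ∀ q ∈ P, p * q ∈ P
  tri : ∀ g, g ∈ P ∨ g ∈ N ∨ g⁻¹ ∈ P
  disj : ∀ g ∈ P, g ∉ N
  sat : ∀ n ∈ N, ∀ p ∈ P, n * p ∈ P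
  sat' : ∀ n ∈ N, ∀ p ∈ P, p * n ∈ P
  conj : ∀ a ∈ A, ∀ p ∈ P, a * p * a⁻¹ ∈ P
  cn : ∀ a ∈ A, ∀ n ∈ N, a * n * a⁻¹ ∈ N
  real : ∀ T : Finset (G × G), (∀ x ∈ T, x.2 * x.1⁻¹ ∈ P) →
    ∃ f, IsV A N f ∧ ∀ x ∈ T, f x.1 < f x.2

theorem stga_aux_base : StgAPre (⊤ : Subgroup G) ⊤ ∅ :=
  ⟨le_rfl, fun _ h => h.elim, fun _ => Or.inr (Or.inl trivial), fun _ h => h.elim,
    fun _ _ _ h => h.elim, fun _ _ _ h => h.elim, fun _ _ _ h => h.elim, fun _ _ _ _ => trivial,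
    fun _ hT => ⟨fun _ => 0, ⟨fun _ _ _ => rfl, fun _ _ _ => by simp⟩, fun x hx => (hT x hx).elim⟩⟩

theorem stga_aux_shrink {A A' N : Subgroup G} {P : Set G} (h : StgAPre A N P) (h1 : N ≤ A')
    (h2 : A' ≤ A) : StgAPre A' N P :=
  ⟨h1, h.mul, h.tri, h.disj, h.sat, h.sat', fun a ha => h.conj a (h2 ha),
    fun a ha => h.cn a (h2 ha), fun T hT => (h.real T hT).imp fun _ hf =>
      ⟨⟨hf.1.1, fun a ha => hf.1.2 a (h2 ha)⟩, hf.2⟩⟩

theorem stga_aux_step {A N : Subgroup G} {P : Set G} (h : StgAPre A N P) (ψ : G → ℤ)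
    (hψ : ∀ a ∈ A, ∀ b ∈ A, ψ (a * b) = ψ a + ψ b) :
    ∃ (N' : Subgroup G) (P' : Set G), (∀ g, g ∈ N' ↔ g ∈ N ∧ ψ g = 0) ∧ P ⊆ P' ∧
      StgAPre A N' P' := by
  classical
  have h1 : ψ 1 = 0 := by
    have := hψ 1 A.one_mem 1 A.one_mem
    rw [mul_one] at this
    omega
  have hi : ∀ a ∈ A, ψ a⁻¹ = -ψ a := fun a ha => by
    have := hψ a ha a⁻¹ (A.inv_mem ha)
    rw [mul_inv_cancel, h1] at this
    omega
  have hc : ∀ a ∈ A, ∀ n ∈ N, ψ (a * n * a⁻¹) = ψ n := fun a ha n hn => by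
    rw [hψ _ (A.mul_mem ha (h.le hn)) _ (A.inv_mem ha), hψ a ha n (h.le hn), hi a ha]
    omega
  let N' : Subgroup G :=
    { carrier := {g | g ∈ N ∧ ψ g = 0}
      one_mem' := ⟨N.one_mem, h1⟩
      mul_mem' := fun {a b} ha hb => ⟨N.mul_mem ha.1 hb.1, by
        rw [hψ a (h.le ha.1) b (h.le hb.1), ha.2, hb.2, add_zero]⟩
      inv_mem' := fun {a} ha => ⟨N.inv_mem ha.1, by rw [hi a (h.le ha.1), ha.2, neg_zero]⟩ }
  refine ⟨N', P ∪ {g | g ∈ N ∧ 0 < ψ g}, fun _ => Iff.rfl, Set.subset_union_left,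
    fun g hg => h.le hg.1, ?_, fun g => ?_, ?_, ?_, ?_, ?_, fun a ha n hn =>
      ⟨h.cn a ha n hn.1, (hc a ha n hn.1).trans hn.2⟩, fun T hT => ?_⟩
  · rintro p (hp | hp) q (hq | hq)
    · exact Or.inl (h.mul p hp q hq)
    · exact Or.inl (h.sat' q hq.1 p hp)
    · exact Or.inl (h.sat p hp.1 q hq)
    · refine Or.inr ⟨N.mul_mem hp.1 hq.1, ?_⟩
      rw [hψ p (h.le hp.1) q (h.le hq.1)]
      exact add_pos hp.2 hq.2
  · rcases h.tri g with hg | hg | hg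
    · exact Or.inl (Or.inl hg)
    · rcases lt_trichotomy (ψ g) 0 with h2 | h2 | h2
      · refine Or.inr (Or.inr (Or.inr ⟨N.inv_mem hg, ?_⟩))
        rw [hi g (h.le hg)]
        omega
      · exact Or.inr (Or.inl ⟨hg, h2⟩)
      · exact Or.inl (Or.inr ⟨hg, h2⟩)
    · exact Or.inr (Or.inr (Or.inl hg))
  · rintro g (hg | hg) hn
    · exact h.disj g hg hn.1
    · exact hg.2.ne' hn.2
  · rintro n hn p (hp | hp)
    · exact Or.inl (h.sat n hn.1 p hp)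
    · refine Or.inr ⟨N.mul_mem hn.1 hp.1, ?_⟩
      rw [hψ n (h.le hn.1) p (h.le hp.1), hn.2, zero_add]
      exact hp.2
  · rintro n hn p (hp | hp)
    · exact Or.inl (h.sat' n hn.1 p hp)
    · refine Or.inr ⟨N.mul_mem hp.1 hn.1, ?_⟩
      rw [hψ p (h.le hp.1) n (h.le hn.1), hn.2, add_zero]
      exact hp.2
  · rintro a ha p (hp | hp)
    · exact Or.inl (h.conj a ha p hp)
    · exact Or.inr ⟨h.cn a ha p hp.1, (hc a ha p hp.1).symm ▸ hp.2⟩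
  obtain ⟨f, ⟨f1, f2⟩, f3⟩ := h.real (T.filter fun x => x.2 * x.1⁻¹ ∈ P)
    fun x hx => (Finset.mem_filter.1 hx).2
  obtain ⟨ρ, r1, r2⟩ : ∃ ρ : G → G, (∀ g, g * (ρ g)⁻¹ ∈ A) ∧ ∀ a ∈ A, ∀ g, ρ (a * g) = ρ g := by
    refine ⟨fun g => (Quotient.mk (QuotientGroup.rightRel A) g).out, fun g =>
      QuotientGroup.rightRel_apply.1 (Quotient.mk_out (s := QuotientGroup.rightRel A) g),
      fun a ha g => congrArg Quotient.out (Quotient.sound ?_)⟩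
    refine QuotientGroup.rightRel_apply.2 ?_
    rw [_root_.mul_inv_rev, mul_inv_cancel_left]
    exact A.inv_mem ha
  obtain ⟨F, hF⟩ : ∃ F : G → ℤ, ∀ a ∈ A, ∀ g, F (a * g) = ψ a + F g :=
    ⟨fun g => ψ (g * (ρ g)⁻¹), fun a ha g => by
      dsimp only
      rw [r2 a ha, mul_assoc, hψ a ha _ (r1 g)]⟩
  obtain ⟨M, hM⟩ := (T.image fun x => F x.1 - F x.2).exists_le
  refine ⟨fun g => (max M 0 + 1) * f g + F g, ⟨fun n hn g => ?_, fun a ha g => ?_⟩,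
    fun x hx => ?_⟩
  · dsimp only
    rw [f1 n hn.1, hF n (h.le hn.1), hn.2, zero_add]
  · dsimp only
    have h2 := hF a ha 1
    rw [mul_one] at h2
    rw [f2 a ha, hF a ha, h2]
    ring
  · dsimp only
    by_cases h2 : x.2 * x.1⁻¹ ∈ P
    · have h3 := f3 x (Finset.mem_filter.2 ⟨hx, h2⟩)
      have h4 := (hM _ (Finset.mem_image_of_mem _ hx)).trans (le_max_left M 0)
      have h5 := mul_le_mul_of_nonneg_left (Int.add_one_le_of_lt h3)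
        (show 0 ≤ max M 0 + 1 by have := le_max_right M 0; omega)
      linarith
    · obtain ⟨h3, h4⟩ := (hT x hx).resolve_left h2
      have h5 := f1 _ h3 x.1
      have h6 := hF _ (h.le h3) x.1
      rw [inv_mul_cancel_right] at h5 h6
      rw [h5, h6]
      linarith

theorem stga_aux_fin {A N : Subgroup G} {P : Set G} (h : StgAPre A N P)
    (Φ : Finset (A →* Multiplicative ℤ)) : ∃ (N' : Subgroup G) (P' : Set G), N' ≤ N ∧
      (∀ g : A, (g : G) ∈ N' ↔ (g : G) ∈ N ∧ ∀ φ ∈ Φ, φ g = 1) ∧ P ⊆ P' ∧ StgAPre A N' P' := by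
  classical
  induction Φ using Finset.induction_on with
  | empty => exact ⟨N, P, le_rfl, fun g => by simp, subset_rfl, h⟩
  | insert φ Φ _ ih =>
    obtain ⟨N₁, P₁, a0, a1, a2, a3⟩ := ih
    obtain ⟨N₂, P₂, b1, b2, b3⟩ := stga_aux_step a3
      (fun g => if hg : g ∈ A then Multiplicative.toAdd (φ ⟨g, hg⟩) else 0) fun a ha b hb => by
        rw [dif_pos ha, dif_pos hb, dif_pos (A.mul_mem ha hb), ← toAdd_mul, ← map_mul]
        rfl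
    refine ⟨N₂, P₂, fun g hg => a0 ((b1 g).1 hg).1, fun g => ?_, a2.trans b2, b3⟩
    rw [b1, a1, dif_pos g.2, Finset.forall_mem_insert, toAdd_eq_zero]
    tauto

theorem stga_aux_next {A N H : Subgroup G} {P : Set G} (h : StgAPre A N P) (hH : H ≤ N)
    {Φ : Finset (A →* Multiplicative ℤ)} (hΦ : ∀ g : A, (g : G) ∈ H ↔ ∀ φ ∈ Φ, φ g = 1) :
    ∃ P' : Set G, P ⊆ P' ∧ StgAPre A H P' := by
  obtain ⟨N', P', a0, a1, a2, a3⟩ := stga_aux_fin h Φ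
  obtain rfl : N' = H := le_antisymm
    (fun g hg => (hΦ ⟨g, a3.le hg⟩).2 ((a1 ⟨g, a3.le hg⟩).1 hg).2)
    fun g hg => (a1 ⟨g, h.le (hH hg)⟩).2 ⟨hH hg, (hΦ ⟨g, h.le (hH hg)⟩).1 hg⟩
  exact ⟨P', a2, a3⟩

theorem exists_tw (h : WallTower G) : ∃ T : Tw G, ∀ j,
    ∃ Φ : Finset ((T.st j).A →* Multiplicative ℤ),
      (∀ g : (T.st j).A, (g : G) ∈ (T.st j).N ↔ ∀ φ ∈ Φ, φ g = 1) ∧ ∀ φ ∈ Φ, DualWall φ := by
  obtain ⟨A, H, Φ, h0, hsep, h⟩ := h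
  choose nA fi nH hA hH hHA hΦ hW using h
  obtain ⟨P₀, -, hP₀⟩ := stga_aux_next (N := ⊤) (P := ∅) (A := A 0)
    (by rw [h0]; exact stga_aux_base) le_top (hΦ 0)
  have step : ∀ j (P : {P // StgAPre (A j) (H j) P}),
      ∃ P' : {P // StgAPre (A (j + 1)) (H (j + 1)) P}, P.1 ⊆ P'.1 := fun j P => by
    obtain ⟨P', h1, h2⟩ := stga_aux_next (stga_aux_shrink P.2 (hHA j) (hA j)) (hH j) (hΦ (j + 1))
    exact ⟨⟨P', h2⟩, h1⟩
  choose nx hnx using step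
  let P : ∀ j, {P // StgAPre (A j) (H j) P} := fun j => Nat.rec ⟨P₀, hP₀⟩ nx j
  have hm : Monotone fun j => (P j).1 := monotone_nat_of_le_succ fun j => hnx j (P j)
  have lat : ∀ j, ∃ (r : ℕ) (θ : A j →* Multiplicative (Fin r → ℤ)),
      ∀ a : A j, θ a = 1 ↔ (a : G) ∈ H j := fun j => by
    refine ⟨(Φ j).card, MonoidHom.mk' (fun a => Multiplicative.ofAdd fun i =>
      Multiplicative.toAdd (((Φ j).equivFin.symm i).1 a)) fun a b => ?_, fun a => ?_⟩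
    · rw [← ofAdd_add]
      exact congrArg _ (funext fun i => by rw [map_mul, toAdd_mul, Pi.add_apply])
    · rw [hΦ, MonoidHom.mk'_apply, ofAdd_eq_one, funext_iff]
      refine ⟨fun h1 φ hφ => ?_, fun h1 i => toAdd_eq_zero.2 (h1 _ (Subtype.property _))⟩
      have h2 := h1 ((Φ j).equivFin ⟨φ, hφ⟩)
      rw [Equiv.symm_apply_apply] at h2
      exact toAdd_eq_zero.1 h2
  have comm : ∀ j, ∀ a ∈ A j, ∀ b ∈ A j, a * b * a⁻¹ * b⁻¹ ∈ H j := fun j a ha b hb =>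
    (hΦ j (⟨a, ha⟩ * ⟨b, hb⟩ * ⟨a, ha⟩⁻¹ * ⟨b, hb⟩⁻¹)).2 fun φ _ => by
      rw [map_mul, map_mul, map_mul, map_inv, map_inv, mul_inv_cancel_comm, mul_inv_cancel]
  refine ⟨⟨fun j => ⟨A j, H j, (P j).1, nA j, nH j, fi j, (P j).2.le, comm j, (P j).2.mul,
    (P j).2.tri, (P j).2.disj, (P j).2.sat, (P j).2.conj, lat j, (P j).2.real⟩,
    fun hij => antitone_nat_of_succ_le hA hij, fun hij => antitone_nat_of_succ_le hH hij,
    fun hij => hm hij, fun g hg => ?_⟩, fun j => ⟨Φ j, hΦ j, hW j⟩⟩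
  exact not_forall.1 fun h1 => hg (hsep g h1)

end Pool.Agent.Lib.MP_fd3021_gt.Rf
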