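import Pool.Agent.Lib.MP_fd3021_gt.Rf.SuppB

/-! Spans over division closures. -/

namespace Pool.Agent.Lib.MP_fd3021_gt.Rf

open Matrix Filter

variable {G D : Type} [Group G] [DivisionRing D] {ι : G →* D} {M N : Subgroup G}
  {P Q R : Set G}

section Rat

variable [CharZero D]

theorem supp_aux_ind {C : D → Prop} (h0 : C 0) (hadd : ∀ a b, C a → C b → C (a + b))
    (h1 : ∀ q : ℚ, ∀ g ∈ P, C (q • ι g)) {a : D} (ha : a ∈ Qs ι P) : C a := by
  have key : ∀ q : ℚ, C (q • a) := by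
    induction ha using Submodule.span_induction with
    | mem x hx =>
      obtain ⟨g, hg, rfl⟩ := hx
      exact fun q => h1 q g hg
    | zero => exact fun q => by rw [smul_zero]; exact h0
    | add x y _ _ hx hy => exact fun q => by rw [smul_add]; exact hadd _ _ (hx q) (hy q)
    | smul r x _ hx => exact fun q => by rw [smul_smul]; exact hx _
  have h2 := key 1
  rwa [one_smul] at h2

theorem mem_Qs {g : G} (hg : g ∈ P) : ι g ∈ Qs ι P := by
  exact Submodule.subset_span ⟨g, hg, rfl⟩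

theorem Qs_mono (h : P ⊆ Q) {a : D} (ha : a ∈ Qs ι P) : a ∈ Qs ι Q := by
  exact Submodule.span_mono (Set.image_mono h) ha

theorem Sp_of_Qs {a : D} (ha : a ∈ Qs ι P) : a ∈ Sp ι M P := by
  refine supp_aux_ind (C := fun a => a ∈ Sp ι M P) (zero_mem _) (fun _ _ => add_mem)
    (fun q g hg => ?_) ha
  rw [Rat.smul_def]
  exact Sp_smul (SubfieldClass.ratCast_mem _ q) (mem_Sp hg)

theorem Qs_mul (h : ∀ p ∈ P, ∀ q ∈ Q, p * q ∈ R) {s a : D} (hs : s ∈ Qs ι P)
    (ha : a ∈ Qs ι Q) : s * a ∈ Qs ι R := by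
  refine supp_aux_ind (C := fun s => s * a ∈ Qs ι R) (by rw [zero_mul]; exact zero_mem _)
    (fun _ _ h1 h2 => by rw [add_mul]; exact add_mem h1 h2) (fun q g hg => ?_) hs
  refine supp_aux_ind (C := fun a => q • ι g * a ∈ Qs ι R) (by rw [mul_zero]; exact zero_mem _)
    (fun _ _ h1 h2 => by rw [mul_add]; exact add_mem h1 h2) (fun q' g' hg' => ?_) ha
  rw [smul_mul_assoc, mul_smul_comm, ← map_mul]
  exact Submodule.smul_mem _ _ (Submodule.smul_mem _ _ (mem_Qs (h g hg g' hg')))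

theorem Qs_split (U : Set G) {a : D} (ha : a ∈ Qs ι P) :
    ∃ a₁ ∈ Qs ι (P ∩ U), ∃ a₂ ∈ Qs ι (P \ U), a = a₁ + a₂ := by
  have h1 : Qs ι P = Qs ι (P ∩ U) ⊔ Qs ι (P \ U) := by
    unfold Qs
    rw [← Submodule.span_union, ← Set.image_union, Set.inter_union_sdiff]
  rw [h1] at ha
  obtain ⟨a₁, h₁, a₂, h₂, e⟩ := Submodule.mem_sup.1 ha
  exact ⟨a₁, h₁, a₂, h₂, e.symm⟩

/-- a rational combination that lies in the span of a saturated set is supported there -/
theorem Qs_of_Sp (hI : Ind ι N) (h : ∀ m ∈ N, ∀ q ∈ Q, m * q ∈ Q) {a : D}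
    (hp : a ∈ Qs ι P) (hq : a ∈ Sp ι N Q) : a ∈ Qs ι (P ∩ Q) := by
  obtain ⟨a₁, h₁, a₂, h₂, e⟩ := Qs_split Q hp
  have h3 : a₂ ∈ Sp ι N Q := by
    have h4 := sub_mem hq (Sp_mono Set.inter_subset_right (Sp_of_Qs (M := N) h₁))
    rwa [e, add_sub_cancel_left] at h4
  have h5 : a₂ = 0 := Sp_disj hI le_rfl (fun p hp q hq hm => hp.2 (by
    have h6 := h _ hm q hq
    rwa [inv_mul_cancel_right] at h6)) (Sp_of_Qs h₂) h3
  rwa [e, h5, add_zero]

theorem Qs_repr {a : D} (ha : a ∈ Qs ι P) : ∃ (T : Finset G) (l : G → ℚ),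
    (T : Set G) ⊆ P ∧ (∀ t ∈ T, l t ≠ 0) ∧ a = ∑ t ∈ T, l t • ι t := by
  obtain ⟨l, hl, e⟩ := (Finsupp.mem_span_image_iff_linearCombination ℚ).1 ha
  refine ⟨l.support, l, hl, fun t ht => Finsupp.mem_support_iff.1 ht, ?_⟩
  rw [← e, Finsupp.linearCombination_apply, Finsupp.sum]

theorem zi_mem (x : MonoidAlgebra ℤ G) : zi ι x ∈ Qs ι (x.coeff.support : Set G) := by
  have e : zi ι x = x.coeff.sum fun g n => n • ι g := MonoidAlgebra.lift_apply ι x
  rw [e, Finsupp.sum]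
  exact Submodule.sum_mem _ fun g hg => zsmul_mem (mem_Qs hg) _

/-- rational independence of the group elements -/
theorem linInd_rat {Ns : ℕ → Subgroup G} (hI : ∀ j, Ind ι (Ns j))
    (hs : ∀ X : Finset G, ∃ j, ∀ a ∈ X, ∀ b ∈ X, a * b⁻¹ ∈ Ns j → a = b) :
    LinearIndependent ℚ ι := by
  refine linearIndependent_iff'.2 fun X l hl g hg => ?_
  obtain ⟨j, hj⟩ := hs X
  have h1 := linearIndepOn_iff'.1 (hI j (Ns j) le_rfl X hj) X
    (fun t => ((l t : ℚ) : dcl ι (Ns j))) le_rfl (by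
      rw [← hl]
      refine Finset.sum_congr rfl fun t _ => ?_
      rw [Rat.smul_def]
      rfl) g hg
  have h2 : ((l g : ℚ) : D) = 0 := congrArg Subtype.val h1
  exact Rat.cast_eq_zero.1 h2

end Rat

theorem zi_single (g : G) (n : ℤ) : zi ι (MonoidAlgebra.single g n) = n * ι g := by
  have e : zi ι (MonoidAlgebra.single g n) = n • ι g := MonoidAlgebra.lift_single ι g n
  rw [e, zsmul_eq_mul]

theorem zi_comp {K : Type} [Group K] (j : K →* G) (x : MonoidAlgebra ℤ K) :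
    zi ι (md j x) = zi (ι.comp j) x := by
  induction x using MonoidAlgebra.induction_linear with
  | zero => rw [map_zero, map_zero, map_zero]
  | add a b ha hb => rw [map_add, map_add, map_add, ha, hb]
  | single g n =>
    have e : md j (MonoidAlgebra.single g n) = MonoidAlgebra.single (j g) n :=
      MonoidAlgebra.mapDomain_single
    rw [e, zi_single, zi_single, MonoidHom.comp_apply]

end Pool.Agent.Lib.MP_fd3021_gt.Rf
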