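import Pool.Agent.Lib.MP_fd3021_gt.Rf.Base

/-! Spans over division closures. -/

namespace Pool.Agent.Lib.MP_fd3021_gt.Rf

open Matrix Filter

variable {G D : Type} [Group G] [DivisionRing D] {ι : G →* D} {M N : Subgroup G}
  {P Q R : Set G}

theorem iota_ne (g : G) : ι g ≠ 0 := by
  intro h
  have e : ι g * ι g⁻¹ = 1 := by rw [← map_mul, mul_inv_cancel, map_one]
  rw [h, zero_mul] at e
  exact zero_ne_one e

theorem iota_mem {g : G} (hg : g ∈ M) : ι g ∈ dcl ι M := by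
  exact Subfield.subset_closure ⟨g, hg, rfl⟩

theorem dcl_mono (h : N ≤ M) : dcl ι N ≤ dcl ι M := by
  exact Subfield.closure_mono (Set.image_mono h)

theorem dcl_conj [M.Normal] (g : G) {d : D} (hd : d ∈ dcl ι M) :
    ι g * d * ι g⁻¹ ∈ dcl ι M := by
  have e : ι g⁻¹ * ι g = 1 := by rw [← map_mul, inv_mul_cancel, map_one]
  have e' : ι g * ι g⁻¹ = 1 := by rw [← map_mul, mul_inv_cancel, map_one]
  induction hd using Subfield.closure_induction with
  | mem x hx =>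
    obtain ⟨m, hm, rfl⟩ := hx
    rw [← map_mul, ← map_mul]
    exact iota_mem (Subgroup.Normal.conj_mem inferInstance m hm g)
  | one => rw [mul_one, e']; exact one_mem _
  | add x y _ _ hx hy => rw [mul_add, add_mul]; exact add_mem hx hy
  | neg x _ hx => rw [mul_neg, neg_mul]; exact neg_mem hx
  | inv x _ hx =>
    have h1 : ι g * x⁻¹ * ι g⁻¹ = (ι g * x * ι g⁻¹)⁻¹ := by
      rw [_root_.mul_inv_rev, _root_.mul_inv_rev, map_inv, inv_inv, mul_assoc]
    rw [h1]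
    exact inv_mem hx
  | mul x y _ _ hx hy =>
    have h1 : ι g * (x * y) * ι g⁻¹ = (ι g * x * ι g⁻¹) * (ι g * y * ι g⁻¹) := by
      simp only [mul_assoc]
      rw [← mul_assoc (ι g⁻¹) (ι g), e, one_mul]
    rw [h1]
    exact mul_mem hx hy

theorem mem_Sp {g : G} (hg : g ∈ P) : ι g ∈ Sp ι M P := by
  exact Submodule.subset_span ⟨g, hg, rfl⟩

theorem Sp_mono (h : P ⊆ Q) {a : D} (ha : a ∈ Sp ι M P) : a ∈ Sp ι M Q := by
  exact Submodule.span_mono (Set.image_mono h) ha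

theorem Sp_mono' (h : N ≤ M) {a : D} (ha : a ∈ Sp ι N P) : a ∈ Sp ι M P := by
  induction ha using Submodule.span_induction with
  | mem x hx => exact Submodule.subset_span hx
  | zero => exact zero_mem _
  | add x y _ _ hx hy => exact add_mem hx hy
  | smul c x _ hx => exact (Sp ι M P).smul_mem ⟨c.1, dcl_mono h c.2⟩ hx

theorem Sp_smul {d a : D} (hd : d ∈ dcl ι M) (ha : a ∈ Sp ι M P) : d * a ∈ Sp ι M P := by
  exact (Sp ι M P).smul_mem ⟨d, hd⟩ ha

theorem Sp_ind {C : D → Prop} (h0 : C 0) (hadd : ∀ a b, C a → C b → C (a + b))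
    (h1 : ∀ d ∈ dcl ι M, ∀ g ∈ P, C (d * ι g)) {a : D} (ha : a ∈ Sp ι M P) : C a := by
  have key : ∀ d ∈ dcl ι M, C (d * a) := by
    induction ha using Submodule.span_induction with
    | mem x hx =>
      obtain ⟨g, hg, rfl⟩ := hx
      exact fun d hd => h1 d hd g hg
    | zero => exact fun d _ => by rwa [mul_zero]
    | add x y _ _ hx hy => exact fun d hd => by rw [mul_add]; exact hadd _ _ (hx d hd) (hy d hd)
    | smul c x _ hx =>
      intro d hd
      have := hx (d * c.1) (mul_mem hd c.2)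
      rwa [mul_assoc] at this
  simpa using key 1 (one_mem _)

theorem Sp_mul [M.Normal] (h : ∀ p ∈ P, ∀ q ∈ Q, p * q ∈ R) {s a : D} (hs : s ∈ Sp ι M P)
    (ha : a ∈ Sp ι M Q) : s * a ∈ Sp ι M R := by
  refine Sp_ind (C := fun s => s * a ∈ Sp ι M R) (by simp) (fun x y hx hy => ?_)
    (fun d hd p hp => ?_) hs
  · rw [add_mul]
    exact add_mem hx hy
  · refine Sp_ind (C := fun a => d * ι p * a ∈ Sp ι M R) (by simp) (fun x y hx hy => ?_)
      (fun e he q hq => ?_) ha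
    · rw [mul_add]
      exact add_mem hx hy
    · have e1 : d * ι p * (e * ι q) = d * (ι p * e * ι p⁻¹) * ι (p * q) := by
        simp only [mul_assoc]
        rw [← map_mul, inv_mul_cancel_left]
      rw [e1]
      exact Sp_smul (mul_mem hd (dcl_conj p he)) (mem_Sp (h p hp q hq))

theorem Sp_mul_dcl [M.Normal] {d a : D} (ha : a ∈ Sp ι M P) (hd : d ∈ dcl ι M) :
    a * d ∈ Sp ι M P := by
  have h1 : d ∈ Sp ι M {1} := by
    have := Sp_smul hd (mem_Sp (ι := ι) (M := M) (P := {1}) (g := 1) rfl)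
    rwa [map_one, mul_one] at this
  refine Sp_mul (fun p hp q hq => ?_) ha h1
  rwa [Set.mem_singleton_iff.1 hq, mul_one]

theorem Sp_split (U : Set G) {a : D} (ha : a ∈ Sp ι M P) :
    ∃ a₁ ∈ Sp ι M (P ∩ U), ∃ a₂ ∈ Sp ι M (P \ U), a = a₁ + a₂ := by
  refine Sp_ind (C := fun a => ∃ a₁ ∈ Sp ι M (P ∩ U), ∃ a₂ ∈ Sp ι M (P \ U), a = a₁ + a₂)
    ⟨0, zero_mem _, 0, zero_mem _, (add_zero _).symm⟩ ?_ (fun d hd g hg => ?_) ha
  · rintro _ _ ⟨x, hx, y, hy, rfl⟩ ⟨x', hx', y', hy', rfl⟩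
    exact ⟨x + x', add_mem hx hx', y + y', add_mem hy hy', add_add_add_comm _ _ _ _⟩
  · by_cases hU : g ∈ U
    · exact ⟨_, Sp_smul hd (mem_Sp ⟨hg, hU⟩), 0, zero_mem _, (add_zero _).symm⟩
    · exact ⟨0, zero_mem _, _, Sp_smul hd (mem_Sp ⟨hg, hU⟩), (zero_add _).symm⟩

theorem Sp_fin {a : D} (ha : a ∈ Sp ι M P) :
    ∃ T : Finset G, (T : Set G) ⊆ P ∧ a ∈ Sp ι M T := by
  classical
  refine Sp_ind (C := fun a => ∃ T : Finset G, (T : Set G) ⊆ P ∧ a ∈ Sp ι M T)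
    ⟨∅, by simp, zero_mem _⟩ ?_ (fun d hd g hg => ?_) ha
  · rintro x y ⟨T, hT, hx⟩ ⟨T', hT', hy⟩
    refine ⟨T ∪ T', ?_, ?_⟩
    · rw [Finset.coe_union]
      exact Set.union_subset hT hT'
    · rw [Finset.coe_union]
      exact add_mem (Sp_mono Set.subset_union_left hx) (Sp_mono Set.subset_union_right hy)
  · exact ⟨{g}, by simpa using hg, Sp_smul hd (mem_Sp (by simp))⟩

theorem Sp_coset {g : G} {a : D} (ha : a ∈ Sp ι M {h | h * g⁻¹ ∈ M}) :
    ∃ d ∈ dcl ι M, a = d * ι g := by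
  refine Sp_ind (C := fun a => ∃ d ∈ dcl ι M, a = d * ι g) ⟨0, zero_mem _, (zero_mul _).symm⟩ ?_
    (fun d hd h hh => ?_) ha
  · rintro _ _ ⟨x, hx, rfl⟩ ⟨y, hy, rfl⟩
    exact ⟨x + y, add_mem hx hy, (add_mul _ _ _).symm⟩
  · refine ⟨d * ι (h * g⁻¹), mul_mem hd (iota_mem hh), ?_⟩
    rw [mul_assoc, ← map_mul, inv_mul_cancel_right]

end Pool.Agent.Lib.MP_fd3021_gt.Rf
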