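import Pool.Agent.Lib.MP_fd3021_gt.Rf.SuppA

/-! Spans over division closures. -/

namespace Pool.Agent.Lib.MP_fd3021_gt.Rf

open Matrix Filter

variable {G D : Type} [Group G] [DivisionRing D] {ι : G →* D} {M N : Subgroup G}
  {P Q R : Set G}

theorem suppB_aux_rep (M : Subgroup G) : ∃ ρ : G → G, (∀ g, g * (ρ g)⁻¹ ∈ M) ∧
    ∀ a b, ρ a * (ρ b)⁻¹ ∈ M → ρ a = ρ b := by
  refine ⟨fun g => (Quotient.mk (QuotientGroup.rightRel M) g).out, fun g => ?_, fun a b h => ?_⟩
  · exact QuotientGroup.rightRel_apply.1 (Quotient.mk_out (s := QuotientGroup.rightRel M) g)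
  · have e := Quotient.sound (s := QuotientGroup.rightRel M) (QuotientGroup.rightRel_apply.2 h)
    rw [Quotient.out_eq, Quotient.out_eq] at e
    simp only [e]

theorem suppB_aux_lin (hI : Ind ι N) (hM : N ≤ M) (η : G → D)
    (hη : ∀ k ∈ M, ∀ g, η (k * g) = ι k * η g) :
    ∃ L : D →ₗ[dcl ι M] D, ∀ g, L (ι g) = η g := by
  obtain ⟨ρ, h1, h2⟩ := suppB_aux_rep M
  have hli : LinearIndependent (dcl ι M) (fun t : Set.range ρ => ι t) :=
    hI M hM (Set.range ρ) (by
      rintro _ ⟨a, rfl⟩ _ ⟨b, rfl⟩ h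
      exact h2 a b h)
  obtain ⟨L, hL⟩ := ((Module.Basis.span hli).constr ℕ fun t => η t).exists_extend
  have hT : ∀ g, L (ι (ρ g)) = η (ρ g) := fun g => by
    have e := LinearMap.congr_fun hL (Module.Basis.span hli ⟨ρ g, g, rfl⟩)
    rw [Module.Basis.constr_basis, LinearMap.comp_apply, Submodule.subtype_apply,
      Module.Basis.span_apply] at e
    exact e
  refine ⟨L, fun g => ?_⟩
  have e : ι g = (⟨ι (g * (ρ g)⁻¹), iota_mem (h1 g)⟩ : dcl ι M) • ι (ρ g) := by
    change ι g = ι (g * (ρ g)⁻¹) * ι (ρ g)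
    rw [← map_mul, inv_mul_cancel_right]
  rw [e, map_smul, hT]
  change ι (g * (ρ g)⁻¹) * η (ρ g) = η g
  rw [← hη _ (h1 g), inv_mul_cancel_right]

omit [Group G] in
theorem suppB_aux_min {le : G → G → Prop} (htot : ∀ g h, le g h ∨ le h g)
    (htr : ∀ {g h k}, le g h → le h k → le g k) {T : Finset G} (hT : T.Nonempty) :
    ∃ c ∈ T, ∀ h ∈ T, le c h := by
  induction hT using Finset.Nonempty.cons_induction with
  | singleton a => exact ⟨a, by simp, fun h hh => by
      rw [Finset.mem_singleton.1 hh]; exact (htot a a).elim id id⟩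
  | cons a s ha hs ih =>
    obtain ⟨c, hc, hm⟩ := ih
    rcases htot a c with h | h
    · refine ⟨a, by simp, fun x hx => ?_⟩
      rcases Finset.mem_cons.1 hx with rfl | hx
      exacts [(htot x x).elim id id, htr h (hm x hx)]
    · refine ⟨c, by simp [hc], fun x hx => ?_⟩
      rcases Finset.mem_cons.1 hx with rfl | hx
      exacts [h, hm x hx]

theorem Sp_disj (hI : Ind ι N) (hM : N ≤ M) (h : ∀ p ∈ P, ∀ q ∈ Q, p * q⁻¹ ∉ M) {a : D}
    (hp : a ∈ Sp ι M P) (hq : a ∈ Sp ι M Q) : a = 0 := by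
  classical
  obtain ⟨L, hL⟩ := suppB_aux_lin hI hM (fun g => if ∃ p ∈ P, p * g⁻¹ ∈ M then ι g else 0)
    (fun k hk g => by
      have e : (∃ p ∈ P, p * (k * g)⁻¹ ∈ M) ↔ ∃ p ∈ P, p * g⁻¹ ∈ M := by
        refine exists_congr fun p => and_congr_right fun _ => ?_
        rw [_root_.mul_inv_rev, ← mul_assoc]
        exact M.mul_mem_cancel_right (M.inv_mem hk)
      simp only [e]
      split_ifs
      exacts [map_mul ι k g, (mul_zero _).symm])
  have hs : ∀ d (hd : d ∈ dcl ι M) (x : D), L (d * x) = d * L x := fun d hd x =>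
    L.map_smul ⟨d, hd⟩ x
  have e1 : L a = a := Sp_ind (C := fun a => L a = a) (map_zero L)
    (fun a b ha hb => by rw [map_add, ha, hb])
    (fun d hd g hg => by rw [hs d hd, hL, if_pos ⟨g, hg, by simp⟩]) hp
  have e2 : L a = 0 := Sp_ind (C := fun a => L a = 0) (map_zero L)
    (fun a b ha hb => by rw [map_add, ha, hb, add_zero])
    (fun d hd g hg => by
      rw [hs d hd, hL, if_neg (fun ⟨p, hp, e⟩ => h p hp g hg e), mul_zero]) hq
  exact e1.symm.trans e2

theorem Sp_inter (hI : Ind ι N) (hM : N ≤ M) (h : ∀ m ∈ M, ∀ q ∈ Q, m * q ∈ Q) {a : D}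
    (hp : a ∈ Sp ι M P) (hq : a ∈ Sp ι M Q) : a ∈ Sp ι M (P ∩ Q) := by
  obtain ⟨a₁, h1, a₂, h2, e⟩ := Sp_split Q hp
  have h3 : a₂ ∈ Sp ι M Q := by
    have := (Sp ι M Q).sub_mem hq (Sp_mono Set.inter_subset_right h1)
    rwa [e, add_sub_cancel_left] at this
  have h4 : a₂ = 0 := Sp_disj hI hM (fun p hp q hq hm => hp.2 (by
    have := h _ hm q hq
    rwa [inv_mul_cancel_right] at this)) h2 h3
  rw [e, h4, add_zero]
  exact h1

/-- leading position for a total preorder -/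
theorem exists_lead (hI : Ind ι N) (hM : N ≤ M) {le : G → G → Prop}
    (htot : ∀ g h, le g h ∨ le h g) (htr : ∀ {g h k}, le g h → le h k → le g k)
    (hsat : ∀ n ∈ M, ∀ g, le (n * g) g ∧ le g (n * g)) {a : D} (ha : a ∈ Sp ι M P)
    (h0 : a ≠ 0) : ∃ c ∈ P, a ∈ Sp ι M {h | h ∈ P ∧ le c h} ∧ a ∉ Sp ι M {h | ¬ le h c} := by
  classical
  obtain ⟨T, hT, haT⟩ := Sp_fin ha
  induction T using Finset.strongInduction with
  | H T ih =>
    have hne : T.Nonempty := by
      rcases T.eq_empty_or_nonempty with rfl | h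
      · exact absurd (by simpa [Sp] using haT) h0
      · exact h
    obtain ⟨c, hc, hm⟩ := suppB_aux_min htot @htr hne
    by_cases h : a ∈ Sp ι M {h | ¬ le h c}
    · have h2 := Sp_inter hI hM (Q := {h | ¬ le h c})
        (fun m hm q hq e => hq (htr (hsat m hm q).2 e)) haT h
      refine ih (T.erase c) (Finset.erase_ssubset hc)
        (fun x hx => hT (Finset.mem_of_mem_erase hx)) (Sp_mono ?_ h2)
      rintro x ⟨x1, x2⟩
      refine Finset.mem_coe.2 (Finset.mem_erase.2 ⟨?_, x1⟩)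
      rintro rfl
      exact x2 ((htot x x).elim id id)
    · exact ⟨c, hT hc, Sp_mono (fun x hx => And.intro (hT hx) (hm x hx)) haT, h⟩

/-- linear extension of an equivariant function -/
theorem exists_lin (hI : Ind ι N) (hM : N ≤ M) (η : G → D)
    (hη : ∀ k ∈ M, ∀ g, η (k * g) = ι k * η g) :
    ∃ L : D →ₗ[dcl ι M] D, ∀ g, L (ι g) = η g := by
  exact suppB_aux_lin hI hM η hη

theorem Ind.comp {A : Subgroup G} (hI : Ind ι N) (hA : N ≤ A) :
    Ind (ι.comp A.subtype) (N.subgroupOf A) := by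
  intro M' hM' T hT
  have e : dcl (ι.comp A.subtype) M' = dcl ι (M'.map A.subtype) := by
    unfold dcl
    rw [Subgroup.coe_map, Set.image_image]
    rfl
  have h := hI (M'.map A.subtype)
    (fun n hn => ⟨⟨n, hA hn⟩, hM' (Subgroup.mem_subgroupOf.2 hn), rfl⟩) (A.subtype '' T) (by
      rintro _ ⟨a, ha, rfl⟩ _ ⟨b, hb, rfl⟩ ⟨m, hm, e⟩
      have : m = a * b⁻¹ := Subtype.ext (by simpa using e)
      rw [hT a ha b hb (this ▸ hm)])
  rw [e]
  exact h.comp_of_image Subtype.val_injective.injOn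

end Pool.Agent.Lib.MP_fd3021_gt.Rf
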