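import Pool.Agent.Lib.MP_fd3021_gt.Rf.ValA

/-! The filtration attached to a total preorder. -/

namespace Pool.Agent.Lib.MP_fd3021_gt.Rf

open Matrix Filter

variable {G D : Type} [Group G] [DivisionRing D] {ι : G →* D} {S : Stage G}
  {le : G → G → Prop} {U V : Set G} {s t a u v : D} {z y : G}

theorem val_aux_uniq (r : IsHt S le) (h1 : Lead S ι le s z) (h2 : Lead S ι le s y) : le y z := by
  refine Classical.byContradiction fun hn => h1.2.2 (Sp_mono ?_ h2.2.1)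
  intro a ha hle
  exact hn (r.trans ha.2 hle)

theorem val_aux_shift (r : IsHt S le) (hU : Up le U) (hz : z ∈ S.A) (hy : y ∈ S.A)
    (h : le y z) {g : G} (hg : z⁻¹ * g ∈ U) : y⁻¹ * g ∈ U := by
  have rf : ∀ x, le x x := fun x => (r.total x x).elim id id
  have h1 := r.mono z⁻¹ (S.A.inv_mem hz) z⁻¹ (S.A.inv_mem hz) y z (rf _) h
  rw [inv_mul_cancel] at h1
  have h2 := r.mono _ (S.A.mul_mem (S.A.inv_mem hz) hy) 1 S.A.one_mem (y⁻¹ * g) (y⁻¹ * g) h1 (rf _)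
  rw [one_mul, mul_assoc, mul_inv_cancel_left] at h2
  exact hU _ hg _ h2

theorem val_aux_one (c : Ctx S ι) (r : IsHt S le) : Lead S ι le (1 : D) 1 := by
  have := lead_iota c r S.A.one_mem (Subfield.one_mem _) one_ne_zero
  rwa [map_one, mul_one] at this

theorem val_aux_A (hs : Lead S ι le s z) : s ∈ Sp ι S.N S.A :=
  Sp_mono (fun _ ha => ha.1) hs.2.1

/-- the filtration can be tested on any representation -/
theorem Fil_rep (c : Ctx S ι) (r : IsHt S le) (hU : Up le U) (hu : u ∈ Fil S ι le U)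
    (hs : Lead S ι le s z) (h : s * u ∈ Sp ι S.N Set.univ) :
    s * u ∈ Sp ι S.N {h | z⁻¹ * h ∈ U} := by
  obtain ⟨s1, z1, hs1, hu1⟩ := hu
  obtain ⟨t, ht, t1, ht1, h0, e⟩ :=
    ore_Sp c.ind le_rfl S.le S.comm (val_aux_A hs) (val_aux_A hs1) hs1.ne
  have h1 : t1 ≠ 0 := by
    rintro rfl
    rw [zero_mul] at e
    exact mul_ne_zero h0 hs.ne e
  obtain ⟨y, hy⟩ := exists_Lead c r ht h0
  obtain ⟨y1, hy1⟩ := exists_Lead c r ht1 h1
  have l1 := Lead.mul c r hy hs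
  have l2 := Lead.mul c r hy1 hs1
  rw [← e] at l2
  have h2 := Sp_lead_mul r hy1.1 (up_shift r hs1.1 hU) hy1.2.1 hu1
  rw [← mul_assoc, ← e, mul_assoc] at h2
  refine of_lead_mul c r (up_shift r hs.1 hU) hy h (Sp_mono (fun g hg => ?_) h2)
  have h3 : (y1 * z1)⁻¹ * g ∈ U := by
    rw [_root_.mul_inv_rev, mul_assoc]
    exact hg
  have h4 := val_aux_shift r hU l2.1 l1.1 (val_aux_uniq r l2 l1) h3
  rw [_root_.mul_inv_rev, mul_assoc] at h4
  exact h4

theorem Fil_mono (h : U ⊆ V) (hu : u ∈ Fil S ι le U) : u ∈ Fil S ι le V := by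
  obtain ⟨s, z, hs, h1⟩ := hu
  refine ⟨s, z, hs, Sp_mono ?_ h1⟩
  intro g hg
  exact h hg

theorem Fil_of_Sp (c : Ctx S ι) (r : IsHt S le) (hu : u ∈ Sp ι S.N U) : u ∈ Fil S ι le U := by
  refine ⟨1, 1, val_aux_one c r, ?_⟩
  rw [one_mul]
  exact Sp_mono (fun g hg => by simpa using hg) hu

theorem Sp_of_Fil (c : Ctx S ι) (r : IsHt S le) (hU : Up le U) (hu : u ∈ Fil S ι le U)
    (h : u ∈ Sp ι S.N Set.univ) : u ∈ Sp ι S.N U := by
  have h1 := Fil_rep c r hU hu (val_aux_one c r) (by rwa [one_mul])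
  rw [one_mul] at h1
  exact Sp_mono (fun g hg => by simpa using hg) h1

theorem Fil_zero (c : Ctx S ι) (r : IsHt S le) : (0 : D) ∈ Fil S ι le U := by
  exact Fil_of_Sp c r (Submodule.zero_mem _)

theorem Fil_add (c : Ctx S ι) (r : IsHt S le) (hU : Up le U) (hu : u ∈ Fil S ι le U)
    (hv : v ∈ Fil S ι le U) : u + v ∈ Fil S ι le U := by
  classical
  obtain ⟨s, hs, h0, h⟩ := den c.ind le_rfl S.le S.comm {u, v} fun x _ => c.top x
  obtain ⟨z, hz⟩ := exists_Lead c r hs h0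
  refine ⟨s, z, hz, ?_⟩
  rw [mul_add]
  exact Submodule.add_mem _ (Fil_rep c r hU hu hz (h u (by simp)))
    (Fil_rep c r hU hv hz (h v (by simp)))

theorem Fil_neg (hu : u ∈ Fil S ι le U) : -u ∈ Fil S ι le U := by
  obtain ⟨s, z, hs, h1⟩ := hu
  refine ⟨s, z, hs, ?_⟩
  rw [mul_neg]
  exact Submodule.neg_mem _ h1

theorem Fil_lead_iff (c : Ctx S ι) (r : IsHt S le) (hU : Up le U) (ht : Lead S ι le t y) :
    t * u ∈ Fil S ι le {h | y⁻¹ * h ∈ U} ↔ u ∈ Fil S ι le U := by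
  constructor
  · rintro ⟨s', z', hs', h⟩
    refine ⟨s' * t, z' * y, Lead.mul c r hs' ht, ?_⟩
    rw [mul_assoc]
    refine Sp_mono (fun g hg => ?_) h
    change (z' * y)⁻¹ * g ∈ U
    rw [_root_.mul_inv_rev, mul_assoc]
    exact hg
  · intro hu
    obtain ⟨s', z', hs', h⟩ := exists_rep c r (t * u)
    refine ⟨s', z', hs', ?_⟩
    rw [← mul_assoc] at h ⊢
    refine Sp_mono (fun g hg => ?_) (Fil_rep c r hU hu (Lead.mul c r hs' ht) h)
    have h3 : (z' * y)⁻¹ * g ∈ U := hg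
    rw [_root_.mul_inv_rev, mul_assoc] at h3
    exact h3

theorem Fil_smul (c : Ctx S ι) (r : IsHt S le) (hU : Up le U) {d : D} (hd : d ∈ dcl ι S.N)
    (hu : u ∈ Fil S ι le U) : d * u ∈ Fil S ι le U := by
  by_cases h0 : d = 0
  · rw [h0, zero_mul]
    exact Fil_zero c r
  have h1 := (Fil_lead_iff c r hU (lead_iota c r S.A.one_mem hd h0)).2 hu
  rw [map_one, mul_one] at h1
  exact Fil_mono (fun g hg => by simpa using hg) h1

theorem Fil_A (c : Ctx S ι) (r : IsHt S le) (hU : Up le U) (hy : y ∈ S.A) :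
    ι y * u ∈ Fil S ι le {h | y⁻¹ * h ∈ U} ↔ u ∈ Fil S ι le U := by
  have h1 := lead_iota c r hy (Subfield.one_mem _) one_ne_zero
  rw [one_mul] at h1
  exact Fil_lead_iff c r hU h1

theorem Fil_lead (c : Ctx S ι) (r : IsHt S le) (h0 : u ≠ 0) :
    ∃ g, u ∈ Fil S ι le {h | le g h} ∧ u ∉ Fil S ι le {h | ¬ le h g} := by
  obtain ⟨s, z, hs, h⟩ := exists_rep c r u
  obtain ⟨g, -, h1, h2⟩ :=
    exists_lead c.ind le_rfl r.total r.trans r.sat h (mul_ne_zero hs.ne h0)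
  refine ⟨z⁻¹ * g, ⟨s, z, hs, Sp_mono (fun x hx => ?_) h1⟩, fun hu => h2 ?_⟩
  · refine (shift_ge r hs.1 _ _).2 ?_
    rw [mul_inv_cancel_left]
    exact hx.2
  · refine Sp_mono ?_ (Fil_rep c r (up_gt r _) hu hs h)
    intro x hx hle
    refine hx ((shift_le r hs.1 _ _).2 ?_)
    rwa [mul_inv_cancel_left]

end Pool.Agent.Lib.MP_fd3021_gt.Rf
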