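import Pool.Agent.Lib.MP_fd3021_gt.Rf.Den

/-! The filtration attached to a total preorder. -/

namespace Pool.Agent.Lib.MP_fd3021_gt.Rf

open Matrix Filter

variable {G D : Type} [Group G] [DivisionRing D] {ι : G →* D} {S : Stage G}
  {le : G → G → Prop} {U V : Set G} {s t a u v : D} {z y : G}

theorem valA_aux_refl (r : IsHt S le) (g : G) : le g g := (r.total g g).elim id id

theorem valA_aux_left (r : IsHt S le) (hz : z ∈ S.A) {g h : G} (e : le g h) :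
    le (z * g) (z * h) := r.mono z hz z hz g h (valA_aux_refl r z) e

theorem valA_aux_disj (c : Ctx S ι) (r : IsHt S le) {g : G} (h1 : a ∈ Sp ι S.N {h | le h g})
    (h2 : a ∈ Sp ι S.N {h | ¬ le h g}) : a = 0 := by
  refine Sp_disj c.ind le_rfl ?_ h1 h2
  intro p hp q hq hn
  refine hq (r.trans ?_ hp)
  have := (r.sat _ hn q).2
  rwa [inv_mul_cancel_right] at this

theorem up_ge (r : IsHt S le) (g : G) : Up le {h | le g h} := by
  exact fun _ ha _ hh => r.trans ha hh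

theorem up_gt (r : IsHt S le) (g : G) : Up le {h | ¬ le h g} := by
  exact fun _ ha _ hh hc => ha (r.trans hh hc)

theorem up_shift (r : IsHt S le) (hz : z ∈ S.A) (hU : Up le U) : Up le {h | z⁻¹ * h ∈ U} := by
  exact fun _ ha _ hh => hU _ ha _ (valA_aux_left r (S.A.inv_mem hz) hh)

theorem up_sat (r : IsHt S le) (hU : Up le U) : ∀ n ∈ S.N, ∀ q ∈ U, n * q ∈ U := by
  exact fun n hn q hq => hU q hq _ (r.sat n hn q).2

theorem shift_ge (r : IsHt S le) (hz : z ∈ S.A) (g h : G) : le g (z⁻¹ * h) ↔ le (z * g) h := by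
  refine ⟨fun e => ?_, fun e => ?_⟩
  · have := valA_aux_left r hz e
    rwa [mul_inv_cancel_left] at this
  · have := valA_aux_left r (S.A.inv_mem hz) e
    rwa [inv_mul_cancel_left] at this

theorem shift_le (r : IsHt S le) (hz : z ∈ S.A) (g h : G) : le (z⁻¹ * h) g ↔ le h (z * g) := by
  refine ⟨fun e => ?_, fun e => ?_⟩
  · have := valA_aux_left r hz e
    rwa [mul_inv_cancel_left] at this
  · have := valA_aux_left r (S.A.inv_mem hz) e
    rwa [inv_mul_cancel_left] at this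

theorem Sp_lead_mul (r : IsHt S le) (hz : z ∈ S.A) (hU : Up le U)
    (hs : s ∈ Sp ι S.N {a | a ∈ S.A ∧ le z a}) (ha : a ∈ Sp ι S.N U) :
    s * a ∈ Sp ι S.N {h | z⁻¹ * h ∈ U} := by
  refine Sp_mul ?_ hs ha
  intro p hp q hq
  exact hU q hq (z⁻¹ * (p * q)) ((shift_ge r hz _ _).2
    (r.mono z hz p hp.1 q q hp.2 (valA_aux_refl r q)))

theorem of_lead_mul (c : Ctx S ι) (r : IsHt S le) (hU : Up le U) (hs : Lead S ι le s z)
    (ha : a ∈ Sp ι S.N Set.univ) (h : s * a ∈ Sp ι S.N {h | z⁻¹ * h ∈ U}) :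
    a ∈ Sp ι S.N U := by
  by_cases h0 : a = 0
  · rw [h0]
    exact zero_mem _
  obtain ⟨hz, hs1, hs2⟩ := hs
  obtain ⟨g, -, ha1, ha2⟩ := exists_lead c.ind le_rfl r.total r.trans r.sat ha h0
  by_cases hg : g ∈ U
  · refine Sp_mono ?_ ha1
    exact fun q hq => hU g hg q hq.2
  exfalso
  obtain ⟨a₁, h1, a₂, h2, ea⟩ := Sp_split {h | le h g} ha1
  obtain ⟨s₁, k1, s₂, k2, es⟩ := Sp_split {h | le h z} hs1
  have n1 : a₁ ≠ 0 := fun e => ha2 (by
    rw [ea, e, zero_add]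
    refine Sp_mono ?_ h2
    exact fun q hq => hq.2)
  have n2 : s₁ ≠ 0 := fun e => hs2 (by
    rw [es, e, zero_add]
    refine Sp_mono ?_ k2
    exact fun q hq => hq.2)
  have w0 : s * a ∈ Sp ι S.N {h | ¬ le h (z * g)} := by
    refine Sp_mono ?_ h
    exact fun q hq e => hg (hU (z⁻¹ * q) hq g ((shift_le r hz _ _).2 e))
  have w1 : s₁ * a₂ ∈ Sp ι S.N {h | ¬ le h (z * g)} := by
    refine Sp_mul ?_ k1 h2
    exact fun p hp q hq e => hq.2 (r.strict z hz p hp.1.1 g q hp.1.2 hq.1.2 e).2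
  have w2 : s₂ * a ∈ Sp ι S.N {h | ¬ le h (z * g)} := by
    refine Sp_mul ?_ k2 ha1
    exact fun p hp q hq e => hp.2 (r.strict z hz p hp.1.1 g q hp.1.2 hq.2 e).1
  have w3 : s₁ * a₁ ∈ Sp ι S.N {h | le h (z * g)} := by
    refine Sp_mul ?_ k1 h1
    exact fun p hp q hq => r.mono p hp.1.1 z hz q g hp.2 hq.2
  have e : s₁ * a₁ = s * a - s₂ * a - s₁ * a₂ := by
    subst es ea
    rw [← sub_mul, add_sub_cancel_right, ← mul_sub, add_sub_cancel_right]
  refine mul_ne_zero n2 n1 (valA_aux_disj c r w3 ?_)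
  rw [e]
  exact sub_mem (sub_mem w0 w2) w1

theorem Lead.ne (hs : Lead S ι le s z) : s ≠ 0 := by
  exact fun e => hs.2.2 (e ▸ zero_mem _)

theorem Lead.mul (c : Ctx S ι) (r : IsHt S le) (ht : Lead S ι le t y) (hs : Lead S ι le s z) :
    Lead S ι le (t * s) (y * z) := by
  refine ⟨S.A.mul_mem ht.1 hs.1, Sp_mul ?_ ht.2.1 hs.2.1, fun e => hs.2.2 ?_⟩
  · exact fun p hp q hq => ⟨S.A.mul_mem hp.1 hq.1, r.mono y ht.1 p hp.1 z q hp.2 hq.2⟩
  · refine of_lead_mul c r (up_gt r z) ht (Sp_mono (Set.subset_univ _) hs.2.1) (Sp_mono ?_ e)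
    exact fun q hq e' => hq ((shift_le r ht.1 _ _).1 e')

theorem lead_iota (c : Ctx S ι) (r : IsHt S le) (hz : z ∈ S.A) {d : D} (hd : d ∈ dcl ι S.N)
    (h0 : d ≠ 0) : Lead S ι le (d * ι z) z := by
  refine ⟨hz, Sp_smul hd (mem_Sp ⟨hz, valA_aux_refl r z⟩), fun e => ?_⟩
  exact mul_ne_zero h0 (iota_ne z)
    (valA_aux_disj c r (Sp_smul hd (mem_Sp (valA_aux_refl r z))) e)

theorem exists_Lead (c : Ctx S ι) (r : IsHt S le) (hs : s ∈ Sp ι S.N S.A) (h0 : s ≠ 0) :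
    ∃ z, Lead S ι le s z := by
  obtain ⟨g, hg, h1, h2⟩ := exists_lead c.ind le_rfl r.total r.trans r.sat hs h0
  exact ⟨g, hg, h1, h2⟩

theorem exists_rep (c : Ctx S ι) (r : IsHt S le) (u : D) :
    ∃ s z, Lead S ι le s z ∧ s * u ∈ Sp ι S.N Set.univ := by
  obtain ⟨s, hs, h0, h⟩ := den c.ind le_rfl S.le S.comm {u} fun x _ => c.top x
  obtain ⟨z, hz⟩ := exists_Lead c r hs h0
  exact ⟨s, z, hz, h u (Finset.mem_singleton_self u)⟩

end Pool.Agent.Lib.MP_fd3021_gt.Rf
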